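import Pool.Agent.Lib.H58C.FDefs
import Pool.Agent.Lib.H30C.DiaForcing

/-! Imports for the chunks B (H58C): `mem_ltB`, `mem_ite`, `RO.mem_iInf`, ... -/
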