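import Pool.Agent.Lib.H58C.FDefs
import Pool.Agent.Lib.H58C.BImp

/-!
# B00: membership in truth values
-/

set_option autoImplicit false

open Set Filter Pool.Agent.H5Z Pool.Agent.H30C

namespace Pool.Agent.H58C

variable {K : Type} [LinearOrder K] {k : ℕ → K} [WellFoundedLT K]

theorem mem_tvB {P : Type} [Preorder P] (Q : Prop) (p : P) : p ∈ (tvB (RO P) Q).s ↔ Q := by
  unfold tvB
  by_cases h : Q
  · rw [if_pos h]
    exact ⟨fun _ => h, fun _ => RO.mem_top p⟩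
  · rw [if_neg h]
    exact ⟨fun hp => ((RO.mem_bot p).1 hp).elim, fun hq => absurd hq h⟩

theorem mem_compl_tvB {P : Type} [Preorder P] (Q : Prop) (p : P) :
    p ∈ ((tvB (RO P) Q)ᶜ).s ↔ ¬ Q := by
  rw [RO.mem_compl]
  constructor
  · intro h hQ
    exact h p le_rfl ((mem_tvB Q p).2 hQ)
  · intro h q _ hq
    exact h ((mem_tvB Q q).1 hq)

theorem mem_compl_ltB {P : Type} [Preorder P] (x y : K) (p : P) :
    p ∈ ((ltB (RO P) x y)ᶜ).s ↔ ¬ x < y := by
  rw [RO.mem_compl]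
  constructor
  · intro h hQ
    exact h p le_rfl ((mem_ltB x y p).2 hQ)
  · intro h q _ hq
    exact h ((mem_ltB x y q).1 hq)

theorem mem_iSup_of {P : Type} [Preorder P] {ι : Sort*} (f : ι → RO P) (i : ι) {p : P}
    (h : p ∈ (f i).s) : p ∈ (⨆ i, f i).s := by
  rw [RO.mem_iSup]
  exact fun q hq => ⟨q, le_rfl, i, (f i).lower h hq⟩

theorem mem_sup_of_left {P : Type} [Preorder P] {a b : RO P} {p : P} (h : p ∈ a.s) :
    p ∈ (a ⊔ b).s := by
  rw [RO.mem_sup]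
  exact fun q hq => ⟨q, le_rfl, Or.inl (a.lower h hq)⟩

theorem mem_sup_of_right {P : Type} [Preorder P] {a b : RO P} {p : P} (h : p ∈ b.s) :
    p ∈ (a ⊔ b).s := by
  rw [RO.mem_sup]
  exact fun q hq => ⟨q, le_rfl, Or.inr (b.lower h hq)⟩

/-- Proof. `RO.mem_iSup`, `RO.mem_inf`, `mem_ltB`. -/
theorem mem_hitB {P : Type} [Preorder P] (f : K → RO P) (c : K) (p : P) :
    p ∈ (hitB f c).s ↔ ∀ q ≤ p, ∃ r ≤ q, ∃ y < c, r ∈ (f y).s := by
  unfold hitB
  rw [RO.mem_iSup]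
  refine forall₂_congr fun q _ => exists_congr fun r => and_congr_right fun _ => exists_congr fun y => ?_
  rw [RO.mem_inf, mem_ltB]

end Pool.Agent.H58C
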