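import Pool.Agent.Lib.H58C.F08
import Pool.Agent.Lib.H58C.B00

/-!
# B01: regularity in the Boolean-valued model
-/

set_option autoImplicit false

open Set Filter Pool.Agent.H5Z Pool.Agent.H30C

namespace Pool.Agent.H58C

variable {K : Type} [LinearOrder K] {k : ℕ → K} [WellFoundedLT K]

/-- Proof. Let `p` be in the left-hand side and `q ≤ p` (`RO.mem_iSup` for the right-hand side). For `x < a` the set
`{r | ∃ y, r ∈ (f x y).s}` is open and dense below `q`; by `Cd.meet` (use `{r | x < a → ∃ y, r ∈ (f x y).s}`) there is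
`r ≤ q` in all of them; choose `y x`, and `d` with `y x < d` for all `x < a` (`G.reg`). Then `r` is in
`⨅ x, ltB x a ⇨ hitB (f x) d`. -/
theorem cd_reg (G : Ground k) (f : K → K → RO (Cd k)) (a : K) :
    (⨅ x, ltB (RO (Cd k)) x a ⇨ ⨆ y, f x y) ≤ ⨆ d, ⨅ x, ltB (RO (Cd k)) x a ⇨ hitB (f x) d := by
  classical
  intro p hp
  rw [RO.mem_iSup]
  intro q hq
  obtain ⟨r, hr, h⟩ := Cd.meet G a (fun x => {r | x < a → ∃ y, r ∈ (f x y).s}) q
    (fun x r hr r' hr' hx => by
      obtain ⟨y, hy⟩ := hr hx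
      exact ⟨y, (f x y).lower hy hr'⟩)
    (fun x r hr => by
      by_cases hx : x < a
      · have h1 := (RO.mem_iInf _ _).1 hp x
        rw [RO.mem_himp] at h1
        have h2 := h1 r (hr.trans hq) ((mem_ltB x a r).2 hx)
        rw [RO.mem_iSup] at h2
        obtain ⟨r', hr', y, hy⟩ := h2 r le_rfl
        exact ⟨r', hr', fun _ => ⟨y, hy⟩⟩
      · exact ⟨r, le_rfl, fun h => absurd h hx⟩)
  have hy : ∀ x, ∃ y, x < a → r ∈ (f x y).s := by
    intro x
    by_cases hx : x < a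
    · obtain ⟨y, hy⟩ := h x hx hx
      exact ⟨y, fun _ => hy⟩
    · exact ⟨x, fun h => absurd h hx⟩
  choose y hy using hy
  obtain ⟨d, hd⟩ := G.reg a y
  refine ⟨r, hr, d, ?_⟩
  rw [RO.mem_iInf]
  intro x
  rw [RO.mem_himp]
  intro r' hr' hx
  have hx' := (mem_ltB x a r').1 hx
  rw [mem_hitB]
  intro q' hq'
  exact ⟨q', le_rfl, y x, hd x hx', (f x (y x)).lower (hy x hx') (hq'.trans hr')⟩

end Pool.Agent.H58C
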