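import Pool.Agent.Lib.H58C.F08
import Pool.Agent.Lib.H58C.B00

/-!
# B02: the cofinality of k i is uncountable
-/

set_option autoImplicit false

open Set Filter Pool.Agent.H5Z Pool.Agent.H30C

namespace Pool.Agent.H58C

variable {K : Type} [LinearOrder K] {k : ℕ → K} [WellFoundedLT K]

/-- Proof. As `cd_reg`, with `Cd.meet_nat` (or `Cd.meet_countable`) and `G.bddN i`: the open sets are
`{r | ∃ y < k i, r ∈ (f n y).s}` (`mem_hitB`). -/
theorem cd_bddN (G : Ground k) (f : ℕ → K → RO (Cd k)) (i : ℕ) :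
    (⨅ n, hitB (f n) (k i)) ≤ ⨆ d, ltB (RO (Cd k)) d (k i) ⊓ ⨅ n, hitB (f n) d := by
  intro p hp
  rw [RO.mem_iInf] at hp
  rw [RO.mem_iSup]
  intro q hq
  obtain ⟨r, hr, hrA⟩ := Cd.meet_nat G (fun n => {r | ∃ y < k i, r ∈ (f n y).s}) q
    (by
      rintro n a ⟨y, hy, ha⟩ b hb
      exact ⟨y, hy, (f n y).lower ha hb⟩)
    (by
      intro n a ha
      exact (mem_hitB (f n) (k i) p).1 (hp n) a (ha.trans hq))
  choose y hy hy' using hrA
  obtain ⟨d, hd, hd'⟩ := G.bddN i y hy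
  refine ⟨r, hr, d, ?_⟩
  rw [RO.mem_inf, mem_ltB, RO.mem_iInf]
  refine ⟨hd, fun n => ?_⟩
  rw [mem_hitB]
  exact fun q' hq' => ⟨q', le_rfl, y n, hd' n, (f n (y n)).lower (hy' n) hq'⟩

end Pool.Agent.H58C
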