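import Pool.Agent.Lib.H58C.F08
import Pool.Agent.Lib.H58C.B00

/-!
# B03: the cofinality of k i
-/

set_option autoImplicit false

open Set Filter Pool.Agent.H5Z Pool.Agent.H30C

namespace Pool.Agent.H58C

variable {K : Type} [LinearOrder K] {k : ℕ → K} [WellFoundedLT K]

/-- Proof. As `cd_reg`, with the open sets `{r | x < k m → ∃ y < k i, r ∈ (f x y).s}` (`mem_hitB`) and
`G.bdd m i`. -/
theorem cd_bdd (G : Ground k) (f : K → K → RO (Cd k)) (m i : ℕ) (hmi : m < i) :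
    (⨅ x, ltB (RO (Cd k)) x (k m) ⇨ hitB (f x) (k i)) ≤
      ⨆ d, ltB (RO (Cd k)) d (k i) ⊓ ⨅ x, ltB (RO (Cd k)) x (k m) ⇨ hitB (f x) d := by
  intro p hp
  rw [RO.mem_iInf] at hp
  rw [RO.mem_iSup]
  intro q hq
  have ho : ∀ x, OpenC ({r : Cd k | x < k m → ∃ y < k i, r ∈ (f x y).s}) := by
    intro x r hr r' hr' hx
    obtain ⟨y, hy, hry⟩ := hr hx
    exact ⟨y, hy, RO.lower _ hry hr'⟩
  have hd : ∀ x, DenseC q ({r : Cd k | x < k m → ∃ y < k i, r ∈ (f x y).s}) := by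
    intro x p' hp'
    by_cases hx : x < k m
    · have h1 := (RO.mem_himp _ _ p).1 (hp x) p' (hp'.trans hq) ((mem_ltB x (k m) p').2 hx)
      obtain ⟨r, hr, y, hy, hry⟩ := (mem_hitB (f x) (k i) p').1 h1 p' le_rfl
      exact ⟨r, hr, fun _ => ⟨y, hy, hry⟩⟩
    · exact ⟨p', le_rfl, fun h => absurd h hx⟩
  obtain ⟨r, hrq, hr⟩ := Cd.meet G (k m) (fun x => {r : Cd k | x < k m → ∃ y < k i, r ∈ (f x y).s}) q ho hd
  have hr' : ∀ x, ∃ y, x < k m → y < k i ∧ r ∈ (f x y).s := by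
    intro x
    by_cases hx : x < k m
    · obtain ⟨y, hy, hry⟩ := hr x hx hx
      exact ⟨y, fun _ => ⟨hy, hry⟩⟩
    · exact ⟨x, fun h => absurd h hx⟩
  choose y hy using hr'
  obtain ⟨d, hdk, hyd⟩ := G.bdd m i hmi y (fun x hx => (hy x hx).1)
  refine ⟨r, hrq, d, ?_⟩
  rw [RO.mem_inf, RO.mem_iInf]
  refine ⟨(mem_ltB d (k i) r).2 hdk, fun x => ?_⟩
  rw [RO.mem_himp]
  intro q' hq' hx
  have hx' := (mem_ltB x (k m) q').1 hx
  rw [mem_hitB]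
  intro q'' hq''
  exact ⟨q'', le_rfl, y x, hyd x hx', RO.lower _ (hy x hx').2 (hq''.trans hq')⟩

end Pool.Agent.H58C
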