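import Pool.Agent.Lib.H58C.F10
import Pool.Agent.Lib.H58C.B00

/-!
# B04: g and h are functions
-/

set_option autoImplicit false

open Set Filter Pool.Agent.H5Z Pool.Agent.H30C

namespace Pool.Agent.H58C

variable {K : Type} [LinearOrder K] {k : ℕ → K} [WellFoundedLT K]

/-- Proof. Every condition `p` has an extension `q` with `x ≤ q.top` (`Cd.exists_top`); then `q` is in the term with
`a = q.g x i`: `mem_gN`, and if `r ≤ q` is in `gN x i b` then `b = r.g x i = a`. -/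
theorem cd_gfun (G : Ground k) (x : K) (i : ℕ) :
    (⨆ a, gN x i a ⊓ ⨅ b, gN x i b ⇨ tvB (RO (Cd k)) (b = a)) = ⊤ := by
  rw [RO.eq_top_iff']
  intro p
  rw [RO.mem_iSup]
  intro q _
  obtain ⟨r, hr, hx⟩ := Cd.exists_top G x q
  refine ⟨r, hr, r.g x i, ?_⟩
  rw [RO.mem_inf, mem_gN hx, RO.mem_iInf]
  refine ⟨rfl, fun b => ?_⟩
  rw [RO.mem_himp]
  intro r' hr' hb
  rw [mem_gN (hx.trans hr'.1)] at hb
  rw [mem_tvB, ← hb, (hr'.2 x hx).1]

theorem cd_hfun (G : Ground k) (x : K) (i : ℕ) :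
    (⨆ a, hN x i a ⊓ ⨅ b, hN x i b ⇨ tvB (RO (Cd k)) (b = a)) = ⊤ := by
  rw [RO.eq_top_iff']
  intro p
  rw [RO.mem_iSup]
  intro q _
  obtain ⟨r, hr, hx⟩ := Cd.exists_top G x q
  refine ⟨r, hr, r.hval x i, ?_⟩
  rw [RO.mem_inf, mem_hN hx, RO.mem_iInf]
  refine ⟨rfl, fun b => ?_⟩
  rw [RO.mem_himp]
  intro r' hr' hb
  rw [mem_hN (hx.trans hr'.1)] at hb
  rw [mem_tvB, ← hb, Cd.hval_congr hr' hx i]

end Pool.Agent.H58C
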