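import Pool.Agent.Lib.H58C.F10
import Pool.Agent.Lib.H58C.B00

/-!
# B05: the values of g, g is increasing
-/

set_option autoImplicit false

open Set Filter Pool.Agent.H5Z Pool.Agent.H30C

namespace Pool.Agent.H58C

variable {K : Type} [LinearOrder K] {k : ℕ → K} [WellFoundedLT K]

/-- Proof. Let `p` be in `gN x i a`. By `RO.mem_of_dense`: below each `q ≤ p` there is `r` with `x ≤ r.top`
(`Cd.exists_top`), so `r.g x i = a` and `a < k i` (`gk`). -/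
theorem cd_gk (G : Ground k) (x : K) (i : ℕ) (a : K) :
    gN x i a ≤ ltB (RO (Cd k)) a (k i) := by
  intro p hp
  refine RO.mem_of_dense _ fun q hq => ?_
  obtain ⟨r, hr, hx⟩ := Cd.exists_top G x q
  refine ⟨r, hr, ?_⟩
  rw [mem_ltB]
  have h1 : r ∈ (gN x i a : RO (Cd k)).s := RO.lower _ hp (hr.trans hq)
  rw [mem_gN hx] at h1
  rw [← h1]
  exact r.gk x hx i

/-- Proof. Below each condition there is `q` with `y ≤ q.top`. By `q.inc` there is `n` such that `q.g x i < q.g y i` for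
`i ≥ n`. For `r ≤ q` in `gN x i a` and `gN y i b`: `a = r.g x i = q.g x i` and `b = q.g y i`. -/
theorem cd_inc (G : Ground k) (x y : K) (hxy : x < y) :
    (⨆ n : ℕ, ⨅ i : ℕ, (tvB (RO (Cd k)) (i < n))ᶜ ⇨ ⨅ a, ⨅ b, gN x i a ⇨
      (gN y i b ⇨ ltB (RO (Cd k)) a b)) = ⊤ := by
  rw [RO.eq_top_iff']
  intro p
  rw [RO.mem_iSup]
  intro q hq
  obtain ⟨r, hr, hy⟩ := Cd.exists_top G y q
  obtain ⟨n, hn⟩ := eventually_atTop.1 (r.inc x y hxy hy)
  refine ⟨r, hr, n, ?_⟩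
  rw [RO.mem_iInf]
  intro i
  rw [RO.mem_himp]
  intro r1 hr1 hi
  rw [mem_compl_tvB] at hi
  rw [RO.mem_iInf]
  intro a
  rw [RO.mem_iInf]
  intro b
  rw [RO.mem_himp]
  intro r2 hr2 ha
  rw [RO.mem_himp]
  intro r3 hr3 hb
  rw [mem_ltB]
  have h3 : r3 ≤ r := hr3.trans (hr2.trans hr1)
  have hy3 : y ≤ r3.top := hy.trans h3.1
  have hx3 : x ≤ r3.top := hxy.le.trans hy3
  have ha3 := (mem_gN hx3).1 (RO.lower _ ha hr3)
  have hb3 := (mem_gN hy3).1 hb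
  rw [← ha3, ← hb3, (h3.2 x (hxy.le.trans hy)).1, (h3.2 y hy).1]
  exact hn i (not_lt.1 hi)

end Pool.Agent.H58C
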