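import Pool.Agent.Lib.H58C.F10
import Pool.Agent.Lib.H58C.B00

/-!
# B06: g is cofinal
-/

set_option autoImplicit false

open Set Filter Pool.Agent.H5Z Pool.Agent.H30C

namespace Pool.Agent.H58C

variable {K : Type} [LinearOrder K] {k : ℕ → K} [WellFoundedLT K]

/-- Proof. Let `p` be in the left-hand side, `q ≤ p`. By `Cd.meet_nat` there is `r ≤ q` and for each `i` some `a i < k i`
with `r ∈ (f i (a i)).s` (`mem_hitB`). By `Cd.exists_succ` there is `r' ≤ r` with `a i < r'.g r'.top i` for all `i`. Take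
`x = r'.top` and `n = 0` on the right-hand side: if `r'' ≤ r'` is in `gN x i b` then `b = r'.g x i`, so not
`b < a i`, and `r'' ∈ (f i (a i)).s`. -/
theorem cd_dom (G : Ground k) (f : ℕ → K → RO (Cd k)) :
    (⨅ i, hitB (f i) (k i)) ≤ ⨆ x, ⨆ n : ℕ, ⨅ i : ℕ, (tvB (RO (Cd k)) (i < n))ᶜ ⇨ ⨅ b,
      gN x i b ⇨ ⨆ a, (ltB (RO (Cd k)) b a)ᶜ ⊓ f i a := by
  intro p hp
  rw [RO.mem_iInf] at hp
  rw [RO.mem_iSup]
  intro q hq
  have ho : ∀ i, OpenC {r : Cd k | ∃ a < k i, r ∈ (f i a).s} := by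
    rintro i r ⟨a, ha, hr⟩ r' hr'
    exact ⟨a, ha, (f i a).lower hr hr'⟩
  have hd : ∀ i, DenseC q {r : Cd k | ∃ a < k i, r ∈ (f i a).s} := by
    intro i r hr
    obtain ⟨r', hr', a, ha, h⟩ := (mem_hitB (f i) (k i) p).1 (hp i) r (hr.trans hq)
    exact ⟨r', hr', a, ha, h⟩
  obtain ⟨r, hr, hA⟩ := Cd.meet_nat G _ q ho hd
  choose a ha hfa using hA
  obtain ⟨r', hr', _, hlt⟩ := Cd.exists_succ G r a ha
  refine ⟨r', hr'.trans hr, r'.top, ?_⟩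
  refine mem_iSup_of _ 0 ?_
  rw [RO.mem_iInf]
  intro i
  rw [RO.mem_himp]
  intro s hs _
  rw [RO.mem_iInf]
  intro b
  rw [RO.mem_himp]
  intro s' hs' hb
  have hs'r : s' ≤ r' := hs'.trans hs
  have h1 : s'.g r'.top i = b := (mem_gN (hs'r.1)).1 hb
  have h2 : s'.g r'.top = r'.g r'.top := (hs'r.2 r'.top le_rfl).1
  refine mem_iSup_of _ (a i) ?_
  rw [RO.mem_inf]
  refine ⟨(mem_compl_ltB _ _ _).2 ?_, (f i (a i)).lower (hfa i) (hs'r.trans hr')⟩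
  rw [← h1, h2]
  exact not_lt.2 (hlt i).1.le

end Pool.Agent.H58C
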