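import Pool.Agent.Lib.H58C.F10
import Pool.Agent.Lib.H58C.B00

/-!
# B07: the Boolean value of Tail
-/

set_option autoImplicit false

open Set Filter Pool.Agent.H5Z Pool.Agent.H30C

namespace Pool.Agent.H58C

variable {K : Type} [LinearOrder K] {k : ℕ → K} [WellFoundedLT K]

/-- Proof. Let `n` be such that the property in `Tail` holds for `i ≥ n`; take this `n` in the supremum. For `i < n` the
premise is `⊤ᶜ`. For `i ≥ n` let `q' ≤ q` be in `gN r i a`, `gN x i b` and `V i c`: then `a = q.g r i`,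
`b = q.g x i` (`mem_gN` for `q'`, and `q'.g = q.g` up to `q.top`), and `c = b' i` by `hV`; the conclusions are two-valued
(`mem_tvB`, `mem_ltB`, `mem_compl_ltB`; for the last one: if `z < a` take `v` from `Tail`). -/
theorem mem_tailB {q : Cd k} {N : Set K} {r x : K} (hr : r ≤ q.top) (hx : x ≤ q.top) {b' : ℕ → K}
    (V : ℕ → K → RO (Cd k)) (hV : ∀ i c, ∀ q' ≤ q, q' ∈ (V i c).s → c = b' i)
    (h : Tail q.g N r x b') :
    q ∈ (tailB gN (fun v => tvB (RO (Cd k)) (v ∈ N)) r x V).s := by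
  obtain ⟨n, hn⟩ := eventually_atTop.1 h
  unfold tailB
  refine mem_iSup_of _ n ?_
  rw [RO.mem_iInf]
  intro i
  rw [RO.mem_himp]
  intro q1 hq1 hi
  rw [mem_compl_tvB] at hi
  rw [RO.mem_iInf]
  intro a
  rw [RO.mem_iInf]
  intro b
  rw [RO.mem_iInf]
  intro c
  rw [RO.mem_himp]
  intro q2 hq2 ha
  rw [RO.mem_himp]
  intro q3 hq3 hb
  rw [RO.mem_himp]
  intro q4 hq4 hc
  have h2q : q2 ≤ q := hq2.trans hq1
  have h3q : q3 ≤ q := hq3.trans h2q
  have h4q : q4 ≤ q := hq4.trans h3q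
  have ea : q.g r i = a := by
    have h1 := (mem_gN (hr.trans h2q.1)).1 ha
    rw [(h2q.2 r hr).1] at h1
    exact h1
  have eb : q.g x i = b := by
    have h1 := (mem_gN (hx.trans h3q.1)).1 hb
    rw [(h3q.2 x hx).1] at h1
    exact h1
  have ec : c = b' i := hV i c q4 h4q hc
  obtain ⟨h1, h2, h3, h4⟩ := hn i (not_lt.1 hi)
  rw [ea, eb] at h1
  rw [eb, ← ec] at h2
  rw [ea, ← ec] at h3
  rw [ea] at h4
  rw [RO.mem_inf, RO.mem_inf, RO.mem_inf, mem_compl_ltB, mem_ltB, RO.mem_iInf, RO.mem_iInf]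
  refine ⟨not_lt.2 h1, h2, fun v => ?_, fun z => ?_⟩
  · rw [RO.mem_himp]
    intro q5 _ hv
    rw [mem_tvB] at hv
    rw [RO.mem_himp]
    intro q6 _ hvc
    rw [mem_ltB] at hvc ⊢
    exact h3 v hv hvc
  · rw [RO.mem_himp]
    intro q5 _ hz
    rw [mem_ltB] at hz
    obtain ⟨v, hv, hzv, hva⟩ := h4 z hz
    refine mem_iSup_of _ v ?_
    rw [RO.mem_inf, RO.mem_inf, mem_tvB, mem_ltB, mem_ltB]
    exact ⟨hv, hzv, hva⟩

end Pool.Agent.H58C
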