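import Pool.Agent.Lib.H58C.F14
import Pool.Agent.Lib.H58C.B07

/-!
# B08: the guessing property in the Boolean-valued model
-/

set_option autoImplicit false

open Set Filter Pool.Agent.H5Z Pool.Agent.H30C

namespace Pool.Agent.H58C

variable {K : Type} [LinearOrder K] {k : ℕ → K} [WellFoundedLT K]

/-- Proof. Let `p` be in the left-hand side and `q ≤ p`; by `Cd.guess` (for `q`, with `RO.mem_iInf` for the hypothesis)
there are `q₁ ≤ q` and `N`; take this `N` in the supremum, and show that `q₁` is in the value. First part: for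
`x, y ∈ N` take `z`. Second part: let `x ∉ N` (otherwise the premise is not in the filter: `mem_compl_tvB`), and let
`q₂ ≤ q₁`; it is enough (`RO.mem_iSup`, or `RO.mem_of_dense`) to find for each `q₃ ≤ q₂` some `q₄ ≤ q₃` in one of the
terms of the supremum over `r`. Take `q₄ ≤ q₃` with `x ≤ q₄.top` (`Cd.exists_top`), and `r ≤ x` from `Cd.guess`. In the
first case `q₄` is in the left part of the `⊔` by `mem_tailB` with `b' = k` (`hV`: `mem_tvB`), in the second case in the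
right part with `c`, by `mem_tailB` with `b' = q₄.hval c` (`hV`: `mem_hN` and `Cd.hval_congr`). -/
theorem cd_guess (G : Ground k) (F : ℕ → K → K → K → RO (Cd k)) :
    (⨅ n, ⨅ x, ⨅ y, ⨆ z, F n x y z) ≤
    ⨆ N : {N : Set K // N.Nonempty ∧ N.Countable},
      (⨅ n, ⨅ x, ⨅ y, tvB (RO (Cd k)) (x ∈ N.1) ⇨ (tvB (RO (Cd k)) (y ∈ N.1) ⇨
        ⨆ z, tvB (RO (Cd k)) (z ∈ N.1) ⊓ F n x y z)) ⊓
      ⨅ x, (tvB (RO (Cd k)) (x ∈ N.1))ᶜ ⇨ ⨆ r, (ltB (RO (Cd k)) x r)ᶜ ⊓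
        (((⨅ v, tvB (RO (Cd k)) (v ∈ N.1) ⇨ ltB (RO (Cd k)) v r) ⊓
            tailB gN (fun v => tvB (RO (Cd k)) (v ∈ N.1)) r x
              (fun i c => tvB (RO (Cd k)) (k i = c))) ⊔
          ⨆ c, tvB (RO (Cd k)) (c ∈ N.1) ⊓ (ltB (RO (Cd k)) x c ⊓
            ((⨅ v, tvB (RO (Cd k)) (v ∈ N.1) ⇨ (ltB (RO (Cd k)) v c ⇨ ltB (RO (Cd k)) v r)) ⊓
              tailB gN (fun v => tvB (RO (Cd k)) (v ∈ N.1)) r x (fun i b => hN c i b)))) := by
  intro p hp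
  rw [RO.mem_iSup]
  intro q hq
  have hF : ∀ j x y, q ∈ (⨆ z, F j x y z : RO (Cd k)).s := by
    intro j x y
    have h1 := RO.lower _ hp hq
    exact (RO.mem_iInf _ _).1 ((RO.mem_iInf _ _).1 ((RO.mem_iInf _ _).1 h1 j) x) y
  obtain ⟨q₁, hq₁, N, hNne, hNc, hNF, hNT⟩ := Cd.guess G F q hF
  refine ⟨q₁, hq₁, ⟨N, hNne, hNc⟩, ?_⟩
  rw [RO.mem_inf]
  constructor
  · rw [RO.mem_iInf]
    intro n
    rw [RO.mem_iInf]
    intro x
    rw [RO.mem_iInf]
    intro y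
    rw [RO.mem_himp]
    intro q2 hq2 hx
    rw [RO.mem_himp]
    intro q3 hq3 hy
    obtain ⟨z, hz, hzF⟩ := hNF n x ((mem_tvB _ _).1 hx) y ((mem_tvB _ _).1 hy)
    exact mem_iSup_of _ z ((RO.mem_inf _ _ _).2 ⟨(mem_tvB _ _).2 hz, (F n x y z).lower hzF (hq3.trans hq2)⟩)
  · rw [RO.mem_iInf]
    intro x
    rw [RO.mem_himp]
    intro q₂ hq₂ hx
    rw [mem_compl_tvB] at hx
    rw [RO.mem_iSup]
    intro q₃ hq₃
    obtain ⟨q₄, hq₄, hx4⟩ := Cd.exists_top G x q₃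
    obtain ⟨r, hr, hcase⟩ := hNT q₄ (hq₄.trans (hq₃.trans hq₂)) x hx4 hx
    refine ⟨q₄, hq₄, r, (RO.mem_inf _ _ _).2 ⟨(mem_compl_ltB _ _ _).2 (not_lt.2 hr), ?_⟩⟩
    rcases hcase with ⟨h1, h2⟩ | ⟨c, hc, hxc, hctop, h1, h2⟩
    · refine mem_sup_of_left ((RO.mem_inf _ _ _).2 ⟨?_, ?_⟩)
      · rw [RO.mem_iInf]
        intro v
        rw [RO.mem_himp]
        intro q5 _ hv
        exact (mem_ltB _ _ _).2 (h1 v ((mem_tvB _ _).1 hv))
      · refine mem_tailB (hr.trans hx4) hx4 _ (fun i c q' _ h => ?_) h2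
        exact ((mem_tvB _ _).1 h).symm
    · refine mem_sup_of_right (mem_iSup_of _ c ((RO.mem_inf _ _ _).2 ⟨(mem_tvB _ _).2 hc,
        (RO.mem_inf _ _ _).2 ⟨(mem_ltB _ _ _).2 hxc, (RO.mem_inf _ _ _).2 ⟨?_, ?_⟩⟩⟩))
      · rw [RO.mem_iInf]
        intro v
        rw [RO.mem_himp]
        intro q5 _ hv
        rw [RO.mem_himp]
        intro q6 _ hvc
        exact (mem_ltB _ _ _).2 (h1 v ((mem_tvB _ _).1 hv) ((mem_ltB _ _ _).1 hvc))
      · refine mem_tailB (hr.trans hx4) hx4 _ (fun i b q' hq' h => ?_) h2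
        have h3 := (mem_hN (hctop.trans hq'.1)).1 h
        rw [← h3]
        exact Cd.hval_congr hq' hctop i

end Pool.Agent.H58C
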