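import Pool.Agent.Lib.H58C.B01
import Pool.Agent.Lib.H58C.B02
import Pool.Agent.Lib.H58C.B03
import Pool.Agent.Lib.H58C.B04
import Pool.Agent.Lib.H58C.B05
import Pool.Agent.Lib.H58C.B06
import Pool.Agent.Lib.H58C.B08

/-!
# B09: the Boolean-valued principle
-/

set_option autoImplicit false

open Set Filter Pool.Agent.H5Z Pool.Agent.H30C

namespace Pool.Agent.H58C

variable {K : Type} [LinearOrder K] {k : ℕ → K} [WellFoundedLT K]

/-- Proof: the previous theorems. -/
theorem cd_bscale (G : Ground k) : BScale k (gN : K → ℕ → K → RO (Cd k)) hN where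
  kmono := G.kmono
  gfun := cd_gfun G
  hfun := cd_hfun G
  reg := cd_reg G
  bddN := cd_bddN G
  bdd := cd_bdd G
  gk := cd_gk G
  inc := cd_inc G
  dom := cd_dom G
  guess := cd_guess G

/-- Proof. Let `o` be the least element of `K` (`G.pos`, well-foundedness). `top = o`, `g x i = o`, `D x = ∅`,
`m x = 0`; `o` is tame (no `b < o`), and every `c ≤ o` is `o`. -/
theorem nonempty_cd (G : Ground k) : Nonempty (Cd k) := by
  obtain ⟨o1, ho1⟩ := G.pos
  obtain ⟨o, -, ho⟩ := (wellFounded_lt (α := K)).has_min univ ⟨o1, mem_univ _⟩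
  have hle : ∀ a, o ≤ a := fun a => not_lt.1 (ho a (mem_univ _))
  refine ⟨⟨o, fun _ _ => o, fun _ => ∅, fun _ => 0, ?_, ?_, ?_⟩⟩
  · intro x _ i
    exact ((hle o1).trans_lt ho1).trans_le (G.kmono.monotone (Nat.zero_le i))
  · intro x y hxy hy
    exact absurd (hxy.trans_le hy) (not_lt.2 (hle x))
  · intro c hc hn
    exact absurd ⟨fun _ => o, fun b hb => absurd (hb.trans_le hc) (not_lt.2 (hle b))⟩ hn

end Pool.Agent.H58C
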