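import Pool.Agent.Lib.H58C.FDefs

/-!
# F01: the ground model, elementary facts
-/

set_option autoImplicit false

open Set Filter

namespace Pool.Agent.H58C

variable {K : Type} [LinearOrder K] {k : ℕ → K} [WellFoundedLT K]

/-- Proof: a constant function in `G.reg (k 1)`. -/
theorem Ground.exists_gt (G : Ground k) (a : K) : ∃ b, a < b := by
  obtain ⟨d, hd⟩ := G.reg (k 1) (fun _ => a)
  obtain ⟨o, ho⟩ := G.pos
  exact ⟨d, hd o (ho.trans (G.kmono Nat.zero_lt_one))⟩

/-- Proof: a constant sequence in `G.bddN i`. -/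
theorem Ground.exists_gt_lt (G : Ground k) {i : ℕ} {a : K} (ha : a < k i) : ∃ b, a < b ∧ b < k i := by
  obtain ⟨d, hd, h⟩ := G.bddN i (fun _ => a) (fun _ => ha)
  exact ⟨d, h 0, hd⟩

/-- Proof: `G.kmono` and `G.pos`. -/
theorem Ground.pos' (G : Ground k) (i : ℕ) : ∃ o, o < k i := by
  obtain ⟨o, ho⟩ := G.pos
  exact ⟨o, ho.trans_le (G.kmono.monotone (Nat.zero_le i))⟩

/-- Proof: `exists_gt` and well-foundedness. -/
theorem Ground.exists_succ (G : Ground k) (a : K) : ∃ s, a < s ∧ ∀ b, a < b → s ≤ b := by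
  have hne : ({b | a < b} : Set K).Nonempty := G.exists_gt a
  exact ⟨(wellFounded_lt : WellFounded ((· < ·) : K → K → Prop)).min {b | a < b} hne,
    (wellFounded_lt : WellFounded ((· < ·) : K → K → Prop)).min_mem {b | a < b} hne,
    fun b hb => not_lt.1 ((wellFounded_lt : WellFounded ((· < ·) : K → K → Prop)).not_lt_min
      {b | a < b} hb)⟩

/-- There is a strictly increasing sequence below `k 0`. Proof: `exists_gt_lt` and recursion. -/
theorem Ground.exists_strictMono (G : Ground k) : ∃ u : ℕ → K, StrictMono u ∧ ∀ n, u n < k 0 := by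
  obtain ⟨o, ho⟩ := G.pos
  have hn : ∀ x : {x : K // x < k 0}, ∃ y : {x : K // x < k 0}, x.1 < y.1 := by
    intro x
    obtain ⟨b, h1, h2⟩ := G.exists_gt_lt x.2
    exact ⟨⟨b, h2⟩, h1⟩
  choose F hF using hn
  let u : ℕ → {x : K // x < k 0} := fun n => Nat.rec ⟨o, ho⟩ (fun _ x => F x) n
  exact ⟨fun n => (u n).1, strictMono_nat_of_lt_succ fun n => hF (u n), fun n => (u n).2⟩

/-- Proof: `G.reg (k 0)` and the sequence of `exists_strictMono` (let `F x = f n` if `x = u n`). -/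
theorem Ground.bdd_seq (G : Ground k) (f : ℕ → K) : ∃ d, ∀ n, f n < d := by
  obtain ⟨u, hu, hk⟩ := G.exists_strictMono
  obtain ⟨d, hd⟩ := G.reg (k 0) (Function.extend u f id)
  refine ⟨d, fun n => ?_⟩
  have h := hd (u n) (hk n)
  rwa [hu.injective.extend_apply] at h

theorem Ground.bdd_countable (G : Ground k) {N : Set K} (hN : N.Countable) : ∃ d, ∀ v ∈ N, v < d := by
  rcases N.eq_empty_or_nonempty with h | h
  · exact ⟨k 0, fun v hv => by rw [h] at hv; exact absurd hv (Set.notMem_empty v)⟩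
  · obtain ⟨f, rfl⟩ := hN.exists_eq_range h
    obtain ⟨d, hd⟩ := G.bdd_seq f
    refine ⟨d, ?_⟩
    rintro _ ⟨n, rfl⟩
    exact hd n

/-- Proof: `G.bddN i` and an enumeration; `pos'` if the set is empty. -/
theorem Ground.bddN_countable (G : Ground k) (i : ℕ) {N : Set K} (hN : N.Countable)
    (h : ∀ v ∈ N, v < k i) : ∃ d < k i, ∀ v ∈ N, v < d := by
  rcases N.eq_empty_or_nonempty with h0 | h0
  · obtain ⟨o, ho⟩ := G.pos' i
    exact ⟨o, ho, fun v hv => by rw [h0] at hv; exact absurd hv (Set.notMem_empty v)⟩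
  · obtain ⟨f, rfl⟩ := hN.exists_eq_range h0
    obtain ⟨d, hdk, hd⟩ := G.bddN i f (fun n => h _ ⟨n, rfl⟩)
    refine ⟨d, hdk, ?_⟩
    rintro _ ⟨n, rfl⟩
    exact hd n

/-- Proof: well-foundedness. -/
theorem exists_isLUB {A : Set K} {b : K} (hb : ∀ a ∈ A, a < b) : ∃ t ≤ b, IsLUB A t := by
  have hne : (upperBounds A).Nonempty := ⟨b, fun a ha => (hb a ha).le⟩
  refine ⟨(wellFounded_lt : WellFounded ((· < ·) : K → K → Prop)).min (upperBounds A) hne, ?_, ?_, ?_⟩
  · exact not_lt.1 ((wellFounded_lt : WellFounded ((· < ·) : K → K → Prop)).not_lt_min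
      (upperBounds A) (fun a ha => (hb a ha).le))
  · exact (wellFounded_lt : WellFounded ((· < ·) : K → K → Prop)).min_mem (upperBounds A) hne
  · exact fun c hc => not_lt.1 ((wellFounded_lt : WellFounded ((· < ·) : K → K → Prop)).not_lt_min
      (upperBounds A) hc)

/-- A successor is tame. Proof: the constant sequence `a`. -/
theorem tame_succ {a s : K} (h : a < s) (h' : ∀ b, a < b → s ≤ b) : Tame s := by
  refine ⟨fun _ => a, fun b hb => ⟨0, ?_, h⟩⟩
  by_contra hc
  exact absurd hb (not_lt.2 (h' b (not_le.1 hc)))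

/-- Proof: the sequence itself is a witness. -/
theorem tame_of_isLUB {f : ℕ → K} (hf : ∀ n, f n < f (n + 1)) {t : K} (ht : IsLUB (range f) t) :
    Tame t := by
  refine ⟨f, fun b hb => ?_⟩
  obtain ⟨_, ⟨n, rfl⟩, hn⟩ := (lt_isLUB_iff ht).1 hb
  exact ⟨n, hn.le, (hf n).trans_le (ht.1 ⟨n + 1, rfl⟩)⟩

end Pool.Agent.H58C
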