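import Pool.Agent.Lib.H58C.F01

/-!
# F02: successor extension
-/

set_option autoImplicit false

open Set Filter

namespace Pool.Agent.H58C

variable {K : Type} [LinearOrder K] {k : ℕ → K} [WellFoundedLT K]

/-- the same for the congruence lemma, used below -/
theorem f02_congr {D : Set K} {f f' : K → K} (h : CtsOn D f) (he : ∀ x ∈ D, f x = f' x) :
    CtsOn D f' := by
  refine ⟨fun x hx y hy hxy => ?_, fun x hx hl a ha => ?_⟩
  · rw [← he x hx, ← he y hy]
    exact h.1 x hx y hy hxy
  · rw [← he x hx] at ha
    obtain ⟨z, hz, hzx, haz⟩ := h.2 x hx hl a ha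
    exact ⟨z, hz, hzx, by rw [← he z hz]; exact haz⟩

/-- One more function on top.

Proof. Let `s` be the successor of `p.top` (`G.exists_succ`). For each `i` choose `e i < k i` with
`max (f i) (p.g p.top i) < e i` (`G.exists_gt_lt`, `p.gk`). Let `q.top = s`, `q.g x = p.g x` for `x ≤ p.top`
and `q.g x = e` otherwise; `q.D = p.D`, `q.m = p.m`. `q.inc`: if `x < y ≤ s`: either `y ≤ p.top`, or `y = s` and
`x ≤ p.top`: for `x = p.top` clear, for `x < p.top` use `p.inc x p.top`. `q.club`: if `c ≤ s` is not tame
then `c ≤ p.top` (`tame_succ`); the properties involve only the values `g z` for `z ∈ p.D c`, `z < c`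
(`CtsOn` on `p.D c` for functions which agree there). -/
theorem Cd.exists_succ (G : Ground k) (p : Cd k) (f : ℕ → K) (hf : ∀ i, f i < k i) :
    ∃ q ≤ p, p.top < q.top ∧ ∀ i, f i < q.g q.top i ∧ p.g p.top i < q.g q.top i := by
  classical
  obtain ⟨s, hs, hs'⟩ := G.exists_succ p.top
  have h1 : ∀ i, ∃ b, max (f i) (p.g p.top i) < b ∧ b < k i := fun i =>
    G.exists_gt_lt (max_lt (hf i) (p.gk p.top le_rfl i))
  choose e he hek using h1
  have hfe : ∀ i, f i < e i := fun i => (le_max_left _ _).trans_lt (he i)
  have hpe : ∀ i, p.g p.top i < e i := fun i => (le_max_right _ _).trans_lt (he i)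
  have hsn : ¬ s ≤ p.top := not_le.mpr hs
  refine ⟨{ top := s
            g := fun x => if x ≤ p.top then p.g x else e
            D := p.D
            m := p.m
            gk := ?_
            inc := ?_
            club := ?_ }, ⟨hs.le, fun x hx => ⟨?_, rfl, rfl⟩⟩, hs, fun i => ?_⟩
  · intro x _ i
    by_cases hx : x ≤ p.top
    · simp only [if_pos hx]
      exact p.gk x hx i
    · simp only [if_neg hx]
      exact hek i
  · intro x y hxy hy
    by_cases hyp : y ≤ p.top
    · have hxp : x ≤ p.top := hxy.le.trans hyp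
      simp only [if_pos hyp, if_pos hxp]
      exact p.inc x y hxy hyp
    · have hxp : x ≤ p.top := by
        by_contra hc
        exact absurd (hs' x (not_le.mp hc)) (not_le.mpr (hxy.trans_le hy))
      simp only [if_neg hyp, if_pos hxp]
      rcases hxp.eq_or_lt with h | h
      · rw [h]
        exact Filter.Eventually.of_forall hpe
      · filter_upwards [p.inc x p.top h le_rfl] with i hi
        exact hi.trans (hpe i)
  · intro c hc hT
    have hcp : c ≤ p.top := by
      by_contra hn
      have hcs : c = s := le_antisymm hc (hs' c (not_le.mp hn))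
      exact hT (hcs ▸ tame_succ hs hs')
    obtain ⟨h1, h2⟩ := p.club c hcp hT
    refine ⟨h1, fun i hi => f02_congr (h2 i hi) fun x hx => ?_⟩
    have hxp : x ≤ p.top := (h1.1 x hx).le.trans hcp
    simp only [if_pos hxp]
  · simp only [if_pos hx]
  · simp only [if_neg hsn]
    exact ⟨hfe i, hpe i⟩

/-- `CtsOn` depends only on the values on `D`. -/
theorem CtsOn.congr {D : Set K} {f f' : K → K} (h : CtsOn D f) (he : ∀ x ∈ D, f x = f' x) :
    CtsOn D f' := f02_congr h he

end Pool.Agent.H58C
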