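import Pool.Agent.Lib.H58C.F02

/-!
# F03: limit extension
-/

set_option autoImplicit false

open Set Filter

namespace Pool.Agent.H58C

variable {K : Type} [LinearOrder K] {k : ℕ → K} [WellFoundedLT K]

omit [WellFoundedLT K] in
theorem f03_agree {I : Type} [LinearOrder I] (p : I → Cd k)
    (hp : ∀ a b, a < b → p b ≤ p a ∧ (p a).top < (p b).top) {a b : I} {x : K}
    (ha : x ≤ (p a).top) (hb : x ≤ (p b).top) :
    (p a).g x = (p b).g x ∧ (p a).D x = (p b).D x ∧ (p a).m x = (p b).m x := by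
  rcases lt_trichotomy a b with h | h | h
  · have h1 := ((Cd.le_def _ _).1 (hp a b h).1).2 x ha
    exact ⟨h1.1.symm, h1.2.1.symm, h1.2.2.symm⟩
  · subst h
    exact ⟨rfl, rfl, rfl⟩
  · exact ((Cd.le_def _ _).1 (hp b a h).1).2 x hb

/-- The union of a strictly decreasing family of conditions without last member, with a given value
`f` on top.

Proof. For `x < t` there is `a` with `x < (p a).top` (`lt_isLUB_iff`). Let `G x = (p a).g x` for such a chosen `a`
(with `x ≤ (p a).top`), `G x = f` for `x` with no such `a`; in the same way `D' x` and `m' x` (with `D, m` for the other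
`x`). The members are comparable, so `G x = (p a).g x`, `D' x = (p a).D x`, `m' x = (p a).m x` whenever `x ≤ (p a).top`.
No `(p a).top` is `≥ t`, so `G t = f`, `D' t = D`, `m' t = m`. Let `q = (t, G, D', m')`. `inc`: for `x < y < t` take `a` with
`y ≤ (p a).top`; for `y = t`: `x ≤ (p a).top`, and `g x ≤ g (top) < f` eventually (`inc` of `p a`, or equality). `club`: for
`c < t` from `(p a).club` (`CtsOn.congr`: all elements of the club are less than `c`); for `c = t` from `hD`. -/
theorem Cd.exists_limit {I : Type} [LinearOrder I] [Nonempty I] [NoMaxOrder I] (p : I → Cd k)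
    (hp : ∀ a b, a < b → p b ≤ p a ∧ (p a).top < (p b).top) {t : K}
    (ht : IsLUB (range fun a => (p a).top) t) (f : ℕ → K) (hf : ∀ i, f i < k i)
    (hinc : ∀ a, ∀ᶠ i in atTop, (p a).g (p a).top i < f i) (D : Set K) (m : ℕ)
    (hD : ¬ Tame t → Clb D t ∧ ∀ i, m ≤ i → ∀ G : K → ℕ → K,
      (∀ a, ∀ x ≤ (p a).top, G x = (p a).g x) → CtsOn D (fun x => G x i)) :
    ∃ q : Cd k, q.top = t ∧ q.g t = f ∧ ∀ a, q ≤ p a := by
  classical
  have hlt : ∀ a, (p a).top < t := by
    intro a
    obtain ⟨b, hb⟩ := exists_gt a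
    exact lt_of_lt_of_le (hp a b hb).2 (ht.1 ⟨b, rfl⟩)
  have hex : ∀ x, x < t → ∃ a, x < (p a).top := by
    intro x hx
    obtain ⟨_, ⟨a, rfl⟩, h⟩ := (lt_isLUB_iff ht).1 hx
    exact ⟨a, h⟩
  obtain ⟨a0⟩ := (inferInstance : Nonempty I)
  let P : K → Prop := fun x => ∃ a, x ≤ (p a).top
  let G : K → ℕ → K := fun x => if h : ∃ a, x ≤ (p a).top then (p h.choose).g x else f
  let E : K → Set K := fun x => if h : ∃ a, x ≤ (p a).top then (p h.choose).D x else D
  let M : K → ℕ := fun x => if h : ∃ a, x ≤ (p a).top then (p h.choose).m x else m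
  have hG : ∀ a, ∀ x ≤ (p a).top, G x = (p a).g x := by
    intro a x hx
    have h : ∃ a, x ≤ (p a).top := ⟨a, hx⟩
    have h1 : G x = (p h.choose).g x := dif_pos h
    rw [h1]
    exact (f03_agree p hp h.choose_spec hx).1
  have hE : ∀ a, ∀ x ≤ (p a).top, E x = (p a).D x := by
    intro a x hx
    have h : ∃ a, x ≤ (p a).top := ⟨a, hx⟩
    have h1 : E x = (p h.choose).D x := dif_pos h
    rw [h1]
    exact (f03_agree p hp h.choose_spec hx).2.1
  have hM : ∀ a, ∀ x ≤ (p a).top, M x = (p a).m x := by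
    intro a x hx
    have h : ∃ a, x ≤ (p a).top := ⟨a, hx⟩
    have h1 : M x = (p h.choose).m x := dif_pos h
    rw [h1]
    exact (f03_agree p hp h.choose_spec hx).2.2
  have hnt : ¬ ∃ a, t ≤ (p a).top := by
    rintro ⟨a, ha⟩
    exact absurd (hlt a) (not_lt.2 ha)
  have hGt : G t = f := dif_neg hnt
  have hEt : E t = D := dif_neg hnt
  have hMt : M t = m := dif_neg hnt
  refine ⟨⟨t, G, E, M, ?_, ?_, ?_⟩, rfl, hGt, ?_⟩
  · intro x hx i
    rcases hx.lt_or_eq with hx | hx
    · obtain ⟨a, ha⟩ := hex x hx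
      rw [hG a x ha.le]
      exact (p a).gk x ha.le i
    · subst hx
      rw [hGt]
      exact hf i
  · intro x y hxy hy
    rcases hy.lt_or_eq with hy | hy
    · obtain ⟨a, ha⟩ := hex y hy
      rw [hG a x (hxy.le.trans ha.le), hG a y ha.le]
      exact (p a).inc x y hxy ha.le
    · subst hy
      obtain ⟨a, ha⟩ := hex x hxy
      rw [hG a x ha.le, hGt]
      filter_upwards [(p a).inc x _ ha le_rfl, hinc a] with i h1 h2
      exact h1.trans h2
  · intro c hc hT
    rcases hc.lt_or_eq with hc | hc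
    · obtain ⟨a, ha⟩ := hex c hc
      have hcl := (p a).club c ha.le hT
      rw [hE a c ha.le, hM a c ha.le]
      refine ⟨hcl.1, fun i hi => ?_⟩
      refine (hcl.2 i hi).congr ?_
      intro x hx
      have hxc : x < c := hcl.1.1 x hx
      show (p a).g x i = G x i
      rw [hG a x (hxc.le.trans ha.le)]
    · subst hc
      rw [hEt, hMt]
      exact ⟨(hD hT).1, fun i hi => (hD hT).2 i hi G hG⟩
  · intro a
    rw [Cd.le_def]
    exact ⟨(hlt a).le, fun x hx => ⟨hG a x hx, hE a x hx, hM a x hx⟩⟩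

end Pool.Agent.H58C
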