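import Pool.Agent.Lib.H58C.F03

/-!
# F04: runs: the limit step
-/

set_option autoImplicit false

open Set Filter

namespace Pool.Agent.H58C

variable {K : Type} [LinearOrder K] {k : ℕ → K} [WellFoundedLT K]

/-- The club of tops of a run at a limit `s`.

Proof. The tops are strictly increasing. Elements of `D` are less than `t₀` and `D` is unbounded in `t₀`
(least upper bound, no last member as `s` is a limit). Closed: let `x < t₀` be a limit of `D`; let `t'` be the
least `t < s` with `x ≤ (p t).top` (exists: `t₀` is the supremum). `t'` is not minimal, as there is `z ∈ D` with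
`z < x`. If `u < t'` then `(p u).top < x`, so there is `z = (p v).top ∈ D` with `(p u).top < z < x`, hence
`u < v < t'`: so `t'` is a limit, and by `hp` `(p t').top` is the least upper bound of the `(p u).top`,
`u < t'`, so it is `≤ x`. Hence `x = (p t').top ∈ D`. -/
theorem run_clb {j : ℕ} {A : K → Set (Cd k)} {p₀ : Cd k} {p : K → Cd k} {s : K}
    (hp : ∀ t < s, Next j A p₀ p t (p t)) (h0 : ∃ t, t < s) (hlim : ∀ t < s, ∃ t', t < t' ∧ t' < s)
    {t₀ : K} (ht₀ : IsLUB {x | ∃ t < s, x = (p t).top} t₀) :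
    Clb {x | ∃ t < s, x = (p t).top} t₀ := by
  have hmono : ∀ t u, t < u → u < s → (p t).top < (p u).top := fun t u htu hu =>
    ((hp u hu).2.1 t htu).2.1
  have hrefl : ∀ t u, t < s → (p t).top < (p u).top → t < u := by
    intro t u ht h
    by_contra hc
    rcases (not_lt.1 hc).eq_or_lt with h1 | h1
    · rw [h1] at h
      exact lt_irrefl _ h
    · exact absurd h (not_lt.2 (hmono _ _ h1 ht).le)
  have htop : ∀ t < s, (p t).top < t₀ := by
    intro t ht
    obtain ⟨t', h1, h2⟩ := hlim t ht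
    exact lt_of_lt_of_le (hmono t t' h1 h2) (ht₀.1 ⟨t', h2, rfl⟩)
  refine ⟨?_, ?_, ?_⟩
  · rintro z ⟨t, ht, rfl⟩
    exact htop t ht
  · intro x hx
    obtain ⟨_, ⟨t, ht, rfl⟩, h⟩ := (lt_isLUB_iff ht₀).1 hx
    exact ⟨_, ⟨t, ht, rfl⟩, h⟩
  · intro x hx hl
    have hne : ({t | t < s ∧ x ≤ (p t).top} : Set K).Nonempty := by
      obtain ⟨_, ⟨t, ht, rfl⟩, h⟩ := (lt_isLUB_iff ht₀).1 hx
      exact ⟨t, ht, h.le⟩
    obtain ⟨t', ht', hmin'⟩ : ∃ t' ∈ ({t | t < s ∧ x ≤ (p t).top} : Set K),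
        ∀ u ∈ ({t | t < s ∧ x ≤ (p t).top} : Set K), t' ≤ u :=
      ⟨(wellFounded_lt : WellFounded ((· < ·) : K → K → Prop)).min _ hne,
        (wellFounded_lt : WellFounded ((· < ·) : K → K → Prop)).min_mem _ hne,
        fun u hu => not_lt.1 ((wellFounded_lt : WellFounded ((· < ·) : K → K → Prop)).not_lt_min _ hu)⟩
    have hmin : ∀ u, u < t' → (p u).top < x := by
      intro u hu
      by_contra hc
      exact absurd (hmin' u ⟨hu.trans ht'.1, not_lt.1 hc⟩) (not_le.2 hu)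
    refine ⟨t', ht'.1, le_antisymm ht'.2 ?_⟩
    obtain ⟨⟨_, ⟨u0, hu0, rfl⟩, hz⟩, hl2⟩ := hl
    have hlt : ∀ u, u < s → (p u).top < x → u < t' := fun u hu h => hrefl u t' hu (h.trans_le ht'.2)
    have hlim' : ∀ u < t', ∃ v, u < v ∧ v < t' := by
      intro u hu
      obtain ⟨_, ⟨v, hv, rfl⟩, h1, h2⟩ := hl2 _ (hmin u hu)
      exact ⟨v, hrefl u v (hu.trans ht'.1) h1, hlt v hv h2⟩
    have hlub := ((hp t' ht'.1).2.2.2 ⟨u0, hlt u0 hu0 hz⟩ hlim').1
    refine hlub.2 ?_
    rintro _ ⟨u, hu, rfl⟩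
    exact (hmin u hu).le

/-- Continuity of the scale on the club of tops.

Proof. Strictly increasing: for `x = (p t).top < y = (p u).top` we have `t < u`, and the second clause of
`Next` for `u`. Continuity at `x = (p t).top`, a limit of `D`: `t` is not minimal, and it is a limit (if `u < t` there is
`z = (p v).top` with `(p u).top < z < x`, so `u < v < t`); so by the last clause of `Next`, `(p t).g (p t).top i` is the
least upper bound of the `(p u).g (p u).top i`, `u < t`; use `lt_isLUB_iff`. -/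
theorem run_ctsOn {j : ℕ} {A : K → Set (Cd k)} {p₀ : Cd k} {p : K → Cd k} {s : K}
    (hp : ∀ t < s, Next j A p₀ p t (p t)) {i : ℕ} (hi : j < i) (G : K → ℕ → K)
    (hG : ∀ t < s, ∀ x ≤ (p t).top, G x = (p t).g x) :
    CtsOn {x | ∃ t < s, x = (p t).top} (fun x => G x i) := by
  have hmono : ∀ t u, t < u → u < s → (p t).top < (p u).top := fun t u htu hu =>
    ((hp u hu).2.1 t htu).2.1
  have hval : ∀ t u, t < u → u < s → (p t).g (p t).top i < (p u).g (p u).top i := fun t u htu hu =>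
    ((hp u hu).2.1 t htu).2.2 i hi
  have hrefl : ∀ t u, t < s → (p t).top < (p u).top → t < u := by
    intro t u ht h
    by_contra hc
    rcases (not_lt.1 hc).eq_or_lt with h1 | h1
    · rw [h1] at h
      exact lt_irrefl _ h
    · exact absurd h (not_lt.2 (hmono _ _ h1 ht).le)
  have hGv : ∀ t < s, G (p t).top i = (p t).g (p t).top i := fun t ht => by
    rw [hG t ht _ le_rfl]
  refine ⟨?_, ?_⟩
  · rintro _ ⟨t, ht, rfl⟩ _ ⟨u, hu, rfl⟩ hxy
    show G _ i < G _ i
    rw [hGv t ht, hGv u hu]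
    exact hval _ _ (hrefl t u ht hxy) hu
  · rintro _ ⟨t, ht, rfl⟩ ⟨⟨_, ⟨u0, hu0, rfl⟩, hz⟩, hl2⟩ a ha
    change a < G _ i at ha
    rw [hGv t ht] at ha
    have hlim' : ∀ u < t, ∃ v, u < v ∧ v < t := by
      intro u hu
      obtain ⟨_, ⟨v, hv, rfl⟩, h1, h2⟩ := hl2 _ (hmono u t hu ht)
      exact ⟨v, hrefl u v (hu.trans ht) h1, hrefl v t hv h2⟩
    have hlub := ((hp t ht).2.2.2 ⟨u0, hrefl u0 t hu0 hz⟩ hlim').2 i hi
    obtain ⟨_, ⟨u, hu, rfl⟩, h⟩ := (lt_isLUB_iff hlub).1 ha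
    refine ⟨_, ⟨u, hu.trans ht, rfl⟩, hmono u t hu ht, ?_⟩
    show a < G _ i
    rw [hGv u (hu.trans ht)]
    exact h

end Pool.Agent.H58C
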