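import Pool.Agent.Lib.H58C.F04

/-!
# F05: runs: the step
-/

set_option autoImplicit false

open Set Filter

namespace Pool.Agent.H58C

variable {K : Type} [LinearOrder K] {k : ℕ → K} [WellFoundedLT K]

/-- The limit step.

Proof. Let `t₀` be the least upper bound of the `(p t).top`, `t < s` (bounded by `G.reg s`; `exists_isLUB`),
and let `f i` be the least upper bound of the `(p t).g (p t).top i`, `t < s`, for `i > j`: these are less than `k i`,
and `G.bdd j i` (with `s ≤ k j`, extend the function by its value at some `t`) gives a strict bound less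
than `k i`, so `f i < k i`. For `i ≤ j` let `f i = p₀.g p₀.top i`. Apply `Cd.exists_limit` to the type of the `t < s` (`Iio s`;
nonempty, no maximum), to `f`, `D = {x | ∃ t < s, x = (p t).top}`, `m = j + 1` (`run_clb`, `run_ctsOn`). `hinc`: for `i > j`
there is `t' > t`, `t' < s`, and `(p t).g (p t).top i < (p t').g (p t').top i ≤ f i`. -/
theorem run_limit (G : Ground k) {j : ℕ} {A : K → Set (Cd k)} {p₀ : Cd k} {p : K → Cd k} {s : K}
    (hs : s ≤ k j) (hp : ∀ t < s, Next j A p₀ p t (p t)) (h0 : ∃ t, t < s)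
    (hlim : ∀ t < s, ∃ t', t < t' ∧ t' < s) : ∃ q, Next j A p₀ p s q := by
  obtain ⟨d, hd⟩ := G.reg s (fun t => (p t).top)
  obtain ⟨t₀, _, ht₀⟩ := exists_isLUB (A := {x | ∃ t < s, x = (p t).top}) (b := d) (by
    rintro x ⟨t, ht, rfl⟩
    exact hd t ht)
  have hf : ∀ i, ∃ c < k i, j < i → IsLUB {a | ∃ t < s, a = (p t).g (p t).top i} c := by
    intro i
    by_cases hi : j < i
    · obtain ⟨e, he, he'⟩ := G.bdd j i hi (fun x => (p x).g (p x).top i) (fun x _ => (p x).gk _ le_rfl i)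
      obtain ⟨c, hc, hc'⟩ := exists_isLUB (A := {a | ∃ t < s, a = (p t).g (p t).top i}) (b := e) (by
        rintro x ⟨t, ht, rfl⟩
        exact he' t (lt_of_lt_of_le ht hs))
      exact ⟨c, lt_of_le_of_lt hc he, fun _ => hc'⟩
    · exact ⟨p₀.g p₀.top i, p₀.gk _ le_rfl i, fun h => absurd h hi⟩
  choose f hf1 hf2 using hf
  haveI : Nonempty (Iio s) := by
    obtain ⟨t, ht⟩ := h0
    exact ⟨⟨t, ht⟩⟩
  haveI : NoMaxOrder (Iio s) := ⟨fun a => by
    obtain ⟨t', h1, h2⟩ := hlim a.1 a.2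
    exact ⟨⟨t', h2⟩, h1⟩⟩
  have hval : ∀ t < s, ∀ i, j < i → (p t).g (p t).top i < f i := by
    intro t ht i hi
    obtain ⟨t', h1, h2⟩ := hlim t ht
    exact lt_of_lt_of_le (((hp t' h2).2.1 t h1).2.2 i hi) ((hf2 i hi).1 ⟨t', h2, rfl⟩)
  have htop : ∀ t < s, (p t).top < t₀ := by
    intro t ht
    obtain ⟨t', h1, h2⟩ := hlim t ht
    exact lt_of_lt_of_le (((hp t' h2).2.1 t h1).2.1) (ht₀.1 ⟨t', h2, rfl⟩)
  have hset : (range fun a : Iio s => (p a.1).top) = {x | ∃ t < s, x = (p t).top} := by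
    ext x
    constructor
    · rintro ⟨a, rfl⟩
      exact ⟨a.1, a.2, rfl⟩
    · rintro ⟨t, ht, rfl⟩
      exact ⟨⟨t, ht⟩, rfl⟩
  obtain ⟨q, hq1, hq2, hq3⟩ := Cd.exists_limit (fun a : Iio s => p a.1)
    (fun a b hab => ⟨((hp b.1 b.2).2.1 a.1 hab).1, ((hp b.1 b.2).2.1 a.1 hab).2.1⟩)
    (t := t₀) (by rw [hset]; exact ht₀) f hf1
    (fun a => (eventually_gt_atTop j).mono fun i hi => hval a.1 a.2 i hi)
    {x | ∃ t < s, x = (p t).top} (j + 1)
    (fun _ => ⟨run_clb hp h0 hlim ht₀, fun i hi G' hG' =>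
      run_ctsOn hp (Nat.lt_of_succ_le hi) G' fun t ht x hx => hG' ⟨t, ht⟩ x hx⟩)
  have hq4 : q.g q.top = f := by rw [hq1, hq2]
  refine ⟨q, ?_, ?_, ?_, ?_⟩
  · obtain ⟨t, ht⟩ := h0
    exact (hq3 ⟨t, ht⟩).trans (hp t ht).1
  · intro t ht
    refine ⟨hq3 ⟨t, ht⟩, ?_, fun i hi => ?_⟩
    · rw [hq1]
      exact htop t ht
    · rw [hq4]
      exact hval t ht i hi
  · intro t ht hst
    obtain ⟨t', h1, h2⟩ := hlim t ht
    exact absurd h2 (not_lt.mpr (hst t' h1))
  · intro _ _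
    rw [hq4, hq1]
    exact ⟨ht₀, hf2⟩

/-- The step at a successor `s` of `t`.

Proof. By `hd` there is `r ≤ p t` with `r ∈ A t`, and `Cd.exists_succ` for `r` and `f = (p t).g (p t).top` (its values are
`< k i`) gives `q ≤ r` with `r.top < q.top` and `f i < q.g q.top i`. For `t' < t` combine with the second clause of `Next` for
`t`. The last clause is vacuous. -/
theorem run_succ (G : Ground k) {j : ℕ} {A : K → Set (Cd k)} {p₀ : Cd k} {p : K → Cd k} {s t : K}
    (hts : t < s) (hst : ∀ t', t < t' → s ≤ t') (hp : Next j A p₀ p t (p t)) (ho : OpenC (A t))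
    (hd : DenseC p₀ (A t)) : ∃ q, Next j A p₀ p s q := by
  obtain ⟨r, hr, hrA⟩ := hd (p t) hp.1
  obtain ⟨q, hq, hqt, hqf⟩ := Cd.exists_succ G r (fun i => (p t).g (p t).top i) (fun i => (p t).gk _ le_rfl i)
  have htt : (p t).top < q.top := lt_of_le_of_lt hr.1 hqt
  have hle : ∀ t', t' < s → t' ≤ t := fun t' ht' => by
    by_contra hc
    exact absurd ht' (not_lt.mpr (hst t' (not_le.mp hc)))
  refine ⟨q, (hq.trans hr).trans hp.1, ?_, ?_, ?_⟩
  · intro t' ht'
    rcases (hle t' ht').eq_or_lt with rfl | hlt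
    · exact ⟨hq.trans hr, htt, fun i _ => (hqf i).1⟩
    · obtain ⟨h1, h2, h3⟩ := hp.2.1 t' hlt
      exact ⟨(hq.trans hr).trans h1, h2.trans htt, fun i hi => (h3 i hi).trans (hqf i).1⟩
  · intro t' ht' hst'
    rcases (hle t' ht').eq_or_lt with rfl | hlt
    · exact ho r hrA q hq
    · exact absurd hts (not_lt.mpr (hst' t hlt))
  · intro _ hl
    obtain ⟨t', h1, h2⟩ := hl t hts
    exact absurd h2 (not_lt.mpr (hst t' h1))

/-- Proof. If there is no `t < s` take `q = p₀`. If some `t < s` has `t'` between `t` and `s` for no `t'` then `s` is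
the successor of `t`: `run_succ`. Otherwise `run_limit`. -/
theorem run_step (G : Ground k) {j : ℕ} {A : K → Set (Cd k)} {p₀ : Cd k} {p : K → Cd k} {s : K}
    (hs : s ≤ k j) (ho : ∀ t, OpenC (A t)) (hd : ∀ t < k j, DenseC p₀ (A t))
    (hp : ∀ t < s, Next j A p₀ p t (p t)) : ∃ q, Next j A p₀ p s q := by
  by_cases h0 : ∃ t, t < s
  · by_cases hlim : ∀ t < s, ∃ t', t < t' ∧ t' < s
    · exact run_limit G hs hp h0 hlim
    · push Not at hlim
      obtain ⟨t, hts, hst⟩ := hlim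
      exact run_succ G hts hst (hp t hts) (ho t) (hd t (lt_of_lt_of_le hts hs))
  · exact ⟨p₀, le_rfl, fun t ht => absurd ⟨t, ht⟩ h0, fun t ht => absurd ⟨t, ht⟩ h0, fun h => absurd h h0⟩

end Pool.Agent.H58C
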