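import Pool.Agent.Lib.H58C.F05

/-!
# F06: runs meet k j many dense sets
-/

set_option autoImplicit false

open Set Filter

namespace Pool.Agent.H58C

variable {K : Type} [LinearOrder K] {k : ℕ → K} [WellFoundedLT K]

/-- `Next` depends only on the earlier members. -/
theorem Next.congr {j : ℕ} {A : K → Set (Cd k)} {p₀ : Cd k} {p p' : K → Cd k} {s : K} {q : Cd k}
    (h : Next j A p₀ p s q) (he : ∀ t < s, p t = p' t) : Next j A p₀ p' s q := by
  refine ⟨h.1, ?_, h.2.2.1, ?_⟩
  · intro t ht
    rw [← he t ht]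
    exact h.2.1 t ht
  · intro h0 hlim
    obtain ⟨h1, h2⟩ := h.2.2.2 h0 hlim
    have e1 : {x | ∃ t < s, x = (p' t).top} = {x | ∃ t < s, x = (p t).top} := by
      ext x
      constructor
      · rintro ⟨t, ht, rfl⟩
        exact ⟨t, ht, by rw [he t ht]⟩
      · rintro ⟨t, ht, rfl⟩
        exact ⟨t, ht, by rw [he t ht]⟩
    have e2 : ∀ i : ℕ, {a | ∃ t < s, a = (p' t).g (p' t).top i} =
        {a | ∃ t < s, a = (p t).g (p t).top i} := by
      intro i
      ext x
      constructor
      · rintro ⟨t, ht, rfl⟩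
        exact ⟨t, ht, by rw [he t ht]⟩
      · rintro ⟨t, ht, rfl⟩
        exact ⟨t, ht, by rw [he t ht]⟩
    refine ⟨by rw [e1]; exact h1, fun i hi => ?_⟩
    rw [e2]
    exact h2 i hi

/-- Proof. Define `p` by well-founded recursion: `p s` is a chosen `q` with `Next j A p₀ p' s q` if there is
one, `p₀` otherwise, where `p' t = p t` for `t < s` and `p₀` for the other `t` (`WellFounded.fix`,
`WellFounded.fix_eq`). By induction and `run_step`, `Next.congr`: `Next j A p₀ p s (p s)` for all `s ≤ k j`. Let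
`q = p (k j)`. For `t < k j` let `s` be the successor of `t`; `s ≤ k j`, so `p s ∈ A t` and `q ≤ p s` (or `q = p s`), so
`q ∈ A t`. -/
theorem Cd.meet_j (G : Ground k) (j : ℕ) (A : K → Set (Cd k)) (p₀ : Cd k) (ho : ∀ t, OpenC (A t))
    (hd : ∀ t < k j, DenseC p₀ (A t)) : ∃ q ≤ p₀, ∀ t < k j, q ∈ A t := by
  classical
  have hwf : WellFounded ((· < ·) : K → K → Prop) := wellFounded_lt
  let step : ∀ s : K, (∀ t, t < s → Cd k) → Cd k := fun s ih =>
    if h : ∃ q, Next j A p₀ (fun t => if ht : t < s then ih t ht else p₀) s q then h.choose else p₀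
  obtain ⟨p, hfix⟩ : ∃ p : K → Cd k, ∀ s, p s = step s (fun t _ => p t) :=
    ⟨hwf.fix step, fun s => hwf.fix_eq step s⟩
  have key : ∀ s, s ≤ k j → Next j A p₀ p s (p s) := by
    intro s
    induction s using hwf.induction with
    | _ s ih =>
      intro hs
      have ih' : ∀ t < s, Next j A p₀ p t (p t) := fun t ht => ih t ht (ht.le.trans hs)
      obtain ⟨q, hq⟩ := run_step G hs ho hd ih'
      have hex : ∃ q, Next j A p₀ (fun t => if _ht : t < s then p t else p₀) s q :=
        ⟨q, hq.congr (fun t ht => by rw [dif_pos ht])⟩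
      have hps : p s = hex.choose := by
        rw [hfix s]
        exact dif_pos hex
      rw [hps]
      exact hex.choose_spec.congr (fun t ht => by rw [dif_pos ht])
  refine ⟨p (k j), (key (k j) le_rfl).1, ?_⟩
  intro t ht
  obtain ⟨s, hs, hs'⟩ := G.exists_succ t
  have hsj : s ≤ k j := hs' _ ht
  have h1 : p s ∈ A t := (key s hsj).2.2.1 t hs hs'
  rcases hsj.eq_or_lt with h | h
  · rw [← h]
    exact h1
  · exact ho t _ h1 _ ((key (k j) le_rfl).2.1 s h).1

end Pool.Agent.H58C
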