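import Pool.Agent.Lib.H58C.F03

/-!
# F07: decreasing sequences
-/

set_option autoImplicit false

open Set Filter

namespace Pool.Agent.H58C

variable {K : Type} [LinearOrder K] {k : ℕ → K} [WellFoundedLT K]

/-- A lower bound of a decreasing sequence, with a given value on top.

Proof. `Cd.exists_limit` with `I = ℕ`; `t` is tame (`tame_of_isLUB`), so `hD` is vacuous. -/
theorem Cd.exists_lower_val (p : ℕ → Cd k) (hp : ∀ n, p (n + 1) ≤ p n ∧ (p n).top < (p (n + 1)).top)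
    {t : K} (ht : IsLUB (range fun n => (p n).top) t) (f : ℕ → K) (hf : ∀ i, f i < k i)
    (hinc : ∀ n, ∀ᶠ i in atTop, (p n).g (p n).top i < f i) :
    ∃ q : Cd k, q.top = t ∧ q.g t = f ∧ ∀ n, q ≤ p n := by
  have hanti : ∀ a b, a < b → p b ≤ p a ∧ (p a).top < (p b).top := fun a b hab =>
    ⟨antitone_nat_of_succ_le (fun n => (hp n).1) hab.le,
      strictMono_nat_of_lt_succ (f := fun n => (p n).top) (fun n => (hp n).2) hab⟩
  exact Cd.exists_limit p hanti ht f hf hinc ∅ 0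
    (fun h => absurd (tame_of_isLUB (fun n => (hp n).2) ht) h)

/-- Proof. Take the least upper bound `t` of the tops (`G.bdd_seq`, `exists_isLUB`), and `f i < k i` a strict bound of
the `(p n).g (p n).top i` (`G.bddN`). -/
theorem Cd.exists_lower (G : Ground k) (p : ℕ → Cd k)
    (hp : ∀ n, p (n + 1) ≤ p n ∧ (p n).top < (p (n + 1)).top) : ∃ q : Cd k, ∀ n, q ≤ p n := by
  obtain ⟨d, hd⟩ := G.bdd_seq (fun n => (p n).top)
  obtain ⟨t, _, ht⟩ := exists_isLUB (A := range fun n => (p n).top) (b := d)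
    (by rintro _ ⟨n, rfl⟩; exact hd n)
  have h1 : ∀ i, ∃ b < k i, ∀ n, (p n).g (p n).top i < b := fun i =>
    G.bddN i _ (fun n => (p n).gk _ le_rfl i)
  choose f hf hfb using h1
  obtain ⟨q, _, _, hq⟩ := Cd.exists_lower_val p hp ht f hf
    (fun n => Eventually.of_forall fun i => hfb i n)
  exact ⟨q, hq⟩

/-- Countably many dense sets.

Proof. Define by recursion a decreasing sequence `p n ≤ p₀` with `p (n + 1) ∈ A n`, `(p n).top < (p (n + 1)).top`
(density, then `Cd.exists_succ` with any `f`, openness); `Cd.exists_lower`. -/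
theorem Cd.meet_nat (G : Ground k) (A : ℕ → Set (Cd k)) (p₀ : Cd k) (ho : ∀ n, OpenC (A n))
    (hd : ∀ n, DenseC p₀ (A n)) : ∃ q ≤ p₀, ∀ n, q ∈ A n := by
  have hstep : ∀ (n : ℕ) (p : {p : Cd k // p ≤ p₀}), ∃ q : {p : Cd k // p ≤ p₀},
      q.1 ≤ p.1 ∧ p.1.top < q.1.top ∧ q.1 ∈ A n := by
    rintro n ⟨p, hp⟩
    obtain ⟨q, hq, hqA⟩ := hd n p hp
    obtain ⟨r, hr, hrt, _⟩ := Cd.exists_succ G q (fun i => q.g q.top i)
      (fun i => q.gk _ le_rfl i)
    exact ⟨⟨r, hr.trans (hq.trans hp)⟩, hr.trans hq, hq.1.trans_lt hrt, ho n q hqA r hr⟩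
  choose F hF1 hF2 hF3 using hstep
  let u : ℕ → {p : Cd k // p ≤ p₀} := fun n => Nat.rec ⟨p₀, le_rfl⟩ (fun n x => F n x) n
  obtain ⟨q, hq⟩ := Cd.exists_lower G (fun n => (u n).1)
    (fun n => ⟨hF1 n (u n), hF2 n (u n)⟩)
  exact ⟨q, hq 0, fun n => ho n _ (hF3 n (u n)) q (hq (n + 1))⟩

theorem Cd.meet_countable (G : Ground k) {C : Type} [Countable C] (A : C → Set (Cd k)) (p₀ : Cd k)
    (ho : ∀ n, OpenC (A n)) (hd : ∀ n, DenseC p₀ (A n)) : ∃ q ≤ p₀, ∀ n, q ∈ A n := by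
  rcases isEmpty_or_nonempty C with hC | hC
  · exact ⟨p₀, le_rfl, fun n => (hC.false n).elim⟩
  · obtain ⟨e, he⟩ := exists_surjective_nat C
    obtain ⟨q, hq, h⟩ := Cd.meet_nat G (fun n => A (e n)) p₀ (fun n => ho (e n))
      (fun n => hd (e n))
    refine ⟨q, hq, fun c => ?_⟩
    obtain ⟨n, rfl⟩ := he c
    exact h n

end Pool.Agent.H58C
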