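import Pool.Agent.Lib.H58C.F06
import Pool.Agent.Lib.H58C.F07

/-!
# F08: distributivity
-/

set_option autoImplicit false

open Set Filter

namespace Pool.Agent.H58C

variable {K : Type} [LinearOrder K] {k : ℕ → K} [WellFoundedLT K]

/-- The forcing is distributive.

Proof. Let `e` be from `G.split a`. Let `B j` be the set of conditions `q ≤ p₀` (or arbitrary) with `q ∈ A (e j s)` for all
`s < k j`: it is open, and dense below `p₀` by `Cd.meet_j` (applied to a condition below `p₀` and the sets
`A (e j s)`). Apply `Cd.meet_nat` to the sets `B j`. -/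
theorem Cd.meet (G : Ground k) (a : K) (A : K → Set (Cd k)) (p₀ : Cd k) (ho : ∀ x, OpenC (A x))
    (hd : ∀ x, DenseC p₀ (A x)) : ∃ q ≤ p₀, ∀ x < a, q ∈ A x := by
  obtain ⟨e, he⟩ := G.split a
  obtain ⟨q, hq, hqB⟩ := Cd.meet_nat G (fun j => {q : Cd k | ∀ s < k j, q ∈ A (e j s)}) p₀
    (fun j p hp q hqp s hs => ho _ p (hp s hs) q hqp)
    (fun j p hp => by
      obtain ⟨q, hqp, hq⟩ := Cd.meet_j G j (fun s => A (e j s)) p (fun s => ho _)
        (fun s _ p' hp' => hd _ p' (hp'.trans hp))
      exact ⟨q, hqp, hq⟩)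
  refine ⟨q, hq, fun x hx => ?_⟩
  obtain ⟨j, s, hs, hes⟩ := he x hx
  rw [← hes]
  exact hqB j s hs

/-- Proof. Induction on `b`: by `Cd.meet` applied to the sets `{q | x ≤ q.top}` for `x < b` (open, and dense by the
induction hypothesis; for `x ≥ b` use the whole space, i.e. the sets `{q | x < b → x ≤ q.top}`) there is `q ≤ p`
with `x ≤ q.top` for all `x < b`. By `Cd.exists_succ` there is `q' ≤ q` with `q.top < q'.top`. Then `b ≤ q'.top`:
otherwise `q'.top < b`, so `q'.top ≤ q.top`. -/
theorem Cd.exists_top (G : Ground k) (b : K) (p : Cd k) : ∃ q ≤ p, b ≤ q.top := by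
  induction b using WellFoundedLT.induction generalizing p with
  | ind b ih =>
    obtain ⟨q, hqp, hq⟩ := Cd.meet G b (fun x => {q : Cd k | x < b → x ≤ q.top}) p
      (fun x p' hp' q' hq' hx => (hp' hx).trans ((Cd.le_def q' p').1 hq').1)
      (fun x p' _ => by
        by_cases hx : x < b
        · obtain ⟨q', hq', hq''⟩ := ih x hx p'
          exact ⟨q', hq', fun _ => hq''⟩
        · exact ⟨p', le_rfl, fun h => absurd h hx⟩)
    have hf : ∀ i, ∃ o, o < k i := fun i => G.pos' i
    choose f hf using hf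
    obtain ⟨q', hq', hlt, -⟩ := Cd.exists_succ G q f hf
    refine ⟨q', hq'.trans hqp, ?_⟩
    by_contra hcon
    rw [not_le] at hcon
    exact absurd hlt (not_lt.2 (hq _ hcon hcon))

end Pool.Agent.H58C
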