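import Pool.Agent.Lib.H58C.FDefs

/-!
# F09: the bound h
-/

set_option autoImplicit false

open Set Filter

namespace Pool.Agent.H58C

variable {K : Type} [LinearOrder K] {k : ℕ → K} [WellFoundedLT K]

/-- Proof: `k i` belongs to the set (`WellFounded.not_lt_min`). -/
theorem Cd.hval_le (p : Cd k) (c : K) (i : ℕ) : p.hval c i ≤ k i := by
  classical
  unfold Cd.hval
  split_ifs with h
  · exact le_rfl
  · exact not_lt.1 (WellFounded.not_lt_min (wellFounded_lt : WellFounded ((· < ·) : K → K → Prop))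
      {b | b = k i ∨ ∀ z ∈ p.D c, p.g z i < b} (Or.inl rfl))

/-- Proof. The minimum is in the set; if it is `k i` use `p.gk` (`z < c ≤ top` by `p.club`). -/
theorem Cd.lt_hval (p : Cd k) {c : K} (hc : c ≤ p.top) (hc' : ¬ Tame c) (i : ℕ) {z : K}
    (hz : z ∈ p.D c) : p.g z i < p.hval c i := by
  classical
  unfold Cd.hval
  rw [if_neg hc']
  have hm := WellFounded.min_mem (wellFounded_lt : WellFounded ((· < ·) : K → K → Prop))
    {b | b = k i ∨ ∀ z ∈ p.D c, p.g z i < b} ⟨k i, Or.inl rfl⟩
  rcases hm with h | h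
  · rw [h]
    exact p.gk z (((p.club c hc hc').1.1 z hz).le.trans hc) i
  · exact h z hz

/-- Proof: minimality. -/
theorem Cd.exists_of_lt_hval (p : Cd k) {c : K} (hc' : ¬ Tame c) {i : ℕ} {a : K}
    (ha : a < p.hval c i) : ∃ z ∈ p.D c, a ≤ p.g z i := by
  classical
  by_contra h
  push Not at h
  unfold Cd.hval at ha
  rw [if_neg hc'] at ha
  exact WellFounded.not_lt_min (wellFounded_lt : WellFounded ((· < ·) : K → K → Prop))
    {b | b = k i ∨ ∀ z ∈ p.D c, p.g z i < b} (Or.inr h) ha

/-- Proof. `q.D c = p.D c` and `q.g z = p.g z` for `z ∈ p.D c` (as `z < c ≤ p.top` by `p.club`), if `c` is not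
tame. -/
theorem Cd.hval_congr {p q : Cd k} (h : q ≤ p) {c : K} (hc : c ≤ p.top) (i : ℕ) :
    q.hval c i = p.hval c i := by
  classical
  unfold Cd.hval
  by_cases hc' : Tame c
  · rw [if_pos hc', if_pos hc']
  · rw [if_neg hc', if_neg hc']
    have hD : q.D c = p.D c := (h.2 c hc).2.1
    have hg : ∀ z ∈ p.D c, q.g z i = p.g z i := fun z hz => by
      rw [(h.2 z (((p.club c hc hc').1.1 z hz).le.trans hc)).1]
    have e : {b | b = k i ∨ ∀ z ∈ q.D c, q.g z i < b} = {b | b = k i ∨ ∀ z ∈ p.D c, p.g z i < b} := by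
      ext b
      simp only [Set.mem_ofPred_eq]
      rw [hD]
      constructor
      · rintro (h1 | h1)
        · exact Or.inl h1
        · exact Or.inr fun z hz => by rw [← hg z hz]; exact h1 z hz
      · rintro (h1 | h1)
        · exact Or.inl h1
        · exact Or.inr fun z hz => by rw [hg z hz]; exact h1 z hz
    simp only [e]

end Pool.Agent.H58C
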