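import Pool.Agent.Lib.H58C.F08
import Pool.Agent.Lib.H58C.F09

/-!
# F10: names of the scale and of the bounds
-/

set_option autoImplicit false

open Set Filter

namespace Pool.Agent.H58C

variable {K : Type} [LinearOrder K] {k : ℕ → K} [WellFoundedLT K]

open Pool.Agent.H5Z in
/-- Proof. If `p` forces the value `a` there is `r ≤ p` below some `q` with `x ≤ q.top`, `q.g x i = a`; and
`r.g x = p.g x`, `r.g x = q.g x`. The converse is clear. (As `DC.mem_S` in `Lib/H30C/DiaForcing.lean`.) -/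
theorem mem_gN {x : K} {i : ℕ} {a : K} {p : Cd k} (hx : x ≤ p.top) :
    p ∈ (gN x i a : RO (Cd k)).s ↔ p.g x i = a := by
  constructor
  · intro hp
    obtain ⟨r, hr, q, ⟨hq1, hq2⟩, hrq⟩ := hp p le_rfl
    have h1 : r.g x = p.g x := (((Cd.le_def r p).1 hr).2 x hx).1
    have h2 : r.g x = q.g x := (((Cd.le_def r q).1 hrq).2 x hq1).1
    rw [← h1, h2]
    exact hq2
  · intro hs q hq
    exact ⟨q, le_rfl, p, ⟨hx, hs⟩, hq⟩

open Pool.Agent.H5Z in
/-- Proof: in the same way, with `Cd.hval_congr`. -/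
theorem mem_hN {c : K} {i : ℕ} {a : K} {p : Cd k} (hc : c ≤ p.top) :
    p ∈ (hN c i a : RO (Cd k)).s ↔ p.hval c i = a := by
  constructor
  · intro hp
    obtain ⟨r, hr, q, ⟨hq1, hq2⟩, hrq⟩ := hp p le_rfl
    rw [← Cd.hval_congr hr hc i, Cd.hval_congr hrq hq1 i]
    exact hq2
  · intro hs q hq
    exact ⟨q, le_rfl, p, ⟨hc, hs⟩, hq⟩

end Pool.Agent.H58C
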