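import Pool.Agent.Lib.H58C.F08

/-!
# F11: one step of closing off
-/

set_option autoImplicit false

open Set Filter

namespace Pool.Agent.H58C

variable {K : Type} [LinearOrder K] {k : ℕ → K} [WellFoundedLT K]

/-- Closing off a countable set.

Proof. `A'` is the union of `A`, `{p.top}`, the least element of `K`, the successors of the elements of `A`
(`G.exists_succ`), for each tame `a ∈ A` the values of a witness of `Tame a`, the values `p.g x i` (`x ∈ A` or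
`x = p.top`), for `c, x ∈ A` a chosen element as in `next`, and for `c, a ∈ A`, `i` a chosen element as in `nextg`:
all countable (`Set.Countable.image`, `countable_iUnion`, or images of countable types). For `lad`: if
`b < a` there is `n` with `b ≤ f n < a`. -/
theorem exists_clStep (G : Ground k) (p : Cd k) {A : Set K} (hA : A.Countable) :
    ∃ A' : Set K, A'.Countable ∧ ClStep p A A' := by
  classical
  obtain ⟨o, -, ho⟩ := (wellFounded_lt : WellFounded ((· < ·) : K → K → Prop)).has_min univ ⟨p.top, trivial⟩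
  have ho' : ∀ a, o ≤ a := fun a => not_lt.1 (ho a trivial)
  choose S hS1 hS2 using G.exists_succ
  have hw : ∀ a : K, ∃ w : ℕ → K, Tame a → ∀ b < a, ∃ n, b ≤ w n ∧ w n < a := by
    intro a
    by_cases h : Tame a
    · obtain ⟨f, hf⟩ := h
      exact ⟨f, fun _ => hf⟩
    · exact ⟨fun _ => a, fun h' => absurd h' h⟩
  choose w hw using hw
  have hnx : ∀ c x : K, ∃ z, (∃ z ∈ p.D c, x < z) → z ∈ p.D c ∧ x < z := by
    intro c x
    by_cases h : ∃ z ∈ p.D c, x < z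
    · obtain ⟨z, h1, h2⟩ := h
      exact ⟨z, fun _ => ⟨h1, h2⟩⟩
    · exact ⟨x, fun h' => absurd h' h⟩
  choose nx hnx using hnx
  have hng : ∀ (c a : K) (i : ℕ), ∃ z, (∃ z ∈ p.D c, a < p.g z i) → z ∈ p.D c ∧ a < p.g z i := by
    intro c a i
    by_cases h : ∃ z ∈ p.D c, a < p.g z i
    · obtain ⟨z, h1, h2⟩ := h
      exact ⟨z, fun _ => ⟨h1, h2⟩⟩
    · exact ⟨a, fun h' => absurd h' h⟩
  choose ng hng using hng
  refine ⟨A ∪ {p.top, o} ∪ S '' A ∪ (⋃ a ∈ A, range (w a)) ∪ (⋃ x ∈ insert p.top A, range (p.g x)) ∪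
    image2 nx A A ∪ ⋃ i : ℕ, image2 (fun c a => ng c a i) A A, ?_, ?_⟩
  · refine (((((hA.union (by simp)).union (hA.image S)).union ?_).union ?_).union (hA.image2 hA nx)).union ?_
    · exact hA.biUnion fun a _ => countable_range _
    · exact (hA.insert p.top).biUnion fun a _ => countable_range _
    · exact countable_iUnion fun i => hA.image2 hA _
  · refine ⟨?_, ?_, ⟨o, ?_, ho'⟩, ?_, ?_, ?_, ?_, ?_, ?_⟩
    · intro a ha
      exact Or.inl (Or.inl (Or.inl (Or.inl (Or.inl (Or.inl ha)))))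
    · exact Or.inl (Or.inl (Or.inl (Or.inl (Or.inl (Or.inr (Or.inl rfl))))))
    · exact Or.inl (Or.inl (Or.inl (Or.inl (Or.inl (Or.inr (Or.inr rfl))))))
    · intro a ha
      exact ⟨S a, Or.inl (Or.inl (Or.inl (Or.inl (Or.inr ⟨a, ha, rfl⟩)))), hS1 a, hS2 a⟩
    · intro a ha hT b hb
      obtain ⟨n, h1, h2⟩ := hw a hT b hb
      refine ⟨w a n, Or.inl (Or.inl (Or.inl (Or.inr ?_))), h1, h2⟩
      exact mem_iUnion₂.2 ⟨a, ha, n, rfl⟩
    · intro x hx i
      refine Or.inl (Or.inl (Or.inr ?_))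
      exact mem_iUnion₂.2 ⟨x, Or.inr hx, i, rfl⟩
    · intro i
      refine Or.inl (Or.inl (Or.inr ?_))
      exact mem_iUnion₂.2 ⟨p.top, Or.inl rfl, i, rfl⟩
    · intro c hc _ x hx h
      obtain ⟨h1, h2⟩ := hnx c x h
      exact ⟨nx c x, h1, Or.inl (Or.inr ⟨c, hc, x, hx, rfl⟩), h2⟩
    · intro c hc _ a ha i h
      obtain ⟨h1, h2⟩ := hng c a i h
      exact ⟨ng c a i, h1, Or.inr (mem_iUnion.2 ⟨i, c, hc, a, ha, rfl⟩), h2⟩

/-- The set `A'` may be enlarged. -/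
theorem ClStep.mono {p : Cd k} {A A' A'' : Set K} (h : ClStep p A A') (hA : A' ⊆ A'') :
    ClStep p A A'' := by
  refine ⟨h.sub.trans hA, hA h.top, ?_, ?_, ?_, ?_, ?_, ?_, ?_⟩
  · obtain ⟨o, h1, h2⟩ := h.least
    exact ⟨o, hA h1, h2⟩
  · intro a ha
    obtain ⟨s, h1, h2⟩ := h.succ a ha
    exact ⟨s, hA h1, h2⟩
  · intro a ha hT b hb
    obtain ⟨v, h1, h2⟩ := h.lad a ha hT b hb
    exact ⟨v, hA h1, h2⟩
  · exact fun x hx i => hA (h.gA x hx i)
  · exact fun i => hA (h.gtop i)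
  · intro c hc hT x hx h'
    obtain ⟨z, h1, h2, h3⟩ := h.next c hc hT x hx h'
    exact ⟨z, h1, hA h2, h3⟩
  · intro c hc hT a ha i h'
    obtain ⟨z, h1, h2, h3⟩ := h.nextg c hc hT a ha i h'
    exact ⟨z, h1, hA h2, h3⟩

open Pool.Agent.H5Z in
/-- One step of the construction for the guessing property.

Proof. `G.bdd_countable` gives `d` with `A < d`; `Cd.exists_top G d p` and `Cd.exists_succ` give `p₁ ≤ p` with
`d ≤ p₁.top`, `p.top < p₁.top`. Apply `Cd.meet_countable` (index type `ℕ × A × A`) to the open sets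
`{q | ∃ z, q ∈ (F j x y z).s}`, dense below `p₀` by `h` (`RO.mem_iSup`); this gives `q ≤ p₁`. Let `A'` be the
union of the set of `exists_clStep G q hA` and the set of the chosen `z`. -/
theorem guess_step (G : Ground k) (F : ℕ → K → K → K → RO (Cd k)) (p₀ : Cd k)
    (h : ∀ j x y, p₀ ∈ (⨆ z, F j x y z : RO (Cd k)).s) (p : Cd k) (hp : p ≤ p₀) {A : Set K}
    (hA : A.Countable) :
    ∃ q ≤ p, ∃ A' : Set K, A'.Countable ∧ p.top < q.top ∧ (∀ v ∈ A, v < q.top) ∧ ClStep q A A' ∧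
      ∀ j, ∀ x ∈ A, ∀ y ∈ A, ∃ z ∈ A', q ∈ (F j x y z).s := by
  obtain ⟨d, hd⟩ := G.bdd_countable hA
  obtain ⟨p₂, hp₂, hd₂⟩ := Cd.exists_top G d p
  choose f hf using G.pos'
  obtain ⟨p₁, hp₁, ht₁, -⟩ := Cd.exists_succ G p₂ f hf
  have : Countable A := hA.to_subtype
  obtain ⟨q, hq, hqA⟩ := Cd.meet_countable G (C := ℕ × A × A)
    (fun c => {q | ∃ z, q ∈ (F c.1 c.2.1 c.2.2 z).s}) p₁
    (fun c r hr r' hr' => by
      obtain ⟨z, hz⟩ := hr
      exact ⟨z, (F c.1 c.2.1 c.2.2 z).lower hz hr'⟩)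
    (fun c r hr => by
      obtain ⟨r', h1, z, h2⟩ := (RO.mem_iSup _ p₀).1 (h c.1 c.2.1 c.2.2) r
        (hr.trans (hp₁.trans (hp₂.trans hp)))
      exact ⟨r', h1, z, h2⟩)
  choose z hz using hqA
  obtain ⟨A₁, hA₁, hcl⟩ := exists_clStep G q hA
  have hqt : p₁.top ≤ q.top := hq.1
  refine ⟨q, hq.trans (hp₁.trans hp₂), A₁ ∪ range z, hA₁.union (countable_range z), ?_, ?_,
    hcl.mono subset_union_left, ?_⟩
  · exact (hp₂.1.trans_lt ht₁).trans_le hqt
  · intro v hv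
    exact ((hd v hv).trans_le hd₂).trans (ht₁.trans_le hqt)
  · intro j x hx y hy
    exact ⟨z (j, ⟨x, hx⟩, ⟨y, hy⟩), Or.inr ⟨_, rfl⟩, hz (j, ⟨x, hx⟩, ⟨y, hy⟩)⟩

end Pool.Agent.H58C
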