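import Pool.Agent.Lib.H58C.F11

/-!
# F12: the closed set N and the condition with top value given by N
-/

set_option autoImplicit false

open Set Filter

namespace Pool.Agent.H58C

variable {K : Type} [LinearOrder K] {k : ℕ → K} [WellFoundedLT K]

open Pool.Agent.H5Z in
/-- The construction for the guessing property.

Proof. By recursion with `guess_step` there are `p n` and countable `A n` with `p 0 = p₀`, `A 0 = ∅`, `p (n + 1) ≤ p n`,
`(p n).top < (p (n + 1)).top`, `A n < (p (n + 1)).top`, `ClStep (p (n + 1)) (A n) (A (n + 1))`, and values in `A (n + 1)` for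
`x, y ∈ A n`, forced by `p (n + 1)`. Let `N` be the union of the `A n`, `t` the least upper bound of the tops
(`G.bdd_seq`, `exists_isLUB`), and let `f i` be the least upper bound of the elements of `N` below `k i`
(`G.bddN_countable`, `exists_isLUB`), `f i < k i`. Elements `v ∈ N`, `v < k i` satisfy `v < f i`: the successor `s` of `v` is in `N` and
`s < k i` (`G.exists_gt_lt`), so `v < s ≤ f i`. `(p n).g (p n).top i ∈ N` for `n ≥ 1` (`gtop`), so it is `< f i`; for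
`n = 0`: `(p 0).top < (p 1).top`, so `(p 0).g (p 0).top = (p 1).g (p 0).top < (p 1).g (p 1).top` eventually (`inc`). Let `q` be from
`Cd.exists_lower_val`. `ClFin q N`: an element of `N` is in some `A n`, `n ≥ 1`, is `< (p (n + 1)).top < t`;
`unb`: the tops are in `N` (`top`). For `x ∈ A n` we have `q.g x = (p (n + 1)).g x`, `q.D x = (p (n + 1)).D x`, and the elements `z` of
`q.D c` for `c ∈ A n` with `c` not tame are less than `c` (`club`), so `q.g z = (p (n + 1)).g z`: this gives `next` and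
`nextg`. `q ∈ (F j x y z).s` because `q ≤ p (n + 1)` (`RO.lower`). -/
theorem exists_clFin (G : Ground k) (F : ℕ → K → K → K → RO (Cd k)) (p₀ : Cd k)
    (h : ∀ j x y, p₀ ∈ (⨆ z, F j x y z : RO (Cd k)).s) :
    ∃ q ≤ p₀, ∃ N : Set K, ClFin q N ∧ ∀ j, ∀ x ∈ N, ∀ y ∈ N, ∃ z ∈ N, q ∈ (F j x y z).s := by
  classical
  have hstep : ∀ s : {s : Cd k × Set K // s.1 ≤ p₀ ∧ s.2.Countable},
      ∃ s' : {s : Cd k × Set K // s.1 ≤ p₀ ∧ s.2.Countable}, s'.1.1 ≤ s.1.1 ∧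
        s.1.1.top < s'.1.1.top ∧ (∀ v ∈ s.1.2, v < s'.1.1.top) ∧
        ClStep s'.1.1 s.1.2 s'.1.2 ∧
        ∀ j, ∀ x ∈ s.1.2, ∀ y ∈ s.1.2, ∃ z ∈ s'.1.2, s'.1.1 ∈ (F j x y z).s := by
    rintro ⟨⟨p, A⟩, hp, hA⟩
    obtain ⟨q, hq, A', hA', h1, h2, h3, h4⟩ := guess_step G F p₀ h p hp hA
    exact ⟨⟨⟨q, A'⟩, hq.trans hp, hA'⟩, hq, h1, h2, h3, h4⟩
  choose T hT1 hT2 hT3 hT4 hT5 using hstep
  let u : ℕ → {s : Cd k × Set K // s.1 ≤ p₀ ∧ s.2.Countable} := fun n =>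
    Nat.rec ⟨⟨p₀, ∅⟩, le_rfl, countable_empty⟩ (fun _ x => T x) n
  have hu : ∀ n, u (n + 1) = T (u n) := fun n => rfl
  obtain ⟨p, hpd⟩ : ∃ p : ℕ → Cd k, ∀ n, p n = (u n).1.1 := ⟨_, fun _ => rfl⟩
  obtain ⟨A, hAd⟩ : ∃ A : ℕ → Set K, ∀ n, A n = (u n).1.2 := ⟨_, fun _ => rfl⟩
  have hp0 : p 0 ≤ p₀ := by
    rw [hpd]
    exact (u 0).2.1
  have hAc : ∀ n, (A n).Countable := fun n => by
    rw [hAd]
    exact (u n).2.2
  have hp1 : ∀ n, p (n + 1) ≤ p n := fun n => by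
    rw [hpd, hpd, hu]
    exact hT1 (u n)
  have hp2 : ∀ n, (p n).top < (p (n + 1)).top := fun n => by
    rw [hpd, hpd, hu]
    exact hT2 (u n)
  have hA3 : ∀ n, ∀ v ∈ A n, v < (p (n + 1)).top := fun n => by
    rw [hpd, hAd, hu]
    exact hT3 (u n)
  have hcl : ∀ n, ClStep (p (n + 1)) (A n) (A (n + 1)) := fun n => by
    rw [hpd, hAd, hAd, hu]
    exact hT4 (u n)
  have hF : ∀ n j, ∀ x ∈ A n, ∀ y ∈ A n, ∃ z ∈ A (n + 1), p (n + 1) ∈ (F j x y z).s := fun n => by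
    rw [hpd, hAd, hAd, hu]
    exact hT5 (u n)
  clear_value u
  clear hT1 hT2 hT3 hT4 hT5 hu
  have hmono : Monotone A := monotone_nat_of_le_succ fun n => (hcl n).sub
  obtain ⟨N, hN⟩ : ∃ N : Set K, N = ⋃ n, A n := ⟨_, rfl⟩
  have hAN : ∀ n, A n ⊆ N := fun n => by
    rw [hN]
    exact subset_iUnion A n
  have hNA : ∀ v ∈ N, ∃ n, v ∈ A n := fun v hv => by
    rw [hN] at hv
    exact mem_iUnion.1 hv
  have hNA2 : ∀ v ∈ N, ∀ w ∈ N, ∃ n, v ∈ A n ∧ w ∈ A n := fun v hv w hw => by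
    obtain ⟨n, hn⟩ := hNA v hv
    obtain ⟨m, hm⟩ := hNA w hw
    exact ⟨max n m, hmono (le_max_left _ _) hn, hmono (le_max_right _ _) hm⟩
  have hNc : N.Countable := by
    rw [hN]
    exact countable_iUnion hAc
  -- the least upper bound of the tops
  obtain ⟨d, hd⟩ := G.bdd_seq (fun n => (p n).top)
  obtain ⟨t, _, ht⟩ := exists_isLUB (A := range fun n => (p n).top) (b := d)
    (by rintro _ ⟨n, rfl⟩; exact hd n)
  have htop : ∀ n, (p n).top < t := fun n => (hp2 n).trans_le (ht.1 ⟨n + 1, rfl⟩)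
  -- the top value
  have hf0 : ∀ i, ∃ c, c < k i ∧ IsLUB {v | v ∈ N ∧ v < k i} c := fun i => by
    obtain ⟨e, he, he'⟩ := G.bddN_countable i (N := {v | v ∈ N ∧ v < k i})
      (hNc.mono fun v hv => hv.1) (fun v hv => hv.2)
    obtain ⟨c, hc, hc'⟩ := exists_isLUB he'
    exact ⟨c, hc.trans_lt he, hc'⟩
  choose f hfk hf using hf0
  have hsucc : ∀ a ∈ N, ∃ s ∈ N, a < s ∧ ∀ b, a < b → s ≤ b := fun a ha => by
    obtain ⟨n, hn⟩ := hNA a ha
    obtain ⟨s, hs, h1, h2⟩ := (hcl n).succ a hn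
    exact ⟨s, hAN _ hs, h1, h2⟩
  have hNf : ∀ i, ∀ v ∈ N, v < k i → v < f i := fun i v hv hvk => by
    obtain ⟨s, hs, h1, h2⟩ := hsucc v hv
    obtain ⟨b, hb1, hb2⟩ := G.exists_gt_lt hvk
    exact h1.trans_le ((hf i).1 ⟨hs, (h2 b hb1).trans_lt hb2⟩)
  have hinc : ∀ n, ∀ᶠ i in atTop, (p n).g (p n).top i < f i := by
    intro n
    rcases n with _ | n
    · have h1 := (p (0 + 1)).inc (p 0).top (p (0 + 1)).top (hp2 0) le_rfl
      have h2 : (p (0 + 1)).g (p 0).top = (p 0).g (p 0).top :=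
        (((Cd.le_def _ _).1 (hp1 0)).2 (p 0).top le_rfl).1
      filter_upwards [h1] with i hi
      rw [h2] at hi
      exact hi.trans (hNf i _ (hAN _ ((hcl 0).gtop i)) ((p (0 + 1)).gk _ le_rfl i))
    · exact Eventually.of_forall fun i =>
        hNf i _ (hAN _ ((hcl n).gtop i)) ((p (n + 1)).gk _ le_rfl i)
  obtain ⟨q, hqt, hqf, hqp⟩ := Cd.exists_lower_val p (fun n => ⟨hp1 n, hp2 n⟩) ht f hfk hinc
  have hqg : ∀ n, ∀ x ≤ (p n).top, q.g x = (p n).g x ∧ q.D x = (p n).D x := fun n x hx =>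
    ⟨(((Cd.le_def _ _).1 (hqp n)).2 x hx).1, (((Cd.le_def _ _).1 (hqp n)).2 x hx).2.1⟩
  refine ⟨q, (hqp 0).trans hp0, N, ?_, ?_⟩
  · refine ⟨hNc, ?_, ?_, ?_, hsucc, ?_, ?_, ?_, ?_, ?_⟩
    · obtain ⟨o, ho, ho'⟩ := (hcl 0).least
      exact ⟨o, hAN _ ho, ho'⟩
    · intro v hv
      obtain ⟨n, hn⟩ := hNA v hv
      rw [hqt]
      exact (hA3 n v hn).trans (htop _)
    · intro y hy
      rw [hqt] at hy
      obtain ⟨_, ⟨n, rfl⟩, hn⟩ := (lt_isLUB_iff ht).1 hy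
      exact ⟨(p (n + 1)).top, hAN _ (hcl n).top, hn.trans (hp2 n)⟩
    · intro a ha hT b hb
      obtain ⟨n, hn⟩ := hNA a ha
      obtain ⟨v, hv, h1, h2⟩ := (hcl n).lad a hn hT b hb
      exact ⟨v, hAN _ hv, h1, h2⟩
    · intro x hx i
      obtain ⟨n, hn⟩ := hNA x hx
      rw [(hqg (n + 1) x (hA3 n x hn).le).1]
      exact hAN _ ((hcl n).gA x hn i)
    · intro c hc hT x hx hex
      obtain ⟨n, hcn, hxn⟩ := hNA2 c hc x hx
      have e := (hqg (n + 1) c (hA3 n c hcn).le).2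
      rw [e] at hex ⊢
      obtain ⟨z, hz, hzA, hxz⟩ := (hcl n).next c hcn hT x hxn hex
      exact ⟨z, hz, hAN _ hzA, hxz⟩
    · intro c hc hT a ha i hex
      obtain ⟨n, hcn, han⟩ := hNA2 c hc a ha
      have hctop := (hA3 n c hcn).le
      have e := (hqg (n + 1) c hctop).2
      have hg : ∀ z ∈ (p (n + 1)).D c, q.g z i = (p (n + 1)).g z i := fun z hz => by
        rw [(hqg (n + 1) z ((((p (n + 1)).club c hctop hT).1.1 z hz).le.trans hctop)).1]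
      rw [e] at hex ⊢
      obtain ⟨z, hz, hzA, haz⟩ := (hcl n).nextg c hcn hT a han i (by
        obtain ⟨z, hz, haz⟩ := hex
        exact ⟨z, hz, by rw [← hg z hz]; exact haz⟩)
      exact ⟨z, hz, hAN _ hzA, by rw [hg z hz]; exact haz⟩
    · intro i
      rw [hqt, hqf]
      refine ⟨hNf i, fun z hz => ?_⟩
      obtain ⟨v, ⟨hv, hvk⟩, hzv⟩ := (lt_isLUB_iff (hf i)).1 hz
      exact ⟨v, hv, hzv, hNf i v hv hvk⟩
  · intro j x hx y hy
    obtain ⟨n, hxn, hyn⟩ := hNA2 x hx y hy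
    obtain ⟨z, hz, hzF⟩ := hF n j x hxn y hyn
    exact ⟨z, hAN _ hz, (F j x y z).lower hzF (hqp (n + 1))⟩

end Pool.Agent.H58C
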