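import Pool.Agent.Lib.H58C.F09

/-!
# F13: the scale traces a closed set
-/

set_option autoImplicit false

open Set Filter

namespace Pool.Agent.H58C

variable {K : Type} [LinearOrder K] {k : ℕ → K} [WellFoundedLT K]

/-- Points above the top of `q`.

Proof. `r = q.top`: all `v ∈ N` are `< q.top` (`lt_top`). `q'.g q.top = q.g q.top`. `Tail`: for large `i`,
`q'.g q.top i ≤ q'.g x i` (`q'.inc`, or `x = q.top`), `q'.g x i < k i` (`q'.gk`), and `C.chi i`. -/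
theorem ClFin.trace_top {q : Cd k} {N : Set K} (C : ClFin q N) {q' : Cd k} (hq : q' ≤ q) {x : K}
    (hx : q.top ≤ x) (hx' : x ≤ q'.top) :
    (∀ v ∈ N, v < q.top) ∧ Tail q'.g N q.top x k := by
  refine ⟨C.lt_top, ?_⟩
  have e1 : q'.g q.top = q.g q.top := (hq.2 q.top le_rfl).1
  have h1 : ∀ᶠ i in atTop, q'.g q.top i ≤ q'.g x i := by
    rcases hx.lt_or_eq with h | h
    · exact (q'.inc q.top x h hx').mono fun i hi => hi.le
    · rw [← h]
      exact Filter.Eventually.of_forall fun i => le_rfl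
  refine h1.mono fun i hi => ⟨hi, q'.gk x hx' i, ?_, ?_⟩
  · intro v hv hvk
    rw [e1]
    exact (C.chi i).1 v hv hvk
  · intro z hz
    rw [e1] at hz ⊢
    exact (C.chi i).2 z hz

/-- The element of `N` above a point `x ∉ N`, and the supremum of `N` below it.

Proof. Let `c` be the least element of `N` above `x` (`C.unb`, well-foundedness). It is not tame: otherwise
`C.lad` gives `v ∈ N` with `x ≤ v < c`, and `v ≠ x`. Let `r` be the least upper bound of the elements of `N` below `c`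
(these are `< x`); `r ≤ x`. If `v ∈ N`, `v < c`: the successor `s ∈ N` of `v` satisfies `s ≤ c`, and `s ≠ c` because `c` is
not tame (`tame_succ`-argument: `fun _ => v` is a witness), so `s < c`, `v < s ≤ r`. Let `o` be the least element; `o < c` (otherwise `c`
is tame), so `o < r`. `LimPt (q.D c) r` with witnesses in `N`: let `y < r`, take `v ∈ N` with `y < v < c` (supremum), `z ∈ q.D c` with
`v < z` (club), by `C.next` `z ∈ q.D c ∩ N` with `v < z`; `z < c`, so `z < r`. By closedness `r ∈ q.D c`. -/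
theorem ClFin.exists_gap {q : Cd k} {N : Set K} (C : ClFin q N) {x : K} (hx : x < q.top)
    (hxN : x ∉ N) :
    ∃ c ∈ N, x < c ∧ c ≤ q.top ∧ ¬ Tame c ∧ ∃ r ≤ x, r ∈ q.D c ∧ (∀ v ∈ N, v < c → v < r) ∧
      ∀ y < r, ∃ z ∈ q.D c, z ∈ N ∧ y < z ∧ z < r := by
  obtain ⟨v0, hv0, hxv0⟩ := C.unb x hx
  obtain ⟨c, hcd⟩ : ∃ c, c = (wellFounded_lt : WellFounded ((· < ·) : K → K → Prop)).min {c | c ∈ N ∧ x < c} ⟨v0, hv0, hxv0⟩ := ⟨_, rfl⟩
  have hc : c ∈ N ∧ x < c := by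
    rw [hcd]
    exact WellFounded.min_mem (wellFounded_lt : WellFounded ((· < ·) : K → K → Prop)) {c | c ∈ N ∧ x < c} ⟨v0, hv0, hxv0⟩
  have hcmin : ∀ v ∈ N, v < c → v < x := by
    intro v hv hvc
    have h1 : ¬ x < v := by
      intro hxv
      have h2 := WellFounded.not_lt_min (wellFounded_lt : WellFounded ((· < ·) : K → K → Prop)) {c | c ∈ N ∧ x < c} (x := v) ⟨hv, hxv⟩
      rw [← hcd] at h2
      exact h2 hvc
    exact lt_of_le_of_ne (not_lt.1 h1) fun h => hxN (h ▸ hv)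
  have hct : c ≤ q.top := (C.lt_top c hc.1).le
  have hcT : ¬ Tame c := by
    intro hT
    obtain ⟨v, hv, hxv, hvc⟩ := C.lad c hc.1 hT x hc.2
    exact absurd (hcmin v hv hvc) (not_lt.2 hxv)
  obtain ⟨hclb, _⟩ := q.club c hct hcT
  have hne : ∃ b, b ∈ {b : K | ∀ v ∈ N, v < c → v < b} := ⟨x, hcmin⟩
  obtain ⟨r, hrd⟩ : ∃ r, r = (wellFounded_lt : WellFounded ((· < ·) : K → K → Prop)).min {b : K | ∀ v ∈ N, v < c → v < b} hne := ⟨_, rfl⟩
  have hr1 : ∀ v ∈ N, v < c → v < r := by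
    rw [hrd]
    exact WellFounded.min_mem _ _ hne
  have hrx : r ≤ x := by
    have h2 := WellFounded.not_lt_min (wellFounded_lt : WellFounded ((· < ·) : K → K → Prop)) {b : K | ∀ v ∈ N, v < c → v < b} (x := x) hcmin
    rw [← hrd] at h2
    exact not_lt.1 h2
  have hr2 : ∀ y < r, ∃ z ∈ q.D c, z ∈ N ∧ y < z ∧ z < r := by
    intro y hy
    have h3 : ∃ v ∈ N, v < c ∧ y ≤ v := by
      by_contra hcon
      push Not at hcon
      have h2 := WellFounded.not_lt_min (wellFounded_lt : WellFounded ((· < ·) : K → K → Prop)) {b : K | ∀ v ∈ N, v < c → v < b} (x := y)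
        (fun v hv hvc => hcon v hv hvc)
      rw [← hrd] at h2
      exact h2 hy
    obtain ⟨v, hv, hvc, hyv⟩ := h3
    obtain ⟨z, hz, hzN, hvz⟩ := C.next c hc.1 hcT v hv (hclb.2.1 v hvc)
    exact ⟨z, hz, hzN, hyv.trans_lt hvz, hr1 z hzN (hclb.1 z hz)⟩
  obtain ⟨o, hoN, ho⟩ := C.least
  have hor : o < r := hr1 o hoN ((ho x).trans_lt hc.2)
  refine ⟨c, hc.1, hc.2, hct, hcT, r, hrx, ?_, hr1, hr2⟩
  refine hclb.2.2 r (hrx.trans_lt hc.2) ⟨?_, ?_⟩
  · obtain ⟨z, hz, _, _, hzr⟩ := hr2 o hor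
    exact ⟨z, hz, hzr⟩
  · intro y hy
    obtain ⟨z, hz, _, hyz, hzr⟩ := hr2 y hy
    exact ⟨z, hz, hyz, hzr⟩

/-- Points below the top of `q`.

Proof. `q'.g = q.g` up to `q.top` and `q'.hval c = q.hval c` (`Cd.hval_congr`). By unboundedness there is
`z₀ ∈ q.D c` with `x < z₀`. Let `i ≥ q.m c` be large: `q.g r i ≤ q.g x i` and `q.g x i < q.g z₀ i < q.hval c i`
(`Cd.lt_hval`). Let `v ∈ N`, `v < q.hval c i`: by `Cd.exists_of_lt_hval` there is `z ∈ q.D c` with `v ≤ q.g z i`; there is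
`z' ∈ q.D c` with `z < z'`, so `v < q.g z' i` (`CtsOn`); by `C.nextg` there is `z'' ∈ q.D c ∩ N` with `v < q.g z'' i`;
`z'' < c`, so `z'' < r` and `q.g z'' i < q.g r i`. Let `z < q.g r i`: `r` is a limit of `q.D c` (from `hr`; there is an element
below `r`: apply `hr` to the least element `o` of `N`, `o < r`), so by continuity there is `y ∈ q.D c`, `y < r`, with
`z < q.g y i`; by `hr` there is `u ∈ q.D c ∩ N` with `y < u < r`; `v = q.g u i ∈ N` (`C.gN`) satisfies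
`z < q.g y i < v < q.g r i`. -/
theorem ClFin.tail_gap {q : Cd k} {N : Set K} (C : ClFin q N) {q' : Cd k} (hq : q' ≤ q) {x c r : K}
    (hc : c ∈ N) (hxc : x < c) (hct : c ≤ q.top) (hcT : ¬ Tame c) (hrx : r ≤ x) (hrD : r ∈ q.D c)
    (h1 : ∀ v ∈ N, v < c → v < r) (hr : ∀ y < r, ∃ z ∈ q.D c, z ∈ N ∧ y < z ∧ z < r) :
    Tail q'.g N r x (q'.hval c) := by
  obtain ⟨hclb, hcts⟩ := q.club c hct hcT
  obtain ⟨z₀, hz₀, hxz₀⟩ := hclb.2.1 x hxc
  have hxt : x ≤ q.top := (hxc.le).trans hct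
  have e1 : q'.g r = q.g r := (hq.2 r (hrx.trans hxt)).1
  have e2 : q'.g x = q.g x := (hq.2 x hxt).1
  have e3 : ∀ i, q'.hval c i = q.hval c i := fun i => Cd.hval_congr hq hct i
  have a1 : ∀ᶠ i in atTop, q.g r i ≤ q.g x i := by
    rcases hrx.lt_or_eq with h | h
    · exact (q.inc r x h hxt).mono fun i hi => hi.le
    · rw [h]
      exact Filter.Eventually.of_forall fun i => le_rfl
  have a2 : ∀ᶠ i in atTop, q.g x i < q.g z₀ i := q.inc x z₀ hxz₀ ((hclb.1 z₀ hz₀).le.trans hct)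
  have a3 : ∀ᶠ i in atTop, q.m c ≤ i := Filter.eventually_ge_atTop (q.m c)
  obtain ⟨o, hoN, ho⟩ := C.least
  have hor : o < r := h1 o hoN ((ho x).trans_lt hxc)
  have hlim : LimPt (q.D c) r := by
    refine ⟨?_, ?_⟩
    · obtain ⟨z, hz, _, _, hzr⟩ := hr o hor
      exact ⟨z, hz, hzr⟩
    · intro y hy
      obtain ⟨z, hz, _, hyz, hzr⟩ := hr y hy
      exact ⟨z, hz, hyz, hzr⟩
  filter_upwards [a1, a2, a3] with i b1 b2 b3
  rw [e1, e2, e3]
  obtain ⟨m1, m2⟩ := hcts i b3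
  refine ⟨b1, b2.trans (q.lt_hval hct hcT i hz₀), ?_, ?_⟩
  · intro v hv hvh
    obtain ⟨z, hz, hvz⟩ := q.exists_of_lt_hval hcT hvh
    obtain ⟨z', hz', hzz'⟩ := hclb.2.1 z (hclb.1 z hz)
    have h2 : q.g z i < q.g z' i := m1 z hz z' hz' hzz'
    obtain ⟨z'', hz'', hz''N, hvz''⟩ := C.nextg c hc hcT v hv i ⟨z', hz', hvz.trans_lt h2⟩
    have h3 : z'' < r := h1 z'' hz''N (hclb.1 z'' hz'')
    exact hvz''.trans (m1 z'' hz'' r hrD h3)
  · intro z hz
    obtain ⟨y, hyD, hyr, hzy⟩ := m2 r hrD hlim z hz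
    obtain ⟨u, huD, huN, hyu, hur⟩ := hr y hyr
    exact ⟨q.g u i, C.gN u huN i, hzy.trans (m1 y hyD u huD hyu), m1 u huD r hrD hur⟩

end Pool.Agent.H58C
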