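import Pool.Agent.Lib.H58C.F08
import Pool.Agent.Lib.H58C.F10
import Pool.Agent.Lib.H58C.F12
import Pool.Agent.Lib.H58C.F13

/-!
# F14: the guessing property, on the level of conditions
-/

set_option autoImplicit false

open Set Filter

namespace Pool.Agent.H58C

variable {K : Type} [LinearOrder K] {k : ℕ → K} [WellFoundedLT K]

open Pool.Agent.H5Z in
/-- Proof. `exists_clFin`; for `q' ≤ q` and `x ∉ N`, `x ≤ q'.top`: if `q.top ≤ x` use `ClFin.trace_top`, otherwise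
`ClFin.exists_gap` and `ClFin.tail_gap`. -/
theorem Cd.guess (G : Ground k) (F : ℕ → K → K → K → RO (Cd k)) (p₀ : Cd k)
    (h : ∀ j x y, p₀ ∈ (⨆ z, F j x y z : RO (Cd k)).s) :
    ∃ q ≤ p₀, ∃ N : Set K, N.Nonempty ∧ N.Countable ∧
      (∀ j, ∀ x ∈ N, ∀ y ∈ N, ∃ z ∈ N, q ∈ (F j x y z).s) ∧
      ∀ q' ≤ q, ∀ x ≤ q'.top, x ∉ N → ∃ r ≤ x,
        ((∀ v ∈ N, v < r) ∧ Tail q'.g N r x k) ∨
          ∃ c ∈ N, x < c ∧ c ≤ q'.top ∧ (∀ v ∈ N, v < c → v < r) ∧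
            Tail q'.g N r x (q'.hval c) := by
  obtain ⟨q, hq, N, C, hN⟩ := exists_clFin G F p₀ h
  obtain ⟨o, ho, _⟩ := C.least
  refine ⟨q, hq, N, ⟨o, ho⟩, C.ctb, hN, ?_⟩
  intro q' hq' x hx hxN
  by_cases h1 : q.top ≤ x
  · obtain ⟨h2, h3⟩ := C.trace_top hq' h1 hx
    exact ⟨q.top, h1, Or.inl ⟨h2, h3⟩⟩
  · obtain ⟨c, hc, hxc, hct, hcT, r, hrx, hrD, h2, hr⟩ := C.exists_gap (not_le.1 h1) hxN
    exact ⟨r, hrx, Or.inr ⟨c, hc, hxc, hct.trans hq'.1, h2, C.tail_gap hq' hc hxc hct hcT hrx hrD h2 hr⟩⟩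

end Pool.Agent.H58C
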