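import Pool.Agent.Lib.H58C.Scale
import Pool.Agent.Lib.H5Z.BRO
import Pool.Agent.Lib.H30C.BDefs

/-!
# The forcing of a guessing scale (H58C, second part): definitions
-/

set_option autoImplicit false

open Set Filter

namespace Pool.Agent.H58C

open Pool.Agent.H5Z Pool.Agent.H30C

section

variable {K : Type} [LinearOrder K]

/-- The properties of the ground model: `K` is a well-order of type `ℵ_{ω+1}` and `k i ∈ K` has the type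
`ℵ_{i+1}`. -/
structure Ground (k : ℕ → K) : Prop where
  kmono : StrictMono k
  pos : ∃ o, o < k 0
  reg : ∀ (a : K) (f : K → K), ∃ d, ∀ x < a, f x < d
  bddN : ∀ (i : ℕ) (f : ℕ → K), (∀ n, f n < k i) → ∃ d < k i, ∀ n, f n < d
  bdd : ∀ m i : ℕ, m < i → ∀ f : K → K, (∀ x < k m, f x < k i) → ∃ d < k i, ∀ x < k m, f x < d
  /-- each initial segment is the union of a sequence of sets, the `j`-th of size at most that of
  `k j` -/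
  split : ∀ a : K, ∃ e : ℕ → K → K, ∀ x < a, ∃ j, ∃ s < k j, e j s = x

/-- `x` is a limit of elements of `D` -/
def LimPt (D : Set K) (x : K) : Prop := (∃ z ∈ D, z < x) ∧ ∀ y < x, ∃ z ∈ D, y < z ∧ z < x

/-- `D` is a closed unbounded subset of `c` -/
def Clb (D : Set K) (c : K) : Prop :=
  (∀ z ∈ D, z < c) ∧ (∀ x < c, ∃ z ∈ D, x < z) ∧ ∀ x < c, LimPt D x → x ∈ D

/-- `f` is strictly increasing and continuous on `D` -/
def CtsOn (D : Set K) (f : K → K) : Prop :=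
  (∀ x ∈ D, ∀ y ∈ D, x < y → f x < f y) ∧ ∀ x ∈ D, LimPt D x → ∀ a < f x, ∃ z ∈ D, z < x ∧ a < f z

/-- The conditions: an initial segment `g x`, `x ≤ top`, of the scale, with clubs witnessing that
the points of uncountable cofinality are good. -/
structure Cd (k : ℕ → K) where
  top : K
  g : K → ℕ → K
  D : K → Set K
  m : K → ℕ
  gk : ∀ x ≤ top, ∀ i, g x i < k i
  inc : ∀ x y, x < y → y ≤ top → ∀ᶠ i in atTop, g x i < g y i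
  club : ∀ c ≤ top, ¬ Tame c → Clb (D c) c ∧ ∀ i, m c ≤ i → CtsOn (D c) (fun x => g x i)

/-- end-extension -/
instance instPreCd (k : ℕ → K) : Preorder (Cd k) where
  le q p := p.top ≤ q.top ∧ ∀ x ≤ p.top, q.g x = p.g x ∧ q.D x = p.D x ∧ q.m x = p.m x
  le_refl p := ⟨le_rfl, fun _ _ => ⟨rfl, rfl, rfl⟩⟩
  le_trans r q p h h' := ⟨h'.1.trans h.1, fun x hx =>
    ⟨(h.2 x (hx.trans h'.1)).1.trans (h'.2 x hx).1,
      (h.2 x (hx.trans h'.1)).2.1.trans (h'.2 x hx).2.1,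
      (h.2 x (hx.trans h'.1)).2.2.trans (h'.2 x hx).2.2⟩⟩

theorem Cd.le_def {k : ℕ → K} (q p : Cd k) :
    q ≤ p ↔ p.top ≤ q.top ∧ ∀ x ≤ p.top, q.g x = p.g x ∧ q.D x = p.D x ∧ q.m x = p.m x := Iff.rfl

/-- A set of conditions is open. -/
def OpenC {k : ℕ → K} (A : Set (Cd k)) : Prop := ∀ p ∈ A, ∀ q ≤ p, q ∈ A

/-- A set of conditions is dense below `p₀`. -/
def DenseC {k : ℕ → K} (p₀ : Cd k) (A : Set (Cd k)) : Prop := ∀ p ≤ p₀, ∃ q ≤ p, q ∈ A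

open Classical in
/-- The bound `h (c, i)`: the least strict upper bound of the `g z i`, `z ∈ D c`, if `c` has
uncountable cofinality. -/
noncomputable def Cd.hval [WellFoundedLT K] {k : ℕ → K} (p : Cd k) (c : K) (i : ℕ) : K :=
  if Tame c then k i else
    (wellFounded_lt : WellFounded ((· < ·) : K → K → Prop)).min
      {b | b = k i ∨ ∀ z ∈ p.D c, p.g z i < b} ⟨k i, Or.inl rfl⟩

/-- Boolean value of `g (x, i) = a` -/
def gN {k : ℕ → K} (x : K) (i : ℕ) (a : K) : RO (Cd k) := RO.gen {p | x ≤ p.top ∧ p.g x i = a}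

/-- Boolean value of `h (c, i) = a` -/
noncomputable def hN [WellFoundedLT K] {k : ℕ → K} (c : K) (i : ℕ) (a : K) : RO (Cd k) :=
  RO.gen {p | c ≤ p.top ∧ p.hval c i = a}

/-- The requirements on the `s`-th member `q` of a run below `p₀` (parameter `j`, dense sets
`A t`), given the members `p t`, `t < s`. -/
def Next {k : ℕ → K} (j : ℕ) (A : K → Set (Cd k)) (p₀ : Cd k) (p : K → Cd k) (s : K) (q : Cd k) :
    Prop :=
  q ≤ p₀ ∧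
  (∀ t < s, q ≤ p t ∧ (p t).top < q.top ∧ ∀ i, j < i → (p t).g (p t).top i < q.g q.top i) ∧
  (∀ t, t < s → (∀ t', t < t' → s ≤ t') → q ∈ A t) ∧
  ((∃ t, t < s) → (∀ t < s, ∃ t', t < t' ∧ t' < s) →
    IsLUB {x | ∃ t < s, x = (p t).top} q.top ∧
      ∀ i, j < i → IsLUB {a | ∃ t < s, a = (p t).g (p t).top i} (q.g q.top i))

/-- one step of closing off `A` to `A'` with respect to the condition `p` -/
structure ClStep {k : ℕ → K} (p : Cd k) (A A' : Set K) : Prop where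
  sub : A ⊆ A'
  top : p.top ∈ A'
  least : ∃ o ∈ A', ∀ a, o ≤ a
  succ : ∀ a ∈ A, ∃ s ∈ A', a < s ∧ ∀ b, a < b → s ≤ b
  lad : ∀ a ∈ A, Tame a → ∀ b < a, ∃ v ∈ A', b ≤ v ∧ v < a
  gA : ∀ x ∈ A, ∀ i, p.g x i ∈ A'
  gtop : ∀ i, p.g p.top i ∈ A'
  next : ∀ c ∈ A, ¬ Tame c → ∀ x ∈ A, (∃ z ∈ p.D c, x < z) → ∃ z ∈ p.D c, z ∈ A' ∧ x < z
  nextg : ∀ c ∈ A, ¬ Tame c → ∀ a ∈ A, ∀ i, (∃ z ∈ p.D c, a < p.g z i) →
    ∃ z ∈ p.D c, z ∈ A' ∧ a < p.g z i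

/-- `N` is closed with respect to the condition `q`, and `q` has the top value given by `N`. -/
structure ClFin {k : ℕ → K} (q : Cd k) (N : Set K) : Prop where
  ctb : N.Countable
  least : ∃ o ∈ N, ∀ a, o ≤ a
  lt_top : ∀ v ∈ N, v < q.top
  unb : ∀ y < q.top, ∃ v ∈ N, y < v
  succ : ∀ a ∈ N, ∃ s ∈ N, a < s ∧ ∀ b, a < b → s ≤ b
  lad : ∀ a ∈ N, Tame a → ∀ b < a, ∃ v ∈ N, b ≤ v ∧ v < a
  gN : ∀ x ∈ N, ∀ i, q.g x i ∈ N
  next : ∀ c ∈ N, ¬ Tame c → ∀ x ∈ N, (∃ z ∈ q.D c, x < z) → ∃ z ∈ q.D c, z ∈ N ∧ x < z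
  nextg : ∀ c ∈ N, ¬ Tame c → ∀ a ∈ N, ∀ i, (∃ z ∈ q.D c, a < q.g z i) →
    ∃ z ∈ q.D c, z ∈ N ∧ a < q.g z i
  chi : ∀ i, (∀ v ∈ N, v < k i → v < q.g q.top i) ∧ ∀ z < q.g q.top i, ∃ v ∈ N, z < v ∧ v < q.g q.top i

end

/-! ### The Boolean-valued principle -/

section Boolean

variable {K B : Type} [LinearOrder K] [CompleteBooleanAlgebra B]

open Classical in
/-- two-valued truth value of a proposition -/
noncomputable def tvB (B : Type) [CompleteBooleanAlgebra B] (P : Prop) : B := if P then ⊤ else ⊥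

/-- Boolean value of `f relates something below c to the given argument` -/
def hitB (f : K → B) (c : K) : B := ⨆ y, ltB B y c ⊓ f y

/-- Boolean value of `TailIn` -/
noncomputable def tailB (g : K → ℕ → K → B) (χ : K → B) (r x : K) (V : ℕ → K → B) : B :=
  ⨆ n : ℕ, ⨅ i : ℕ, (tvB B (i < n))ᶜ ⇨ ⨅ a : K, ⨅ b : K, ⨅ c : K,
    g r i a ⇨ (g x i b ⇨ (V i c ⇨ ((ltB B b a)ᶜ ⊓ (ltB B b c ⊓
      ((⨅ v : K, χ v ⇨ (ltB B v c ⇨ ltB B v a)) ⊓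
        ⨅ z : K, ltB B z a ⇨ ⨆ v : K, χ v ⊓ (ltB B z v ⊓ ltB B v a))))))

/-- The Boolean-valued guessing scale principle, for the names `g, h` of functions of two
arguments. -/
structure BScale (k : ℕ → K) (g h : K → ℕ → K → B) : Prop where
  kmono : StrictMono k
  gfun : ∀ x i, (⨆ a, g x i a ⊓ ⨅ b, g x i b ⇨ tvB B (b = a)) = ⊤
  hfun : ∀ x i, (⨆ a, h x i a ⊓ ⨅ b, h x i b ⇨ tvB B (b = a)) = ⊤
  reg : ∀ (f : K → K → B) (a : K), (⨅ x, ltB B x a ⇨ ⨆ y, f x y) ≤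
    ⨆ d, ⨅ x, ltB B x a ⇨ hitB (f x) d
  bddN : ∀ (f : ℕ → K → B) (i : ℕ), (⨅ n, hitB (f n) (k i)) ≤
    ⨆ d, ltB B d (k i) ⊓ ⨅ n, hitB (f n) d
  bdd : ∀ (f : K → K → B) (m i : ℕ), m < i → (⨅ x, ltB B x (k m) ⇨ hitB (f x) (k i)) ≤
    ⨆ d, ltB B d (k i) ⊓ ⨅ x, ltB B x (k m) ⇨ hitB (f x) d
  gk : ∀ x i a, g x i a ≤ ltB B a (k i)
  inc : ∀ x y, x < y → (⨆ n : ℕ, ⨅ i : ℕ, (tvB B (i < n))ᶜ ⇨ ⨅ a, ⨅ b, g x i a ⇨
    (g y i b ⇨ ltB B a b)) = ⊤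
  dom : ∀ f : ℕ → K → B, (⨅ i, hitB (f i) (k i)) ≤
    ⨆ x, ⨆ n : ℕ, ⨅ i : ℕ, (tvB B (i < n))ᶜ ⇨ ⨅ b, g x i b ⇨ ⨆ a, (ltB B b a)ᶜ ⊓ f i a
  guess : ∀ F : ℕ → K → K → K → B, (⨅ n, ⨅ x, ⨅ y, ⨆ z, F n x y z) ≤
    ⨆ N : {N : Set K // N.Nonempty ∧ N.Countable},
      (⨅ n, ⨅ x, ⨅ y, tvB B (x ∈ N.1) ⇨ (tvB B (y ∈ N.1) ⇨ ⨆ z, tvB B (z ∈ N.1) ⊓ F n x y z)) ⊓
      ⨅ x, (tvB B (x ∈ N.1))ᶜ ⇨ ⨆ r, (ltB B x r)ᶜ ⊓
        (((⨅ v, tvB B (v ∈ N.1) ⇨ ltB B v r) ⊓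
            tailB g (fun v => tvB B (v ∈ N.1)) r x (fun i c => tvB B (k i = c))) ⊔
          ⨆ c, tvB B (c ∈ N.1) ⊓ (ltB B x c ⊓
            ((⨅ v, tvB B (v ∈ N.1) ⇨ (ltB B v c ⇨ ltB B v r)) ⊓
              tailB g (fun v => tvB B (v ∈ N.1)) r x (fun i b => h c i b))))

end Boolean

end Pool.Agent.H58C
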