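import Pool.Agent.Lib.H58C.FDefs

/-!
# G01: the ground model: cardinals
-/

set_option autoImplicit false

open Set Filter Cardinal

namespace Pool.Agent.H58C



/-- The cardinal properties of the ground model. -/
structure GCard {K : Type} [LinearOrder K] (k : ℕ → K) : Prop where
  kmono : StrictMono k
  ck : ∀ i : ℕ, #(Iio (k i)) = Cardinal.aleph ((i : Ordinal.{0}) + 1)
  lt_ck : ∀ i : ℕ, ∀ x < k i, #(Iio x) < Cardinal.aleph ((i : Ordinal.{0}) + 1)
  cK : #K = Cardinal.aleph (Ordinal.omega0 + 1)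
  lt_cK : ∀ x : K, #(Iio x) ≤ Cardinal.aleph Ordinal.omega0

/-- Proof. `K = (aleph (ω + 1)).ord.ToType`, and `k i` is the element whose set of predecessors has the type
`(aleph (i + 1)).ord` (`Ordinal.enum` or `Ordinal.ToType.mk`; see `Lib/H30C/Models.lean` for `K1` and
`Cardinal.mk_Iio_lt`, `Cardinal.mk_ord_toType`). For `x < k i` the ordinal of `x` is less than `(aleph (i + 1)).ord`, so its
cardinality is less than `aleph (i + 1)` (`Cardinal.lt_ord`). `lt_cK`: `#(Iio x) < aleph (ω + 1) = succ (aleph ω)`. -/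
theorem exists_gcard : ∃ (K : Type) (_ : LinearOrder K) (_ : WellFoundedLT K) (k : ℕ → K),
    GCard k := by
  let o : Ordinal.{0} := (Cardinal.aleph (Ordinal.omega0 + 1) : Cardinal.{0}).ord
  have hcard : #o.ToType = Cardinal.aleph (Ordinal.omega0 + 1) := mk_ord_toType _
  have hlt : ∀ i : ℕ, (Cardinal.aleph ((i : Ordinal.{0}) + 1)).ord < o := by
    intro i
    refine Cardinal.ord_lt_ord.2 (Cardinal.aleph_lt_aleph.2 ?_)
    have h1 : ((i : Ordinal.{0}) + 1) = ((i + 1 : ℕ) : Ordinal.{0}) := by push_cast; rfl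
    rw [h1]
    exact (Ordinal.natCast_lt_omega0 (i + 1)).trans_le (le_self_add)
  have hmk : ∀ x : o.ToType, #(Iio x) = ((Ordinal.ToType.mk.symm x : Iio o) : Ordinal.{0}).card :=
    fun x => rfl
  let k : ℕ → o.ToType := fun i =>
    Ordinal.ToType.mk ⟨(Cardinal.aleph ((i : Ordinal.{0}) + 1)).ord, hlt i⟩
  have hk : ∀ i, ((Ordinal.ToType.mk.symm (k i) : Iio o) : Ordinal.{0}) =
      (Cardinal.aleph ((i : Ordinal.{0}) + 1)).ord := by
    intro i
    simp only [k, OrderIso.symm_apply_apply]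
  refine ⟨o.ToType, inferInstance, inferInstance, k, ?_, ?_, ?_, hcard, ?_⟩
  · intro i j hij
    refine Ordinal.ToType.mk.lt_iff_lt.2 ?_
    refine Subtype.mk_lt_mk.2 (Cardinal.ord_lt_ord.2 (Cardinal.aleph_lt_aleph.2 ?_))
    exact_mod_cast Nat.add_lt_add_right hij 1
  · intro i
    rw [hmk, hk, Cardinal.card_ord]
  · intro i x hx
    rw [hmk, ← Cardinal.lt_ord, ← hk]
    exact Ordinal.ToType.mk.symm.lt_iff_lt.2 hx
  · intro x
    have h : #(Iio x) < Cardinal.aleph (Ordinal.omega0 + 1) := by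
      rw [hmk, ← Cardinal.lt_ord]
      exact (Ordinal.ToType.mk.symm x).2
    rw [← Cardinal.succ_aleph] at h
    exact Order.lt_succ_iff.1 h

end Pool.Agent.H58C
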