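import Pool.Agent.Lib.H58C.G01

/-!
# G02: the ground model: regularity
-/

set_option autoImplicit false

open Set Filter Cardinal

namespace Pool.Agent.H58C



/-- A subset of `C` of size less than the regular cardinal `c` is not cofinal, if `C` has size `c` and initial
segments of size less than `c`.

Proof. Suppose that for every `d ∈ C` there is `s` with `d ≤ f s`. Then `C` is contained in the union over `s : S` of
the sets `{x | x ≤ f s}`, each of size less than `c` (`Iic = insert _ Iio`, `c` infinite), `#S < c`, `c`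
regular: the union has size less than `c` (`Cardinal.card_iUnion_lt_iff_forall_of_isRegular` or
`Cardinal.mk_iUnion_le` with `Cardinal.iSup_lt_of_isRegular`, and `mul_lt_of_lt`). Contradiction. -/
theorem bdd_of_regular {K : Type} [LinearOrder K] {c : Cardinal.{0}} (hc : c.IsRegular)
    {C : Set K} (hC : #C = c) (hlt : ∀ x ∈ C, #(Iio x) < c) {S : Type} (hS : #S < c) (f : S → K)
    (hf : ∀ s, f s ∈ C) : ∃ d ∈ C, ∀ s, f s < d := by
  by_contra hcon
  push Not at hcon
  have hsub : C ⊆ ⋃ s : S, Iic (f s) := by
    intro d hd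
    obtain ⟨s, hs⟩ := hcon d hd
    exact mem_iUnion.2 ⟨s, hs⟩
  have hIic : ∀ s, #(Iic (f s)) < c := by
    intro s
    rw [← Iio_insert]
    refine mk_insert_le.trans_lt ?_
    exact add_lt_of_lt hc.aleph0_le (hlt _ (hf s)) (one_lt_aleph0.trans_le hc.aleph0_le)
  have h1 : #(⋃ s : S, Iic (f s)) < c :=
    (Cardinal.card_iUnion_lt_iff_forall_of_isRegular hc hS).2 hIic
  have h2 : #C < c := (mk_le_mk_of_subset hsub).trans_lt h1
  rw [hC] at h2
  exact lt_irrefl _ h2

end Pool.Agent.H58C
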