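import Pool.Agent.Lib.H58C.G02

/-!
# G03: the ground model
-/

set_option autoImplicit false

open Set Filter Cardinal

namespace Pool.Agent.H58C



/-- Proof. `pos`: `#(Iio (k 0)) = aleph 1 ≠ 0`. `reg`, `bddN`, `bdd`: `bdd_of_regular` with `C = univ`
(`c = aleph (ω + 1)`, regular as a successor: `Cardinal.isRegular_succ`, `Cardinal.aleph_succ`; `#(Iio a) ≤ aleph ω < c`)
and with `C = Iio (k i)` (`c = aleph (i + 1)`; `S = ℕ`, or `S = Iio (k m)` of size `aleph (m + 1) < aleph (i + 1)`). `split`: the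
set `U` of the elements `x` with `x < k j` for some `j` has size at least `aleph (j + 1)` for all `j`, so at
least `aleph ω` (`Cardinal.aleph_limit`, or `aleph_omega0`-type lemma: if `aleph j ≤ c` for all `j < ω` then
`aleph ω ≤ c`). As `#(Iio a) ≤ aleph ω` there is an injection `φ` of `Iio a` in `U` (`Cardinal.le_def`,
`Function.Embedding`). Let `e j s` be the element `x < a` with `φ x = s` if there is one, and `a` otherwise. -/
theorem GCard.ground {K : Type} [LinearOrder K] [WellFoundedLT K] {k : ℕ → K} (H : GCard k) :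
    Ground k := by
  have hreg : ∀ i : ℕ, (Cardinal.aleph ((i : Ordinal.{0}) + 1)).IsRegular := fun i =>
    isRegular_aleph_add_one _
  refine ⟨H.kmono, ?_, ?_, ?_, ?_, ?_⟩
  · have h1 : #(Iio (k 0)) ≠ 0 := by
      rw [H.ck 0]
      exact (Cardinal.aleph_pos _).ne'
    rw [Ne, Cardinal.mk_eq_zero_iff, not_isEmpty_iff] at h1
    obtain ⟨o, ho⟩ := h1
    exact ⟨o, ho⟩
  · intro a f
    have hlt : ∀ x : K, #(Iio x) < Cardinal.aleph (Ordinal.omega0 + 1) := by
      intro x
      refine (H.lt_cK x).trans_lt ?_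
      rw [Cardinal.aleph_lt_aleph, Order.lt_add_one_iff]
    obtain ⟨d, -, hd⟩ := bdd_of_regular (K := K) (isRegular_aleph_add_one Ordinal.omega0)
      (C := univ) (by rw [Cardinal.mk_univ]; exact H.cK) (fun x _ => hlt x) (hlt a)
      (fun s : Iio a => f s) (fun _ => mem_univ _)
    exact ⟨d, fun x hx => hd ⟨x, hx⟩⟩
  · intro i f hf
    obtain ⟨d, hd, hd'⟩ := bdd_of_regular (hreg i) (H.ck i) (fun x hx => H.lt_ck i x hx)
      (S := ℕ) (by
        rw [Cardinal.mk_nat, Cardinal.aleph0_lt_aleph]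
        exact Order.lt_add_one_iff.2 zero_le) f hf
    exact ⟨d, hd, hd'⟩
  · intro m i hmi f hf
    obtain ⟨d, hd, hd'⟩ := bdd_of_regular (hreg i) (H.ck i) (fun x hx => H.lt_ck i x hx)
      (S := Iio (k m)) (by
        rw [H.ck m, Cardinal.aleph_lt_aleph]
        have : (m : Ordinal.{0}) < i := by exact_mod_cast hmi
        rw [Order.lt_add_one_iff, Order.add_one_le_iff]
        exact this) (fun s => f s) (fun s => hf s s.2)
    exact ⟨d, hd, fun x hx => hd' ⟨x, hx⟩⟩
  · intro a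
    have hU : Cardinal.aleph Ordinal.omega0 ≤ #{x : K | ∃ j, x < k j} := by
      rw [Cardinal.aleph_limit Ordinal.isSuccLimit_omega0]
      refine ciSup_le' fun o => ?_
      obtain ⟨n, hn⟩ := Ordinal.lt_omega0.1 o.2
      rw [hn]
      have h1 : #(Iio (k n)) ≤ #{x : K | ∃ j, x < k j} :=
        Cardinal.mk_le_mk_of_subset fun x hx => ⟨n, hx⟩
      refine le_trans ?_ h1
      rw [H.ck n, Cardinal.aleph_le_aleph]
      exact le_self_add
    obtain ⟨φ⟩ := Cardinal.le_def _ _ |>.1 ((H.lt_cK a).trans hU)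
    classical
    refine ⟨fun _ s => if h : ∃ x : Iio a, (φ x : K) = s then (h.choose : K) else a, ?_⟩
    intro x hx
    obtain ⟨j, hj⟩ := (φ ⟨x, hx⟩).2
    refine ⟨j, (φ ⟨x, hx⟩ : K), hj, ?_⟩
    have h : ∃ y : Iio a, (φ y : K) = (φ ⟨x, hx⟩ : K) := ⟨⟨x, hx⟩, rfl⟩
    simp only [dif_pos h]
    have h2 := h.choose_spec
    have h3 := φ.injective (Subtype.ext h2)
    rw [h3]

end Pool.Agent.H58C
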