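import Pool.Agent.Lib.H58C.QBase

/-!
# Q01: the order
-/

set_option autoImplicit false

open Set Function Pool.Agent.H5Z Pool.Agent.H30C Pool.Agent.H5Z.BSet

namespace Pool.Agent.H58C

variable {B : Type} [CompleteBooleanAlgebra B] {K : Type} [LinearOrder K] [WellFoundedLT K]

/-- Proof: copy from `isOm1_quot` in `Lib/H30C/TOm.lean` (field `irr`). -/
theorem q_irr (U : UF B) : ∀ x, EU U x (cls U (KB K B)) → ¬ Rel (EU U) x x (cls U (LB K B)) := by
  have h : Tv U (⨅ x : K, (memB (opair (kchk B x) (kchk B x)) (LB K B))ᶜ)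
      (∀ x, EU U x (cls U (KB K B)) → ¬ Rel (EU U) x x (cls U (LB K B))) := by
    refine Tv.allK (F := fun x => (memB (opair x x) (LB K B))ᶜ) ?_ fun x => (Tv.rel x x _).not
    exact E1_extB_compl (ExtB.diag (fun y => extB_pairL y _) (fun x => extB_pairR x _))
  refine h.holds ?_
  simp [memB_LB, ltB]

/-- Proof: copy from `isOm1_quot`, field `trans`. -/
theorem q_trans (U : UF B) : ∀ x, EU U x (cls U (KB K B)) → ∀ y, EU U y (cls U (KB K B)) → ∀ z, EU U z (cls U (KB K B)) → Rel (EU U) x y (cls U (LB K B)) →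
    Rel (EU U) y z (cls U (LB K B)) → Rel (EU U) x z (cls U (LB K B)) := by
  have h : Tv U (⨅ x : K, ⨅ y : K, ⨅ z : K, memB (opair (kchk B x) (kchk B y)) (LB K B) ⇨
      (memB (opair (kchk B y) (kchk B z)) (LB K B) ⇨ memB (opair (kchk B x) (kchk B z)) (LB K B)))
      (∀ x, EU U x (cls U (KB K B)) → ∀ y, EU U y (cls U (KB K B)) → ∀ z,
        EU U z (cls U (KB K B)) → Rel (EU U) x y (cls U (LB K B)) →
        Rel (EU U) y z (cls U (LB K B)) → Rel (EU U) x z (cls U (LB K B))) := by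
    refine Tv.allK (F := fun x => ⨅ y : K, ⨅ z : K, memB (opair x (kchk B y)) (LB K B) ⇨
      (memB (opair (kchk B y) (kchk B z)) (LB K B) ⇨ memB (opair x (kchk B z)) (LB K B)))
      ?_ fun x => ?_
    · exact E1_extB_iInf fun y => E1_extB_iInf fun z => E1_extB_himp (extB_pairL _ _)
        (E1_extB_himp (E1_extB_const _) (extB_pairL _ _))
    refine Tv.allK (F := fun y => ⨅ z : K, memB (opair x y) (LB K B) ⇨
      (memB (opair y (kchk B z)) (LB K B) ⇨ memB (opair x (kchk B z)) (LB K B)))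
      ?_ fun y => ?_
    · exact E1_extB_iInf fun z => E1_extB_himp (extB_pairR _ _)
        (E1_extB_himp (extB_pairL _ _) (E1_extB_const _))
    refine Tv.allK (F := fun z => memB (opair x y) (LB K B) ⇨
      (memB (opair y z) (LB K B) ⇨ memB (opair x z) (LB K B)))
      ?_ fun z => (Tv.rel x y _).imp ((Tv.rel y z _).imp (Tv.rel x z _))
    exact E1_extB_himp (E1_extB_const _) (E1_extB_himp (extB_pairR _ _) (extB_pairR _ _))
  refine h.holds ?_
  rw [eq_top_iff]
  refine le_iInf fun x => le_iInf fun y => le_iInf fun z => ?_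
  rw [memB_LB, memB_LB, memB_LB]
  unfold ltB
  by_cases h1 : x < y
  · by_cases h2 : y < z
    · simp [h1, h2, h1.trans h2]
    · simp [h2]
  · simp [h1]

/-- Proof: copy from `isOm1_quot`, field `tri`. -/
theorem q_tri (U : UF B) : ∀ x, EU U x (cls U (KB K B)) → ∀ y, EU U y (cls U (KB K B)) → ¬ x = y → Rel (EU U) x y (cls U (LB K B)) ∨ Rel (EU U) y x (cls U (LB K B)) := by
  have h : Tv U (⨅ x : K, ⨅ y : K, (eqB (kchk B x) (kchk B y))ᶜ ⇨
      (memB (opair (kchk B x) (kchk B y)) (LB K B) ⊔ memB (opair (kchk B y) (kchk B x)) (LB K B)))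
      (∀ x, EU U x (cls U (KB K B)) → ∀ y, EU U y (cls U (KB K B)) → ¬ x = y →
        Rel (EU U) x y (cls U (LB K B)) ∨ Rel (EU U) y x (cls U (LB K B))) := by
    refine Tv.allK (F := fun x => ⨅ y : K, (eqB x (kchk B y))ᶜ ⇨
      (memB (opair x (kchk B y)) (LB K B) ⊔ memB (opair (kchk B y) x) (LB K B)))
      ?_ fun x => ?_
    · exact E1_extB_iInf fun y => E1_extB_himp (E1_extB_compl (extB_eqB_left _))
        (E1_extB_sup (extB_pairL _ _) (extB_pairR _ _))
    refine Tv.allK (F := fun y => (eqB x y)ᶜ ⇨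
      (memB (opair x y) (LB K B) ⊔ memB (opair y x) (LB K B)))
      ?_ fun y => (Tv.eq x y).not.imp ((Tv.rel x y _).or (Tv.rel y x _))
    exact E1_extB_himp (E1_extB_compl (extB_eqB_right _))
        (E1_extB_sup (extB_pairR _ _) (extB_pairL _ _))
  refine h.holds ?_
  rw [eq_top_iff]
  refine le_iInf fun x => le_iInf fun y => ?_
  rw [memB_LB, memB_LB, eqB_kchk]
  unfold ltB
  rcases lt_trichotomy x y with h1 | h1 | h1
  · simp [h1]
  · simp [h1]
  · simp [h1]

/-- Proof: copy from `isOm1_quot`, field `wf`. -/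
theorem q_wf (U : UF B) : ∀ A x, EU U x (cls U (KB K B)) → EU U x A → ∃ y, EU U y (cls U (KB K B)) ∧ EU U y A ∧ ∀ z, EU U z (cls U (KB K B)) →
    EU U z A → ¬ Rel (EU U) z y (cls U (LB K B)) := by
  intro A x hx hA
  obtain ⟨a, rfl⟩ := exists_cls U A
  have h1 : Tv U (⨆ x : K, memB (kchk B x) a) (∃ x, EU U x (cls U (KB K B)) ∧ EU U x (cls U a)) :=
    Tv.exK (F := fun x => memB x a) (extB_memB_left _) fun x => Tv.mem x a
  have h2 : Tv U (⨆ y : K, memB (kchk B y) a ⊓ ⨅ z : K, memB (kchk B z) a ⇨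
      (memB (opair (kchk B z) (kchk B y)) (LB K B))ᶜ)
      (∃ y, EU U y (cls U (KB K B)) ∧ EU U y (cls U a) ∧ ∀ z, EU U z (cls U (KB K B)) →
        EU U z (cls U a) → ¬ Rel (EU U) z y (cls U (LB K B))) := by
    refine Tv.exK (F := fun y => memB y a ⊓ ⨅ z : K, memB (kchk B z) a ⇨
      (memB (opair (kchk B z) y) (LB K B))ᶜ) ?_ fun y => (Tv.mem y a).and ?_
    · exact E1_extB_inf (extB_memB_left _) (E1_extB_iInf fun z => E1_extB_himp (E1_extB_const _)
        (E1_extB_compl (extB_pairR _ _)))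
    refine Tv.allK (F := fun z => memB z a ⇨ (memB (opair z y) (LB K B))ᶜ) ?_
      fun z => (Tv.mem z a).imp (Tv.rel z y _).not
    exact E1_extB_himp (extB_memB_left _) (E1_extB_compl (extB_pairL _ _))
  refine h1.mono h2 ?_ ⟨x, hx, hA⟩
  refine iSup_le fun x => ?_
  induction x using WellFoundedLT.induction with
  | ind x ih =>
    set T : B := ⨆ y : K, memB (kchk B y) a ⊓ ⨅ z : K, memB (kchk B z) a ⇨
      (memB (opair (kchk B z) (kchk B y)) (LB K B))ᶜ with hT
    have h3 : memB (kchk B x) a ⊓ Tᶜ ≤ ⨅ z : K, memB (kchk B z) a ⇨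
        (memB (opair (kchk B z) (kchk B x)) (LB K B))ᶜ := by
      refine le_iInf fun z => ?_
      rw [memB_LB, le_himp_iff]
      unfold ltB
      by_cases h4 : z < x
      · have h5 : memB (kchk B x) a ⊓ Tᶜ ⊓ memB (kchk B z) a ≤ Tᶜ ⊓ T :=
          le_inf (inf_le_left.trans inf_le_right) (inf_le_right.trans (ih z h4))
        rw [compl_inf_eq_bot] at h5
        exact h5.trans bot_le
      · simp [h4]
    have h6 : memB (kchk B x) a ⊓ Tᶜ ≤ T :=
      le_trans (le_inf inf_le_left h3) (le_iSup (fun y : K => memB (kchk B y) a ⊓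
        ⨅ z : K, memB (kchk B z) a ⇨ (memB (opair (kchk B z) (kchk B y)) (LB K B))ᶜ) x)
    have h7 : memB (kchk B x) a ⊓ Tᶜ ≤ ⊥ := by
      have := le_inf h6 (inf_le_right : memB (kchk B x) a ⊓ Tᶜ ≤ Tᶜ)
      rwa [inf_compl_eq_bot] at this
    rwa [← le_compl_iff_disjoint_right.trans disjoint_iff_inf_le |>.symm.trans Iff.rfl |>.symm,
      compl_compl] at h7

end Pool.Agent.H58C
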