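import Pool.Agent.Lib.H58C.QBase

/-!
# Q02: the functions
-/

set_option autoImplicit false

open Set Function Pool.Agent.H5Z Pool.Agent.H30C Pool.Agent.H5Z.BSet

namespace Pool.Agent.H58C

variable {B : Type} [CompleteBooleanAlgebra B] {K : Type} [LinearOrder K] [WellFoundedLT K]

/-- Proof. Pattern of `Q05.lean` (the `repeat' first` block proves the statement `Tv U (AllW fun n => ExK K fun x =>
memB (opair n x) (kNm B k) ⊓ AllK K fun y => memB (opair n y) (kNm B k) ⇨ eqB y x) (...)`), then
`memB_kNm`, `eqB_kchk'`: take `x = k n`. -/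
theorem q_kfun (U : UF B) (k : ℕ → K) : ∀ n, EU U n (cls U omB) → ∃ x, EU U x (cls U (KB K B)) ∧ Rel (EU U) n x (cls U (kNm B k)) ∧
    ∀ y, EU U y (cls U (KB K B)) → Rel (EU U) n y (cls U (kNm B k)) → y = x := by
  have h : Tv U (AllW fun n => ExK K fun x => memB (opair n x) (kNm B k) ⊓
      AllK K fun y => memB (opair n y) (kNm B k) ⇨ eqB y x)
      (∀ n, EU U n (cls U omB) → ∃ x, EU U x (cls U (KB K B)) ∧ Rel (EU U) n x (cls U (kNm B k)) ∧
        ∀ y, EU U y (cls U (KB K B)) → Rel (EU U) n y (cls U (kNm B k)) → y = x) := by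
    repeat' first
      | exact E1_extB_const _
      | exact extE_id
      | exact extE_const _
      | refine tv_allK ?_ fun _ => ?_
      | refine tv_allW ?_ fun _ => ?_
      | refine tv_exK ?_ fun _ => ?_
      | refine tv_exW ?_ fun _ => ?_
      | refine Tv.imp ?_ ?_
      | refine Tv.and ?_ ?_
      | refine Tv.or ?_ ?_
      | refine Tv.not ?_
      | exact tv_rel3 _ _ _ _
      | exact Tv.rel _ _ _
      | exact Tv.mem _ _
      | exact Tv.eq _ _
      | refine extB_allK fun _ => ?_
      | refine extB_allW fun _ => ?_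
      | refine extB_exK fun _ => ?_
      | refine extB_exW fun _ => ?_
      | refine E1_extB_himp ?_ ?_
      | refine E1_extB_inf ?_ ?_
      | refine E1_extB_sup ?_ ?_
      | refine E1_extB_compl ?_
      | refine extB_mem ?_ ?_
      | refine extB_eq ?_ ?_
      | refine extE_opair ?_ ?_
  refine h.holds ?_
  rw [eq_top_iff]
  refine le_iInf fun n => le_iSup_of_le (k n) (le_inf ?_ (le_iInf fun y => ?_))
  · beta_reduce
    rw [memB_kNm]
    simp [tvB]
  · beta_reduce
    rw [memB_kNm, eqB_kchk']
    by_cases hy : k n = y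
    · simp [tvB, hy]
    · simp [tvB, hy]

/-- Proof: pattern of `Q05.lean`, and the hypothesis (`memB_rel3B`, `eqB_kchk'`). -/
theorem q_fun3 (U : UF B) (g : K → ℕ → K → B)
    (hg : ∀ x i, (⨆ a, g x i a ⊓ ⨅ b, g x i b ⇨ tvB B (b = a)) = ⊤) :
    ∀ x, EU U x (cls U (KB K B)) → ∀ i, EU U i (cls U omB) → ∃ a, EU U a (cls U (KB K B)) ∧ Rel3 (EU U) x i a (cls U (rel3B g)) ∧
      ∀ b, EU U b (cls U (KB K B)) → Rel3 (EU U) x i b (cls U (rel3B g)) → b = a := by
  have h : Tv U (AllK K fun x => AllW fun i => ExK K fun a => memB (opair (opair x i) a) (rel3B g) ⊓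
      AllK K fun b => memB (opair (opair x i) b) (rel3B g) ⇨ eqB b a)
      (∀ x, EU U x (cls U (KB K B)) → ∀ i, EU U i (cls U omB) → ∃ a, EU U a (cls U (KB K B)) ∧
        Rel3 (EU U) x i a (cls U (rel3B g)) ∧
        ∀ b, EU U b (cls U (KB K B)) → Rel3 (EU U) x i b (cls U (rel3B g)) → b = a) := by
    repeat' first
      | exact E1_extB_const _
      | exact extE_id
      | exact extE_const _
      | refine tv_allK ?_ fun _ => ?_
      | refine tv_allW ?_ fun _ => ?_
      | refine tv_exK ?_ fun _ => ?_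
      | refine tv_exW ?_ fun _ => ?_
      | refine Tv.imp ?_ ?_
      | refine Tv.and ?_ ?_
      | refine Tv.or ?_ ?_
      | refine Tv.not ?_
      | exact tv_rel3 _ _ _ _
      | exact Tv.rel _ _ _
      | exact Tv.mem _ _
      | exact Tv.eq _ _
      | refine extB_allK fun _ => ?_
      | refine extB_allW fun _ => ?_
      | refine extB_exK fun _ => ?_
      | refine extB_exW fun _ => ?_
      | refine E1_extB_himp ?_ ?_
      | refine E1_extB_inf ?_ ?_
      | refine E1_extB_sup ?_ ?_
      | refine E1_extB_compl ?_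
      | refine extB_mem ?_ ?_
      | refine extB_eq ?_ ?_
      | refine extE_opair ?_ ?_
  refine h.holds ?_
  rw [eq_top_iff]
  refine le_iInf fun x => le_iInf fun i => ?_
  simp only [ExK, AllK, memB_rel3B, eqB_kchk']
  exact (hg x i).ge

/-- Proof: pattern of `Q05.lean`; `memB_nchk'`, `memB_kNm`, `memB_LB`: if `m < n`, `k m = x`, `k n = y` then
`x < y`. -/
theorem q_kmono (U : UF B) (k : ℕ → K) (hk : StrictMono k) :
    ∀ m, EU U m (cls U omB) → ∀ n, EU U n (cls U omB) → EU U m n → ∀ x, EU U x (cls U (KB K B)) → ∀ y, EU U y (cls U (KB K B)) →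
      Rel (EU U) m x (cls U (kNm B k)) → Rel (EU U) n y (cls U (kNm B k)) → Rel (EU U) x y (cls U (LB K B)) := by
  have h : Tv U (AllW fun m => AllW fun n => memB m n ⇨ AllK K fun x => AllK K fun y =>
      memB (opair m x) (kNm B k) ⇨ (memB (opair n y) (kNm B k) ⇨ memB (opair x y) (LB K B)))
      (∀ m, EU U m (cls U omB) → ∀ n, EU U n (cls U omB) → EU U m n →
        ∀ x, EU U x (cls U (KB K B)) → ∀ y, EU U y (cls U (KB K B)) →
          Rel (EU U) m x (cls U (kNm B k)) → Rel (EU U) n y (cls U (kNm B k)) →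
            Rel (EU U) x y (cls U (LB K B))) := by
    repeat' first
      | exact E1_extB_const _
      | exact extE_id
      | exact extE_const _
      | refine tv_allK ?_ fun _ => ?_
      | refine tv_allW ?_ fun _ => ?_
      | refine tv_exK ?_ fun _ => ?_
      | refine tv_exW ?_ fun _ => ?_
      | refine Tv.imp ?_ ?_
      | refine Tv.and ?_ ?_
      | refine Tv.or ?_ ?_
      | refine Tv.not ?_
      | exact tv_rel3 _ _ _ _
      | exact Tv.rel _ _ _
      | exact Tv.mem _ _
      | exact Tv.eq _ _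
      | refine extB_allK fun _ => ?_
      | refine extB_allW fun _ => ?_
      | refine extB_exK fun _ => ?_
      | refine extB_exW fun _ => ?_
      | refine E1_extB_himp ?_ ?_
      | refine E1_extB_inf ?_ ?_
      | refine E1_extB_sup ?_ ?_
      | refine E1_extB_compl ?_
      | refine extB_mem ?_ ?_
      | refine extB_eq ?_ ?_
      | refine extE_opair ?_ ?_
  refine h.holds ?_
  rw [eq_top_iff]
  refine le_iInf fun m => le_iInf fun n => ?_
  simp only [AllK, memB_nchk', memB_kNm, memB_LB]
  by_cases hmn : m < n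
  · refine le_trans (le_iInf fun x => le_iInf fun y => ?_) le_himp
    by_cases hx : k m = x
    · by_cases hy : k n = y
      · subst hx hy
        simp [tvB, ltB, hk hmn]
      · simp [tvB, hy]
    · simp [tvB, hx]
  · simp [tvB, hmn]

end Pool.Agent.H58C
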