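import Pool.Agent.Lib.H58C.QBase

/-!
# Q03: regularity
-/

set_option autoImplicit false

open Set Function Pool.Agent.H5Z Pool.Agent.H30C Pool.Agent.H5Z.BSet

namespace Pool.Agent.H58C

variable {B : Type} [CompleteBooleanAlgebra B] {K : Type} [LinearOrder K] [WellFoundedLT K]

/-- Proof. Let `f = cls U F` (`exists_cls`); pattern of `Q05.lean` for
`AllK K fun a => (AllK K fun x => memB (opair x a) (LB K B) ⇨ ExK K fun y => memB (opair x y) F) ⇨ ExK K fun d => AllK K fun x =>
memB (opair x a) (LB K B) ⇨ HitF K F x d` (in the place of `HitF` its definition `ExK K fun y => memB (opair y d) (LB K B) ⊓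
memB (opair x y) F`; `Hit` unfolded), then `hb.reg` for the function `fun x y => memB (opair (kchk B x) (kchk B y)) F`. -/
theorem q_reg (U : UF B) (k : ℕ → K) (g h : K → ℕ → K → B) (hb : BScale k g h) :
    ∀ f, ∀ a, EU U a (cls U (KB K B)) → (∀ x, EU U x (cls U (KB K B)) → Rel (EU U) x a (cls U (LB K B)) → ∃ y, EU U y (cls U (KB K B)) ∧ Rel (EU U) x y f) →
      ∃ d, EU U d (cls U (KB K B)) ∧ ∀ x, EU U x (cls U (KB K B)) → Rel (EU U) x a (cls U (LB K B)) → Hit (EU U) (cls U (KB K B)) (cls U (LB K B)) f x d := by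
  intro f
  obtain ⟨F, rfl⟩ := exists_cls U f
  unfold Hit
  have h : Tv U (AllK K fun a => (AllK K fun x => memB (opair x a) (LB K B) ⇨ ExK K fun y => memB (opair x y) F) ⇨
      ExK K fun d => AllK K fun x => memB (opair x a) (LB K B) ⇨ ExK K fun y => memB (opair y d) (LB K B) ⊓ memB (opair x y) F)
      (∀ a, EU U a (cls U (KB K B)) → (∀ x, EU U x (cls U (KB K B)) → Rel (EU U) x a (cls U (LB K B)) →
        ∃ y, EU U y (cls U (KB K B)) ∧ Rel (EU U) x y (cls U F)) →
      ∃ d, EU U d (cls U (KB K B)) ∧ ∀ x, EU U x (cls U (KB K B)) → Rel (EU U) x a (cls U (LB K B)) →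
        ∃ y, EU U y (cls U (KB K B)) ∧ Rel (EU U) y d (cls U (LB K B)) ∧ Rel (EU U) x y (cls U F)) := by
    repeat' first
      | exact E1_extB_const _
      | exact extE_id
      | exact extE_const _
      | refine tv_allK ?_ fun _ => ?_
      | refine tv_allW ?_ fun _ => ?_
      | refine tv_exK ?_ fun _ => ?_
      | refine tv_exW ?_ fun _ => ?_
      | refine Tv.imp ?_ ?_
      | refine Tv.and ?_ ?_
      | refine Tv.or ?_ ?_
      | refine Tv.not ?_
      | exact tv_rel3 _ _ _ _
      | exact Tv.rel _ _ _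
      | exact Tv.mem _ _
      | exact Tv.eq _ _
      | refine extB_allK fun _ => ?_
      | refine extB_allW fun _ => ?_
      | refine extB_exK fun _ => ?_
      | refine extB_exW fun _ => ?_
      | refine E1_extB_himp ?_ ?_
      | refine E1_extB_inf ?_ ?_
      | refine E1_extB_sup ?_ ?_
      | refine E1_extB_compl ?_
      | refine extB_mem ?_ ?_
      | refine extB_eq ?_ ?_
      | refine extE_opair ?_ ?_
  refine h.holds ?_
  rw [eq_top_iff]
  refine le_iInf fun a => ?_
  rw [le_himp_iff, top_inf_eq]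
  simp only [ExK, AllK, memB_LB]
  exact hb.reg (fun x y => memB (opair (kchk B x) (kchk B y)) F) a

/-- Proof: in the same way, with `hb.bddN` for `fun n y => memB (opair (nchk n) (kchk B y)) F`; for the names `i`, `c` the
premise `memB (opair (nchk i) (kchk B c)) (kNm B k) = tvB B (k i = c)` (`by_cases`, substitute `c`). -/
theorem q_bddN (U : UF B) (k : ℕ → K) (g h : K → ℕ → K → B) (hb : BScale k g h) :
    ∀ f, ∀ i, EU U i (cls U omB) → ∀ c, EU U c (cls U (KB K B)) → Rel (EU U) i c (cls U (kNm B k)) →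
      (∀ n, EU U n (cls U omB) → Hit (EU U) (cls U (KB K B)) (cls U (LB K B)) f n c) →
        ∃ d, EU U d (cls U (KB K B)) ∧ Rel (EU U) d c (cls U (LB K B)) ∧ ∀ n, EU U n (cls U omB) → Hit (EU U) (cls U (KB K B)) (cls U (LB K B)) f n d := by
  intro f
  obtain ⟨F, rfl⟩ := exists_cls U f
  unfold Hit
  have h : Tv U (AllW fun i => AllK K fun c => memB (opair i c) (kNm B k) ⇨
      ((AllW fun n => ExK K fun y => memB (opair y c) (LB K B) ⊓ memB (opair n y) F) ⇨
        ExK K fun d => memB (opair d c) (LB K B) ⊓ AllW fun n => ExK K fun y => memB (opair y d) (LB K B) ⊓ memB (opair n y) F))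
      (∀ i, EU U i (cls U omB) → ∀ c, EU U c (cls U (KB K B)) → Rel (EU U) i c (cls U (kNm B k)) →
      (∀ n, EU U n (cls U omB) → ∃ y, EU U y (cls U (KB K B)) ∧ Rel (EU U) y c (cls U (LB K B)) ∧ Rel (EU U) n y (cls U F)) →
        ∃ d, EU U d (cls U (KB K B)) ∧ Rel (EU U) d c (cls U (LB K B)) ∧ ∀ n, EU U n (cls U omB) →
          ∃ y, EU U y (cls U (KB K B)) ∧ Rel (EU U) y d (cls U (LB K B)) ∧ Rel (EU U) n y (cls U F)) := by
    repeat' first
      | exact E1_extB_const _
      | exact extE_id
      | exact extE_const _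
      | refine tv_allK ?_ fun _ => ?_
      | refine tv_allW ?_ fun _ => ?_
      | refine tv_exK ?_ fun _ => ?_
      | refine tv_exW ?_ fun _ => ?_
      | refine Tv.imp ?_ ?_
      | refine Tv.and ?_ ?_
      | refine Tv.or ?_ ?_
      | refine Tv.not ?_
      | exact tv_rel3 _ _ _ _
      | exact Tv.rel _ _ _
      | exact Tv.mem _ _
      | exact Tv.eq _ _
      | refine extB_allK fun _ => ?_
      | refine extB_allW fun _ => ?_
      | refine extB_exK fun _ => ?_
      | refine extB_exW fun _ => ?_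
      | refine E1_extB_himp ?_ ?_
      | refine E1_extB_inf ?_ ?_
      | refine E1_extB_sup ?_ ?_
      | refine E1_extB_compl ?_
      | refine extB_mem ?_ ?_
      | refine extB_eq ?_ ?_
      | refine extE_opair ?_ ?_
  refine h.holds ?_
  rw [eq_top_iff]
  refine le_iInf fun i => le_iInf fun c => ?_
  simp only [ExK, AllK, AllW, memB_LB, memB_kNm]
  unfold tvB
  by_cases hc : k i = c
  · subst hc
    rw [if_pos rfl, top_himp, le_himp_iff, top_inf_eq]
    exact hb.bddN (fun n y => memB (opair (nchk n) (kchk B y)) F) i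
  · rw [if_neg hc, bot_himp]

end Pool.Agent.H58C
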