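import Pool.Agent.Lib.H58C.QBase

/-!
# Q04: bdd and gk
-/

set_option autoImplicit false

open Set Function Pool.Agent.H5Z Pool.Agent.H30C Pool.Agent.H5Z.BSet

namespace Pool.Agent.H58C

variable {B : Type} [CompleteBooleanAlgebra B] {K : Type} [LinearOrder K] [WellFoundedLT K]

/-- Proof: as `q_bddN` in `Q03.lean` (pattern of `Q05.lean`), with `hb.bdd`. -/
theorem q_bdd (U : UF B) (k : ℕ → K) (g h : K → ℕ → K → B) (hb : BScale k g h) :
    ∀ f, ∀ m, EU U m (cls U omB) → ∀ i, EU U i (cls U omB) → EU U m i → ∀ b, EU U b (cls U (KB K B)) → ∀ c, EU U c (cls U (KB K B)) →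
      Rel (EU U) m b (cls U (kNm B k)) → Rel (EU U) i c (cls U (kNm B k)) → (∀ x, EU U x (cls U (KB K B)) → Rel (EU U) x b (cls U (LB K B)) → Hit (EU U) (cls U (KB K B)) (cls U (LB K B)) f x c) →
        ∃ d, EU U d (cls U (KB K B)) ∧ Rel (EU U) d c (cls U (LB K B)) ∧ ∀ x, EU U x (cls U (KB K B)) → Rel (EU U) x b (cls U (LB K B)) → Hit (EU U) (cls U (KB K B)) (cls U (LB K B)) f x d := by
  intro f
  obtain ⟨F, rfl⟩ := exists_cls U f
  have h : Tv U (AllW fun m => AllW fun i => memB m i ⇨ AllK K fun b => AllK K fun c =>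
      memB (opair m b) (kNm B k) ⇨ (memB (opair i c) (kNm B k) ⇨
        ((AllK K fun x => memB (opair x b) (LB K B) ⇨ ExK K fun y =>
            memB (opair y c) (LB K B) ⊓ memB (opair x y) F) ⇨
          ExK K fun d => memB (opair d c) (LB K B) ⊓ AllK K fun x => memB (opair x b) (LB K B) ⇨
            ExK K fun y => memB (opair y d) (LB K B) ⊓ memB (opair x y) F)))
      (∀ m, EU U m (cls U omB) → ∀ i, EU U i (cls U omB) → EU U m i → ∀ b, EU U b (cls U (KB K B)) → ∀ c, EU U c (cls U (KB K B)) →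
      Rel (EU U) m b (cls U (kNm B k)) → Rel (EU U) i c (cls U (kNm B k)) → (∀ x, EU U x (cls U (KB K B)) → Rel (EU U) x b (cls U (LB K B)) → ∃ y, EU U y (cls U (KB K B)) ∧ Rel (EU U) y c (cls U (LB K B)) ∧ Rel (EU U) x y (cls U F)) →
        ∃ d, EU U d (cls U (KB K B)) ∧ Rel (EU U) d c (cls U (LB K B)) ∧ ∀ x, EU U x (cls U (KB K B)) → Rel (EU U) x b (cls U (LB K B)) → ∃ y, EU U y (cls U (KB K B)) ∧ Rel (EU U) y d (cls U (LB K B)) ∧ Rel (EU U) x y (cls U F)) := by
    repeat' first
      | exact E1_extB_const _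
      | exact extE_id
      | exact extE_const _
      | refine tv_allK ?_ fun _ => ?_
      | refine tv_allW ?_ fun _ => ?_
      | refine tv_exK ?_ fun _ => ?_
      | refine tv_exW ?_ fun _ => ?_
      | refine Tv.imp ?_ ?_
      | refine Tv.and ?_ ?_
      | refine Tv.or ?_ ?_
      | refine Tv.not ?_
      | exact tv_rel3 _ _ _ _
      | exact Tv.rel _ _ _
      | exact Tv.mem _ _
      | exact Tv.eq _ _
      | refine extB_allK fun _ => ?_
      | refine extB_allW fun _ => ?_
      | refine extB_exK fun _ => ?_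
      | refine extB_exW fun _ => ?_
      | refine E1_extB_himp ?_ ?_
      | refine E1_extB_inf ?_ ?_
      | refine E1_extB_sup ?_ ?_
      | refine E1_extB_compl ?_
      | refine extB_mem ?_ ?_
      | refine extB_eq ?_ ?_
      | refine extE_opair ?_ ?_
  refine h.holds ?_
  rw [eq_top_iff]
  refine le_iInf fun m => le_iInf fun i => ?_
  simp only [AllK, ExK, memB_LB, memB_kNm, memB_nchk']
  unfold tvB
  by_cases hmi : m < i
  · rw [if_pos hmi, top_himp]
    refine le_iInf fun b => le_iInf fun c => ?_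
    by_cases hb1 : k m = b
    · rw [if_pos hb1, top_himp]
      by_cases hc1 : k i = c
      · rw [if_pos hc1, top_himp, ← eq_top_iff, himp_eq_top_iff, ← hb1, ← hc1]
        exact hb.bdd (fun x y => memB (opair (kchk B x) (kchk B y)) F) m i hmi
      · rw [if_neg hc1, bot_himp]
    · rw [if_neg hb1, bot_himp]
  · rw [if_neg hmi, bot_himp]

/-- Proof: pattern of `Q05.lean`, `hb.gk`. -/
theorem q_gk (U : UF B) (k : ℕ → K) (g h : K → ℕ → K → B) (hb : BScale k g h) :
    ∀ x, EU U x (cls U (KB K B)) → ∀ i, EU U i (cls U omB) → ∀ a, EU U a (cls U (KB K B)) → ∀ c, EU U c (cls U (KB K B)) → Rel3 (EU U) x i a (cls U (rel3B g)) →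
      Rel (EU U) i c (cls U (kNm B k)) → Rel (EU U) a c (cls U (LB K B)) := by
  have h : Tv U (AllK K fun x => AllW fun i => AllK K fun a => AllK K fun c =>
      memB (opair (opair x i) a) (rel3B g) ⇨ (memB (opair i c) (kNm B k) ⇨ memB (opair a c) (LB K B)))
      (∀ x, EU U x (cls U (KB K B)) → ∀ i, EU U i (cls U omB) → ∀ a, EU U a (cls U (KB K B)) → ∀ c, EU U c (cls U (KB K B)) → Rel3 (EU U) x i a (cls U (rel3B g)) →
      Rel (EU U) i c (cls U (kNm B k)) → Rel (EU U) a c (cls U (LB K B))) := by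
    repeat' first
      | exact E1_extB_const _
      | exact extE_id
      | exact extE_const _
      | refine tv_allK ?_ fun _ => ?_
      | refine tv_allW ?_ fun _ => ?_
      | refine tv_exK ?_ fun _ => ?_
      | refine tv_exW ?_ fun _ => ?_
      | refine Tv.imp ?_ ?_
      | refine Tv.and ?_ ?_
      | refine Tv.or ?_ ?_
      | refine Tv.not ?_
      | exact tv_rel3 _ _ _ _
      | exact Tv.rel _ _ _
      | exact Tv.mem _ _
      | exact Tv.eq _ _
      | refine extB_allK fun _ => ?_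
      | refine extB_allW fun _ => ?_
      | refine extB_exK fun _ => ?_
      | refine extB_exW fun _ => ?_
      | refine E1_extB_himp ?_ ?_
      | refine E1_extB_inf ?_ ?_
      | refine E1_extB_sup ?_ ?_
      | refine E1_extB_compl ?_
      | refine extB_mem ?_ ?_
      | refine extB_eq ?_ ?_
      | refine extE_opair ?_ ?_
  refine h.holds ?_
  rw [eq_top_iff]
  refine le_iInf fun x => le_iInf fun i => le_iInf fun a => le_iInf fun c => ?_
  simp only [memB_LB, memB_kNm, memB_rel3B]
  unfold tvB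
  by_cases hc1 : k i = c
  · rw [if_pos hc1, top_himp, ← eq_top_iff, himp_eq_top_iff, ← hc1]
    exact hb.gk x i a
  · rw [if_neg hc1, bot_himp, himp_top]

end Pool.Agent.H58C
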