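import Pool.Agent.Lib.H58C.QBase

/-!
# Q05: the clause `inc`, pattern for the chunks Q
-/

set_option autoImplicit false

open Set Function

namespace Pool.Agent.H58C

open Pool.Agent.H5Z Pool.Agent.H30C BSet Fml

variable {B : Type} [CompleteBooleanAlgebra B] {K : Type} [LinearOrder K] [WellFoundedLT K]

theorem q_inc (U : UF B) (k : ℕ → K) (g h : K → ℕ → K → B) (hb : BScale k g h) :
    ∀ x, EU U x (cls U (KB K B)) → ∀ y, EU U y (cls U (KB K B)) →
      Rel (EU U) x y (cls U (LB K B)) → ∃ n, EU U n (cls U omB) ∧ ∀ i, EU U i (cls U omB) →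
        ¬ EU U i n → ∀ a, EU U a (cls U (KB K B)) → ∀ b, EU U b (cls U (KB K B)) →
          Rel3 (EU U) x i a (cls U (rel3B g)) → Rel3 (EU U) y i b (cls U (rel3B g)) →
            Rel (EU U) a b (cls U (LB K B)) := by
  have h : Tv U (AllK K fun x => AllK K fun y => memB (opair x y) (LB K B) ⇨ ExW fun n => AllW fun i =>
      (memB i n)ᶜ ⇨ AllK K fun a => AllK K fun b => memB (opair (opair x i) a) (rel3B g) ⇨
        (memB (opair (opair y i) b) (rel3B g) ⇨ memB (opair a b) (LB K B)))
      (∀ x, EU U x (cls U (KB K B)) → ∀ y, EU U y (cls U (KB K B)) →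
      Rel (EU U) x y (cls U (LB K B)) → ∃ n, EU U n (cls U omB) ∧ ∀ i, EU U i (cls U omB) →
        ¬ EU U i n → ∀ a, EU U a (cls U (KB K B)) → ∀ b, EU U b (cls U (KB K B)) →
          Rel3 (EU U) x i a (cls U (rel3B g)) → Rel3 (EU U) y i b (cls U (rel3B g)) →
            Rel (EU U) a b (cls U (LB K B))) := by
    repeat' first
      | exact E1_extB_const _
      | exact extE_id
      | exact extE_const _
      | refine tv_allK ?_ fun _ => ?_
      | refine tv_allW ?_ fun _ => ?_
      | refine tv_exK ?_ fun _ => ?_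
      | refine tv_exW ?_ fun _ => ?_
      | refine Tv.imp ?_ ?_
      | refine Tv.and ?_ ?_
      | refine Tv.or ?_ ?_
      | refine Tv.not ?_
      | exact tv_rel3 _ _ _ _
      | exact Tv.rel _ _ _
      | exact Tv.mem _ _
      | exact Tv.eq _ _
      | refine extB_allK fun _ => ?_
      | refine extB_allW fun _ => ?_
      | refine extB_exK fun _ => ?_
      | refine extB_exW fun _ => ?_
      | refine E1_extB_himp ?_ ?_
      | refine E1_extB_inf ?_ ?_
      | refine E1_extB_sup ?_ ?_
      | refine E1_extB_compl ?_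
      | refine extB_mem ?_ ?_
      | refine extB_eq ?_ ?_
      | refine extE_opair ?_ ?_
  refine h.holds ?_
  rw [eq_top_iff]
  refine le_iInf fun x => le_iInf fun y => ?_
  simp only [ExW, AllW, AllK, memB_LB, memB_rel3B, memB_nchk']
  unfold ltB
  by_cases hxy : x < y
  · rw [if_pos hxy, top_himp]
    exact (hb.inc x y hxy).ge
  · rw [if_neg hxy, bot_himp]

end Pool.Agent.H58C
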