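import Pool.Agent.Lib.H58C.QBase

/-!
# Q06: dom
-/

set_option autoImplicit false

open Set Function Pool.Agent.H5Z Pool.Agent.H30C Pool.Agent.H5Z.BSet

namespace Pool.Agent.H58C

variable {B : Type} [CompleteBooleanAlgebra B] {K : Type} [LinearOrder K] [WellFoundedLT K]

/-- Proof: pattern of `Q05.lean` and `q_reg`; the hypothesis has the truth value
`AllW fun i => AllK K fun c => memB (opair i c) (kNm B k) ⇨ ExK K fun a => ...`; its value at the names is
`⨅ i, ⨅ c, tvB B (k i = c) ⇨ hitB (f i) c`, which is at most `⨅ i, hitB (f i) (k i)` (take `c = k i`). -/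
theorem q_dom (U : UF B) (k : ℕ → K) (g h : K → ℕ → K → B) (hb : BScale k g h) :
    ∀ f, (∀ i, EU U i (cls U omB) → ∀ c, EU U c (cls U (KB K B)) → Rel (EU U) i c (cls U (kNm B k)) → Hit (EU U) (cls U (KB K B)) (cls U (LB K B)) f i c) →
      ∃ x, EU U x (cls U (KB K B)) ∧ ∃ n, EU U n (cls U omB) ∧ ∀ i, EU U i (cls U omB) → ¬ EU U i n → ∀ b, EU U b (cls U (KB K B)) →
        Rel3 (EU U) x i b (cls U (rel3B g)) → ∃ a, EU U a (cls U (KB K B)) ∧ ¬ Rel (EU U) b a (cls U (LB K B)) ∧ Rel (EU U) i a f := by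
  intro F
  obtain ⟨f, rfl⟩ := exists_cls U F
  have h1 : Tv U (AllW fun i => AllK K fun c => memB (opair i c) (kNm B k) ⇨
      ExK K fun y => memB (opair y c) (LB K B) ⊓ memB (opair i y) f)
      (∀ i, EU U i (cls U omB) → ∀ c, EU U c (cls U (KB K B)) → Rel (EU U) i c (cls U (kNm B k)) →
        ∃ y, EU U y (cls U (KB K B)) ∧ Rel (EU U) y c (cls U (LB K B)) ∧ Rel (EU U) i y (cls U f)) := by
    repeat' first
      | exact E1_extB_const _
      | exact extE_id
      | exact extE_const _
      | refine tv_allK ?_ fun _ => ?_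
      | refine tv_allW ?_ fun _ => ?_
      | refine tv_exK ?_ fun _ => ?_
      | refine tv_exW ?_ fun _ => ?_
      | refine Tv.imp ?_ ?_
      | refine Tv.and ?_ ?_
      | refine Tv.or ?_ ?_
      | refine Tv.not ?_
      | exact tv_rel3 _ _ _ _
      | exact Tv.rel _ _ _
      | exact Tv.mem _ _
      | exact Tv.eq _ _
      | refine extB_allK fun _ => ?_
      | refine extB_allW fun _ => ?_
      | refine extB_exK fun _ => ?_
      | refine extB_exW fun _ => ?_
      | refine E1_extB_himp ?_ ?_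
      | refine E1_extB_inf ?_ ?_
      | refine E1_extB_sup ?_ ?_
      | refine E1_extB_compl ?_
      | refine extB_mem ?_ ?_
      | refine extB_eq ?_ ?_
      | refine extE_opair ?_ ?_
  have h2 : Tv U (ExK K fun x => ExW fun n => AllW fun i => (memB i n)ᶜ ⇨ AllK K fun b =>
      memB (opair (opair x i) b) (rel3B g) ⇨ ExK K fun a => (memB (opair b a) (LB K B))ᶜ ⊓
        memB (opair i a) f)
      (∃ x, EU U x (cls U (KB K B)) ∧ ∃ n, EU U n (cls U omB) ∧ ∀ i, EU U i (cls U omB) →
        ¬ EU U i n → ∀ b, EU U b (cls U (KB K B)) → Rel3 (EU U) x i b (cls U (rel3B g)) →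
          ∃ a, EU U a (cls U (KB K B)) ∧ ¬ Rel (EU U) b a (cls U (LB K B)) ∧
            Rel (EU U) i a (cls U f)) := by
    repeat' first
      | exact E1_extB_const _
      | exact extE_id
      | exact extE_const _
      | refine tv_allK ?_ fun _ => ?_
      | refine tv_allW ?_ fun _ => ?_
      | refine tv_exK ?_ fun _ => ?_
      | refine tv_exW ?_ fun _ => ?_
      | refine Tv.imp ?_ ?_
      | refine Tv.and ?_ ?_
      | refine Tv.or ?_ ?_
      | refine Tv.not ?_
      | exact tv_rel3 _ _ _ _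
      | exact Tv.rel _ _ _
      | exact Tv.mem _ _
      | exact Tv.eq _ _
      | refine extB_allK fun _ => ?_
      | refine extB_allW fun _ => ?_
      | refine extB_exK fun _ => ?_
      | refine extB_exW fun _ => ?_
      | refine E1_extB_himp ?_ ?_
      | refine E1_extB_inf ?_ ?_
      | refine E1_extB_sup ?_ ?_
      | refine E1_extB_compl ?_
      | refine extB_mem ?_ ?_
      | refine extB_eq ?_ ?_
      | refine extE_opair ?_ ?_
  refine h1.mono h2 ?_
  have h3 := hb.dom fun i a => memB (opair (nchk i) (kchk B a)) f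
  simp only [ExW, ExK, AllW, AllK, memB_LB, memB_rel3B, memB_nchk', memB_kNm]
  refine le_trans ?_ h3
  refine le_iInf fun i => ?_
  refine (iInf_le _ i).trans ((iInf_le _ (k i)).trans ?_)
  unfold tvB hitB
  rw [if_pos rfl, top_himp]

end Pool.Agent.H58C
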