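import Pool.Agent.Lib.H58C.QBase

/-!
# Q07: TailIn
-/

set_option autoImplicit false

open Set Function Pool.Agent.H5Z Pool.Agent.H30C Pool.Agent.H5Z.BSet

namespace Pool.Agent.H58C

variable {B : Type} [CompleteBooleanAlgebra B] {K : Type} [LinearOrder K] [WellFoundedLT K]

/-- Extensionality of `TailF` in all variables.

Proof: `unfold TailF`, then the second half of the `repeat' first` block of `Q05.lean`; the subgoals
for `V` are closed by `hV`. -/
theorem extB_tailF (g : BSet B) {G N R X : BSet B → BSet B} (hG : ExtE G) (hN : ExtE N) (hR : ExtE R)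
    (hX : ExtE X) {V : BSet B → BSet B → BSet B → B} (hV : ∀ i c, ExtB (fun x => V x i c)) :
    ExtB (fun x => TailF K (G x) (N x) (R x) (X x) (V x)) := by
  unfold TailF
  repeat' first
      | exact hV _ _
      | exact hG
      | exact hN
      | exact hR
      | exact hX
      | exact E1_extB_const _
      | exact extE_id
      | exact extE_const _
      | refine tv_allK ?_ fun _ => ?_
      | refine tv_allW ?_ fun _ => ?_
      | refine tv_exK ?_ fun _ => ?_
      | refine tv_exW ?_ fun _ => ?_
      | refine Tv.imp ?_ ?_
      | refine Tv.and ?_ ?_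
      | refine Tv.or ?_ ?_
      | refine Tv.not ?_
      | exact tv_rel3 _ _ _ _
      | exact Tv.rel _ _ _
      | exact Tv.mem _ _
      | exact Tv.eq _ _
      | refine extB_allK fun _ => ?_
      | refine extB_allW fun _ => ?_
      | refine extB_exK fun _ => ?_
      | refine extB_exW fun _ => ?_
      | refine E1_extB_himp ?_ ?_
      | refine E1_extB_inf ?_ ?_
      | refine E1_extB_sup ?_ ?_
      | refine E1_extB_compl ?_
      | refine extB_mem ?_ ?_
      | refine extB_eq ?_ ?_
      | refine extE_opair ?_ ?_

/-- The truth value of `TailIn`.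

Proof: `unfold TailF TailIn`, then the block of `Q05.lean`; the subgoals for `V` are closed by `hV`, `hV1`,
`hV2`. -/
theorem tv_tailF (U : UF B) (g N r x : BSet B) (V : BSet B → BSet B → B) (V' : Mod U → Mod U → Prop)
    (hV : ∀ i c, Tv U (V i c) (V' (cls U i) (cls U c))) (hV1 : ∀ c, ExtB (fun i => V i c))
    (hV2 : ∀ i, ExtB (fun c => V i c)) :
    Tv U (TailF K g N r x V)
      (TailIn (EU U) (cls U omB) (cls U (KB K B)) (cls U (LB K B)) (cls U g) (cls U N) (cls U r) (cls U x) V') := by
  unfold TailF TailIn
  repeat' first
      | exact hV _ _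
      | exact hV1 _
      | exact hV2 _
      | exact E1_extB_const _
      | exact extE_id
      | exact extE_const _
      | refine tv_allK ?_ fun _ => ?_
      | refine tv_allW ?_ fun _ => ?_
      | refine tv_exK ?_ fun _ => ?_
      | refine tv_exW ?_ fun _ => ?_
      | refine Tv.imp ?_ ?_
      | refine Tv.and ?_ ?_
      | refine Tv.or ?_ ?_
      | refine Tv.not ?_
      | exact tv_rel3 _ _ _ _
      | exact Tv.rel _ _ _
      | exact Tv.mem _ _
      | exact Tv.eq _ _
      | refine extB_allK fun _ => ?_
      | refine extB_allW fun _ => ?_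
      | refine extB_exK fun _ => ?_
      | refine extB_exW fun _ => ?_
      | refine E1_extB_himp ?_ ?_
      | refine E1_extB_inf ?_ ?_
      | refine E1_extB_sup ?_ ?_
      | refine E1_extB_compl ?_
      | refine extB_mem ?_ ?_
      | refine extB_eq ?_ ?_
      | refine extE_opair ?_ ?_

/-- The value of `TailF` at the canonical names. Proof: `unfold`, `simp only` with `memB_LB`, `memB_rel3B`, `memB_setB`,
`memB_nchk'`. -/
theorem tailF_names (g : K → ℕ → K → B) (χ : K → B) (r x : K) (V : BSet B → BSet B → B) :
    TailF K (rel3B g) (setB χ) (kchk B r) (kchk B x) V =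
      tailB g χ r x (fun i c => V (nchk i) (kchk B c)) := by
  unfold TailF tailB
  simp only [ExW, AllW, AllK, ExK, memB_LB, memB_rel3B, memB_setB, memB_nchk']

end Pool.Agent.H58C
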