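import Pool.Agent.Lib.H58C.Q07

/-!
# Q08: guess
-/

set_option autoImplicit false

open Set Function Pool.Agent.H5Z Pool.Agent.H30C Pool.Agent.H5Z.BSet

namespace Pool.Agent.H58C

variable {B : Type} [CompleteBooleanAlgebra B] {K : Type} [LinearOrder K] [WellFoundedLT K]

/-- Boolean value of the conclusion of `guess` for the names `F`, `N`, `e` -/
noncomputable def GuessF (K : Type) [LinearOrder K] [WellFoundedLT K] (k g h F N e : BSet B) : B :=
  (ExK K fun x => memB x N) ⊓
  ((funcB (fun n (x : K) => memB (opair (nchk n) (kchk B x)) e) ⊓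
      AllK K fun x => memB x N ⇨ ExW fun n => memB (opair n x) e) ⊓
  ((AllW fun n => AllK K fun x => AllK K fun y => memB x N ⇨ (memB y N ⇨ ExK K fun z =>
      memB z N ⊓ memB (opair (opair (opair n x) y) z) F)) ⊓
  AllK K fun x => (memB x N)ᶜ ⇨ ExK K fun r => (memB (opair x r) (LB K B))ᶜ ⊓
    (((AllK K fun v => memB v N ⇨ memB (opair v r) (LB K B)) ⊓
        TailF K g N r x (fun i c => memB (opair i c) k)) ⊔
      ExK K fun c => memB c N ⊓ (memB (opair x c) (LB K B) ⊓
        ((AllK K fun v => memB v N ⇨ (memB (opair v c) (LB K B) ⇨ memB (opair v r) (LB K B))) ⊓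
          TailF K g N r x (fun i b => memB (opair (opair c i) b) h))))))

/-- Proof. `tv_exS` twice (for `N`, `e`), then the block of `Q05.lean` with `Tv.func` for `IsFuncIn`, `tv_rel4`, `tv_tailF` and
`extB_tailF` added to the alternatives; extensionality in `e` of `funcB ...`: `unfold funcB`, `E1_extB_iInf`,
`extB_pairS` (see the field `init` in `Lib/H30C/TOm.lean`). -/
theorem tv_guess (U : UF B) (k g h F : BSet B) :
    Tv U (ExS fun N => ExS fun e => GuessF K k g h F N e)
      (∃ N e, (∃ x, EU U x (cls U (KB K B)) ∧ EU U x N) ∧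
      (IsFuncIn (EU U) (cls U omB) (cls U (KB K B)) e ∧ ∀ x, EU U x (cls U (KB K B)) → EU U x N → ∃ n, EU U n (cls U omB) ∧ Rel (EU U) n x e) ∧
      (∀ n, EU U n (cls U omB) → ∀ x, EU U x (cls U (KB K B)) → ∀ y, EU U y (cls U (KB K B)) → EU U x N → EU U y N →
        ∃ z, EU U z (cls U (KB K B)) ∧ EU U z N ∧ Rel4 (EU U) n x y z (cls U F)) ∧
      ∀ x, EU U x (cls U (KB K B)) → ¬ EU U x N → ∃ r, EU U r (cls U (KB K B)) ∧ ¬ Rel (EU U) x r (cls U (LB K B)) ∧
        (((∀ v, EU U v (cls U (KB K B)) → EU U v N → Rel (EU U) v r (cls U (LB K B))) ∧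
            TailIn (EU U) (cls U omB) (cls U (KB K B)) (cls U (LB K B)) (cls U g) N r x fun i c => Rel (EU U) i c (cls U k)) ∨
          ∃ c, EU U c (cls U (KB K B)) ∧ EU U c N ∧ Rel (EU U) x c (cls U (LB K B)) ∧
            (∀ v, EU U v (cls U (KB K B)) → EU U v N → Rel (EU U) v c (cls U (LB K B)) → Rel (EU U) v r (cls U (LB K B))) ∧
              TailIn (EU U) (cls U omB) (cls U (KB K B)) (cls U (LB K B)) (cls U g) N r x fun i b => Rel3 (EU U) c i b (cls U h))) := by
  refine tv_exS ?_ fun N => ?_
  · refine extB_exS fun e => ?_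
    unfold GuessF
    repeat' first
      | refine extB_tailF ?_ ?_ ?_ ?_ fun _ _ => ?_
      | exact E1_extB_const _
      | exact extE_id
      | exact extE_const _
      | refine tv_allK ?_ fun _ => ?_
      | refine tv_allW ?_ fun _ => ?_
      | refine tv_exK ?_ fun _ => ?_
      | refine tv_exW ?_ fun _ => ?_
      | refine Tv.imp ?_ ?_
      | refine Tv.and ?_ ?_
      | refine Tv.or ?_ ?_
      | refine Tv.not ?_
      | exact tv_rel4 _ _ _ _ _
      | exact tv_rel3 _ _ _ _
      | exact Tv.rel _ _ _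
      | exact Tv.mem _ _
      | exact Tv.eq _ _
      | refine extB_allK fun _ => ?_
      | refine extB_allW fun _ => ?_
      | refine extB_exK fun _ => ?_
      | refine extB_exW fun _ => ?_
      | refine E1_extB_himp ?_ ?_
      | refine E1_extB_inf ?_ ?_
      | refine E1_extB_sup ?_ ?_
      | refine E1_extB_compl ?_
      | refine extB_mem ?_ ?_
      | refine extB_eq ?_ ?_
      | refine extE_opair ?_ ?_
  refine tv_exS ?_ fun e => ?_
  · unfold GuessF funcB
    repeat' first
      | exact E1_extB_iInf fun _ => E1_extB_iInf fun _ => E1_extB_iInf fun _ => E1_extB_himp (extB_pairS _ _) (E1_extB_himp (extB_pairS _ _) (E1_extB_const _))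
      | exact E1_extB_const _
      | exact extE_id
      | exact extE_const _
      | refine tv_allK ?_ fun _ => ?_
      | refine tv_allW ?_ fun _ => ?_
      | refine tv_exK ?_ fun _ => ?_
      | refine tv_exW ?_ fun _ => ?_
      | refine Tv.imp ?_ ?_
      | refine Tv.and ?_ ?_
      | refine Tv.or ?_ ?_
      | refine Tv.not ?_
      | exact tv_rel4 _ _ _ _ _
      | exact tv_rel3 _ _ _ _
      | exact Tv.rel _ _ _
      | exact Tv.mem _ _
      | exact Tv.eq _ _
      | refine extB_allK fun _ => ?_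
      | refine extB_allW fun _ => ?_
      | refine extB_exK fun _ => ?_
      | refine extB_exW fun _ => ?_
      | refine E1_extB_himp ?_ ?_
      | refine E1_extB_inf ?_ ?_
      | refine E1_extB_sup ?_ ?_
      | refine E1_extB_compl ?_
      | refine extB_mem ?_ ?_
      | refine extB_eq ?_ ?_
      | refine extE_opair ?_ ?_
  unfold GuessF
  repeat' first
    | exact Tv.func U e
    | refine extB_tailF ?_ ?_ ?_ ?_ fun _ _ => ?_
    | refine tv_tailF _ _ _ _ _ _ _ (fun _ _ => ?_) (fun _ => ?_) (fun _ => ?_)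
    | exact E1_extB_const _
    | exact extE_id
    | exact extE_const _
    | refine tv_allK ?_ fun _ => ?_
    | refine tv_allW ?_ fun _ => ?_
    | refine tv_exK ?_ fun _ => ?_
    | refine tv_exW ?_ fun _ => ?_
    | refine Tv.imp ?_ ?_
    | refine Tv.and ?_ ?_
    | refine Tv.or ?_ ?_
    | refine Tv.not ?_
    | exact tv_rel4 _ _ _ _ _
    | exact tv_rel3 _ _ _ _
    | exact Tv.rel _ _ _
    | exact Tv.mem _ _
    | exact Tv.eq _ _
    | refine extB_allK fun _ => ?_
    | refine extB_allW fun _ => ?_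
    | refine extB_exK fun _ => ?_
    | refine extB_exW fun _ => ?_
    | refine E1_extB_himp ?_ ?_
    | refine E1_extB_inf ?_ ?_
    | refine E1_extB_sup ?_ ?_
    | refine E1_extB_compl ?_
    | refine extB_mem ?_ ?_
    | refine extB_eq ?_ ?_
    | refine extE_opair ?_ ?_

end Pool.Agent.H58C
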