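import Pool.Agent.Lib.H58C.Q08

/-!
# Q09: guess, conclusion
-/

set_option autoImplicit false

open Set Function Pool.Agent.H5Z Pool.Agent.H30C Pool.Agent.H5Z.BSet

namespace Pool.Agent.H58C

variable {B : Type} [CompleteBooleanAlgebra B] {K : Type} [LinearOrder K] [WellFoundedLT K]

theorem q09_pos {P : Prop} (h : P) : tvB B P = ⊤ := by
  unfold tvB
  rw [if_pos h]

theorem q09_neg {P : Prop} (h : ¬ P) : tvB B P = ⊥ := by
  unfold tvB
  rw [if_neg h]

/-- The value of `GuessF` at the canonical names, for a countable nonempty set `N`.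

Proof. Let `e` be an injection of `N` in `ℕ` (`Set.countable_iff_exists_injOn`) and take the name
`funN (fun n y => tvB B (y ∈ N ∧ e y = n))` (as in the field `init` in `Lib/H30C/TOm.lean`) and the name
`setB (fun v => tvB B (v ∈ N))`. The first part has the value `⊤` (an element of `N`), the second part too; the third
and fourth parts are the two terms of the left-hand side by `memB_setB`, `memB_LB`, `memB_kNm`, `memB_rel3B`,
`tailF_names`. -/
theorem guessF_names (k : ℕ → K) (g h : K → ℕ → K → B) (F : BSet B) {N : Set K} (hN : N.Nonempty)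
    (hN' : N.Countable) :
    ((⨅ n : ℕ, ⨅ x : K, ⨅ y : K, tvB B (x ∈ N) ⇨ (tvB B (y ∈ N) ⇨ ⨆ z : K, tvB B (z ∈ N) ⊓
        memB (opair (opair (opair (nchk n) (kchk B x)) (kchk B y)) (kchk B z)) F)) ⊓
      ⨅ x : K, (tvB B (x ∈ N))ᶜ ⇨ ⨆ r : K, (ltB B x r)ᶜ ⊓
        (((⨅ v : K, tvB B (v ∈ N) ⇨ ltB B v r) ⊓
            tailB g (fun v => tvB B (v ∈ N)) r x (fun i c => tvB B (k i = c))) ⊔
          ⨆ c : K, tvB B (c ∈ N) ⊓ (ltB B x c ⊓
            ((⨅ v : K, tvB B (v ∈ N) ⇨ (ltB B v c ⇨ ltB B v r)) ⊓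
              tailB g (fun v => tvB B (v ∈ N)) r x (fun i b => h c i b))))) ≤
      ExS fun N' => ExS fun e => GuessF K (kNm B k) (rel3B g) (rel3B h) F N' e := by
  classical
  obtain ⟨e, he⟩ := Set.countable_iff_exists_injOn.1 hN'
  refine le_iSup_of_le (setB (fun v => tvB B (v ∈ N))) (le_iSup_of_le (funN (fun n y => tvB B (y ∈ N ∧ e y = n))) ?_)
  unfold GuessF
  refine le_inf ?_ (le_inf (le_inf ?_ ?_) (le_inf ?_ ?_))
  · obtain ⟨x0, hx0⟩ := hN
    refine le_iSup_of_le x0 ?_
    beta_reduce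
    rw [memB_setB, q09_pos hx0]
    exact le_top
  · unfold funcB
    refine le_iInf fun n => le_iInf fun x => le_iInf fun y => ?_
    beta_reduce
    rw [memB_funN, memB_funN]
    by_cases h1 : x ∈ N ∧ e x = n
    · by_cases h2 : y ∈ N ∧ e y = n
      · rw [if_pos (he h1.1 h2.1 (h1.2.trans h2.2.symm)), himp_top, himp_top]
        exact le_top
      · rw [q09_neg h2, bot_himp, himp_top]
        exact le_top
    · rw [q09_neg h1, bot_himp]
      exact le_top
  · refine le_iInf fun x => ?_
    beta_reduce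
    rw [memB_setB]
    by_cases h1 : x ∈ N
    · rw [q09_pos h1, top_himp]
      refine le_iSup_of_le (e x) ?_
      beta_reduce
      rw [memB_funN, q09_pos ⟨h1, rfl⟩]
      exact le_top
    · rw [q09_neg h1, bot_himp]
      exact le_top
  · refine inf_le_left.trans (le_of_eq ?_)
    simp only [AllW, AllK, ExK, memB_setB]
  · refine inf_le_right.trans (le_of_eq ?_)
    simp only [AllK, ExK, memB_setB, memB_LB, tailF_names, memB_kNm, memB_rel3B]

/-- Proof. Let `F = cls U F'`. The hypothesis has the truth value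
`AllW fun n => AllK K fun x => AllK K fun y => ExK K fun z => memB (opair (opair (opair n x) y) z) F'` (block of
`Q05.lean` with `tv_rel4`); `Tv.mono` with `tv_guess`, `hb.guess` and `guessF_names` (`iSup_le`). -/
theorem q_guess (U : UF B) (k : ℕ → K) (g h : K → ℕ → K → B) (hb : BScale k g h) :
    ∀ F, (∀ n, EU U n (cls U omB) → ∀ x, EU U x (cls U (KB K B)) → ∀ y, EU U y (cls U (KB K B)) → ∃ z, EU U z (cls U (KB K B)) ∧
      Rel4 (EU U) n x y z F) →
    ∃ N e, (∃ x, EU U x (cls U (KB K B)) ∧ EU U x N) ∧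
      (IsFuncIn (EU U) (cls U omB) (cls U (KB K B)) e ∧ ∀ x, EU U x (cls U (KB K B)) → EU U x N → ∃ n, EU U n (cls U omB) ∧ Rel (EU U) n x e) ∧
      (∀ n, EU U n (cls U omB) → ∀ x, EU U x (cls U (KB K B)) → ∀ y, EU U y (cls U (KB K B)) → EU U x N → EU U y N →
        ∃ z, EU U z (cls U (KB K B)) ∧ EU U z N ∧ Rel4 (EU U) n x y z F) ∧
      ∀ x, EU U x (cls U (KB K B)) → ¬ EU U x N → ∃ r, EU U r (cls U (KB K B)) ∧ ¬ Rel (EU U) x r (cls U (LB K B)) ∧
        (((∀ v, EU U v (cls U (KB K B)) → EU U v N → Rel (EU U) v r (cls U (LB K B))) ∧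
            TailIn (EU U) (cls U omB) (cls U (KB K B)) (cls U (LB K B)) (cls U (rel3B g)) N r x fun i c => Rel (EU U) i c (cls U (kNm B k))) ∨
          ∃ c, EU U c (cls U (KB K B)) ∧ EU U c N ∧ Rel (EU U) x c (cls U (LB K B)) ∧
            (∀ v, EU U v (cls U (KB K B)) → EU U v N → Rel (EU U) v c (cls U (LB K B)) → Rel (EU U) v r (cls U (LB K B))) ∧
              TailIn (EU U) (cls U omB) (cls U (KB K B)) (cls U (LB K B)) (cls U (rel3B g)) N r x fun i b => Rel3 (EU U) c i b (cls U (rel3B h))) := by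
  intro F
  obtain ⟨F', rfl⟩ := exists_cls U F
  have h1 : Tv U (AllW fun n => AllK K fun x => AllK K fun y => ExK K fun z => memB (opair (opair (opair n x) y) z) F')
      (∀ n, EU U n (cls U omB) → ∀ x, EU U x (cls U (KB K B)) → ∀ y, EU U y (cls U (KB K B)) → ∃ z, EU U z (cls U (KB K B)) ∧
        Rel4 (EU U) n x y z (cls U F')) := by
    repeat' first
      | exact E1_extB_const _
      | exact extE_id
      | exact extE_const _
      | refine tv_allK ?_ fun _ => ?_
      | refine tv_allW ?_ fun _ => ?_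
      | refine tv_exK ?_ fun _ => ?_
      | refine tv_exW ?_ fun _ => ?_
      | exact tv_rel4 _ _ _ _ _
      | refine extB_allK fun _ => ?_
      | refine extB_allW fun _ => ?_
      | refine extB_exK fun _ => ?_
      | refine extB_exW fun _ => ?_
      | refine extB_mem ?_ ?_
      | refine extE_opair ?_ ?_
  refine h1.mono (tv_guess U (kNm B k) (rel3B g) (rel3B h) F') ?_
  refine (hb.guess fun n x y z => memB (opair (opair (opair (nchk n) (kchk B x)) (kchk B y)) (kchk B z)) F').trans ?_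
  exact iSup_le fun N => guessF_names k g h F' N.2.1 N.2.2

end Pool.Agent.H58C
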