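import Pool.Agent.Lib.H58C.Q01
import Pool.Agent.Lib.H58C.Q02
import Pool.Agent.Lib.H58C.Q03
import Pool.Agent.Lib.H58C.Q04
import Pool.Agent.Lib.H58C.Q05
import Pool.Agent.Lib.H58C.Q06
import Pool.Agent.Lib.H58C.Q09

/-!
# Q10: the quotient structure satisfies the principle
-/

set_option autoImplicit false

open Set Function Pool.Agent.H5Z Pool.Agent.H30C Pool.Agent.H5Z.BSet

namespace Pool.Agent.H58C

variable {B : Type} [CompleteBooleanAlgebra B] {K : Type} [LinearOrder K] [WellFoundedLT K]

/-- Proof: the names `omB`, `KB K B`, `LB K B`, `kNm B k`, `rel3B g`, `rel3B h`; `omega_cls U` and the chunks Q. -/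
theorem scaleIn_quot (U : UF B) (k : ℕ → K) (g h : K → ℕ → K → B) (hb : BScale k g h) :
    ScaleIn (EU U) := by
  exact ⟨cls U omB, cls U (KB K B), cls U (LB K B), cls U (kNm B k), cls U (rel3B g), cls U (rel3B h), omega_cls U,
    { irr := q_irr U
      trans := q_trans U
      tri := q_tri U
      wf := q_wf U
      kfun := q_kfun U k
      gfun := q_fun3 U g hb.gfun
      hfun := q_fun3 U h hb.hfun
      kmono := q_kmono U k hb.kmono
      reg := q_reg U k g h hb
      bddN := q_bddN U k g h hb
      bdd := q_bdd U k g h hb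
      gk := q_gk U k g h hb
      inc := q_inc U k g h hb
      dom := q_dom U k g h hb
      guess := q_guess U k g h hb }⟩

end Pool.Agent.H58C
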