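import Pool.Agent.Lib.H30C.Models
import Pool.Agent.Lib.H58C.Q10
import Pool.Agent.Lib.H58C.B09
import Pool.Agent.Lib.H58C.G03

/-!
# Q11: a model
-/

set_option autoImplicit false

open Set Function Pool.Agent.H5Z Pool.Agent.H30C Pool.Agent.H5Z.BSet

namespace Pool.Agent.H58C



/-- There is a model of ZFC which satisfies the guessing scale principle.

Proof: as `exists_dia_model` in `Lib/H30C/Models.lean`: `exists_gcard`, `GCard.ground`, `nonempty_cd`, `exists_UF (RO (Cd k))`,
`mod_modelsZFC`, `scaleIn_quot`, `cd_bscale`. -/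
theorem exists_scale_model : ∃ (M : Type 1) (E : M → M → Prop), ModelsZFC E ∧ ScaleIn E := by
  obtain ⟨K, i1, i2, k, H⟩ := exists_gcard
  have G : Ground k := H.ground
  haveI : Nonempty (Cd k) := nonempty_cd G
  obtain ⟨U⟩ := exists_UF (RO (Cd k))
  exact ⟨Mod U, EU U, mod_modelsZFC U, scaleIn_quot U k gN hN (cd_bscale G)⟩

end Pool.Agent.H58C
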