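import Pool.Agent.Lib.H58C.Sent
import Pool.Agent.Lib.H58C.FDefs
import Pool.Agent.Lib.H30C.TOm

/-!
# Translation to the quotient structure (H58C): combinators

`AllK K F`, `ExK K F` are quantifiers over the canonical names of the elements of `K`, `AllW`, `ExW` over
the numerals, `ExS` over all names. With these the goals `Tv` and `ExtB` are syntax-directed.
-/

set_option autoImplicit false

open Set Function

namespace Pool.Agent.H58C

open Pool.Agent.H5Z Pool.Agent.H30C BSet Fml

section

variable {B : Type} [CompleteBooleanAlgebra B]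

/-! ### Extensional terms -/

/-- `G` respects Boolean-valued equality (as a term) -/
def ExtE (G : BSet B → BSet B) : Prop := ∀ a a', eqB a a' ≤ eqB (G a) (G a')

theorem extE_id : ExtE (fun x : BSet B => x) := fun _ _ => le_rfl

theorem extE_const (c : BSet B) : ExtE (fun _ : BSet B => c) := fun _ _ => by
  rw [eqB_refl]; exact le_top

theorem extE_opair {G H : BSet B → BSet B} (hG : ExtE G) (hH : ExtE H) :
    ExtE (fun x => opair (G x) (H x)) := fun a a' => by
  rw [eqB_opair]
  exact le_inf (hG a a') (hH a a')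

theorem extB_mem {G H : BSet B → BSet B} (hG : ExtE G) (hH : ExtE H) :
    ExtB (fun x => memB (G x) (H x)) := fun a a' => by
  have h1 : eqB a a' ⊓ memB (G a) (H a) ≤ eqB (G a) (G a') ⊓ memB (G a) (H a) :=
    inf_le_inf_right _ (hG a a')
  have h2 : eqB a a' ⊓ memB (G a) (H a) ≤ memB (G a') (H a) :=
    h1.trans (memB_congr_left _ _ _)
  have h3 : eqB a a' ⊓ memB (G a) (H a) ≤ eqB (H a) (H a') ⊓ memB (G a') (H a) :=
    le_inf (inf_le_left.trans (hH a a')) h2
  exact h3.trans (memB_congr_right _ _ _)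

theorem extB_eq {G H : BSet B → BSet B} (hG : ExtE G) (hH : ExtE H) :
    ExtB (fun x => eqB (G x) (H x)) := fun a a' => by
  have h1 : eqB a a' ⊓ eqB (G a) (H a) ≤ eqB (G a') (H a) := by
    have : eqB a a' ⊓ eqB (G a) (H a) ≤ eqB (G a') (G a) ⊓ eqB (G a) (H a) := by
      rw [eqB_symm (G a') (G a)]
      exact inf_le_inf_right _ (hG a a')
    exact this.trans (eqB_trans _ _ _)
  have h2 : eqB a a' ⊓ eqB (G a) (H a) ≤ eqB (G a') (H a) ⊓ eqB (H a) (H a') :=
    le_inf h1 (inf_le_left.trans (hH a a'))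
  exact h2.trans (eqB_trans _ _ _)

/-! ### Combinators -/

variable (K : Type) [LinearOrder K] [WellFoundedLT K]

/-- quantifier over the names of elements of `K` -/
noncomputable def AllK (F : BSet B → B) : B := ⨅ k : K, F (kchk B k)
/-- quantifier over the names of elements of `K` -/
noncomputable def ExK (F : BSet B → B) : B := ⨆ k : K, F (kchk B k)
/-- quantifier over the numerals -/
def AllW (F : BSet B → B) : B := ⨅ n : ℕ, F (nchk n)
/-- quantifier over the numerals -/
def ExW (F : BSet B → B) : B := ⨆ n : ℕ, F (nchk n)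
/-- quantifier over all names -/
def ExS (F : BSet B → B) : B := ⨆ x : BSet B, F x

variable {K}

theorem extB_allK {G : BSet B → BSet B → B} (h : ∀ k : K, ExtB (fun x => G x (kchk B k))) :
    ExtB (fun x => AllK K (G x)) := E1_extB_iInf h

theorem extB_exK {G : BSet B → BSet B → B} (h : ∀ k : K, ExtB (fun x => G x (kchk B k))) :
    ExtB (fun x => ExK K (G x)) := E1_extB_iSup h

theorem extB_allW {G : BSet B → BSet B → B} (h : ∀ n : ℕ, ExtB (fun x => G x (nchk n))) :
    ExtB (fun x => AllW (G x)) := E1_extB_iInf h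

theorem extB_exW {G : BSet B → BSet B → B} (h : ∀ n : ℕ, ExtB (fun x => G x (nchk n))) :
    ExtB (fun x => ExW (G x)) := E1_extB_iSup h

theorem extB_exS {G : BSet B → BSet B → B} (h : ∀ y : BSet B, ExtB (fun x => G x y)) :
    ExtB (fun x => ExS (G x)) := E1_extB_iSup h

variable {U : UF B}

theorem tv_allK {F : BSet B → B} {P : Mod U → Prop} (hF : ExtB F)
    (h : ∀ x, Tv U (F x) (P (cls U x))) :
    Tv U (AllK K F) (∀ m, EU U m (cls U (KB K B)) → P m) := Tv.allK hF h

theorem tv_exK {F : BSet B → B} {P : Mod U → Prop} (hF : ExtB F)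
    (h : ∀ x, Tv U (F x) (P (cls U x))) :
    Tv U (ExK K F) (∃ m, EU U m (cls U (KB K B)) ∧ P m) := Tv.exK hF h

theorem tv_allW {F : BSet B → B} {P : Mod U → Prop} (hF : ExtB F)
    (h : ∀ x, Tv U (F x) (P (cls U x))) :
    Tv U (AllW F) (∀ m, EU U m (cls U omB) → P m) := Tv.allW hF h

theorem tv_exW {F : BSet B → B} {P : Mod U → Prop} (hF : ExtB F)
    (h : ∀ x, Tv U (F x) (P (cls U x))) :
    Tv U (ExW F) (∃ m, EU U m (cls U omB) ∧ P m) := Tv.exW hF h

theorem tv_exS {F : BSet B → B} {P : Mod U → Prop} (hF : ExtB F)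
    (h : ∀ x, Tv U (F x) (P (cls U x))) : Tv U (ExS F) (∃ m, P m) := Tv.ex hF h

/-! ### Names -/

/-- name of the function of two arguments with the Boolean graph `g` -/
noncomputable def rel3B (g : K → ℕ → K → B) : BSet B :=
  BSet.mk (K × ℕ × K) (fun p => opair (opair (kchk B p.1) (nchk p.2.1)) (kchk B p.2.2))
    (fun p => g p.1 p.2.1 p.2.2)

theorem memB_rel3B (g : K → ℕ → K → B) (x : K) (i : ℕ) (a : K) :
    memB (opair (opair (kchk B x) (nchk i)) (kchk B a)) (rel3B g) = g x i a := by
  unfold rel3B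
  rw [memB]
  apply le_antisymm
  · refine iSup_le fun p => ?_
    rw [eqB_opair, eqB_opair, eqB_kchk, eqB_kchk, eqB_nchk]
    by_cases h : x = p.1
    · by_cases h' : i = p.2.1
      · by_cases h'' : a = p.2.2
        · rw [h, h', h'']
          exact inf_le_left
        · rw [if_neg h'', inf_bot_eq, inf_bot_eq]
          exact bot_le
      · rw [if_neg h', inf_bot_eq, bot_inf_eq, inf_bot_eq]
        exact bot_le
    · rw [if_neg h, bot_inf_eq, bot_inf_eq, inf_bot_eq]
      exact bot_le
  · refine le_iSup_of_le (x, i, a) ?_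
    rw [eqB_opair, eqB_opair, eqB_kchk, eqB_kchk, eqB_nchk, if_pos rfl, if_pos rfl, if_pos rfl,
      inf_top_eq, inf_top_eq, inf_top_eq]

/-- name of the function `k` -/
noncomputable def kNm (B : Type) [CompleteBooleanAlgebra B] (k : ℕ → K) : BSet B :=
  funN (fun n x => tvB B (k n = x))

theorem memB_kNm (k : ℕ → K) (n : ℕ) (x : K) :
    memB (opair (nchk n) (kchk B x)) (kNm B k) = tvB B (k n = x) := memB_funN _ n x

theorem memB_nchk' (m n : ℕ) : memB (nchk m : BSet B) (nchk n) = tvB B (m < n) := by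
  rw [memB_nchk]
  unfold tvB
  by_cases h : m < n
  · rw [if_pos h, if_pos h]
  · rw [if_neg h, if_neg h]

theorem eqB_kchk' (x y : K) : eqB (kchk B x) (kchk B y) = tvB B (x = y) := by
  rw [eqB_kchk]
  unfold tvB
  by_cases h : x = y
  · rw [if_pos h, if_pos h]
  · rw [if_neg h, if_neg h]

/-! ### Truth values of the new atomic formulas -/

theorem isPair_iff (p x y : BSet B) :
    IsPair (EU U) (cls U p) (cls U x) (cls U y) ↔ cls U p = cls U (opair x y) := by
  let v : ℕ → BSet B := fun n => if n = 0 then p else if n = 1 then x else y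
  have h1 := DSB_fPair (EU U) 0 1 2 (by decide) (by decide) (by decide) (fun i => cls U (v i))
  have h2 := los U (fPair 0 1 2) v
  have h3 := bval_fPair 0 1 2 (by decide) (by decide) (by decide) v
  rw [h3] at h2
  exact h1.symm.trans (h2.trans (cls_eq U _ _).symm)

theorem rel3_cls_iff (x i a r : BSet B) :
    Rel3 (EU U) (cls U x) (cls U i) (cls U a) (cls U r) ↔
      Rel (EU U) (cls U (opair x i)) (cls U a) (cls U r) := by
  constructor
  · rintro ⟨p, hp, hr⟩
    obtain ⟨p', rfl⟩ := exists_cls U p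
    rw [(isPair_iff p' x i).1 hp] at hr
    exact hr
  · intro h
    exact ⟨_, (isPair_iff (opair x i) x i).2 rfl, h⟩

theorem tv_rel3 (x i a r : BSet B) :
    Tv U (memB (opair (opair x i) a) r) (Rel3 (EU U) (cls U x) (cls U i) (cls U a) (cls U r)) := by
  have h := Tv.rel (U := U) (opair x i) a r
  unfold Tv at *
  rw [h, rel3_cls_iff]

theorem tv_rel4 (n x y z r : BSet B) :
    Tv U (memB (opair (opair (opair n x) y) z) r)
      (Rel4 (EU U) (cls U n) (cls U x) (cls U y) (cls U z) (cls U r)) := by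
  have h := tv_rel3 (U := U) (opair n x) y z r
  unfold Tv at *
  rw [h]
  constructor
  · intro h1
    exact ⟨_, (isPair_iff (opair n x) n x).2 rfl, h1⟩
  · rintro ⟨p, hp, hr⟩
    obtain ⟨p', rfl⟩ := exists_cls U p
    rw [(isPair_iff p' n x).1 hp] at hr
    exact hr

/-- Boolean value of `Hit` -/
noncomputable def HitF (K : Type) [LinearOrder K] [WellFoundedLT K] (f x c : BSet B) : B :=
  ExK K fun y => memB (opair y c) (LB K B) ⊓ memB (opair x y) f

/-- Boolean value of `TailIn` -/
noncomputable def TailF (K : Type) [LinearOrder K] [WellFoundedLT K] (g N r x : BSet B)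
    (V : BSet B → BSet B → B) : B :=
  ExW fun n => AllW fun i => (memB i n)ᶜ ⇨ AllK K fun a => AllK K fun b => AllK K fun c =>
    memB (opair (opair r i) a) g ⇨ (memB (opair (opair x i) b) g ⇨ (V i c ⇨
      ((memB (opair b a) (LB K B))ᶜ ⊓ (memB (opair b c) (LB K B) ⊓
        ((AllK K fun v => memB v N ⇨ (memB (opair v c) (LB K B) ⇨ memB (opair v a) (LB K B))) ⊓
          AllK K fun z => memB (opair z a) (LB K B) ⇨ ExK K fun v => memB v N ⊓
            (memB (opair z v) (LB K B) ⊓ memB (opair v a) (LB K B)))))))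

end

end Pool.Agent.H58C
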