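import Mathlib

/-!
# The guessing scale principle for a well-order of the Lean universe (H58C, MP_f12e07_gt)
-/

set_option autoImplicit false

open Set Filter

namespace Pool.Agent.H58C

variable {Ω : Type*} [LinearOrder Ω]


/-- For all large `i`: `g r i ≤ g x i < b i`, and `g r i` is the supremum, not attained, of the
elements of `N` below `b i`. -/
def Tail (g : Ω → ℕ → Ω) (N : Set Ω) (r x : Ω) (b : ℕ → Ω) : Prop :=
  ∀ᶠ i in atTop, g r i ≤ g x i ∧ g x i < b i ∧ (∀ v ∈ N, v < b i → v < g r i) ∧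
    ∀ z < g r i, ∃ v ∈ N, z < v ∧ v < g r i

/-- `N` is traced by the scale: each `x ∉ N` is above some `r` with the property `Tail`. -/
def Traced (k : ℕ → Ω) (g h : Ω → ℕ → Ω) (N : Set Ω) : Prop :=
  ∀ x, x ∉ N → ∃ r ≤ x, ((∀ v ∈ N, v < r) ∧ Tail g N r x k) ∨
    ∃ c ∈ N, x < c ∧ (∀ v ∈ N, v < c → v < r) ∧ Tail g N r x (h c)

/-- The guessing scale principle for the well-order `Ω`. -/
structure Scale (k : ℕ → Ω) (g h : Ω → ℕ → Ω) : Prop where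
  kmono : StrictMono k
  reg : ∀ (a : Ω) (f : Ω → Ω), ∃ d, ∀ x < a, f x < d
  bddN : ∀ (i : ℕ) (f : ℕ → Ω), (∀ n, f n < k i) → ∃ d < k i, ∀ n, f n < d
  bdd : ∀ m i : ℕ, m < i → ∀ f : Ω → Ω, (∀ x < k m, f x < k i) →
    ∃ d < k i, ∀ x < k m, f x < d
  gk : ∀ x i, g x i < k i
  inc : ∀ x y, x < y → ∀ᶠ i in atTop, g x i < g y i
  dom : ∀ f : ℕ → Ω, (∀ i, f i < k i) → ∃ x, ∀ᶠ i in atTop, f i ≤ g x i
  guess : ∀ F : ℕ → Ω → Ω → Ω, ∃ N : Set Ω, N.Nonempty ∧ N.Countable ∧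
    (∀ n, ∀ x ∈ N, ∀ y ∈ N, F n x y ∈ N) ∧ Traced k g h N

/-- `a` is zero, a successor, or the supremum of a sequence of smaller elements. -/
def Tame (a : Ω) : Prop := ∃ f : ℕ → Ω, ∀ b < a, ∃ n, b ≤ f n ∧ f n < a

end Pool.Agent.H58C
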