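import Pool.Agent.Lib.H30C.Defs

/-!
# The guessing scale principle as a first-order sentence about a structure `(M, E)` (H58C)

`IsOmega E w`, `IsPair E p x y`, `Rel E x y r` (that is `(x, y) ∈ r`, Kuratowski pair) are the notions of
`Pool.Agent.Lib.H5Z.Defs`, and `IsFuncIn E w Ω f` (`f` is a partial function from `w` to `Ω`) is that of
`Pool.Agent.Lib.H30C.Defs`. All quantifiers range over the elements of `M`.
-/

set_option autoImplicit false

open Set Filter

namespace Pool.Agent.H58C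

open Pool.Agent.H5Z Pool.Agent.H30C

/-! ### The sentence -/

section Sentence

variable {M : Type*} (E : M → M → Prop)

/-- `((x, i), a) ∈ r`, that is: the function `r` of two arguments has the value `a` at `(x, i)`. -/
def Rel3 (x i a r : M) : Prop := ∃ p, IsPair E p x i ∧ Rel E p a r

/-- `(((n, x), y), z) ∈ r` -/
def Rel4 (n x y z r : M) : Prop := ∃ p, IsPair E p n x ∧ Rel3 E p y z r

/-- In `(M, E)`: some element of `Ω` which is `L`-below `c` is related to `x` by `f`. -/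
def Hit (Ω L f x c : M) : Prop := ∃ y, E y Ω ∧ Rel E y c L ∧ Rel E x y f

/-- In `(M, E)`: for all but finitely many `i` in `w`, if `a = g (r, i)`, `b = g (x, i)` and
`V i c`, then `a ≤ b < c` and `a` is the supremum, not attained, of the elements of `N` below
`c`. -/
def TailIn (w Ω L g N r x : M) (V : M → M → Prop) : Prop :=
  ∃ n, E n w ∧ ∀ i, E i w → ¬ E i n → ∀ a, E a Ω → ∀ b, E b Ω → ∀ c, E c Ω →
    Rel3 E r i a g → Rel3 E x i b g → V i c →
      ¬ Rel E b a L ∧ Rel E b c L ∧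
        (∀ v, E v Ω → E v N → Rel E v c L → Rel E v a L) ∧
          ∀ z, E z Ω → Rel E z a L → ∃ v, E v Ω ∧ E v N ∧ Rel E z v L ∧ Rel E v a L

/-- In `(M, E)`, with `w` the set of natural numbers: `L` is a strict well-order of `Ω`,
`k : w → Ω` is increasing, `g, h : Ω × w → Ω` are functions, and the conditions below hold. -/
structure IsScaleIn (w Ω L k g h : M) : Prop where
  irr : ∀ x, E x Ω → ¬ Rel E x x L
  trans : ∀ x, E x Ω → ∀ y, E y Ω → ∀ z, E z Ω → Rel E x y L → Rel E y z L → Rel E x z L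
  tri : ∀ x, E x Ω → ∀ y, E y Ω → ¬ x = y → Rel E x y L ∨ Rel E y x L
  /-- every set with an element in `Ω` has an `L`-least element in `Ω` -/
  wf : ∀ A x, E x Ω → E x A → ∃ y, E y Ω ∧ E y A ∧ ∀ z, E z Ω → E z A → ¬ Rel E z y L
  kfun : ∀ n, E n w → ∃ x, E x Ω ∧ Rel E n x k ∧ ∀ y, E y Ω → Rel E n y k → y = x
  gfun : ∀ x, E x Ω → ∀ i, E i w → ∃ a, E a Ω ∧ Rel3 E x i a g ∧
    ∀ b, E b Ω → Rel3 E x i b g → b = a
  hfun : ∀ x, E x Ω → ∀ i, E i w → ∃ a, E a Ω ∧ Rel3 E x i a h ∧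
    ∀ b, E b Ω → Rel3 E x i b h → b = a
  kmono : ∀ m, E m w → ∀ n, E n w → E m n → ∀ x, E x Ω → ∀ y, E y Ω →
    Rel E m x k → Rel E n y k → Rel E x y L
  /-- `Ω` is regular: if `f` is a relation and each `x < a` is related to something, then for some
  `d` each `x < a` is related to something below `d`. -/
  reg : ∀ f, ∀ a, E a Ω → (∀ x, E x Ω → Rel E x a L → ∃ y, E y Ω ∧ Rel E x y f) →
    ∃ d, E d Ω ∧ ∀ x, E x Ω → Rel E x a L → Hit E Ω L f x d
  /-- each `c = k i` has uncountable cofinality -/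
  bddN : ∀ f, ∀ i, E i w → ∀ c, E c Ω → Rel E i c k → (∀ n, E n w → Hit E Ω L f n c) →
    ∃ d, E d Ω ∧ Rel E d c L ∧ ∀ n, E n w → Hit E Ω L f n d
  /-- for `m < i` the cofinality of `c = k i` is greater than `b = k m` -/
  bdd : ∀ f, ∀ m, E m w → ∀ i, E i w → E m i → ∀ b, E b Ω → ∀ c, E c Ω →
    Rel E m b k → Rel E i c k → (∀ x, E x Ω → Rel E x b L → Hit E Ω L f x c) →
      ∃ d, E d Ω ∧ Rel E d c L ∧ ∀ x, E x Ω → Rel E x b L → Hit E Ω L f x d
  gk : ∀ x, E x Ω → ∀ i, E i w → ∀ a, E a Ω → ∀ c, E c Ω → Rel3 E x i a g → Rel E i c k →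
    Rel E a c L
  /-- `g` is increasing modulo finite sets -/
  inc : ∀ x, E x Ω → ∀ y, E y Ω → Rel E x y L → ∃ n, E n w ∧ ∀ i, E i w → ¬ E i n →
    ∀ a, E a Ω → ∀ b, E b Ω → Rel3 E x i a g → Rel3 E y i b g → Rel E a b L
  /-- `g` is cofinal modulo finite sets in the product of the `k i` -/
  dom : ∀ f, (∀ i, E i w → ∀ c, E c Ω → Rel E i c k → Hit E Ω L f i c) →
    ∃ x, E x Ω ∧ ∃ n, E n w ∧ ∀ i, E i w → ¬ E i n → ∀ b, E b Ω → Rel3 E x i b g →
      ∃ a, E a Ω ∧ ¬ Rel E b a L ∧ Rel E i a f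
  /-- Guessing: for every relation `F` such that for all `n, x, y` some `z` satisfies
  `(((n, x), y), z) ∈ F` there is a nonempty countable `N` closed in this sense under `F`, such that
  for each `x ∉ N` there is `r ≤ x`, above all elements of `N` (below some `c ∈ N`, `x < c`), with
  the property `TailIn`, for the values of `k` (for the values of `h (c, ·)`). -/
  guess : ∀ F, (∀ n, E n w → ∀ x, E x Ω → ∀ y, E y Ω → ∃ z, E z Ω ∧ Rel4 E n x y z F) →
    ∃ N e, (∃ x, E x Ω ∧ E x N) ∧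
      (IsFuncIn E w Ω e ∧ ∀ x, E x Ω → E x N → ∃ n, E n w ∧ Rel E n x e) ∧
      (∀ n, E n w → ∀ x, E x Ω → ∀ y, E y Ω → E x N → E y N →
        ∃ z, E z Ω ∧ E z N ∧ Rel4 E n x y z F) ∧
      ∀ x, E x Ω → ¬ E x N → ∃ r, E r Ω ∧ ¬ Rel E x r L ∧
        (((∀ v, E v Ω → E v N → Rel E v r L) ∧
            TailIn E w Ω L g N r x fun i c => Rel E i c k) ∨
          ∃ c, E c Ω ∧ E c N ∧ Rel E x c L ∧
            (∀ v, E v Ω → E v N → Rel E v c L → Rel E v r L) ∧
              TailIn E w Ω L g N r x fun i b => Rel3 E c i b h)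

/-- `(M, E)` satisfies the guessing scale principle. -/
def ScaleIn : Prop := ∃ w Ω L k g h : M, IsOmega E w ∧ IsScaleIn E w Ω L k g h

end Sentence

end Pool.Agent.H58C
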