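import Pool.Agent.Lib.H58C.TDefs

/-!
# T00: first consequences of the principle
-/

set_option autoImplicit false

open Set Filter Topology

namespace Pool.Agent.H58C

variable {Ω : Type} [LinearOrder Ω] {k : ℕ → Ω} {g h : Ω → ℕ → Ω}

/-- `Ω` has no largest element. Proof: `S.reg (k 1) (fun _ => a)` gives `d` with `a < d`, as
`k 0 < k 1`. -/
theorem Scale.exists_gt' (S : Scale k g h) (a : Ω) : ∃ b, a < b := by
  obtain ⟨d, hd⟩ := S.reg (k 1) (fun _ => a)
  exact ⟨d, hd (k 0) (S.kmono one_pos)⟩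

/-- There are infinitely many elements below `k 0`.

Proof. `g a 0 < k 0` (`S.gk`, any `a`, for instance `k 0`), and for `x < k 0` the constant sequence gives `d < k 0` with
`x < d` (`S.bddN 0`). Define `u` by recursion (`exists_seq_strictMono'`-like, or `Nat.rec` on the subtype of the
elements below `k 0`). -/
theorem Scale.exists_strictMono (S : Scale k g h) :
    ∃ u : ℕ → Ω, StrictMono u ∧ ∀ n, u n < k 0 := by
  have step : ∀ x : {x : Ω // x < k 0}, ∃ y : {x : Ω // x < k 0}, x.1 < y.1 := by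
    intro x
    obtain ⟨d, hd, hx⟩ := S.bddN 0 (fun _ => x.1) (fun _ => x.2)
    exact ⟨⟨d, hd⟩, hx 0⟩
  choose F hF using step
  let u : ℕ → {x : Ω // x < k 0} := fun n => Nat.rec ⟨g (k 0) 0, S.gk _ _⟩ (fun _ y => F y) n
  exact ⟨fun n => (u n).1, strictMono_nat_of_lt_succ fun n => hF (u n), fun n => (u n).2⟩

/-- Sequences are bounded. Proof. With `u` from `Scale.exists_strictMono`, let `F x = f n` if
`x = u n` (injective), anything otherwise; use `S.reg (k 0) F`. -/
theorem Scale.bdd_seq (S : Scale k g h) (f : ℕ → Ω) : ∃ d, ∀ n, f n < d := by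
  classical
  obtain ⟨u, hu, hk⟩ := S.exists_strictMono
  obtain ⟨d, hd⟩ := S.reg (k 0) (fun x => if hx : ∃ n, u n = x then f hx.choose else x)
  refine ⟨d, fun n => ?_⟩
  have h1 := hd (u n) (hk n)
  have hx : ∃ m, u m = u n := ⟨n, rfl⟩
  rw [dif_pos hx] at h1
  have h2 : hx.choose = n := hu.injective hx.choose_spec
  rwa [h2] at h1

/-- Countable sets are bounded. Proof: `Scale.bdd_seq` and an enumeration. -/
theorem Scale.bdd_countable (S : Scale k g h) {N : Set Ω} (hN : N.Countable) : ∃ d, ∀ v ∈ N, v < d := by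
  rcases N.eq_empty_or_nonempty with rfl | hne
  · exact ⟨k 0, fun v hv => hv.elim⟩
  · obtain ⟨f, rfl⟩ := hN.exists_eq_range hne
    obtain ⟨d, hd⟩ := S.bdd_seq f
    refine ⟨d, ?_⟩
    rintro _ ⟨n, rfl⟩
    exact hd n

end Pool.Agent.H58C
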