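import Pool.Agent.Lib.H58C.TDefs

/-!
# T01: closure under functions of finite sequences
-/

set_option autoImplicit false

open Set Filter Topology

namespace Pool.Agent.H58C

variable {Ω : Type} [LinearOrder Ω] {k : ℕ → Ω} {g h : Ω → ℕ → Ω}

/-- The guessing property for functions of finite sequences.

Proof. `Ω` is infinite (`k` is injective, `S.kmono`), so there is an injection `e : List Ω → Ω`
(`Cardinal.mk_list_eq_mk`), with a left inverse `e' : Ω → List Ω`. Apply `S.guess` to
`F 0 x y = e (x :: e' y)`, `F 1 x y = e []`, `F (n + 2) x y = G n (e' x)`. The set `N` is nonempty, so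
`e [] ∈ N`; by induction on `l`, `e l ∈ N` for each list `l` of elements of `N`
(`e (x :: l) = F 0 x (e l)`); and `G n l = F (n + 2) (e l) (e l)`. -/
theorem Scale.guess_list (S : Scale k g h) (G : ℕ → List Ω → Ω) :
    ∃ N : Set Ω, N.Nonempty ∧ N.Countable ∧ (∀ n (l : List Ω), (∀ x ∈ l, x ∈ N) → G n l ∈ N) ∧
      Traced k g h N := by
  have : Infinite Ω := Infinite.of_injective k S.kmono.injective
  obtain ⟨e⟩ : Nonempty (List Ω ≃ Ω) := Cardinal.eq.1 (Cardinal.mk_list_eq_mk Ω)
  obtain ⟨N, hne, hc, hcl, ht⟩ := S.guess fun n x y =>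
    match n with
    | 0 => e (x :: e.symm y)
    | 1 => e []
    | n + 2 => G n (e.symm x)
  refine ⟨N, hne, hc, ?_, ht⟩
  obtain ⟨a, ha⟩ := hne
  have hnil : e [] ∈ N := hcl 1 a ha a ha
  have hl : ∀ l : List Ω, (∀ x ∈ l, x ∈ N) → e l ∈ N := by
    intro l
    induction l with
    | nil => exact fun _ => hnil
    | cons x l ih =>
      intro hx
      have h1 := hcl 0 x (hx x (List.mem_cons_self ..)) (e l) (ih fun y hy => hx y (List.mem_cons_of_mem _ hy))
      simpa using h1
  intro n l hx
  have h2 := hcl (n + 2) (e l) (hl l hx) (e l) (hl l hx)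
  simpa using h2

end Pool.Agent.H58C
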