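import Pool.Agent.Lib.H58C.T01

/-!
# T02: closure under finitary functions
-/

set_option autoImplicit false

open Set Filter Topology

namespace Pool.Agent.H58C

variable {Ω : Type} [LinearOrder Ω] {k : ℕ → Ω} {g h : Ω → ℕ → Ω}

/-- The guessing property for countably many finitary functions.

Proof. If `ι` is empty use `S.guess_list` with any `G` (for instance `fun n l => k 0`). Otherwise take a
surjection `s : ℕ → ι` (`exists_surjective_nat`) and for each `i` an equivalence of `p i` with some `Fin m`
(`Finite.exists_equiv_fin`), and apply `S.guess_list` to `G' n l = G (s n) (fun a => l.getD (index of a) (k 0))`. For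
`v : p i → Ω` with values in `N` use the list `List.ofFn` of the values of `v`. -/
theorem Scale.guess_fin (S : Scale k g h) {ι : Type} [Countable ι] (p : ι → Type)
    [∀ i, Finite (p i)] (G : ∀ i, (p i → Ω) → Ω) :
    ∃ N : Set Ω, N.Nonempty ∧ N.Countable ∧ (∀ i (v : p i → Ω), (∀ a, v a ∈ N) → G i v ∈ N) ∧
      Traced k g h N := by
  classical
  rcases isEmpty_or_nonempty ι with hι | hι
  · obtain ⟨N, h1, h2, h3, h4⟩ := S.guess_list (fun _ _ => k 0)
    exact ⟨N, h1, h2, fun i => (hι.false i).elim, h4⟩
  · obtain ⟨s, hs⟩ := exists_surjective_nat ι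
    choose m hm using fun i => Finite.exists_equiv_fin (p i)
    obtain ⟨e, -⟩ : ∃ e : ∀ i, p i ≃ Fin (m i), True := ⟨fun i => (hm i).some, trivial⟩
    obtain ⟨N, h1, h2, h3, h4⟩ :=
      S.guess_list (fun n l => G (s n) (fun a => l.getD ((e (s n) a : Fin _) : ℕ) (k 0)))
    refine ⟨N, h1, h2, fun i v hv => ?_, h4⟩
    obtain ⟨n, rfl⟩ := hs i
    have h5 := h3 n (List.ofFn (fun j => v ((e (s n)).symm j))) (by
      intro x hx
      rw [List.mem_ofFn] at hx
      obtain ⟨j, rfl⟩ := hx
      exact hv _)
    have h6 : (fun a => (List.ofFn (fun j => v ((e (s n)).symm j))).getD ((e (s n) a : Fin _) : ℕ) (k 0)) = v := by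
      funext a
      rw [List.getD_eq_getElem _ _ (by rw [List.length_ofFn]; exact (e (s n) a).2), List.getElem_ofFn]
      simp
    simp only [h6] at h5
    exact h5

end Pool.Agent.H58C
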