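import Pool.Agent.Lib.H58C.T00
import Pool.Agent.Lib.H58C.T02

/-!
# T03: elementary sets
-/

set_option autoImplicit false

open Set Filter Topology

namespace Pool.Agent.H58C

variable {Ω : Type} [LinearOrder Ω] {k : ℕ → Ω} {g h : Ω → ℕ → Ω}

theorem t03_two (S : Scale k g h) {ι : Type} [Countable ι] (p : ι → Type) [∀ i, Finite (p i)] {κ : Type}
    [Countable κ] (G : ∀ i, κ → (p i → Ω) → Ω) {μ : Type} [Countable μ] (u : μ → Ω → Ω) :
    ∃ N : Set Ω, N.Nonempty ∧ N.Countable ∧ (∀ i j (v : p i → Ω), (∀ a, v a ∈ N) → G i j v ∈ N) ∧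
      (∀ m, ∀ x ∈ N, u m x ∈ N) ∧ Traced k g h N := by
  obtain ⟨p', hp'⟩ : ∃ p' : (ι × κ) ⊕ μ → Type, p' = fun j => match j with
    | Sum.inl q => p q.1
    | Sum.inr _ => Unit := ⟨_, rfl⟩
  subst hp'
  have hfin : ∀ j : (ι × κ) ⊕ μ, Finite ((fun j : (ι × κ) ⊕ μ => (match j with
    | Sum.inl q => p q.1
    | Sum.inr _ => Unit : Type)) j) := by
    rintro (q | q)
    · show Finite (p q.1)
      infer_instance
    · show Finite Unit
      infer_instance
  obtain ⟨N, h1, h2, h3, h4⟩ := S.guess_fin (fun j : (ι × κ) ⊕ μ => (match j with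
    | Sum.inl q => p q.1
    | Sum.inr _ => Unit : Type)) (fun j => match j with
    | Sum.inl q => fun v => G q.1 q.2 v
    | Sum.inr m => fun v => u m (v ()))
  exact ⟨N, h1, h2, fun i j v hv => h3 (Sum.inl (i, j)) v hv,
    fun m x hx => h3 (Sum.inr m) (fun _ => x) (fun _ => hx), h4⟩

/-- Existence of a countable elementary set `N`, which contains `d` and, for countably many
families of sets `C i v` of elements of `Z` (with finitely many parameters `v` in `Ω`), elements with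
coordinates `c j z` in `N`.

Proof. Apply `S.guess_fin` with the index type `(ι × κ) ⊕ (ℕ ⊕ ℕ)` (or any convenient countable type) and
the functions:
* for `(i, j) : ι × κ`, `v : p i → Ω`: `c j z` where `z` is a chosen element of `C i v` if this is nonempty (the
  same `z` for all `j`), and `d` otherwise;
* constants: `d`, the least element of `Ω`, all `k i`;
* one argument: the successor of `a` (the least `s > a`, exists by `S.exists_gt'` and
  well-foundedness); for each `n` the function `a ↦ f_a n`, where for a tame `a` the sequence `f_a` is a chosen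
  witness of `Tame a` (`a` itself if `a` is not tame); for each `i` the function `x ↦ g x i`.
The set `N` is nonempty, so it contains the constants even if they are given as functions of one
argument. -/
theorem Scale.exists_sub [WellFoundedLT Ω] (S : Scale k g h) (d : Ω) {ι : Type} [Countable ι]
    (p : ι → Type) [∀ i, Finite (p i)] {κ : Type} [Countable κ] {Z : Type} (c : κ → Z → Ω)
    (C : ∀ i, (p i → Ω) → Set Z) :
    ∃ N : Set Ω, Sub k g h N ∧ d ∈ N ∧
      ∀ i (v : p i → Ω), (∀ a, v a ∈ N) → (C i v).Nonempty → ∃ z ∈ C i v, ∀ j, c j z ∈ N := by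
  classical
  have hwf : WellFounded ((· < ·) : Ω → Ω → Prop) := wellFounded_lt
  obtain ⟨o, ho⟩ : ∃ o : Ω, ∀ a, o ≤ a :=
    ⟨hwf.min Set.univ ⟨d, trivial⟩, fun a => not_lt.1 (hwf.not_lt_min Set.univ (Set.mem_univ a))⟩
  have hsucc : ∀ a : Ω, ∃ s, a < s ∧ ∀ b, a < b → s ≤ b := by
    intro a
    obtain ⟨b, hb⟩ := S.exists_gt' a
    exact ⟨hwf.min {b | a < b} ⟨b, hb⟩, hwf.min_mem {b | a < b} ⟨b, hb⟩,
      fun b' hb' => not_lt.1 (hwf.not_lt_min {b | a < b} hb')⟩
  choose sc hsc1 hsc2 using hsucc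
  have hlad : ∀ a : Ω, ∃ f : ℕ → Ω, Tame a → ∀ b < a, ∃ n, b ≤ f n ∧ f n < a := by
    intro a
    by_cases ha : Tame a
    · obtain ⟨f, hf⟩ := ha
      exact ⟨f, fun _ => hf⟩
    · exact ⟨fun _ => a, fun h => absurd h ha⟩
  choose ld hld using hlad
  have hG : ∀ i (v : p i → Ω), ∃ z : Option Z, (C i v).Nonempty → ∃ z' ∈ C i v, z = some z' := by
    intro i v
    by_cases hne : (C i v).Nonempty
    · obtain ⟨z, hz⟩ := hne
      exact ⟨some z, fun _ => ⟨z, hz, rfl⟩⟩
    · exact ⟨none, fun h => absurd h hne⟩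
  choose zz hzz using hG
  obtain ⟨N, h1, h2, h3, h4, h5⟩ := t03_two S p (fun i (j : κ) v => (zz i v).elim d (c j))
    (μ := Fin 3 ⊕ (Fin 3 × ℕ)) (fun m => match m with
    | Sum.inl 0 => fun _ => d
    | Sum.inl 1 => fun _ => o
    | Sum.inl 2 => sc
    | Sum.inr (0, i) => fun _ => k i
    | Sum.inr (1, i) => fun a => ld a i
    | Sum.inr (2, i) => fun x => g x i)
  obtain ⟨w, hw⟩ := h1
  refine ⟨N, ⟨h2, ⟨o, h4 (Sum.inl 1) w hw, ho⟩, ?_, ?_, ?_, ?_, h5⟩, h4 (Sum.inl 0) w hw, ?_⟩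
  · intro a ha
    exact ⟨sc a, h4 (Sum.inl 2) a ha, hsc1 a, hsc2 a⟩
  · intro a ha hta b hb
    obtain ⟨n, hn1, hn2⟩ := hld a hta b hb
    exact ⟨ld a n, h4 (Sum.inr (1, n)) a ha, hn1, hn2⟩
  · intro i
    exact h4 (Sum.inr (0, i)) w hw
  · intro x hx i
    exact h4 (Sum.inr (2, i)) x hx
  · intro i v hv hne
    obtain ⟨z, hz, hzs⟩ := hzz i v hne
    refine ⟨z, hz, fun j => ?_⟩
    have h6 := h3 i j v hv
    rw [hzs] at h6
    exact h6

end Pool.Agent.H58C
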