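import Pool.Agent.Lib.H58C.TDefs

/-!
# T04: the function sN
-/

set_option autoImplicit false

open Set Filter Topology

namespace Pool.Agent.H58C

variable {Ω : Type} [LinearOrder Ω] {k : ℕ → Ω} {g h : Ω → ℕ → Ω}

variable [WellFoundedLT Ω]

/-- Proof: `WellFounded.min_mem`. -/
theorem le_sN {N : Set Ω} {v a : Ω} (hv : v ∈ N) (h : v ≤ a) : v ≤ sN N a := by
  have h1 := (wellFounded_lt : WellFounded ((· < ·) : Ω → Ω → Prop)).min_mem {b | ∀ v ∈ N, v ≤ a → v ≤ b}
    ⟨a, fun _ _ h => h⟩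
  exact h1 v hv h

/-- Proof: `WellFounded.not_lt_min`. -/
theorem sN_le_of {N : Set Ω} {a b : Ω} (h : ∀ v ∈ N, v ≤ a → v ≤ b) : sN N a ≤ b := by
  exact not_lt.1 ((wellFounded_lt : WellFounded ((· < ·) : Ω → Ω → Prop)).not_lt_min {b | ∀ v ∈ N, v ≤ a → v ≤ b} h)

theorem sN_le (N : Set Ω) (a : Ω) : sN N a ≤ a := by
  exact sN_le_of fun _ _ h => h

theorem sN_mono (N : Set Ω) : Monotone (sN N) := by
  intro a b hab
  exact sN_le_of fun v hv h => le_sN hv (h.trans hab)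

theorem sN_of_mem {N : Set Ω} {a : Ω} (h : a ∈ N) : sN N a = a := by
  exact le_antisymm (sN_le N a) (le_sN h le_rfl)

/-- Proof: otherwise `z` would be an upper bound of the elements of `N` up to `a`. -/
theorem exists_of_lt_sN {N : Set Ω} {a z : Ω} (h : z < sN N a) : ∃ v ∈ N, z < v ∧ v ≤ a := by
  by_contra hcon
  push Not at hcon
  have h1 : sN N a ≤ z := by
    refine sN_le_of fun v hv hva => ?_
    by_contra h2
    exact absurd hva (not_le.2 (hcon v hv (not_le.1 h2)))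
  exact absurd h (not_lt.2 h1)

/-- `sN N a` is determined by these properties. -/
theorem sN_eq_of {N : Set Ω} {a s : Ω} (hs : s ≤ a) (h1 : ∀ v ∈ N, v ≤ a → v < s)
    (h2 : ∀ z < s, ∃ v ∈ N, z < v ∧ v < s) : sN N a = s := by
  refine le_antisymm (sN_le_of fun v hv hva => (h1 v hv hva).le) ?_
  by_contra hcon
  obtain ⟨v, hv, h3, h4⟩ := h2 _ (not_le.1 hcon)
  exact absurd (le_sN hv (h4.le.trans hs)) (not_le.2 h3)

end Pool.Agent.H58C
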