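import Pool.Agent.Lib.H58C.T04

/-!
# T05: the function sN for an elementary set
-/

set_option autoImplicit false

open Set Filter Topology

namespace Pool.Agent.H58C

variable {Ω : Type} [LinearOrder Ω] {k : ℕ → Ω} {g h : Ω → ℕ → Ω}

variable [WellFoundedLT Ω]

/-- Let `a ∉ N`, `s = sN N a`. Then `s ∉ N` and `s` is a limit of elements of `N`.

Proof. If `s ∈ N` then `s < a` (as `a ∉ N`, `s ≤ a`), the successor `s'` of `s` is in `N` and `s' ≤ a`, so
`s' ≤ sN N a = s`, contradiction. The elements `v ≤ a` of `N` are `≤ s`, hence `< s`. If `z < s` use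
`exists_of_lt_sN`. -/
theorem Sub.sN_notMem {N : Set Ω} (H : Sub k g h N) {a : Ω} (ha : a ∉ N) :
    sN N a ∉ N ∧ (∀ v ∈ N, v ≤ a → v < sN N a) ∧ ∀ z < sN N a, ∃ v ∈ N, z < v ∧ v < sN N a := by
  have h1 : sN N a ∉ N := by
    intro hs
    have h2 : sN N a < a := lt_of_le_of_ne (sN_le N a) (fun he => ha (he ▸ hs))
    obtain ⟨s', hs', h3, h4⟩ := H.succ _ hs
    have h5 := le_sN hs' (h4 a h2)
    exact absurd h3 (not_lt.mpr h5)
  have h2 : ∀ v ∈ N, v ≤ a → v < sN N a := fun v hv hva =>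
    lt_of_le_of_ne (le_sN hv hva) (fun he => h1 (he ▸ hv))
  refine ⟨h1, h2, fun z hz => ?_⟩
  obtain ⟨v, hv, hzv, hva⟩ := exists_of_lt_sN hz
  exact ⟨v, hv, hzv, h2 v hv hva⟩

/-- Proof. If `a ∈ N` then `sN N a = a`. Otherwise let `f : ℕ → Ω` enumerate the countable nonempty set `N`
(`Set.Countable.exists_eq_range`); by `Sub.sN_notMem` for `b < sN N a` there is `v = f n` with
`b < v < sN N a`. -/
theorem Sub.tame_sN {N : Set Ω} (H : Sub k g h N) {a : Ω} (ha : Tame a) : Tame (sN N a) := by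
  by_cases haN : a ∈ N
  · rw [sN_of_mem haN]
    exact ha
  · obtain ⟨o, ho, _⟩ := H.bot
    obtain ⟨f, hf⟩ := H.ctb.exists_eq_range ⟨o, ho⟩
    refine ⟨f, fun b hb => ?_⟩
    obtain ⟨v, hv, hbv, hvs⟩ := (H.sN_notMem haN).2.2 b hb
    rw [hf] at hv
    obtain ⟨n, rfl⟩ := hv
    exact ⟨n, hbv.le, hvs⟩

/-- Continuity of `sN N` from the left at tame points.

Proof. If `a ∈ N`: `b < a` and `H.lad` gives `v ∈ N` with `b ≤ v < a`. If `v < x ≤ a` then the successor `s` of `v` is in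
`N` and `s ≤ x`, so `b ≤ v < s ≤ sN N x`. If `a ∉ N` take `v ∈ N` with `b < v < sN N a ≤ a` from
`Sub.sN_notMem`; if `v < x` then `b < v ≤ sN N x`. -/
theorem Sub.sN_cont {N : Set Ω} (H : Sub k g h N) {a b : Ω} (ha : Tame a) (hb : b < sN N a) :
    ∃ v < a, ∀ x, v < x → x ≤ a → b < sN N x := by
  by_cases haN : a ∈ N
  · rw [sN_of_mem haN] at hb
    obtain ⟨v, hv, hbv, hva⟩ := H.lad a haN ha b hb
    refine ⟨v, hva, fun x hx _ => ?_⟩
    obtain ⟨s, hs, h3, h4⟩ := H.succ v hv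
    exact lt_of_lt_of_le (lt_of_le_of_lt hbv h3) (le_sN hs (h4 x hx))
  · obtain ⟨v, hv, hbv, hvs⟩ := (H.sN_notMem haN).2.2 b hb
    exact ⟨v, lt_of_lt_of_le hvs (sN_le N a), fun x hx _ => lt_of_lt_of_le hbv (le_sN hv hx.le)⟩

end Pool.Agent.H58C
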