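import Pool.Agent.Lib.H58C.T05

/-!
# T06: ranks
-/

set_option autoImplicit false

open Set Filter Topology

namespace Pool.Agent.H58C

variable {Ω : Type} [LinearOrder Ω] {k : ℕ → Ω} {g h : Ω → ℕ → Ω}

/-- Proof: if `r < r'` then `g r i < g r' i` for large `i` (`S.inc`), but both are equal to `y i` for large
`i`. -/
theorem Rk.unique (S : Scale k g h) {y : ℕ → Ω} {r r' : Ω} (h1 : Rk g y r) (h2 : Rk g y r') :
    r = r' := by
  rcases lt_trichotomy r r' with hlt | heq | hlt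
  · exfalso
    obtain ⟨i, hi1, hi2, hi3⟩ := (h1.and (h2.and (S.inc r r' hlt))).exists
    exact absurd (hi1.symm.trans hi2) (ne_of_lt hi3)
  · exact heq
  · exfalso
    obtain ⟨i, hi1, hi2, hi3⟩ := (h1.and (h2.and (S.inc r' r hlt))).exists
    exact absurd (hi2.symm.trans hi1) (ne_of_lt hi3)

/-- Proof. `y i ≤ k i`. If `y i = k i` then `y j = k j` for all `j ≥ i`, but `y j = g r j < k j` for large
`j` (`S.gk`). -/
theorem Rk.lt_k (S : Scale k g h) {y : ℕ → Ω} {r : Ω} (hy : IsPt k g y) (h1 : Rk g y r) (i : ℕ) :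
    y i < k i := by
  by_contra hlt
  have heq : y i = k i := le_antisymm (hy.1 i) (not_lt.mp hlt)
  obtain ⟨j, hj1, hj2⟩ := (h1.and (eventually_ge_atTop i)).exists
  have h3 : y j = k j := hy.2.2.1 i heq j hj2
  have h4 := S.gk r j
  rw [← hj1, h3] at h4
  exact lt_irrefl _ h4

variable [WellFoundedLT Ω]

/-- The rank of `sN N ∘ y`.

Proof. If `x ∈ N` take `r = x`: for large `i`, `y i = g x i ∈ N`, so `sN N (y i) = y i` (`sN_of_mem`, `H.gN`).
If `x ∉ N` take `r` from `H.traced x`. In both cases of `Traced` the property `Tail g N r x b` gives for large `i`,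
with `y i = g x i`: `g r i ≤ y i < b i`, every `v ∈ N` with `v ≤ y i` is `< b i` and so `< g r i`, and the last clause; so
`sN N (y i) = g r i` by `sN_eq_of`. For `d ∈ N` with `d ≤ x`: in the first case `d < r`; in the second case
`d ≤ x < c` and so `d < r`. -/
theorem Sub.rk_sN {N : Set Ω} (H : Sub k g h N) {y : ℕ → Ω} {x : Ω} (h1 : Rk g y x) :
    ∃ r ≤ x, Rk g (fun i => sN N (y i)) r ∧ ∀ d ∈ N, d ≤ x → d ≤ r := by
  by_cases hx : x ∈ N
  · refine ⟨x, le_rfl, ?_, fun d _ hd => hd⟩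
    show ∀ᶠ i in atTop, sN N (y i) = g x i
    filter_upwards [h1] with i hi
    rw [hi]
    exact sN_of_mem (H.gN x hx i)
  · obtain ⟨r, hrx, hr⟩ := H.traced x hx
    refine ⟨r, hrx, ?_, ?_⟩
    · have key : ∃ b, Tail g N r x b := by
        rcases hr with ⟨_, ht⟩ | ⟨c, _, _, _, ht⟩
        · exact ⟨_, ht⟩
        · exact ⟨_, ht⟩
      obtain ⟨b, hb⟩ := key
      show ∀ᶠ i in atTop, sN N (y i) = g r i
      filter_upwards [h1, hb] with i hi hbi
      obtain ⟨ha, hb', hc, hd⟩ := hbi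
      rw [hi]
      exact sN_eq_of ha (fun v hv hva => hc v hv (lt_of_le_of_lt hva hb')) hd
    · intro d hd hdx
      rcases hr with ⟨hlt, _⟩ | ⟨c, hcN, hxc, hlt, _⟩
      · exact (hlt d hd).le
      · exact (hlt d hd (lt_of_le_of_lt hdx hxc)).le

end Pool.Agent.H58C
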