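import Pool.Agent.Lib.H58C.T06

/-!
# T07: the retraction
-/

set_option autoImplicit false

open Set Filter Topology

namespace Pool.Agent.H58C

variable {Ω : Type} [LinearOrder Ω] {k : ℕ → Ω} {g h : Ω → ℕ → Ω}

variable [WellFoundedLT Ω]

/-- Proof. `sN N (y i) ≤ y i ≤ k i`. Tameness: if `sN N (y i) < k i` then `y i < k i` (if `y i = k i ∈ N` then
`sN N (y i) = k i`), so `y i` is tame and `Sub.tame_sN` applies. If `sN N (y i) = k i` then `k i ≤ y i ≤ k i`, so
`y j = k j` for `j ≥ i` and `sN N (y j) = k j`. If all `sN N (y i) < k i` then all `y i < k i` (as before), so `y`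
has a rank and `Sub.rk_sN` applies. -/
theorem Sub.isPt_sN {N : Set Ω} (H : Sub k g h N) {y : ℕ → Ω} (hy : IsPt k g y) :
    IsPt k g (fun i => sN N (y i)) := by
  obtain ⟨h1, h2, h3, h4⟩ := hy
  have hlt : ∀ i, sN N (y i) < k i → y i < k i := by
    intro i hi
    refine lt_of_le_of_ne (h1 i) (fun he => ?_)
    rw [he, sN_of_mem (H.kN i)] at hi
    exact lt_irrefl _ hi
  refine ⟨fun i => (sN_le N (y i)).trans (h1 i), fun i hi => H.tame_sN (h2 i (hlt i hi)), ?_, ?_⟩
  · intro i hi j hij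
    have hi' : sN N (y i) = k i := hi
    have hle : k i ≤ y i := by
      rw [← hi']
      exact sN_le N (y i)
    have hy : y i = k i := le_antisymm (h1 i) hle
    show sN N (y j) = k j
    rw [h3 i hy j hij, sN_of_mem (H.kN j)]
  · intro hall
    obtain ⟨r, hr⟩ := h4 (fun i => hlt i (hall i))
    obtain ⟨r', _, hr', _⟩ := H.rk_sN hr
    exact ⟨r', hr'⟩

/-- the retraction of `YY k g` -/
noncomputable def Sub.rY {N : Set Ω} (H : Sub k g h N) (y : YY k g) : YY k g :=
  ⟨fun i => sN N (y.1 i), H.isPt_sN y.2⟩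

/-- the retraction of `XX k g` -/
noncomputable def Sub.rX {N : Set Ω} (H : Sub k g h N) (x : XX k g) : XX k g :=
  match x with
  | some y => XX.mk (H.rY y)
  | none => XX.oo

theorem Sub.rX_mk {N : Set Ω} (H : Sub k g h N) (y : YY k g) : H.rX (XX.mk y) = XX.mk (H.rY y) :=
  rfl

theorem Sub.rX_oo {N : Set Ω} (H : Sub k g h N) : H.rX (XX.oo : XX k g) = XX.oo := rfl

end Pool.Agent.H58C
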