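import Pool.Agent.Lib.H58C.T07

/-!
# T08: neighbourhood filters
-/

set_option autoImplicit false

open Set Filter Topology

namespace Pool.Agent.H58C

variable {Ω : Type} [LinearOrder Ω] {k : ℕ → Ω} {g h : Ω → ℕ → Ω}

/-- Two basic neighbourhoods contain a third one.

Proof. Take `m'' = max m m'` and `b'' i = max (b i) (b' i)` if both are less than `y i`, `b'' i = b i` if only
`b i < y i`, and `b'' i = b' i` otherwise. -/
theorem exists_UU_subset (y b b' : ℕ → Ω) (m m' : ℕ) :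
    ∃ b'' m'', UU k y b'' m'' ⊆ UU k y b m ∩ UU k y b' m' := by
  classical
  refine ⟨fun i => if b i < y i then (if b' i < y i then max (b i) (b' i) else b i) else b' i,
    max m m', ?_⟩
  rintro z ⟨h1, h2, h3⟩
  refine ⟨⟨h1, fun i hi hk => ?_, h3⟩, ⟨h1, fun i hi hk => ?_, h3⟩⟩
  · obtain ⟨h4, h5⟩ := h2 i (lt_of_lt_of_le hi (le_max_left _ _)) hk
    refine ⟨h4, fun hb => ?_⟩
    by_cases hb' : b' i < y i
    · simp only [if_pos hb, if_pos hb'] at h5
      exact lt_of_le_of_lt (le_max_left _ _) (h5 (max_lt hb hb'))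
    · simp only [if_pos hb, if_neg hb'] at h5
      exact h5 hb
  · obtain ⟨h4, h5⟩ := h2 i (lt_of_lt_of_le hi (le_max_right _ _)) hk
    refine ⟨h4, fun hb' => ?_⟩
    by_cases hb : b i < y i
    · simp only [if_pos hb, if_pos hb'] at h5
      exact lt_of_le_of_lt (le_max_right _ _) (h5 (max_lt hb hb'))
    · simp only [if_neg hb] at h5
      exact h5 hb'

/-- Proof. `Filter.mem_iInf_of_directed` (twice, or once over pairs `(b, m)` with `iInf_prod`), with
directedness from `exists_UU_subset`. -/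
theorem mem_nh {y : YY k g} {s : Set (YY k g)} :
    s ∈ nh y ↔ ∃ b m, ∀ z : YY k g, z.1 ∈ UU k y.1 b m → z ∈ s := by
  have hne : Nonempty ((ℕ → Ω) × ℕ) := ⟨(y.1, 0)⟩
  have e : nh y = ⨅ q : (ℕ → Ω) × ℕ, 𝓟 {z : YY k g | z.1 ∈ UU k y.1 q.1 q.2} := by
    unfold nh
    rw [iInf_prod]
  rw [e, mem_iInf_of_directed]
  · constructor
    · rintro ⟨q, hq⟩
      exact ⟨q.1, q.2, fun z hz => mem_principal.1 hq hz⟩
    · rintro ⟨b, m, hq⟩
      exact ⟨(b, m), mem_principal.2 fun z hz => hq z hz⟩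
  · intro q q'
    obtain ⟨b, m, hb⟩ := exists_UU_subset (k := k) y.1 q.1 q'.1 q.2 q'.2
    exact ⟨(b, m), principal_mono.2 fun z hz => (hb hz).1, principal_mono.2 fun z hz => (hb hz).2⟩

theorem self_mem_UU (y b : ℕ → Ω) (m : ℕ) : y ∈ UU k y b m :=
  ⟨fun _ _ => le_rfl, fun _ _ h => ⟨h, fun h => h⟩, fun _ _ h => h⟩

theorem mem_of_mem_nh {y : YY k g} {s : Set (YY k g)} (hs : s ∈ nh y) : y ∈ s := by
  obtain ⟨b, m, h⟩ := mem_nh.1 hs
  exact h y (self_mem_UU y.1 b m)

instance nh_neBot (y : YY k g) : (nh y).NeBot := by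
  refine neBot_iff.2 fun h => ?_
  have h1 : (∅ : Set (YY k g)) ∈ nh y := by
    rw [h]
    exact mem_bot
  exact mem_of_mem_nh h1

theorem mem_of_mem_nhX {x : XX k g} {s : Set (XX k g)} (hs : s ∈ nhX x) : x ∈ s := by
  cases x with
  | none => exact mem_pure.1 hs
  | some y => exact mem_of_mem_nh (mem_map.1 hs)

end Pool.Agent.H58C
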