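import Pool.Agent.Lib.H58C.T08

/-!
# T09: continuity of the retraction
-/

set_option autoImplicit false

open Set Filter Topology

namespace Pool.Agent.H58C

variable {Ω : Type} [LinearOrder Ω] {k : ℕ → Ω} {g h : Ω → ℕ → Ω}

variable [WellFoundedLT Ω]

theorem t09_lt {N : Set Ω} (H : Sub k g h N) {w : ℕ → Ω} (hw : IsPt k g w) (i : ℕ) :
    sN N (w i) < k i ↔ w i < k i := by
  refine ⟨fun h1 => ?_, fun h1 => lt_of_le_of_lt (sN_le N (w i)) h1⟩
  refine lt_of_le_of_ne (hw.1 i) (fun h2 => ?_)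
  rw [h2, sN_of_mem (H.kN i)] at h1
  exact absurd h1 (lt_irrefl _)

theorem t09_eq {N : Set Ω} {w : ℕ → Ω} (hw : IsPt k g w) (i : ℕ)
    (h1 : sN N (w i) = k i) : w i = k i :=
  le_antisymm (hw.1 i) (by rw [← h1]; exact sN_le N (w i))

/-- Proof. By `mem_nh` it is enough to find for `b, m` a sequence `b'` with: `z.1 ∈ UU k y.1 b' m` implies
`(H.rY z).1 ∈ UU k (H.rY y).1 b m`. For each `i` with `b i < sN N (y i)` and `y i` tame let `b' i < y i` be the `v` of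
`Sub.sN_cont` (choose), otherwise `b' i = y i`. Let `z.1 ∈ UU k y.1 b' m`. Note `sN N (w i) < k i ↔ w i < k i` for
points `w` (`w i = k i ∈ N` gives `sN N (w i) = k i`; `sN N (w i) ≤ w i`), and `sN N (w i) = k i ↔ w i = k i`. First clause:
`z i < k i` gives `z i ≤ y i`, so `sN N (z i) ≤ sN N (y i)`. Second clause: for `i < m` and `y i < k i`:
`z i < k i`, and if `b i < sN N (y i)` then (`y i` is tame) `b' i < y i`, so `b' i < z i ≤ y i` and
`b i < sN N (z i)`. Third clause: clear. -/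
theorem Sub.tendsto_rY {N : Set Ω} (H : Sub k g h N) (y : YY k g) :
    Tendsto H.rY (nh y) (nh (H.rY y)) := by
  classical
  intro s hs
  rw [mem_nh] at hs
  obtain ⟨b, m, hbm⟩ := hs
  change H.rY ⁻¹' s ∈ nh y
  rw [mem_nh]
  refine ⟨fun i => if h1 : Tame (y.1 i) ∧ b i < sN N (y.1 i) then
    Classical.choose (H.sN_cont h1.1 h1.2) else y.1 i, m, fun z hz => ?_⟩
  apply hbm
  obtain ⟨hz1, hz2, hz3⟩ := hz
  refine ⟨fun i hi => ?_, fun i him hi => ?_, fun hj i hi => ?_⟩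
  · exact sN_mono N (hz1 i ((t09_lt H z.2 i).1 hi))
  · have hyi : y.1 i < k i := (t09_lt H y.2 i).1 hi
    obtain ⟨h3, h4⟩ := hz2 i him hyi
    refine ⟨(t09_lt H z.2 i).2 h3, fun h5 => ?_⟩
    have ht : Tame (y.1 i) := y.2.2.1 i hyi
    have h5' : b i < sN N (y.1 i) := h5
    have hc : Tame (y.1 i) ∧ b i < sN N (y.1 i) := And.intro ht h5'
    have h6 := Classical.choose_spec (H.sN_cont hc.1 hc.2)
    have h7 : (fun i => if h1 : Tame (y.1 i) ∧ b i < sN N (y.1 i) then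
        Classical.choose (H.sN_cont h1.1 h1.2) else y.1 i) i =
        Classical.choose (H.sN_cont hc.1 hc.2) := dif_pos hc
    have h8 := h4 (h7.trans_lt h6.1)
    exact h6.2 _ (h7.symm.trans_lt h8) (hz1 i h3)
  · obtain ⟨j, hj⟩ := hj
    exact (t09_lt H y.2 i).2 (hz3 ⟨j, t09_eq y.2 j hj⟩ i ((t09_lt H z.2 i).1 hi))

/-- Proof. Continuity on `YY k g`: composition of `Sub.tendsto_rY` and the continuity of `f`. If `Rk g y.1 r` and
`d ≤ r` then by `Sub.rk_sN` the point `H.rY y` has a rank `r' ≥ d`, so `f (H.rX (XX.mk y)) = f (XX.mk (H.rY y)) = f oo`,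
and `H.rX XX.oo = XX.oo`. -/
theorem Sub.comp_mem {N : Set Ω} (H : Sub k g h N) {d : Ω} (hd : d ∈ N) {f : XX k g → ℝ}
    (hf : f ∈ FF k g) (hfd : ∀ (y : YY k g) (r : Ω), Rk g y.1 r → d ≤ r → f (XX.mk y) = f XX.oo) :
    (f ∘ H.rX) ∈ FF k g ∧
      ∀ (y : YY k g) (r : Ω), Rk g y.1 r → d ≤ r →
        (f ∘ H.rX) (XX.mk y) = (f ∘ H.rX) XX.oo := by
  have h2 : ∀ (y : YY k g) (r : Ω), Rk g y.1 r → d ≤ r →
      (f ∘ H.rX) (XX.mk y) = (f ∘ H.rX) XX.oo := by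
    intro y r hr hdr
    obtain ⟨r', _, hrk, hd'⟩ := H.rk_sN hr
    exact hfd (H.rY y) r' hrk (hd' d hd hdr)
  exact ⟨⟨fun y => (hf.1 (H.rY y)).comp (H.tendsto_rY y), d, h2⟩, h2⟩

end Pool.Agent.H58C
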