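import Pool.Agent.Lib.H58C.T00
import Pool.Agent.Lib.H58C.T08

/-!
# T10: indicators
-/

set_option autoImplicit false

open Set Filter Topology

namespace Pool.Agent.H58C

variable {Ω : Type} [LinearOrder Ω] {k : ℕ → Ω} {g h : Ω → ℕ → Ω}

theorem t10_mk {z y : YY k g} (h : XX.mk z = XX.mk y) : z = y := by
  unfold XX.mk at h
  exact Option.some.inj h

theorem t10_iff {s : Set (YY k g)} (z : YY k g) : (∃ y ∈ s, XX.mk z = XX.mk y) ↔ z ∈ s := by
  constructor
  · rintro ⟨y, hy, h⟩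
    rw [t10_mk h]
    exact hy
  · intro h
    exact ⟨z, h, rfl⟩

theorem t10_oo {s : Set (YY k g)} : ¬ ∃ y ∈ s, (XX.oo : XX k g) = XX.mk y := by
  rintro ⟨y, _, h⟩
  unfold XX.oo XX.mk at h
  exact absurd h (Option.some_ne_none y).symm

open Classical in
/-- The indicator of a clopen set with bounded ranks is in `FF k g`.

Proof. Near `y ∈ s` the function is constantly `1` (on `s ∈ nh y`), near `y ∉ s` constantly `0`
(`tendsto_nhds_of_eventually_eq` or `Tendsto.congr'` with a constant). If `Rk g y.1 r` and `d ≤ r` then `y ∉ s`, so the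
value is `0`, the value at the point at infinity. -/
theorem indicator_mem_FF {s : Set (YY k g)} (h1 : ∀ y ∈ s, s ∈ nh y) (h2 : ∀ y, y ∉ s → sᶜ ∈ nh y)
    {d : Ω} (h3 : ∀ y ∈ s, ∀ r, Rk g y.1 r → r < d) :
    (fun x : XX k g => if ∃ y ∈ s, x = XX.mk y then (1 : ℝ) else 0) ∈ FF k g := by
  refine ⟨fun y => ?_, d, fun y r hr hd => ?_⟩
  · by_cases hy : y ∈ s
    · refine tendsto_const_nhds.congr' ?_
      filter_upwards [h1 y hy] with z hz
      rw [if_pos ((t10_iff y).2 hy), if_pos ((t10_iff z).2 hz)]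
    · refine tendsto_const_nhds.congr' ?_
      filter_upwards [h2 y hy] with z hz
      rw [if_neg (fun h => hy ((t10_iff y).1 h)), if_neg (fun h => hz ((t10_iff z).1 h))]
  · show (if ∃ y' ∈ s, XX.mk y = XX.mk y' then (1 : ℝ) else 0) =
      if ∃ y' ∈ s, (XX.oo : XX k g) = XX.mk y' then (1 : ℝ) else 0
    rw [if_neg t10_oo, if_neg]
    intro h
    exact absurd (h3 y ((t10_iff y).1 h) r hr) (not_lt.2 hd)

/-- the points below `e` -/
def WW (k : ℕ → Ω) (g : Ω → ℕ → Ω) (e : ℕ → Ω) : Set (YY k g) :=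
  {y | ∀ i, y.1 i < k i → y.1 i ≤ e i}

/-- Proof. If `z.1 ∈ UU k y.1 b m` then `z i < k i` implies `z i ≤ y i`; and then either `y i < k i`, so
`z i ≤ y i ≤ e i`, or `y i = k i`, in which case the third clause of `UU` gives `y i < k i`, contradiction. So
already `UU k y.1 b 0` is contained in `WW k g e` (any `b`). -/
theorem WW_mem_nh {e : ℕ → Ω} {y : YY k g} (hy : y ∈ WW k g e) : WW k g e ∈ nh y := by
  refine mem_nh.2 ⟨e, 0, fun z hz i hi => ?_⟩
  by_cases h : y.1 i < k i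
  · exact (hz.1 i hi).trans (hy i h)
  · have h1 : y.1 i = k i := le_antisymm (y.2.1 i) (not_lt.1 h)
    exact absurd (hz.2.2 ⟨i, h1⟩ i hi) h

/-- Proof. There is `i` with `y i < k i` and `e i < y i`. Use `UU k y.1 e (i + 1)`: for `z` in it,
`z i < k i` and `e i < z i`. -/
theorem WW_compl_mem_nh {e : ℕ → Ω} {y : YY k g} (hy : y ∉ WW k g e) : (WW k g e)ᶜ ∈ nh y := by
  have h : ∃ i, y.1 i < k i ∧ e i < y.1 i := by
    by_contra hc
    push Not at hc
    exact hy fun i hi => hc i hi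
  obtain ⟨i, h1, h2⟩ := h
  refine mem_nh.2 ⟨e, i + 1, fun z hz hzW => ?_⟩
  obtain ⟨h3, h4⟩ := hz.2.1 i (Nat.lt_succ_self i) h1
  exact absurd (hzW i h3) (not_le.2 (h4 h2))

/-- Proof. By `S.dom` there is `x` with `e i ≤ g x i` for large `i`. Let `y ∈ WW k g e` have rank `r`; then
for large `i`, `g r i = y i < k i`, so `g r i ≤ e i ≤ g x i`. Hence `r ≤ x`: otherwise `g x i < g r i` for large
`i` (`S.inc`). Take `d > x` (`S.exists_gt'`). -/
theorem WW_bdd (S : Scale k g h) {e : ℕ → Ω} (he : ∀ i, e i < k i) :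
    ∃ d, ∀ y ∈ WW k g e, ∀ r, Rk g y.1 r → r < d := by
  obtain ⟨x, hx⟩ := S.dom e he
  obtain ⟨d, hd⟩ := S.exists_gt' x
  refine ⟨d, fun y hy r hr => lt_of_le_of_lt ?_ hd⟩
  by_contra hc
  obtain ⟨i, h1, h2, h3⟩ := (hx.and (hr.and (S.inc x r (not_le.1 hc)))).exists
  have h4 : y.1 i < k i := by
    rw [h2]
    exact S.gk r i
  have h5 := hy i h4
  rw [h2] at h5
  exact absurd (h5.trans h1) (not_le.2 h3)

end Pool.Agent.H58C
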