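import Pool.Agent.Lib.H58C.T10

/-!
# T11: the functions of FF separate points
-/

set_option autoImplicit false

open Set Filter Topology

namespace Pool.Agent.H58C

variable {Ω : Type} [LinearOrder Ω] {k : ℕ → Ω} {g h : Ω → ℕ → Ω}

open Classical in
/-- Proof. `indicator_mem_FF` with the previous lemmas of T10. -/
theorem indicator_WW_mem (S : Scale k g h) {e : ℕ → Ω} (he : ∀ i, e i < k i) :
    (fun x : XX k g => if ∃ y ∈ WW k g e, x = XX.mk y then (1 : ℝ) else 0) ∈ FF k g := by
  obtain ⟨d, hd⟩ := WW_bdd S he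
  exact indicator_mem_FF (fun y hy => WW_mem_nh hy) (fun y hy => WW_compl_mem_nh hy) hd

open Classical in
/-- Every two points of `YY k g` are below some `e`.

Proof. Let `e i` be the maximum of those of the two values `y i, y' i` which are less than `k i` (and
any element less than `k i`, for instance `g (k 0) i`, if there is none; `S.gk`). -/
theorem exists_WW (S : Scale k g h) (y y' : YY k g) :
    ∃ e : ℕ → Ω, (∀ i, e i < k i) ∧ y ∈ WW k g e ∧ y' ∈ WW k g e := by
  refine ⟨fun i => if y.1 i < k i then (if y'.1 i < k i then max (y.1 i) (y'.1 i) else y.1 i)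
    else (if y'.1 i < k i then y'.1 i else g (k 0) i), fun i => ?_, fun i hi => ?_, fun i hi => ?_⟩
  · show (if y.1 i < k i then (if y'.1 i < k i then max (y.1 i) (y'.1 i) else y.1 i)
      else (if y'.1 i < k i then y'.1 i else g (k 0) i)) < k i
    split_ifs with h1 h2 h2
    · exact max_lt h1 h2
    · exact h1
    · exact h2
    · exact S.gk _ _
  · show y.1 i ≤ (if y.1 i < k i then (if y'.1 i < k i then max (y.1 i) (y'.1 i) else y.1 i)
      else (if y'.1 i < k i then y'.1 i else g (k 0) i))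
    rw [if_pos hi]
    split_ifs with h2
    · exact le_max_left _ _
    · exact le_refl _
  · show y'.1 i ≤ (if y.1 i < k i then (if y'.1 i < k i then max (y.1 i) (y'.1 i) else y.1 i)
      else (if y'.1 i < k i then y'.1 i else g (k 0) i))
    simp only [if_pos hi]
    split_ifs with h2
    · exact le_max_right _ _
    · exact le_refl _

theorem t11_cases (x : XX k g) : x = XX.oo ∨ ∃ y, x = XX.mk y := by
  match x with
  | some y => exact Or.inr ⟨y, rfl⟩
  | none => exact Or.inl rfl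

theorem t11_inj {y y' : YY k g} (hy : (XX.mk y : XX k g) = XX.mk y') : y = y' := Option.some.inj hy

theorem t11_ne {y : YY k g} : (XX.oo : XX k g) ≠ XX.mk y := fun hy => by
  have h1 : (none : Option (YY k g)) = some y := hy
  exact absurd h1 (by simp)

open Classical in
theorem t11_oo (s : Set (YY k g)) : (if ∃ y ∈ s, (XX.oo : XX k g) = XX.mk y then (1 : ℝ) else 0) = 0 := by
  rw [if_neg]
  rintro ⟨y, -, hy⟩
  exact t11_ne hy

open Classical in
theorem t11_mem {s : Set (YY k g)} {z : YY k g} (hz : z ∈ s) :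
    (if ∃ y ∈ s, (XX.mk z : XX k g) = XX.mk y then (1 : ℝ) else 0) = 1 := by
  rw [if_pos]
  exact ⟨z, hz, rfl⟩

open Classical in
theorem t11_notMem {s : Set (YY k g)} {z : YY k g} (hz : z ∉ s) :
    (if ∃ y ∈ s, (XX.mk z : XX k g) = XX.mk y then (1 : ℝ) else 0) = 0 := by
  rw [if_neg]
  rintro ⟨y, hy, hzy⟩
  rw [t11_inj hzy] at hz
  exact hz hy

/-- The case of a point and the point at infinity. -/
theorem t11_sep_oo (S : Scale k g h) (y : YY k g) : ∃ f ∈ FF k g, f XX.oo ≠ f (XX.mk y) := by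
  classical
  obtain ⟨e, he, hy, -⟩ := exists_WW S y y
  refine ⟨_, indicator_WW_mem S he, ?_⟩
  rw [t11_oo, t11_mem hy]
  exact zero_ne_one

/-- The case of two points of `YY k g`, one of which is less at `i`. -/
theorem t11_sep_lt (S : Scale k g h) {y y' : YY k g} {i : ℕ} (hi : y.1 i < y'.1 i) :
    ∃ f ∈ FF k g, f (XX.mk y) ≠ f (XX.mk y') := by
  classical
  obtain ⟨e, he, hy, hy'⟩ := exists_WW S y y'
  have hyk : y.1 i < k i := lt_of_lt_of_le hi (y'.2.1 i)
  obtain ⟨s, hs⟩ : ∃ s : Set (YY k g), s = {z | z ∈ WW k g e ∧ z.1 i < k i ∧ z.1 i ≤ y.1 i} := ⟨_, rfl⟩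
  have hmem : ∀ z, z ∈ s ↔ z ∈ WW k g e ∧ z.1 i < k i ∧ z.1 i ≤ y.1 i := fun z => by rw [hs]; exact Iff.rfl
  have h1 : ∀ z ∈ s, s ∈ nh z := by
    intro z hz
    obtain ⟨hz1, hz2, hz3⟩ := (hmem z).1 hz
    have h2 : {z' : YY k g | z'.1 i < k i ∧ z'.1 i ≤ y.1 i} ∈ nh z := by
      rw [mem_nh]
      refine ⟨z.1, i + 1, fun z' hz' => ?_⟩
      obtain ⟨u1, u2, -⟩ := hz'
      have h3 := (u2 i (Nat.lt_succ_self i) hz2).1
      exact ⟨h3, (u1 i h3).trans hz3⟩
    refine Filter.mem_of_superset (Filter.inter_mem (WW_mem_nh hz1) h2) ?_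
    rintro z' ⟨a1, a2⟩
    exact (hmem z').2 ⟨a1, a2⟩
  have h2 : ∀ z, z ∉ s → sᶜ ∈ nh z := by
    intro z hz
    by_cases hz1 : z ∈ WW k g e
    · by_cases hz2 : z.1 i < k i
      · have hz3 : y.1 i < z.1 i := by
          by_contra hc
          exact hz ((hmem z).2 ⟨hz1, hz2, not_lt.1 hc⟩)
        rw [mem_nh]
        refine ⟨fun _ => y.1 i, i + 1, fun z' hz' hs' => ?_⟩
        obtain ⟨-, u2, -⟩ := hz'
        have h3 := (u2 i (Nat.lt_succ_self i) hz2).2 hz3
        exact absurd ((hmem z').1 hs').2.2 (not_le.2 h3)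
      · have hz3 : z.1 i = k i := le_antisymm (z.2.1 i) (not_lt.1 hz2)
        rw [mem_nh]
        refine ⟨z.1, 0, fun z' hz' hs' => ?_⟩
        obtain ⟨-, -, u3⟩ := hz'
        exact hz2 (u3 ⟨i, hz3⟩ i ((hmem z').1 hs').2.1)
    · refine Filter.mem_of_superset (WW_compl_mem_nh hz1) ?_
      intro z' hz' hs'
      exact hz' ((hmem z').1 hs').1
  obtain ⟨d, hd⟩ := WW_bdd S he
  refine ⟨_, indicator_mem_FF h1 h2 (d := d) (fun z hz => hd z ((hmem z).1 hz).1), ?_⟩
  have hys : y ∈ s := (hmem y).2 ⟨hy, hyk, le_refl _⟩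
  have hys' : y' ∉ s := fun hc => absurd ((hmem y').1 hc).2.2 (not_le.2 hi)
  rw [t11_mem hys, t11_notMem hys']
  exact one_ne_zero

/-- The functions of `FF k g` separate the points of `XX k g`.

Proof. If one point is the point at infinity and the other is `XX.mk y` use the indicator of `WW k g e`
with `y ∈ WW k g e`. Let `y ≠ y'` be in `YY k g`, take `e` from `exists_WW`, and an index `i` with `y i ≠ y' i`, say
`y i < y' i` (`wlog`); `y i < k i`. Use the indicator of `s = {z ∈ WW k g e | z i < k i ∧ z i ≤ y i}`; `y ∈ s` and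
`y' ∉ s`. `s` is open: if `z ∈ s` and `z' ∈ UU k z b (i + 1)` then `z' ∈ WW k g e` (see `WW_mem_nh`), and
`z' i < k i`, `z' i ≤ z i ≤ y i`. The complement is open: let `z ∉ s`. If `z ∉ WW k g e` use `WW_compl_mem_nh`. If
`z i < k i` and `y i < z i` use `UU k z b (i + 1)` with `b i = y i`. If `z i = k i` then for `z' ∈ UU k z b 0` the
third clause shows that not `z' i < k i`. The ranks are bounded by `WW_bdd`. -/
theorem FF_separates (S : Scale k g h) {x x' : XX k g} (hx : x ≠ x') :
    ∃ f ∈ FF k g, f x ≠ f x' := by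
  rcases t11_cases x with h1 | ⟨y, h1⟩
  · rcases t11_cases x' with h2 | ⟨y', h2⟩
    · exact absurd (h1.trans h2.symm) hx
    · rw [h1, h2]
      exact t11_sep_oo S y'
  · rcases t11_cases x' with h2 | ⟨y', h2⟩
    · rw [h1, h2]
      obtain ⟨f, hf, hf2⟩ := t11_sep_oo S y
      exact ⟨f, hf, hf2.symm⟩
    · have hne : y ≠ y' := fun hc => hx (by rw [h1, h2, hc])
      obtain ⟨i, hi⟩ : ∃ i, y.1 i ≠ y'.1 i := by
        by_contra hc
        push Not at hc
        exact hne (Subtype.ext (funext hc))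
      rw [h1, h2]
      rcases lt_or_gt_of_ne hi with h3 | h3
      · exact t11_sep_lt S h3
      · obtain ⟨f, hf, hf2⟩ := t11_sep_lt S h3
        exact ⟨f, hf, hf2.symm⟩

end Pool.Agent.H58C
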