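import Pool.Agent.Lib.H58C.T11

/-!
# T12: the space is completely regular
-/

set_option autoImplicit false

open Set Filter Topology

namespace Pool.Agent.H58C

variable {Ω : Type} [LinearOrder Ω] {k : ℕ → Ω} {g h : Ω → ℕ → Ω}

/-- Proof: a coordinate of the map inducing the topology. -/
theorem continuous_of_mem_FF {f : XX k g → ℝ} (hf : f ∈ FF k g) : Continuous f := by
  have h1 : Continuous (fun (x : XX k g) (f : FF k g) => f.1 x) := continuous_induced_dom
  exact (continuous_apply (⟨f, hf⟩ : FF k g)).comp h1

/-- Proof. The map `x ↦ (f ↦ f x)` into `FF k g → ℝ` is an embedding (injective by `FF_separates`), and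
`FF k g → ℝ` is Tychonoff; a subspace of a Tychonoff space is Tychonoff
(`Topology.IsEmbedding.t35Space` or `completelyRegularSpace_induced` and `T0Space` from
injectivity). -/
theorem t35Space_XX (S : Scale k g h) : T35Space (XX k g) := by
  have hi : Topology.IsInducing (fun (x : XX k g) (f : FF k g) => f.1 x) := ⟨rfl⟩
  have hinj : Function.Injective (fun (x : XX k g) (f : FF k g) => f.1 x) := by
    intro x x' hxx
    by_contra hne
    obtain ⟨f, hf, hfx⟩ := FF_separates S hne
    exact hfx (congrFun hxx ⟨f, hf⟩)
  exact (Topology.IsEmbedding.mk hi hinj).t35Space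

end Pool.Agent.H58C
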