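import Pool.Agent.Lib.H58C.T12

/-!
# T13: the continuous functions are those of FF
-/

set_option autoImplicit false

open Set Filter Topology

namespace Pool.Agent.H58C

variable {Ω : Type} [LinearOrder Ω] {k : ℕ → Ω} {g h : Ω → ℕ → Ω}

theorem t13_min {ι : Type*} (J : Finset ι) (e : ι → ℝ) (he : ∀ i, 0 < e i) : ∃ ε : ℝ, 0 < ε ∧ ∀ i ∈ J, ε ≤ e i := by
  classical
  induction J using Finset.induction_on with
  | empty => exact ⟨1, one_pos, fun i hi => absurd hi (Finset.notMem_empty i)⟩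
  | insert a J _ ih =>
    obtain ⟨ε, h1, h2⟩ := ih
    refine ⟨min ε (e a), lt_min h1 (he a), fun i hi => ?_⟩
    rcases Finset.mem_insert.1 hi with h | h
    · rw [h]
      exact min_le_right _ _
    · exact (min_le_left _ _).trans (h2 i h)

/-- The neighbourhoods of a point in the initial topology.

Proof. `nhds_induced`, `nhds_pi`, `Filter.mem_pi`, `Metric.mem_nhds_iff`: a neighbourhood of the image of `x` in
`FF k g → ℝ` contains a set given by finitely many `f` and one `ε` (the minimum). -/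
theorem exists_finset_of_mem_nhds {x : XX k g} {s : Set (XX k g)} (hs : s ∈ 𝓝 x) :
    ∃ (I : Finset (FF k g)) (ε : ℝ), 0 < ε ∧ ∀ z, (∀ f ∈ I, |f.1 z - f.1 x| < ε) → z ∈ s := by
  rw [nhds_induced, Filter.mem_comap] at hs
  obtain ⟨t, ht, hts⟩ := hs
  rw [nhds_pi, Filter.mem_pi] at ht
  obtain ⟨I, hI, t', ht', hsub⟩ := ht
  have h1 : ∀ i, ∃ e : ℝ, 0 < e ∧ Metric.ball (i.1 x) e ⊆ t' i := fun i => Metric.mem_nhds_iff.1 (ht' i)
  choose e he hball using h1
  obtain ⟨ε, hε, hεe⟩ := t13_min hI.toFinset e he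
  refine ⟨hI.toFinset, ε, hε, fun z hz => hts (hsub ?_)⟩
  intro i hi
  have hi' : i ∈ hI.toFinset := hI.mem_toFinset.2 hi
  refine hball i ?_
  rw [Metric.mem_ball, Real.dist_eq]
  exact (hz i hi').trans_le (hεe i hi')

/-- Proof. `exists_finset_of_mem_nhds`; for each `f` of the finite set, `|f z - f x| < ε` for `XX.mk z` with
`z` in a set of `nh y` (`f ∈ FF k g`); finite intersection. -/
theorem tendsto_mk (y : YY k g) : Tendsto (XX.mk : YY k g → XX k g) (nh y) (𝓝 (XX.mk y)) := by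
  intro s hs
  obtain ⟨I, ε, hε, h⟩ := exists_finset_of_mem_nhds hs
  have h1 : (⋂ f ∈ I, {z : YY k g | |f.1 (XX.mk z) - f.1 (XX.mk y)| < ε}) ∈ nh y := by
    refine (Filter.biInter_finset_mem I).2 fun f _ => ?_
    have h2 := f.2.1 y (Metric.ball_mem_nhds (f.1 (XX.mk y)) hε)
    rw [Filter.mem_map] at h2
    refine Filter.mem_of_superset h2 fun z hz => ?_
    have h3 : dist (f.1 (XX.mk z)) (f.1 (XX.mk y)) < ε := hz
    rw [Real.dist_eq] at h3
    exact h3
  rw [Filter.mem_map]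
  refine Filter.mem_of_superset h1 fun z hz => h _ fun f hf => ?_
  exact Set.mem_iInter₂.1 hz f hf

/-- Proof. Continuity on `YY k g` is `tendsto_mk` composed with the continuity of `f`. For each `n` the set of
`z` with `|f z - f oo| < 1 / (n + 1)` is a neighbourhood of `oo`, so it contains the set given by a finite
set `I` of functions and `ε`; each `f'` in `I` satisfies `f' (XX.mk y) = f' oo` for all `y` of rank at
least `d_{f'}`; let `D n` be the maximum of these `d_{f'}`. The sequence `D` is bounded (`S.bdd_seq`). Then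
`|f (XX.mk y) - f oo| < 1 / (n + 1)` for all `n` if the rank of `y` is at least the bound. -/
theorem mem_FF_of_continuous (S : Scale k g h) {f : XX k g → ℝ} (hf : Continuous f) :
    f ∈ FF k g := by
  classical
  refine ⟨fun y => (hf.tendsto (XX.mk y)).comp (tendsto_mk y), ?_⟩
  have h1 : ∀ n : ℕ, ∃ (I : Finset (FF k g)) (ε : ℝ), 0 < ε ∧
      ∀ z, (∀ f' ∈ I, |f'.1 z - f'.1 (XX.oo : XX k g)| < ε) → |f z - f XX.oo| < 1 / ((n : ℝ) + 1) := by
    intro n
    have h2 : f ⁻¹' Metric.ball (f XX.oo) (1 / ((n : ℝ) + 1)) ∈ 𝓝 (XX.oo : XX k g) :=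
      hf.continuousAt (Metric.ball_mem_nhds _ (by positivity))
    obtain ⟨I, ε, hε, h⟩ := exists_finset_of_mem_nhds h2
    refine ⟨I, ε, hε, fun z hz => ?_⟩
    have h3 : dist (f z) (f XX.oo) < 1 / ((n : ℝ) + 1) := h z hz
    rw [Real.dist_eq] at h3
    exact h3
  choose I ε hε h using h1
  have h4 : ∀ f' : FF k g, ∃ d : Ω, ∀ (y : YY k g) (r : Ω), Rk g y.1 r → d ≤ r → f'.1 (XX.mk y) = f'.1 XX.oo :=
    fun f' => f'.2.2
  choose dd hdd using h4
  have hne : Nonempty Ω := ⟨k 0⟩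
  have h5 : ∀ n : ℕ, ∃ D : Ω, ∀ f' ∈ I n, dd f' ≤ D := by
    intro n
    obtain ⟨D, hD⟩ := ((I n).image dd).exists_le
    exact ⟨D, fun f' hf' => hD _ (Finset.mem_image_of_mem dd hf')⟩
  choose D hD using h5
  obtain ⟨d, hd⟩ := S.bdd_seq D
  refine ⟨d, fun y r hr hdr => ?_⟩
  have h6 : ∀ n : ℕ, |f (XX.mk y) - f XX.oo| < 1 / ((n : ℝ) + 1) := by
    intro n
    refine h n _ fun f' hf' => ?_
    rw [hdd f' y r hr ((hD n f' hf').trans ((hd n).le.trans hdr)), sub_self, abs_zero]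
    exact hε n
  by_contra hne'
  have h7 : 0 < |f (XX.mk y) - f XX.oo| := abs_pos.2 (sub_ne_zero.2 hne')
  obtain ⟨n, hn⟩ := exists_nat_one_div_lt h7
  exact lt_asymm (h6 n) hn

end Pool.Agent.H58C
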