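import Pool.Agent.Lib.H58C.T03
import Pool.Agent.Lib.H58C.T08

/-!
# T14: points of large rank, stems
-/

set_option autoImplicit false

open Set Filter Topology

namespace Pool.Agent.H58C

variable {Ω : Type} [LinearOrder Ω] {k : ℕ → Ω} {g h : Ω → ℕ → Ω}

/-- There are points of arbitrarily large rank.

Proof. `S.exists_sub d` (with `ι = Empty`, `κ = Empty`, `Z = Empty`) gives an elementary set `N` with
`d ∈ N`. By `S.bdd_countable` there is `x` with `v < x` for all `v ∈ N`, so `x ∉ N`. In `H.traced x` the second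
alternative is impossible (`c ∈ N`, `x < c`), so there is `r` with `d < r` and `Tail g N r x k`. Let `n` be such that the
property in `Tail` holds for `i ≥ n`. For `i ≥ n` the element `g r i` is tame: take an enumeration of `N`. Let
`y i = o` (least element, `H.bot`; tame, and less than `k i` as `g r i < k i`) for `i < n` and `y i = g r i` for
`i ≥ n`. -/
theorem exists_rank_ge [WellFoundedLT Ω] (S : Scale k g h) (d : Ω) :
    ∃ (y : YY k g) (r : Ω), d ≤ r ∧ Rk g y.1 r := by
  obtain ⟨N, H, hd, -⟩ := S.exists_sub d (ι := Empty) (fun _ => Empty) (κ := Empty) (Z := Empty)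
    (fun j => j.elim) (fun _ _ => ∅)
  obtain ⟨x, hx⟩ := S.bdd_countable H.ctb
  have hxN : x ∉ N := fun hxN => lt_irrefl _ (hx x hxN)
  obtain ⟨r, hrx, h1 | ⟨c, hc, hxc, -⟩⟩ := H.traced x hxN
  swap
  · exact absurd (hx c hc) (not_lt.2 hxc.le)
  obtain ⟨hr, hT⟩ := h1
  obtain ⟨n, hn⟩ := eventually_atTop.1 hT
  obtain ⟨o, hoN, ho⟩ := H.bot
  have htame : ∀ i, n ≤ i → Tame (g r i) := by
    intro i hi
    obtain ⟨e, he⟩ := H.ctb.exists_eq_range ⟨o, hoN⟩
    refine ⟨e, fun b hb => ?_⟩
    obtain ⟨v, hv, hbv, hvg⟩ := (hn i hi).2.2.2 b hb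
    rw [he] at hv
    obtain ⟨m, rfl⟩ := hv
    exact ⟨m, hbv.le, hvg⟩
  have htameo : Tame o := ⟨fun _ => o, fun b hb => absurd hb (not_lt.2 (ho b))⟩
  have hok : ∀ i, o < k i := fun i => (ho _).trans_lt (S.gk o i)
  have hlt : ∀ i, (if i < n then o else g r i) < k i := by
    intro i
    split_ifs
    · exact hok i
    · exact S.gk r i
  refine ⟨⟨fun i => if i < n then o else g r i, ?_, ?_, ?_, ?_⟩, r, (hr d hd).le, ?_⟩
  · exact fun i => (hlt i).le
  · intro i _
    dsimp only
    split_ifs with h2
    · exact htameo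
    · exact htame i (not_lt.1 h2)
  · intro i hi
    exact absurd hi (hlt i).ne
  · intro _
    refine ⟨r, ?_⟩
    filter_upwards [eventually_ge_atTop n] with i hi
    rw [if_neg (not_lt.2 hi)]
  · show ∀ᶠ i in atTop, (if i < n then o else g r i) = g r i
    filter_upwards [eventually_ge_atTop n] with i hi
    rw [if_neg (not_lt.2 hi)]

/-- Proof. The values are `y i < k i` (tame) or `k i`; if the value at `i` is `k i` then `y i = k i`, so
`y j = k j` for `j ≥ i`, or `i ≥ m`. The last clause of `IsPt` is vacuous (value `k m` at `m`). -/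
theorem isPt_stem (y : YY k g) (m : ℕ) : IsPt k g (fun i => if i < m then y.1 i else k i) := by
  obtain ⟨h1, h2, h3, h4⟩ := y.2
  refine ⟨?_, ?_, ?_, ?_⟩
  · intro i
    dsimp only
    split_ifs
    · exact h1 i
    · exact le_rfl
  · intro i hi
    dsimp only at hi ⊢
    split_ifs at hi ⊢ with hm
    · exact h2 i hi
    · exact absurd hi (lt_irrefl _)
  · intro i hi j hij
    dsimp only at hi ⊢
    split_ifs with hj
    · rw [if_pos (lt_of_le_of_lt hij hj)] at hi
      exact h3 i hi j hij
    · rfl
  · intro hall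
    exact absurd (hall m) (by simp)

/-- initial segments of a point -/
def stem (y : YY k g) (m : ℕ) : YY k g := ⟨fun i => if i < m then y.1 i else k i, isPt_stem y m⟩

/-- Proof. `mem_nh`: given `b, m`, for `n ≥ m` the stem of length `n` is in `UU k y.1 b m`: where its value is less
than `k i` it is `y i`. -/
theorem tendsto_stem (y : YY k g) : Tendsto (fun m => stem y m) atTop (nh y) := by
  intro s hs
  obtain ⟨b, m, hbm⟩ := mem_nh.1 hs
  show ∀ᶠ n in atTop, stem y n ∈ s
  filter_upwards [eventually_ge_atTop m] with n hn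
  apply hbm
  have key : ∀ i, (stem y n).1 i < k i → i < n ∧ (stem y n).1 i = y.1 i := by
    intro i hi
    have hi' : (if i < n then y.1 i else k i) < k i := hi
    by_cases hin : i < n
    · exact ⟨hin, if_pos hin⟩
    · rw [if_neg hin] at hi'
      exact absurd hi' (lt_irrefl _)
  refine ⟨?_, ?_, ?_⟩
  · intro i hi
    exact (key i hi).2.le
  · intro i him hyi
    have he : (stem y n).1 i = y.1 i := if_pos (lt_of_lt_of_le him hn)
    rw [he]
    exact ⟨hyi, fun h => h⟩
  · intro _ i hi
    rw [← (key i hi).2]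
    exact hi

end Pool.Agent.H58C
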