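import Pool.Agent.Lib.H58C.T13
import Pool.Agent.Lib.H58C.T14

/-!
# T15: C_p(X) is not Lindelöf
-/

set_option autoImplicit false

open Set Filter Topology

namespace Pool.Agent.H58C

variable {Ω : Type} [LinearOrder Ω] {k : ℕ → Ω} {g h : Ω → ℕ → Ω}

/-- Countable subsets of the set of elements below `k i` are bounded below `k i`. Proof: if the set is
empty take `d = g (k 0) i`; otherwise `S.bddN` and an enumeration. -/
theorem Scale.bddN_countable (S : Scale k g h) (i : ℕ) {A : Set Ω} (hA : A.Countable)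
    (h1 : ∀ a ∈ A, a < k i) : ∃ d < k i, ∀ a ∈ A, a < d := by
  rcases A.eq_empty_or_nonempty with h0 | h0
  · exact ⟨g (k 0) i, S.gk _ _, fun a ha => by rw [h0] at ha; exact absurd ha (Set.notMem_empty a)⟩
  · obtain ⟨f, hf⟩ := hA.exists_eq_range h0
    obtain ⟨d, hd, hd'⟩ := S.bddN i f fun n => h1 _ (by rw [hf]; exact ⟨n, rfl⟩)
    refine ⟨d, hd, fun a ha => ?_⟩
    rw [hf] at ha
    obtain ⟨n, rfl⟩ := ha
    exact hd' n

/-- Proof. Assume it is. The set `Φ = {f | f oo = 1}` is closed, so it is a Lindelöf set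
(`IsClosed.isLindelof`). It is covered by the open sets `{f | 0 < f (XX.mk s)}`, `s` in the set `T` of points
with `∃ i, s i = k i`: if `f ∈ Φ` then `f ∈ FF k g` (`mem_FF_of_continuous`), so with the bound `d` of `f`
and a point `y` of rank at least `d` (`exists_rank_ge`), `f (XX.mk y) = 1`; and `f (XX.mk (stem y m))` tends to
`1` (`tendsto_stem`), so it is positive for some `m`; the point `stem y m` is in `T`. Let `t` be a countable
set of points `s` such that the corresponding open sets cover `Φ`. By `Scale.bddN_countable` there is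
`e` with `e i < k i` and `s i < e i` whenever `s ∈ t`, `s i < k i`. The function `f = 1 - 1_W`, with `W = WW k g e`,
is continuous (`indicator_WW_mem`, `continuous_of_mem_FF`), `f oo = 1`, and `f (XX.mk s) = 0` for
`s ∈ t`. So `f ∈ Φ` is not covered. -/
theorem not_lindelof [WellFoundedLT Ω] (S : Scale k g h) : ¬ LindelofSpace (CpX (XX k g)) := by
  classical
  intro hL
  have hcl : IsClosed {f : CpX (XX k g) | f.1 XX.oo = 1} :=
    isClosed_eq ((continuous_apply XX.oo).comp continuous_subtype_val) continuous_const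
  have hLi : IsLindelof {f : CpX (XX k g) | f.1 XX.oo = 1} := hcl.isLindelof
  obtain ⟨t, htc, ht⟩ := hLi.elim_countable_subcover
    (fun s : {s : YY k g // ∃ i, s.1 i = k i} => {f : CpX (XX k g) | 0 < f.1 (XX.mk s.1)})
    (fun s => isOpen_lt continuous_const ((continuous_apply (XX.mk s.1)).comp continuous_subtype_val))
    (by
      intro f hf
      have hf1 : f.1 XX.oo = 1 := hf
      obtain ⟨hf2, d, hd⟩ := mem_FF_of_continuous S f.2
      obtain ⟨y, r, hdr, hr⟩ := exists_rank_ge S d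
      have h1 : f.1 (XX.mk y) = 1 := (hd y r hr hdr).trans hf1
      have h2 : Tendsto (fun m => f.1 (XX.mk (stem y m))) atTop (𝓝 (f.1 (XX.mk y))) :=
        (hf2 y).comp (tendsto_stem y)
      rw [h1] at h2
      obtain ⟨m, hm⟩ := (h2.eventually (lt_mem_nhds (zero_lt_one : (0 : ℝ) < 1))).exists
      rw [Set.mem_iUnion]
      refine ⟨⟨stem y m, m, ?_⟩, hm⟩
      change (if m < m then y.1 m else k m) = k m
      rw [if_neg (lt_irrefl m)])
  have he : ∀ i, ∃ d < k i, ∀ a ∈ {a : Ω | ∃ s ∈ t, s.1.1 i = a ∧ a < k i}, a < d := by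
    intro i
    apply S.bddN_countable i
    · refine (htc.image fun s => s.1.1 i).mono ?_
      rintro a ⟨s, hs, hsa, _⟩
      exact ⟨s, hs, hsa⟩
    · rintro a ⟨s, hs, _, h⟩
      exact h
  choose e he1 he2 using he
  have hW : ∀ s ∈ t, s.1 ∈ WW k g e := by
    intro s hs i hi
    exact (he2 i _ ⟨s, hs, rfl, hi⟩).le
  have hc : Continuous (fun x : XX k g => 1 - if ∃ y ∈ WW k g e, x = XX.mk y then (1 : ℝ) else 0) :=
    continuous_const.sub (continuous_of_mem_FF (indicator_WW_mem S he1))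
  have h1 : (⟨_, hc⟩ : CpX (XX k g)) ∈ {f : CpX (XX k g) | f.1 XX.oo = 1} := by
    change (1 : ℝ) - (if ∃ y ∈ WW k g e, XX.oo = XX.mk y then (1 : ℝ) else 0) = 1
    rw [if_neg, sub_zero]
    rintro ⟨y, _, hy⟩
    exact absurd hy (Option.some_ne_none y).symm
  have h2 := ht h1
  rw [Set.mem_iUnion₂] at h2
  obtain ⟨s, hs, hs2⟩ := h2
  have h3 : (0 : ℝ) < 1 - (if ∃ y ∈ WW k g e, XX.mk s.1 = XX.mk y then (1 : ℝ) else 0) := hs2
  rw [if_pos ⟨s.1, hW s hs, rfl⟩, sub_self] at h3
  exact lt_irrefl _ h3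

end Pool.Agent.H58C
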