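import Pool.Agent.Lib.H58C.T05

/-!
# T16: constraints with parameters in N, one coordinate
-/

set_option autoImplicit false

open Set Filter Topology

namespace Pool.Agent.H58C

variable {Ω : Type} [LinearOrder Ω] {k : ℕ → Ω} {g h : Ω → ℕ → Ω}

variable [WellFoundedLT Ω]

/-- Proof. If `a ∈ N`: `lo = a`, `hi` the successor of `a` (`H.succ`); the only `v` is `a = sN N a`. If `a ∉ N`: `hi` is
the least element of `N` above `a` (it exists because of `u`); if `β < sN N a` then `lo ∈ N` with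
`β < lo < sN N a` (`Sub.sN_notMem`), otherwise `lo` is the least element (`H.bot`). If `v ∈ N` and `v < hi` then
`v ≤ a`, so `v ≤ sN N a`. -/
theorem Sub.exists_lohi {N : Set Ω} (H : Sub k g h N) (a β : Ω) {u : Ω} (hu : u ∈ N) (hau : a < u) :
    ∃ lo ∈ N, ∃ hi ∈ N, lo ≤ a ∧ a < hi ∧
      ∀ v ∈ N, lo ≤ v → v < hi → v ≤ sN N a ∧ (β < sN N a → β < v) := by
  by_cases ha : a ∈ N
  · obtain ⟨s, hs, has, hmin⟩ := H.succ a ha
    refine ⟨a, ha, s, hs, le_rfl, has, ?_⟩
    intro v _ hav hvs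
    have h1 : v = a := by
      rcases lt_or_eq_of_le hav with h | h
      · exact absurd hvs (not_lt.2 (hmin v h))
      · exact h.symm
    rw [sN_of_mem ha, h1]
    exact ⟨le_rfl, fun h => h⟩
  · have hne : ({b | b ∈ N ∧ a < b} : Set Ω).Nonempty := ⟨u, hu, hau⟩
    obtain ⟨hi, hhi⟩ : ∃ hi, hi = (wellFounded_lt : WellFounded ((· < ·) : Ω → Ω → Prop)).min
      {b | b ∈ N ∧ a < b} hne := ⟨_, rfl⟩
    have h1 : hi ∈ N ∧ a < hi := by
      rw [hhi]
      exact (wellFounded_lt : WellFounded ((· < ·) : Ω → Ω → Prop)).min_mem _ hne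
    have h2 : ∀ v ∈ N, v < hi → v ≤ a := by
      intro v hv hvh
      by_contra hva
      rw [not_le] at hva
      rw [hhi] at hvh
      exact (wellFounded_lt : WellFounded ((· < ·) : Ω → Ω → Prop)).not_lt_min
        {b | b ∈ N ∧ a < b} ⟨hv, hva⟩ hvh
    by_cases hβ : β < sN N a
    · obtain ⟨lo, hlo, hβlo, hlos⟩ := (H.sN_notMem ha).2.2 β hβ
      refine ⟨lo, hlo, hi, h1.1, hlos.le.trans (sN_le N a), h1.2, ?_⟩
      intro v hv hlv hvh
      exact ⟨le_sN hv (h2 v hv hvh), fun _ => hβlo.trans_le hlv⟩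
    · obtain ⟨o, ho, hbot⟩ := H.bot
      refine ⟨o, ho, hi, h1.1, hbot a, h1.2, ?_⟩
      intro v hv _ hvh
      exact ⟨le_sN hv (h2 v hv hvh), fun h => absurd h hβ⟩

end Pool.Agent.H58C
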