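import Pool.Agent.Lib.H58C.T09
import Pool.Agent.Lib.H58C.T16

/-!
# T17: constraints, points of finite length
-/

set_option autoImplicit false

open Set Filter Topology

namespace Pool.Agent.H58C

variable {Ω : Type} [LinearOrder Ω] {k : ℕ → Ω} {g h : Ω → ℕ → Ω}

variable [WellFoundedLT Ω]

/-- Proof. Let `n` be the length: the least `j` with `y j = k j`; so `y i < k i ↔ i < n` (`IsPt`). By `mem_nh` let
`UU k (H.rY y).1 b m` be contained in the preimage of `V`. `κ = some (inl n)`, `M₀ = n`, `lo i, hi i` from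
`Sub.exists_lohi` for `a = y i`, `β = b i`, `u = k i` (`i < n`), and `k 0` for `i ≥ n`; `c = k 0`. If
`x' = XX.mk z` satisfies the constraint and `z i ∈ N` for all `i` then `z ∈ UU k (H.rY y).1 b m`, where
`(H.rY y) i = sN N (y i)`: first clause: `z i < k i` gives `i < n`, `z i ≤ sN N (y i)`. Second: if
`sN N (y i) < k i` then `i < n` (`y i = k i ∈ N` gives `sN N (y i) = k i`), so `z i < k i`, and the last
property of `Sub.exists_lohi`. Third: `z i < k i` gives `i < n`, `sN N (y i) ≤ y i < k i`. -/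
theorem Sub.exists_con_fin {N : Set Ω} (H : Sub k g h N) (y : YY k g) (hy : ∃ j, y.1 j = k j)
    {V : Set (XX k g)} (hV : V ∈ nhX (H.rX (XX.mk y))) :
    ∃ (κ : Option (ℕ ⊕ Bool)) (M₀ : ℕ), ∀ M, M₀ ≤ M → ∃ (lo hi : ℕ → Ω) (c : Ω),
      (∀ i, lo i ∈ N) ∧ (∀ i, hi i ∈ N) ∧ c ∈ N ∧ XX.mk y ∈ Con h M κ lo hi c ∧
        ∀ x' ∈ Con h M κ lo hi c, InN N x' → x' ∈ V := by
  classical
  have hV' : XX.mk ⁻¹' V ∈ nh (H.rY y) := hV
  obtain ⟨b, m, hb⟩ := mem_nh.1 hV'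
  obtain ⟨hle, htame, hseg, hrk⟩ := y.2
  have hn : ∀ i, y.1 i < k i ↔ i < Nat.find hy := by
    intro i
    constructor
    · intro h1
      by_contra h2
      have h3 := hseg _ (Nat.find_spec hy) i (not_lt.1 h2)
      rw [h3] at h1
      exact lt_irrefl _ h1
    · intro h1
      exact lt_of_le_of_ne (hle i) (Nat.find_min hy h1)
  have hex : ∀ i, ∃ lo hi : Ω, lo ∈ N ∧ hi ∈ N ∧ (y.1 i < k i → lo ≤ y.1 i ∧ y.1 i < hi ∧
      ∀ v ∈ N, lo ≤ v → v < hi → v ≤ sN N (y.1 i) ∧ (b i < sN N (y.1 i) → b i < v)) := by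
    intro i
    by_cases hi : y.1 i < k i
    · obtain ⟨lo, hlo, hi', hhi, h1, h2, h3⟩ := H.exists_lohi (y.1 i) (b i) (H.kN i) hi
      exact ⟨lo, hi', hlo, hhi, fun _ => ⟨h1, h2, h3⟩⟩
    · exact ⟨k 0, k 0, H.kN 0, H.kN 0, fun h1 => absurd h1 hi⟩
  choose lo hi hlo hhi hprop using hex
  refine ⟨some (Sum.inl (Nat.find hy)), Nat.find hy, ?_⟩
  intro M hM
  refine ⟨lo, hi, k 0, hlo, hhi, H.kN 0, ?_, ?_⟩
  · refine ⟨y, rfl, hn, ?_⟩
    intro i _ hin
    exact ⟨(hprop i ((hn i).2 hin)).1, (hprop i ((hn i).2 hin)).2.1⟩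
  · rintro x' ⟨z, rfl, hz, hz2⟩ hIn
    have hzN : ∀ i, z.1 i ∈ N := (hIn z rfl).1
    have hpz : ∀ i, i < Nat.find hy → z.1 i ≤ sN N (y.1 i) ∧ (b i < sN N (y.1 i) → b i < z.1 i) := by
      intro i hin
      have h1 := hz2 i (lt_of_lt_of_le hin hM) hin
      exact (hprop i ((hn i).2 hin)).2.2 (z.1 i) (hzN i) h1.1 h1.2
    have hsn : ∀ i, sN N (y.1 i) < k i → i < Nat.find hy := by
      intro i h1
      by_contra h2
      have h3 := hseg _ (Nat.find_spec hy) i (not_lt.1 h2)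
      rw [h3, sN_of_mem (H.kN i)] at h1
      exact lt_irrefl _ h1
    refine hb z ⟨?_, ?_, ?_⟩
    · intro i h1
      exact (hpz i ((hz i).1 h1)).1
    · intro i _ h1
      have h2 := hsn i h1
      exact ⟨(hz i).2 h2, (hpz i h2).2⟩
    · intro _ i h1
      have h2 := (hz i).1 h1
      exact lt_of_le_of_lt (sN_le N (y.1 i)) ((hn i).2 h2)

end Pool.Agent.H58C
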