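import Pool.Agent.Lib.H58C.T09
import Pool.Agent.Lib.H58C.T16

/-!
# T18: constraints, points of infinite length
-/

set_option autoImplicit false

open Set Filter Topology

namespace Pool.Agent.H58C

variable {Ω : Type} [LinearOrder Ω] {k : ℕ → Ω} {g h : Ω → ℕ → Ω}

variable [WellFoundedLT Ω]

theorem t18_aux (S : Scale k g h) {N : Set Ω} (H : Sub k g h N) (y : YY k g) {x : Ω}
    (hy : Rk g y.1 x) {b : ℕ → Ω} {m M : ℕ} (hmM : m ≤ M) {lo hi : ℕ → Ω}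
    (hl : ∀ i, ∀ v ∈ N, lo i ≤ v → v < hi i →
      v ≤ sN N (y.1 i) ∧ (b i < sN N (y.1 i) → b i < v))
    {z : YY k g} (hzN : ∀ i, z.1 i ∈ N) (hz1 : ∀ i, z.1 i < k i)
    (hz2 : ∀ i < M, lo i ≤ z.1 i ∧ z.1 i < hi i) (hz3 : ∀ i, M ≤ i → z.1 i ≤ y.1 i) :
    z.1 ∈ UU k (H.rY y).1 b m := by
  refine ⟨?_, ?_, ?_⟩
  · intro i _
    show z.1 i ≤ sN N (y.1 i)
    rcases lt_or_ge i M with hi | hi
    · exact (hl i _ (hzN i) (hz2 i hi).1 (hz2 i hi).2).1
    · exact le_sN (hzN i) (hz3 i hi)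
  · intro i hi _
    refine ⟨hz1 i, ?_⟩
    have hiM : i < M := lt_of_lt_of_le hi hmM
    exact (hl i _ (hzN i) (hz2 i hiM).1 (hz2 i hiM).2).2
  · rintro ⟨j, hj⟩
    exfalso
    have h1 : sN N (y.1 j) ≤ y.1 j := sN_le N _
    have h2 := Rk.lt_k S y.2 hy j
    have h3 : sN N (y.1 j) = k j := hj
    rw [h3] at h1
    exact absurd (lt_of_le_of_lt h1 h2) (lt_irrefl _)

/-- Proof. By `mem_nh` let `UU k (H.rY y).1 b m` be contained in the preimage of `V`. For `i < M` let `lo i, hi i` be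
from `Sub.exists_lohi` for `a = y i`, `β = b i`, `u = k i`; and `k 0` for `i ≥ M`. All `y i < k i` (`Rk.lt_k`).
Case `x ∈ N`: `κ = some (inr false)`, `c = x`, and `M₀ ≥ m` such that `y i = g x i` for `i ≥ M₀`. If `z`
satisfies the constraint then `z i ≤ g x i = sN N (y i)` for `i ≥ M` (as `g x i ∈ N`).
Case `x ∉ N`: take `r` from `H.traced x`; the first alternative is impossible, since it gives `d < r ≤ x < d`.
So there is `c ∈ N` with `x < c` and `Tail g N r x (h c)`; `κ = some (inr true)`, and `M₀ ≥ m` is such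
that for `i ≥ M₀`, `y i = g x i` and the property in `Tail` holds. Then `y i = g x i < h c i` for `i ≥ M`. If
`z` satisfies the constraint and `z i ∈ N`, `i ≥ M`, then `z i < h c i`, so `z i < g r i`, and
`g r i = sN N (g x i) = sN N (y i)` (`sN_eq_of`: `v ≤ g x i` implies `v < h c i`).
In both cases `z i ≤ sN N (y i)` for all `i` (for `i < M` by `Sub.exists_lohi`), and for `i < m`,
`b i < sN N (y i)` implies `b i < z i`. Third clause of `UU`: `sN N (y j) ≤ y j < k j`, so it is vacuous. -/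
theorem Sub.exists_con_inf (S : Scale k g h) {N : Set Ω} (H : Sub k g h N) {d : Ω} (hd : d ∈ N)
    (y : YY k g) {x : Ω} (hy : Rk g y.1 x) (hx : x < d) {V : Set (XX k g)}
    (hV : V ∈ nhX (H.rX (XX.mk y))) :
    ∃ (κ : Option (ℕ ⊕ Bool)) (M₀ : ℕ), ∀ M, M₀ ≤ M → ∃ (lo hi : ℕ → Ω) (c : Ω),
      (∀ i, lo i ∈ N) ∧ (∀ i, hi i ∈ N) ∧ c ∈ N ∧ XX.mk y ∈ Con h M κ lo hi c ∧
        ∀ x' ∈ Con h M κ lo hi c, InN N x' → x' ∈ V := by
  have hV' : XX.mk ⁻¹' V ∈ nh (H.rY y) := hV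
  obtain ⟨b, m, hbm⟩ := mem_nh.mp hV'
  have hlt := fun i => Rk.lt_k S y.2 hy i
  have hex := fun i => H.exists_lohi (y.1 i) (b i) (H.kN i) (hlt i)
  choose lo hlo hi hhi h1 h2 h3 using hex
  by_cases hxN : x ∈ N
  · obtain ⟨M₁, hM₁⟩ := eventually_atTop.mp hy
    refine ⟨some (Sum.inr false), max m M₁, fun M hM => ⟨lo, hi, x, hlo, hhi, hxN, ?_, ?_⟩⟩
    · exact ⟨y, rfl, hlt, fun i _ => ⟨h1 i, h2 i⟩, fun i hiM =>
        (hM₁ i (le_trans (le_trans (le_max_right _ _) hM) hiM)).le⟩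
    · rintro x' ⟨z, rfl, hz1, hz2, hz3⟩ hzN
      exact hbm z (t18_aux S H y hy (le_trans (le_max_left _ _) hM) h3 (hzN z rfl).1 hz1 hz2
        (fun i hiM => by
          rw [hM₁ i (le_trans (le_trans (le_max_right _ _) hM) hiM)]; exact hz3 i hiM))
  · obtain ⟨r, hrx, hr⟩ := H.traced x hxN
    rcases hr with ⟨hlt', _⟩ | ⟨c, hcN, hxc, _, ht⟩
    · exact absurd (lt_of_lt_of_le (hlt' d hd) hrx) (not_lt.mpr hx.le)
    · obtain ⟨M₁, hM₁⟩ := eventually_atTop.mp hy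
      obtain ⟨M₂, hM₂⟩ := eventually_atTop.mp ht
      refine ⟨some (Sum.inr true), max m (max M₁ M₂), fun M hM =>
        ⟨lo, hi, c, hlo, hhi, hcN, ?_, ?_⟩⟩
      · refine ⟨y, rfl, hlt, fun i _ => ⟨h1 i, h2 i⟩, fun i hiM => ?_⟩
        have e1 : M₁ ≤ i := by omega
        have e2 : M₂ ≤ i := by omega
        rw [hM₁ i e1]
        exact (hM₂ i e2).2.1
      · rintro x' ⟨z, rfl, hz1, hz2, hz3⟩ hzN
        refine hbm z (t18_aux S H y hy (le_trans (le_max_left _ _) hM) h3 (hzN z rfl).1 hz1 hz2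
          (fun i hiM => ?_))
        have e1 : M₁ ≤ i := by omega
        have e2 : M₂ ≤ i := by omega
        obtain ⟨ha, hb', hc, _⟩ := hM₂ i e2
        rw [hM₁ i e1]
        exact (lt_of_lt_of_le (hc _ ((hzN z rfl).1 i) (hz3 i hiM)) ha).le

end Pool.Agent.H58C
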