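import Pool.Agent.Lib.H58C.T17
import Pool.Agent.Lib.H58C.T18

/-!
# T19: constraints
-/

set_option autoImplicit false

open Set Filter Topology

namespace Pool.Agent.H58C

variable {Ω : Type} [LinearOrder Ω] {k : ℕ → Ω} {g h : Ω → ℕ → Ω}

variable [WellFoundedLT Ω]

/-- Proof. If `x = oo`: `κ = none`, `V ∋ oo` (`H.rX oo = oo`, `nhX` is `pure`). If `x = XX.mk y` and some
`y j = k j` use `Sub.exists_con_fin`; otherwise `y` has a rank (`IsPt`), less than `d` as `x ∈ Xd d`, and
`Sub.exists_con_inf` applies. -/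
theorem Sub.exists_con (S : Scale k g h) {N : Set Ω} (H : Sub k g h N) {d : Ω} (hd : d ∈ N)
    {x : XX k g} (hx : x ∈ Xd (k := k) (g := g) d) {V : Set (XX k g)} (hV : V ∈ nhX (H.rX x)) :
    ∃ (κ : Option (ℕ ⊕ Bool)) (M₀ : ℕ), ∀ M, M₀ ≤ M → ∃ (lo hi : ℕ → Ω) (c : Ω),
      (∀ i, lo i ∈ N) ∧ (∀ i, hi i ∈ N) ∧ c ∈ N ∧ x ∈ Con h M κ lo hi c ∧
        ∀ x' ∈ Con h M κ lo hi c, InN N x' → x' ∈ V := by
  rcases x with _ | y
  · refine ⟨none, 0, fun M _ => ⟨fun _ => k 0, fun _ => k 0, k 0, fun _ => H.kN 0, fun _ => H.kN 0, H.kN 0, rfl, ?_⟩⟩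
    intro x' hx' _
    have h1 : x' = XX.oo := hx'
    rw [h1]
    have h2 : V ∈ (pure XX.oo : Filter (XX k g)) := hV
    exact mem_pure.mp h2
  · by_cases hy : ∃ j, y.1 j = k j
    · exact H.exists_con_fin y hy hV
    · push Not at hy
      have hlt : ∀ i, y.1 i < k i := fun i => lt_of_le_of_ne (y.2.1 i) (hy i)
      obtain ⟨r, hr⟩ := y.2.2.2.2 hlt
      exact H.exists_con_inf S hd y hr (hx y rfl r hr) hV

omit [WellFoundedLT Ω] in
/-- The constraint depends only on the parameters with index less than `M`. Proof: cases of `κ`. -/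
theorem con_congr (M : ℕ) (κ : Option (ℕ ⊕ Bool)) (lo hi lo' hi' : ℕ → Ω) (c : Ω)
    (h1 : ∀ i < M, lo i = lo' i) (h2 : ∀ i < M, hi i = hi' i) :
    (Con h M κ lo hi c : Set (XX k g)) = Con h M κ lo' hi' c := by
  rcases κ with _ | n | b
  · rfl
  · ext x
    simp only [Con, Set.mem_setOf_eq]
    refine exists_congr fun y => and_congr_right fun _ => and_congr_right fun _ =>
      forall₂_congr fun i hi => ?_
    rw [h1 i hi, h2 i hi]
  · cases b
    · ext x
      simp only [Con, Set.mem_setOf_eq]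
      refine exists_congr fun y => and_congr_right fun _ => and_congr_right fun _ =>
        and_congr_left fun _ => forall₂_congr fun i hi => ?_
      rw [h1 i hi, h2 i hi]
    · ext x
      simp only [Con, Set.mem_setOf_eq]
      refine exists_congr fun y => and_congr_right fun _ => and_congr_right fun _ =>
        and_congr_left fun _ => forall₂_congr fun i hi => ?_
      rw [h1 i hi, h2 i hi]

end Pool.Agent.H58C
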