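import Pool.Agent.Lib.H58C.T06

/-!
# T20: countably many points are coded in N
-/

set_option autoImplicit false

open Set Filter Topology

namespace Pool.Agent.H58C

variable {Ω : Type} [LinearOrder Ω] {k : ℕ → Ω} {g h : Ω → ℕ → Ω}

theorem t20_fin {N : Set Ω} (hN : N.Countable) (t : ℕ → Ω) (n : ℕ) :
    {x : XX k g | ∃ y : YY k g, x = XX.mk y ∧ (∀ i, y.1 i ∈ N) ∧ ∀ j, n ≤ j → y.1 j = t j}.Countable := by
  haveI : Countable N := hN.to_subtype
  have h1 : {x : XX k g | ∃ y : YY k g, x = XX.mk y ∧ (∀ i, y.1 i ∈ N) ∧ ∀ j, n ≤ j → y.1 j = t j} ⊆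
      ⋃ u : Fin n → N, {x : XX k g | ∃ y : YY k g, x = XX.mk y ∧ (∀ i : Fin n, y.1 i = u i) ∧
        ∀ j, n ≤ j → y.1 j = t j} := by
    rintro x ⟨y, hx, hy1, hy2⟩
    rw [Set.mem_iUnion]
    exact ⟨fun i => ⟨y.1 i, hy1 i⟩, y, hx, fun _ => rfl, hy2⟩
  refine Set.Countable.mono h1 (Set.countable_iUnion fun u => ?_)
  apply Set.Subsingleton.countable
  rintro x ⟨y, hx, hy1, hy2⟩ x' ⟨y', hx', hy1', hy2'⟩
  have h2 : y = y' := by
    apply Subtype.ext
    funext j
    by_cases hj : j < n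
    · have e1 := hy1 ⟨j, hj⟩
      have e2 := hy1' ⟨j, hj⟩
      exact e1.trans e2.symm
    · rw [hy2 j (not_lt.mp hj), hy2' j (not_lt.mp hj)]
  rw [hx, hx', h2]

/-- Proof. The set is contained in the union of `{oo}`; the sets of `XX.mk y` with all `y i ∈ N` and
`y j = k j` for `j ≥ n` (`n ∈ ℕ`); and the sets of `XX.mk y` with all `y i ∈ N` and `y i = g r i` for
`i ≥ n` (`r ∈ N`, `n ∈ ℕ`). (A point is of one of these kinds by `IsPt`.) Each of these countably many
sets is countable: a point in it is determined by its values in `N` for `i < n` (an injection into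
`Fin n → N`). -/
theorem countable_InN {N : Set Ω} (hN : N.Countable) : {x : XX k g | InN N x}.Countable := by
  have h1 : {x : XX k g | InN N x} ⊆ ({XX.oo} ∪ ⋃ n : ℕ, {x : XX k g | ∃ y : YY k g, x = XX.mk y ∧
      (∀ i, y.1 i ∈ N) ∧ ∀ j, n ≤ j → y.1 j = k j}) ∪ ⋃ r ∈ N, ⋃ n : ℕ, {x : XX k g | ∃ y : YY k g,
        x = XX.mk y ∧ (∀ i, y.1 i ∈ N) ∧ ∀ j, n ≤ j → y.1 j = g r j} := by
    intro x hx
    rcases x with _ | y
    · exact Or.inl (Or.inl rfl)
    · obtain ⟨h2, h3⟩ := hx y rfl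
      by_cases hy : ∃ j, y.1 j = k j
      · obtain ⟨j, hj⟩ := hy
        refine Or.inl (Or.inr ?_)
        rw [Set.mem_iUnion]
        exact ⟨j, y, rfl, h2, fun i hi => y.2.2.2.1 j hj i hi⟩
      · push Not at hy
        have hlt : ∀ i, y.1 i < k i := fun i => lt_of_le_of_ne (y.2.1 i) (hy i)
        obtain ⟨r, hr⟩ := y.2.2.2.2 hlt
        refine Or.inr ?_
        obtain ⟨n, hn⟩ := Filter.eventually_atTop.mp hr
        simp only [Set.mem_iUnion]
        exact ⟨r, h3 r hr, n, y, rfl, h2, fun i hi => hn i hi⟩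
  refine Set.Countable.mono h1 (Set.Countable.union (Set.Countable.union (Set.countable_singleton _)
    (Set.countable_iUnion fun n => t20_fin hN k n)) ?_)
  exact Set.Countable.biUnion hN fun r _ => Set.countable_iUnion fun n => t20_fin hN (g r) n

end Pool.Agent.H58C
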