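import Pool.Agent.Lib.H58C.T03
import Pool.Agent.Lib.H58C.T19
import Pool.Agent.Lib.H58C.T20

/-!
# T21: elementarity
-/

set_option autoImplicit false

open Set Filter Topology

namespace Pool.Agent.H58C

variable {Ω : Type} [LinearOrder Ω] {k : ℕ → Ω} {g h : Ω → ℕ → Ω}

open Classical in
/-- The coordinates of a point: its values, and its rank (if there is one). -/
noncomputable def t21_co (x : XX k g) (o : Option ℕ) : Ω :=
  match x with
  | none => k 0
  | some y => match o with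
    | some i => y.1 i
    | none => if hr : ∃ r, Rk g y.1 r then hr.choose else k 0

theorem t21_inN (S : Scale k g h) {N : Set Ω} (x : XX k g) (hx : ∀ o, t21_co x o ∈ N) : InN N x := by
  classical
  rintro y rfl
  refine ⟨fun i => hx (some i), fun r hr => ?_⟩
  have h1 := hx none
  have h2 : t21_co (XX.mk y) none = (⟨r, hr⟩ : ∃ r, Rk g y.1 r).choose := by
    show (if hr : ∃ r, Rk g y.1 r then hr.choose else k 0) = _
    rw [dif_pos ⟨r, hr⟩]
  rw [h2] at h1
  have h3 := (⟨r, hr⟩ : ∃ r, Rk g y.1 r).choose_spec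
  rwa [← Rk.unique S h3 hr]

/-- The coordinates of a tuple. -/
noncomputable def t21_c (p : ℕ × Option ℕ) (z : Σ a : ℕ, (Fin a → XX k g)) : Ω :=
  if hl : p.1 < z.1 then t21_co (z.2 ⟨p.1, hl⟩) p.2 else k 0

variable [WellFoundedLT Ω]

/-- Proof. Apply `S.exists_sub d` to
* `Z = Σ a, (Fin a → XX k g)`; coordinates with index in `ℕ × Option ℕ`: for `l` and `some i` the value
  `y i` if `l < a` and the `l`-th point is `XX.mk y`; for `l` and `none` the rank of `y` if `l < a`, the `l`-th point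
  is `XX.mk y` and `y` has a rank (choose; ranks are unique, `Rk.unique`); in all other cases `k 0`;
* the index type `ι = Σ a, (J a × ℕ × (Fin a → Option (ℕ ⊕ Bool)))`; parameters of `(a, j, M, κ)`:
  `p = (Fin a × Fin M × Bool) ⊕ Fin a`; `lo l i` is the parameter `(l, i, false)` and `hi l i` the parameter
  `(l, i, true)` for `i < M` (extended by `c l`), `c l` is the last parameter with index `l`;
  `C` is the set of `⟨a, x⟩` with `x ∈ E a j` and `x l ∈ Con h M (κ l) (lo l) (hi l) (c l)` for all `l`.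
Given `x ∈ E a j` and `V`, `Sub.exists_con` gives for each `l` a kind `κ l` and a bound `M₀ l`; let `M` be the maximum
of the `M₀ l` (`Finset.sup`), and take `lo l, hi l, c l`. By `con_congr` the tuple `x` is in the
corresponding `C`; the element `⟨a, x'⟩` of `C` with coordinates in `N` is as required. -/
theorem Scale.elem (S : Scale k g h) (d : Ω) {J : ℕ → Type} [∀ a, Countable (J a)]
    (E : ∀ a, J a → Set (Fin a → XX k g)) (hE : ∀ a j, ∀ x ∈ E a j, ∀ l, x l ∈ Xd (k := k) (g := g) d) :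
    ∃ (N : Set Ω) (H : Sub k g h N), d ∈ N ∧ ∀ a (j : J a), ∀ x ∈ E a j, ∀ V : Fin a → Set (XX k g),
      (∀ l, V l ∈ nhX (H.rX (x l))) → ∃ x' ∈ E a j, (∀ l, InN N (x' l)) ∧ ∀ l, x' l ∈ V l := by
  classical
  obtain ⟨N, H, hd, hC⟩ := S.exists_sub d (ι := Σ a : ℕ, (J a × ℕ × (Fin a → Option (ℕ ⊕ Bool))))
    (fun q => (Fin q.1 × Fin q.2.2.1 × Bool) ⊕ Fin q.1) (κ := ℕ × Option ℕ) (Z := Σ a : ℕ, (Fin a → XX k g))
    t21_c
    (fun q v => {z | ∃ x : Fin q.1 → XX k g, z = ⟨q.1, x⟩ ∧ x ∈ E q.1 q.2.1 ∧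
      ∀ l, x l ∈ (Con h q.2.2.1 (q.2.2.2 l)
        (fun i => if hi : i < q.2.2.1 then v (Sum.inl (l, ⟨i, hi⟩, false)) else v (Sum.inr l))
        (fun i => if hi : i < q.2.2.1 then v (Sum.inl (l, ⟨i, hi⟩, true)) else v (Sum.inr l))
        (v (Sum.inr l)) : Set (XX k g))})
  refine ⟨N, H, hd, ?_⟩
  intro a j x hx V hV
  have h1 := fun l => Sub.exists_con S H hd (hE a j x hx l) (hV l)
  choose κ M₀ hM using h1
  obtain ⟨M, hMdef⟩ : ∃ M : ℕ, M = Finset.univ.sup M₀ := ⟨_, rfl⟩
  have hMl : ∀ l, M₀ l ≤ M := fun l => by rw [hMdef]; exact Finset.le_sup (Finset.mem_univ l)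
  have h2 := fun l => hM l M (hMl l)
  choose lo hi c hlo hhi hcN hxC hCV using h2
  have hcon : ∀ l, (Con h M (κ l)
        (fun i => if i < M then lo l i else c l)
        (fun i => if i < M then hi l i else c l) (c l) : Set (XX k g)) = Con h M (κ l) (lo l) (hi l) (c l) := by
    intro l
    refine con_congr M (κ l) _ _ _ _ (c l) ?_ ?_
    · intro i hi'
      rw [if_pos hi']
    · intro i hi'
      rw [if_pos hi']
  obtain ⟨z, ⟨x', hz, hx'E, hx'C⟩, hzN⟩ := hC ⟨a, j, M, κ⟩
    (Sum.elim (fun p => if p.2.2 then hi p.1 p.2.1 else lo p.1 p.2.1) c) (by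
      rintro (⟨l, i, b⟩ | l)
      · show (if b then hi l i else lo l i) ∈ N
        split
        · exact hhi l i
        · exact hlo l i
      · exact hcN l) (by
      refine ⟨⟨a, x⟩, x, rfl, hx, fun l => ?_⟩
      have h3 := hxC l
      rw [← hcon l] at h3
      exact h3)
  subst hz
  have hx'C' : ∀ l, x' l ∈ (Con h M (κ l) (lo l) (hi l) (c l) : Set (XX k g)) := by
    intro l
    rw [← hcon l]
    exact hx'C l
  have hIn : ∀ l, InN N (x' l) := by
    intro l
    refine t21_inN S (x' l) fun o => ?_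
    have h3 := hzN (l.1, o)
    unfold t21_c at h3
    rw [dif_pos (show l.1 < a from l.2)] at h3
    exact h3
  exact ⟨x', hx'E, hIn, fun l => hCV l (x' l) (hx'C' l) (hIn l)⟩

end Pool.Agent.H58C
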