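import Pool.Agent.Lib.H58C.TDefs

/-!
# T22: the basic open sets of the square of C_p(X)
-/

set_option autoImplicit false

open Set Filter Topology

namespace Pool.Agent.H58C

variable {Ω : Type} [LinearOrder Ω] {k : ℕ → Ω} {g h : Ω → ℕ → Ω}

theorem t22_cont {X : Type} [TopologicalSpace X] (b : Bool) (x : X) :
    Continuous fun z : CpX X × CpX X => (cond b z.1 z.2).1 x := by
  cases b
  · exact (continuous_apply x).comp (continuous_subtype_val.comp continuous_snd)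
  · exact (continuous_apply x).comp (continuous_subtype_val.comp continuous_fst)

theorem t22_rat {s : Set ℝ} {r : ℝ} (hs : IsOpen s) (hr : r ∈ s) : ∃ p q : ℚ, (p : ℝ) < r ∧ r < q ∧ ∀ u : ℝ, (p : ℝ) < u → u < q → u ∈ s := by
  obtain ⟨l, u, ⟨h1, h2⟩, h3⟩ := mem_nhds_iff_exists_Ioo_subset.1 (hs.mem_nhds hr)
  obtain ⟨p, hp1, hp2⟩ := exists_rat_btwn h1
  obtain ⟨q, hq1, hq2⟩ := exists_rat_btwn h2
  exact ⟨p, q, hp2, hq1, fun v hv1 hv2 => h3 ⟨hp1.trans hv1, hv2.trans hq2⟩⟩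

theorem t22_one {X : Type} {U : Set (X → ℝ)} (hU : IsOpen U) {f : X → ℝ} (hf : f ∈ U) :
    ∃ (l : Finset X) (p q : X → ℚ), (∀ x ∈ l, (p x : ℝ) < f x ∧ f x < q x) ∧
      ∀ v : X → ℝ, (∀ x ∈ l, (p x : ℝ) < v x ∧ v x < q x) → v ∈ U := by
  obtain ⟨l, w, h1, h2⟩ := isOpen_pi_iff.1 hU f hf
  have h3 : ∀ x, ∃ pq : ℚ × ℚ, x ∈ l → ((pq.1 : ℝ) < f x ∧ f x < pq.2) ∧ ∀ u : ℝ, (pq.1 : ℝ) < u → u < pq.2 → u ∈ w x := by
    intro x
    by_cases hx : x ∈ l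
    · obtain ⟨p, q, h4, h5, h6⟩ := t22_rat (h1 x hx).1 (h1 x hx).2
      exact ⟨(p, q), fun _ => ⟨⟨h4, h5⟩, h6⟩⟩
    · exact ⟨(0, 0), fun h => absurd h hx⟩
  choose pq hpq using h3
  exact ⟨l, fun x => (pq x).1, fun x => (pq x).2, fun x hx => (hpq x hx).1,
    fun v hv => h2 fun x hx => (hpq x hx).2 _ (hv x hx).1 (hv x hx).2⟩

theorem isOpen_BB {X : Type} [TopologicalSpace X] {a : ℕ} (x : Fin a → X)
    (t : Fin a → Bool × ℚ × ℚ) : IsOpen (BB x t) := by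
  have h : BB x t = ⋂ j, {z : CpX X × CpX X | ((t j).2.1 : ℝ) < (cond (t j).1 z.1 z.2).1 (x j) ∧
      (cond (t j).1 z.1 z.2).1 (x j) < ((t j).2.2 : ℝ)} := by
    ext z
    rw [mem_iInter]
    rfl
  rw [h]
  refine isOpen_iInter_of_finite fun j => ?_
  exact (isOpen_lt continuous_const (t22_cont _ _)).inter (isOpen_lt (t22_cont _ _) continuous_const)

/-- Proof. The topology of `CpX X × CpX X` is induced by the map to `(X → ℝ) × (X → ℝ)`. A neighbourhood of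
`z` contains the set of `w` with `w.1 ∈ U`, `w.2 ∈ U'`, where `U, U'` are given by finitely many points and open
sets of `ℝ` (`isOpen_pi_iff`), and each neighbourhood of a real number contains an interval with
rational end points (`exists_rat_btwn`). List the finitely many conditions
(`Finset.equivFin`, or `List.ofFn`; one may first prove the case of one condition and show that the
sets with the property contain finite intersections: `BB x t ∩ BB x' t'` is `BB` of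
`Fin.append x x'`). -/
theorem exists_BB {X : Type} [TopologicalSpace X] {O : Set (CpX X × CpX X)} (hO : IsOpen O)
    {z : CpX X × CpX X} (hz : z ∈ O) :
    ∃ (a : ℕ) (x : Fin a → X) (t : Fin a → Bool × ℚ × ℚ), z ∈ BB x t ∧ BB x t ⊆ O := by
  obtain ⟨u, v, hu, hv, hzu, hzv, huv⟩ := isOpen_prod_iff.1 hO z.1 z.2 hz
  obtain ⟨U, hU, rfl⟩ := isOpen_induced_iff.1 hu
  obtain ⟨W, hW, rfl⟩ := isOpen_induced_iff.1 hv
  obtain ⟨l1, p1, q1, h1, h2⟩ := t22_one hU hzu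
  obtain ⟨l2, p2, q2, h3, h4⟩ := t22_one hW hzv
  let e := Fintype.equivFin (l1 ⊕ l2)
  let F : l1 ⊕ l2 → X × (Bool × ℚ × ℚ) := fun s => match s with
    | Sum.inl s => (s.1, true, p1 s.1, q1 s.1)
    | Sum.inr s => (s.1, false, p2 s.1, q2 s.1)
  refine ⟨Fintype.card (l1 ⊕ l2), fun j => (F (e.symm j)).1, fun j => (F (e.symm j)).2, ?_, ?_⟩
  · intro j
    show (((F (e.symm j)).2.2.1 : ℚ) : ℝ) < (cond (F (e.symm j)).2.1 z.1 z.2).1 (F (e.symm j)).1 ∧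
      (cond (F (e.symm j)).2.1 z.1 z.2).1 (F (e.symm j)).1 < (((F (e.symm j)).2.2.2 : ℚ) : ℝ)
    rcases e.symm j with s | s
    · exact h1 s.1 s.2
    · exact h3 s.1 s.2
  · intro w hw
    refine huv (mem_prod.2 ⟨h2 _ fun x hx => ?_, h4 _ fun x hx => ?_⟩)
    · have h5 : (((F (e.symm (e (Sum.inl ⟨x, hx⟩)))).2.2.1 : ℚ) : ℝ) <
          (cond (F (e.symm (e (Sum.inl ⟨x, hx⟩)))).2.1 w.1 w.2).1 (F (e.symm (e (Sum.inl ⟨x, hx⟩)))).1 ∧
          (cond (F (e.symm (e (Sum.inl ⟨x, hx⟩)))).2.1 w.1 w.2).1 (F (e.symm (e (Sum.inl ⟨x, hx⟩)))).1 <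
            (((F (e.symm (e (Sum.inl ⟨x, hx⟩)))).2.2.2 : ℚ) : ℝ) := hw (e (Sum.inl ⟨x, hx⟩))
      rw [Equiv.symm_apply_apply] at h5
      exact h5
    · have h5 : (((F (e.symm (e (Sum.inr ⟨x, hx⟩)))).2.2.1 : ℚ) : ℝ) <
          (cond (F (e.symm (e (Sum.inr ⟨x, hx⟩)))).2.1 w.1 w.2).1 (F (e.symm (e (Sum.inr ⟨x, hx⟩)))).1 ∧
          (cond (F (e.symm (e (Sum.inr ⟨x, hx⟩)))).2.1 w.1 w.2).1 (F (e.symm (e (Sum.inr ⟨x, hx⟩)))).1 <
            (((F (e.symm (e (Sum.inr ⟨x, hx⟩)))).2.2.2 : ℚ) : ℝ) := hw (e (Sum.inr ⟨x, hx⟩))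
      rw [Equiv.symm_apply_apply] at h5
      exact h5

end Pool.Agent.H58C
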