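import Pool.Agent.Lib.H58C.T13
import Pool.Agent.Lib.H58C.T21
import Pool.Agent.Lib.H58C.T22

/-!
# T23: the square of F_d is Lindelöf
-/

set_option autoImplicit false

open Set Filter Topology

namespace Pool.Agent.H58C

variable {Ω : Type} [LinearOrder Ω] {k : ℕ → Ω} {g h : Ω → ℕ → Ω}

variable [WellFoundedLT Ω]

omit [WellFoundedLT Ω] in
/-- Preimages of open sets under continuous functions belong to the finer neighbourhood filters. -/
theorem t23_preimage_mem_nhX {F : XX k g → ℝ} (hF : Continuous F) (p : XX k g) {O : Set ℝ}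
    (hO : IsOpen O) (hp : F p ∈ O) : F ⁻¹' O ∈ nhX p := by
  cases p with
  | none => exact Filter.mem_pure.2 hp
  | some y =>
    have h1 : Tendsto (fun z : YY k g => F (XX.mk z)) (nh y) (𝓝 (F (XX.mk y))) :=
      (hF.tendsto (XX.mk y)).comp (tendsto_mk y)
    exact Filter.mem_map.2 (h1 (hO.mem_nhds hp))

open Classical in
/-- Points outside `Xd d` are replaced by the point at infinity. -/
noncomputable def t23_rep (k : ℕ → Ω) (g : Ω → ℕ → Ω) (d : Ω) (x : XX k g) : XX k g :=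
  if x ∈ Xd (k := k) (g := g) d then x else XX.oo

omit [WellFoundedLT Ω] in
theorem t23_oo_mem (d : Ω) : (XX.oo : XX k g) ∈ Xd (k := k) (g := g) d := by
  intro y hy
  exact absurd hy (by
    intro h0
    have h1 : (none : Option (YY k g)) = some y := h0
    exact Option.some_ne_none _ h1.symm)

omit [WellFoundedLT Ω] in
theorem t23_rep_mem (d : Ω) (x : XX k g) : t23_rep k g d x ∈ Xd (k := k) (g := g) d := by
  unfold t23_rep
  split_ifs with h1
  · exact h1
  · exact t23_oo_mem d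

omit [WellFoundedLT Ω] in
theorem t23_rep_eq (d : Ω) (x : XX k g) {F : CpX (XX k g)} (hF : F ∈ FD (k := k) (g := g) d) :
    F.1 (t23_rep k g d x) = F.1 x := by
  unfold t23_rep
  split_ifs with h1
  · rfl
  · have h2 : ∃ y : YY k g, x = XX.mk y ∧ ∃ r, Rk g y.1 r ∧ ¬ r < d := by
      by_contra h3
      push Not at h3
      exact h1 (fun y hy r hr => h3 y hy r hr)
    obtain ⟨y, hy, r, hr, hd⟩ := h2
    rw [hy]
    exact (hF y r hr (not_lt.1 hd)).symm

omit [WellFoundedLT Ω] in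
theorem t23_cond_mem {d : Ω} {z : CpX (XX k g) × CpX (XX k g)}
    (hz : z ∈ (FD d ×ˢ FD d : Set (CpX (XX k g) × CpX (XX k g)))) (b : Bool) :
    (cond b z.1 z.2) ∈ FD (k := k) (g := g) d := by
  cases b
  · exact hz.2
  · exact hz.1

omit [WellFoundedLT Ω] in
theorem t23_BB_rep {d : Ω} {z : CpX (XX k g) × CpX (XX k g)}
    (hz : z ∈ (FD d ×ˢ FD d : Set (CpX (XX k g) × CpX (XX k g)))) {a : ℕ} (x : Fin a → XX k g)
    (t : Fin a → Bool × ℚ × ℚ) :
    z ∈ BB (fun l => t23_rep k g d (x l)) t ↔ z ∈ BB x t := by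
  unfold BB
  constructor
  · intro h1 j
    have h2 := h1 j
    simp only [t23_rep_eq d (x j) (t23_cond_mem hz (t j).1)] at h2
    exact h2
  · intro h1 j
    have h2 := h1 j
    simp only [t23_rep_eq d (x j) (t23_cond_mem hz (t j).1)]
    exact h2

/-- Proof. `isLindelof_iff_countable_subcover`. Let `U i` (`i ∈ ι`) be an open cover of
`s = FD d ×ˢ FD d`. For `a` and `t : Fin a → Bool × ℚ × ℚ` let `E a t` be the set of `x : Fin a → XX k g` with all
`x l ∈ Xd d` such that for some `i`: `s ∩ BB x t ⊆ U i`. Let `N, H` be from `S.elem d E` (`J a = Fin a → Bool × ℚ × ℚ` is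
countable). The pairs `(t, x')` with `x' ∈ E a t` and all `x' l ∈ {x | InN N x}` form a countable set
(`countable_InN`, sigma over `a`); choose `i` for each. These `U i` cover `s`: let `z = (f, f') ∈ s`. By
`mem_FF_of_continuous` and `Sub.comp_mem` and `continuous_of_mem_FF` the pair `w = (f ∘ H.rX, f' ∘ H.rX)` is in
`s`, so in some `U i`; by `exists_BB`, `w ∈ BB x t ⊆ U i`. Replace every point `x l` which is not in `Xd d` by the
point at infinity: the functions of `s` have the same values at both (if `x l = XX.mk y` is not in `Xd d` then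
`y` has a rank `r ≥ d`); let `x''` be the new tuple. So `w ∈ BB x'' t`, `s ∩ BB x'' t ⊆ U i` and
`x'' ∈ E a t`. Let `V l` be the set of the points `p` with `q < F p < q'`, where `t l = (b, q, q')` and `F` is `f` if
`b = true` and `f'` otherwise (`cond`). As `w ∈ BB x'' t`, `H.rX (x'' l) ∈ V l`, and `V l ∈ nhX (H.rX (x'' l))` by
the continuity of `F` (`tendsto_mk` for points of `YY k g`, trivial for the point at infinity). So there is
`x' ∈ E a t` with `InN N (x' l)` and `x' l ∈ V l` for all `l`, that is `z ∈ BB x' t`. -/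
theorem isLindelof_FD (S : Scale k g h) (d : Ω) :
    IsLindelof ((FD d ×ˢ FD d : Set (CpX (XX k g) × CpX (XX k g)))) := by
  classical
  rw [isLindelof_iff_countable_subcover]
  intro ι U hU hcov
  obtain ⟨N, H, hdN, hN⟩ := S.elem d (J := fun a => Fin a → Bool × ℚ × ℚ)
    (fun a t => {x : Fin a → XX k g | (∀ l, x l ∈ Xd (k := k) (g := g) d) ∧
      ∃ i, (FD d ×ˢ FD d : Set (CpX (XX k g) × CpX (XX k g))) ∩ BB x t ⊆ U i})
    (fun a j x hx l => hx.1 l)
  have hch : ∀ (a : ℕ) (t : Fin a → Bool × ℚ × ℚ) (x : Fin a → XX k g),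
      (∃ i, (FD d ×ˢ FD d : Set (CpX (XX k g) × CpX (XX k g))) ∩ BB x t ⊆ U i) →
      ∃ i, (FD d ×ˢ FD d : Set (CpX (XX k g) × CpX (XX k g))) ∩ BB x t ⊆ U i :=
    fun a t x h1 => h1
  choose I hI using hch
  have hC : ∀ a : ℕ, {x : Fin a → XX k g | ∀ l, InN N (x l)}.Countable := by
    intro a
    have h1 := Set.countable_univ_pi (s := fun _ : Fin a => {x : XX k g | InN N x})
      (fun _ => countable_InN H.ctb)
    refine h1.mono ?_
    intro x hx
    exact fun l _ => hx l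
  refine ⟨⋃ (a : ℕ), ⋃ (t : Fin a → Bool × ℚ × ℚ), ⋃ x ∈ {x : Fin a → XX k g | ∀ l, InN N (x l)},
    ⋃ (hx : ∃ i, (FD d ×ˢ FD d : Set (CpX (XX k g) × CpX (XX k g))) ∩ BB x t ⊆ U i),
      {I a t x hx}, ?_, ?_⟩
  · refine Set.countable_iUnion fun a => Set.countable_iUnion fun t => ?_
    refine (hC a).biUnion fun x _ => ?_
    exact Set.countable_iUnion fun _ => Set.countable_singleton _
  · intro z hz
    have hf : ∀ F : CpX (XX k g), F ∈ FD (k := k) (g := g) d →
        Continuous (F.1 ∘ H.rX) ∧ ∀ (y : YY k g) (r : Ω), Rk g y.1 r → d ≤ r →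
        (F.1 ∘ H.rX) (XX.mk y) = (F.1 ∘ H.rX) XX.oo := by
      intro F hF
      have h1 := H.comp_mem hdN (mem_FF_of_continuous S F.2) hF
      exact ⟨continuous_of_mem_FF h1.1, h1.2⟩
    obtain ⟨hc1, hr1⟩ := hf z.1 hz.1
    obtain ⟨hc2, hr2⟩ := hf z.2 hz.2
    have hw : ((⟨z.1.1 ∘ H.rX, hc1⟩, ⟨z.2.1 ∘ H.rX, hc2⟩) : CpX (XX k g) × CpX (XX k g)) ∈
        (FD d ×ˢ FD d : Set (CpX (XX k g) × CpX (XX k g))) := ⟨hr1, hr2⟩
    obtain ⟨i, hi⟩ := Set.mem_iUnion.1 (hcov hw)
    obtain ⟨a, x, t, hwx, hBU⟩ := exists_BB (hU i) hi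
    have hwx' := (t23_BB_rep hw x t).2 hwx
    have hE : ∃ i, (FD d ×ˢ FD d : Set (CpX (XX k g) × CpX (XX k g))) ∩
        BB (fun l => t23_rep k g d (x l)) t ⊆ U i := by
      refine ⟨i, ?_⟩
      intro z' hz'
      exact hBU ((t23_BB_rep hz'.1 x t).1 hz'.2)
    obtain ⟨x', hx'E, hx'N, hx'V⟩ := hN a t (fun l => t23_rep k g d (x l))
      ⟨fun l => t23_rep_mem d (x l), hE⟩
      (fun l => (cond (t l).1 z.1 z.2).1 ⁻¹' (Set.Ioo ((t l).2.1 : ℝ) ((t l).2.2 : ℝ)))
      (by
        intro l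
        refine t23_preimage_mem_nhX (cond (t l).1 z.1 z.2).2 _ isOpen_Ioo ?_
        have h1 := hwx' l
        cases hb : (t l).1 with
        | false =>
          rw [hb] at h1
          exact h1
        | true =>
          rw [hb] at h1
          exact h1)
    refine Set.mem_iUnion₂.2 ⟨I a t x' hx'E.2, ?_, ?_⟩
    · refine Set.mem_iUnion.2 ⟨a, Set.mem_iUnion.2 ⟨t, Set.mem_iUnion₂.2 ⟨x', hx'N, ?_⟩⟩⟩
      exact Set.mem_iUnion.2 ⟨hx'E.2, rfl⟩
    · exact hI a t x' hx'E.2 ⟨hz, fun l => hx'V l⟩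

end Pool.Agent.H58C
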