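import Pool.Agent.Lib.H58C.TDefs

/-!
# T24: small types
-/

set_option autoImplicit false

open Set Filter Topology

namespace Pool.Agent.H58C

variable {Ω : Type} [LinearOrder Ω] {k : ℕ → Ω} {g h : Ω → ℕ → Ω}

/-- Proof: compose with the surjection. -/
theorem Sm.of_surjective {Q : Set Ω} {S S' : Type} (h : Sm Q S) (e : S → S')
    (he : Function.Surjective e) : Sm Q S' := by
  intro f hf
  obtain ⟨d, hd, hd'⟩ := h (fun s => f (e s)) (fun s => hf (e s))
  refine ⟨d, hd, fun s => ?_⟩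
  obtain ⟨t, rfl⟩ := he s
  exact hd' t

/-- Proof. Given `f` on the sigma type, for each `s` let `F s ∈ Q` be a strict bound of `f ⟨s, ·⟩`; take a strict
bound of `F`. -/
theorem Sm.sigma {Q : Set Ω} {S : Type} {T : S → Type} (h : Sm Q S) (h' : ∀ s, Sm Q (T s)) :
    Sm Q (Σ s, T s) := by
  intro f hf
  have key : ∀ s, ∃ d ∈ Q, ∀ t : T s, f ⟨s, t⟩ < d :=
    fun s => h' s (fun t => f ⟨s, t⟩) (fun t => hf _)
  choose F hFQ hF using key
  obtain ⟨d, hd, hd'⟩ := h F hFQ
  exact ⟨d, hd, fun x => (hF x.1 x.2).trans (hd' x.1)⟩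

theorem Sm.prod {Q : Set Ω} {S T : Type} (h : Sm Q S) (h' : Sm Q T) : Sm Q (S × T) := by
  exact (h.sigma (fun _ : S => h')).of_surjective (fun x => (x.1, x.2))
    (fun y => ⟨⟨y.1, y.2⟩, rfl⟩)

/-- Proof. Induction on `n` with `Fin.consEquiv` (or `Fin.cons` as a surjection from the product); for `n = 0`
the type has one element and `h0` applies. -/
theorem Sm.pi_fin {Q : Set Ω} (h0 : Sm Q Unit) {n : ℕ} (S : Fin n → Type) (h : ∀ a, Sm Q (S a)) :
    Sm Q (∀ a, S a) := by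
  induction n with
  | zero =>
    exact h0.of_surjective (fun _ a => a.elim0) (fun x => ⟨(), funext fun a => a.elim0⟩)
  | succ n ih =>
    exact ((h 0).prod (ih (fun a => S a.succ) (fun a => h a.succ))).of_surjective
      (fun x => Fin.cons x.1 x.2) (fun y => ⟨(y 0, Fin.tail y), Fin.cons_self_tail y⟩)

/-- Proof: reindex by an equivalence of `α` with `Fin n` (`Equiv.piCongrLeft`). -/
theorem Sm.pi {Q : Set Ω} (h0 : Sm Q Unit) {α : Type} [Finite α] (S : α → Type)
    (h : ∀ a, Sm Q (S a)) : Sm Q (∀ a, S a) := by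
  obtain ⟨n, ⟨e⟩⟩ := Finite.exists_equiv_fin α
  exact (Sm.pi_fin h0 (fun a => S (e.symm a)) (fun a => h _)).of_surjective
    (Equiv.piCongrLeft' S e).symm (Equiv.surjective _)

/-- Pigeonhole principle. Proof. Otherwise for each `s` there is `F s` such that no `v ∈ A` with `F s ≤ v` has
`f v = s`. By smallness `F s < d` for all `s`. Take `v ∈ A` with `d ≤ v`, and `s = f v`. -/
theorem Sm.pigeonhole {S : Type} (h : Sm (univ : Set Ω) S) {A : Set Ω} (hA : ∀ b, ∃ v ∈ A, b ≤ v)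
    (f : Ω → S) : ∃ s, ∀ b, ∃ v ∈ A, b ≤ v ∧ f v = s := by
  by_contra hcon
  push Not at hcon
  choose F hF using hcon
  obtain ⟨d, _, hd⟩ := h F (fun _ => mem_univ _)
  obtain ⟨v, hv, hdv⟩ := hA d
  exact hF (f v) v hv ((hd _).le.trans hdv) rfl

end Pool.Agent.H58C
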