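import Pool.Agent.Lib.H58C.T00
import Pool.Agent.Lib.H58C.T24

/-!
# T25: small types of the principle
-/

set_option autoImplicit false

open Set Filter Topology

namespace Pool.Agent.H58C

variable {Ω : Type} [LinearOrder Ω] {k : ℕ → Ω} {g h : Ω → ℕ → Ω}

/-- Proof: `S.bdd_seq` and a surjection from `ℕ` (if `C` is empty take any element, `Ω` is nonempty:
`k 0`). -/
theorem Scale.sm_countable (S : Scale k g h) (C : Type) [Countable C] : Sm (univ : Set Ω) C := by
  intro f _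
  rcases isEmpty_or_nonempty C with hC | hC
  · exact ⟨k 0, mem_univ _, fun s => (hC.false s).elim⟩
  · obtain ⟨e, he⟩ := exists_surjective_nat C
    obtain ⟨d, hd⟩ := S.bdd_seq (fun n => f (e n))
    exact ⟨d, mem_univ _, fun s => by obtain ⟨n, rfl⟩ := he s; exact hd n⟩

/-- Proof: `S.reg a` for the function extended by any value. -/
theorem Scale.sm_Iio (S : Scale k g h) (a : Ω) : Sm (univ : Set Ω) (Iio a) := by
  intro f _
  classical
  obtain ⟨d, hd⟩ := S.reg a (fun x => if hx : x < a then f ⟨x, hx⟩ else a)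
  refine ⟨d, mem_univ _, fun s => ?_⟩
  have h1 := hd s.1 s.2
  rwa [dif_pos (show s.1 < a from s.2)] at h1

/-- Proof: `S.bddN i`; for `C` empty take `g (k 0) i`. -/
theorem Scale.smk_countable (S : Scale k g h) (i : ℕ) (C : Type) [Countable C] : Sm (Iio (k i)) C := by
  intro f hf
  rcases isEmpty_or_nonempty C with hC | hC
  · exact ⟨g (k 0) i, S.gk _ _, fun s => (hC.false s).elim⟩
  · obtain ⟨e, he⟩ := exists_surjective_nat C
    obtain ⟨d, hd1, hd⟩ := S.bddN i (fun n => f (e n)) (fun n => hf _)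
    exact ⟨d, hd1, fun s => by obtain ⟨n, rfl⟩ := he s; exact hd n⟩

/-- Proof: `S.bdd m i` for the function extended by any value less than `k i` (`g (k 0) i`). -/
theorem Scale.smk_Iio (S : Scale k g h) {m i : ℕ} (hmi : m < i) : Sm (Iio (k i)) (Iio (k m)) := by
  intro f hf
  classical
  obtain ⟨d, hd1, hd⟩ := S.bdd m i hmi (fun x => if hx : x < k m then f ⟨x, hx⟩ else g (k 0) i) (fun x hx => by
    rw [dif_pos hx]
    exact hf _)
  refine ⟨d, hd1, fun s => ?_⟩
  have h1 := hd s.1 s.2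
  rwa [dif_pos (show s.1 < k m from s.2)] at h1

/-- families of stems of length `m` -/
def Stems (k : ℕ → Ω) (J : Type) (m : ℕ) : Type := {s : J → Fin m → Ω // ∀ j l, s j l < k l.1}

/-- Proof. `Stems k J m` is equivalent to the type of all functions `∀ a : J × Fin m, Iio (k a.2)`, and for `l < m`, `m ≤ i`,
`Sm (Iio (k i)) (Iio (k l))`: `Sm.pi` (with `S.smk_countable i Unit`) and `Sm.of_surjective`. -/
theorem Scale.smk_stems (S : Scale k g h) (J : Type) [Finite J] {m i : ℕ} (hmi : m ≤ i) :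
    Sm (Iio (k i)) (Stems k J m) := by
  have h1 : Sm (Iio (k i)) (∀ a : J × Fin m, Iio (k a.2.1)) :=
    Sm.pi (S.smk_countable i Unit) _ fun a => S.smk_Iio (a.2.2.trans_le hmi)
  exact h1.of_surjective (fun s => ⟨fun j l => (s (j, l)).1, fun j l => (s (j, l)).2⟩)
    fun s => ⟨fun a => ⟨s.1 a.1 a.2, s.2 a.1 a.2⟩, rfl⟩

/-- Proof: in the same way, `Sm.sigma` with `S.sm_countable ℕ`. -/
theorem Scale.sm_stems (S : Scale k g h) (J : Type) [Finite J] :
    Sm (univ : Set Ω) (Σ m, Stems k J m) := by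
  refine Sm.sigma (S.sm_countable ℕ) fun m => ?_
  have h1 : Sm (univ : Set Ω) (∀ a : J × Fin m, Iio (k a.2.1)) :=
    Sm.pi (S.sm_countable Unit) _ fun a => S.sm_Iio _
  exact h1.of_surjective (fun s => ⟨fun j l => (s (j, l)).1, fun j l => (s (j, l)).2⟩)
    fun s => ⟨fun a => ⟨s.1 a.1 a.2, s.2 a.1 a.2⟩, rfl⟩

/-- Sums of small types are small. -/
theorem Sm.sum {Q : Set Ω} {S T : Type} (h : Sm Q S) (h' : Sm Q T) : Sm Q (S ⊕ T) := by
  intro f hf
  obtain ⟨d, hd, h1⟩ := h (fun s => f (Sum.inl s)) fun s => hf _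
  obtain ⟨d', hd', h2⟩ := h' (fun s => f (Sum.inr s)) fun s => hf _
  refine ⟨max d d', ?_, ?_⟩
  · rcases max_choice d d' with e | e <;> rw [e] <;> assumption
  · rintro (s | s)
    · exact (h1 s).trans_le (le_max_left _ _)
    · exact (h2 s).trans_le (le_max_right _ _)

/-- Codes. -/
theorem Sm.of_rel {Q : Set Ω} {S S' : Type} (h : Sm Q S) (hQ : Q.Nonempty) (R : S → S' → Prop)
    (h1 : ∀ s', ∃ s, R s s') (h2 : ∀ s s' s'', R s s' → R s s'' → s' = s'') : Sm Q S' := by
  classical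
  intro f hf
  obtain ⟨q, hq⟩ := hQ
  obtain ⟨d, hd, h3⟩ := h (fun s => if hs : ∃ s', R s s' then f hs.choose else q) fun s => by
    by_cases hs : ∃ s', R s s'
    · rw [dif_pos hs]
      exact hf _
    · rw [dif_neg hs]
      exact hq
  refine ⟨d, hd, fun s' => ?_⟩
  obtain ⟨s, hs⟩ := h1 s'
  have hex : ∃ s', R s s' := ⟨s', hs⟩
  have h4 := h3 s
  rw [dif_pos hex, h2 s _ _ hex.choose_spec hs] at h4
  exact h4

/-- The codes of the points of `Xd d`. -/
def CodeR (k : ℕ → Ω) (g : Ω → ℕ → Ω) (d : Ω) :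
    Unit ⊕ ((Iio d × Σ m, Stems k Unit m) ⊕ Σ m, Stems k Unit m) → (Xd (k := k) (g := g) d : Set (XX k g)) → Prop
  | Sum.inl _, x => x.1 = XX.oo
  | Sum.inr (Sum.inl (r, ⟨m, s⟩)), x => ∃ y : YY k g, x.1 = XX.mk y ∧ (∀ i (hi : i < m), y.1 i = s.1 () ⟨i, hi⟩) ∧ ∀ i, m ≤ i → y.1 i = g r i
  | Sum.inr (Sum.inr ⟨m, s⟩), x => ∃ y : YY k g, x.1 = XX.mk y ∧ (∀ i (hi : i < m), y.1 i = s.1 () ⟨i, hi⟩) ∧ ∀ i, m ≤ i → y.1 i = k i

/-- Proof. The subtype `Xd d` is a surjective image of `Option (Iio d × Σ m, Stems k Unit m) ⊕ Σ m, Stems k Unit m`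
(all small): the point at infinity; a point of infinite length of rank `r < d` is given by `r`, some
`m` with `y i = g r i` for `i ≥ m`, and its values for `i < m`; a point of finite length by its values.
(To define the surjection: code ↦ some point of `Xd d` which fits the code if there is one, the point at
infinity otherwise; or prove first that it is enough to have an injection of `S'` into a small
nonempty type `S`.) -/
theorem Scale.sm_Xd (S : Scale k g h) (d : Ω) :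
    Sm (univ : Set Ω) (Xd (k := k) (g := g) d : Set (XX k g)) := by
  have h0 : Sm (univ : Set Ω) (Unit ⊕ ((Iio d × Σ m, Stems k Unit m) ⊕ Σ m, Stems k Unit m)) :=
    (S.sm_countable Unit).sum (((S.sm_Iio d).prod (S.sm_stems Unit)).sum (S.sm_stems Unit))
  refine h0.of_rel ⟨k 0, mem_univ _⟩ (CodeR k g d) ?_ ?_
  · rintro ⟨x, hx⟩
    rcases x with _ | y
    · exact ⟨Sum.inl (), rfl⟩
    · by_cases hy : ∀ i, y.1 i < k i
      · obtain ⟨r, hr⟩ := y.2.2.2.2 hy
        have hrd : r < d := hx y rfl r hr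
        obtain ⟨m, hm⟩ := eventually_atTop.1 hr
        exact ⟨Sum.inr (Sum.inl (⟨r, hrd⟩, ⟨m, ⟨fun _ l => y.1 l, fun _ l => hy l⟩⟩)), y, rfl, fun i hi => rfl, fun i hi => hm i hi⟩
      · have hy' : ∃ i, y.1 i = k i := by
          obtain ⟨i, hi⟩ := not_forall.1 hy
          exact ⟨i, le_antisymm (y.2.1 i) (not_lt.1 hi)⟩
        classical
        refine ⟨Sum.inr (Sum.inr ⟨Nat.find hy', ⟨fun _ l => y.1 l, fun _ l => ?_⟩⟩), y, rfl, fun i hi => rfl, fun i hi => y.2.2.2.1 _ (Nat.find_spec hy') i hi⟩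
        exact lt_of_le_of_ne (y.2.1 _) (Nat.find_min hy' l.2)
  · rintro (s | ⟨⟨r, m, s⟩ | ⟨m, s⟩⟩) ⟨x, hx⟩ ⟨x', hx'⟩ h1 h2
    · exact Subtype.ext (h1.trans h2.symm)
    · obtain ⟨y, e, h3, h4⟩ := h1
      obtain ⟨y', e', h3', h4'⟩ := h2
      refine Subtype.ext (e.trans (Eq.trans ?_ e'.symm))
      congr 1
      refine Subtype.ext (funext fun i => ?_)
      by_cases hi : i < m
      · rw [h3 i hi, h3' i hi]
      · rw [h4 i (not_lt.1 hi), h4' i (not_lt.1 hi)]
    · obtain ⟨y, e, h3, h4⟩ := h1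
      obtain ⟨y', e', h3', h4'⟩ := h2
      refine Subtype.ext (e.trans (Eq.trans ?_ e'.symm))
      congr 1
      refine Subtype.ext (funext fun i => ?_)
      by_cases hi : i < m
      · rw [h3 i hi, h3' i hi]
      · rw [h4 i (not_lt.1 hi), h4' i (not_lt.1 hi)]

end Pool.Agent.H58C
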