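import Pool.Agent.Lib.H58C.T25

/-!
# T26: the main combinatorial claim
-/

set_option autoImplicit false

open Set Filter Topology

namespace Pool.Agent.H58C

variable {Ω : Type} [LinearOrder Ω] {k : ℕ → Ω} {g h : Ω → ℕ → Ω}

/-- Claim (C).

Proof. Otherwise for each `m ≥ n` and each `s : Stems k J m` there are `E m s : ℕ → Ω` with `E m s i < k i` and
`β m s` such that there is no `v ∈ A` with `β m s ≤ v`, `w j v l = s j l` for all `j` and `l < m`, and
`E m s i ≤ w j v i` for all `j` and `i ≥ m` (the negated statement applied to `s` extended by anything; for `m < n` let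
`E`, `β` be arbitrary). For each `i` let `e i < k i` be a strict bound of all `E m s i`, `m ≤ i`,
`s : Stems k J m` (`Scale.smk_stems`, a finite maximum over `m ≤ i`, or `Sm.sigma` over `Fin (i + 1)`), and let `b` be a
bound of all `β m s` (`Scale.sm_stems`). By `S.dom` there is `x` with `e i ≤ g x i` for large `i`. Let `b' j` be
from `hr j x`, and take `v ∈ A` above `b` and all `b' j` (`J` finite). Then for some `m ≥ n` (finitely many `j`):
`e i ≤ g x i ≤ w j v i` for all `j` and `i ≥ m`. Let `s = w j v l` (`l < m`), a member of `Stems k J m` by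
`hw`. Then `E m s i < e i ≤ w j v i` for `i ≥ m` (as `m ≤ i`), `β m s ≤ b ≤ v`: contradiction. -/
theorem Scale.claimC (S : Scale k g h) {J : Type} [Finite J] {A : Set Ω} (hA : ∀ b, ∃ v ∈ A, b ≤ v)
    (w : J → Ω → ℕ → Ω) (hw : ∀ j, ∀ v ∈ A, ∀ i, w j v i < k i)
    (hr : ∀ j x, ∃ b, ∀ v ∈ A, b ≤ v → ∀ᶠ i in atTop, g x i ≤ w j v i) (n : ℕ) :
    ∃ m, n ≤ m ∧ ∃ s : J → ℕ → Ω, ∀ e : ℕ → Ω, (∀ i, e i < k i) → ∀ b, ∃ v ∈ A, b ≤ v ∧
      (∀ j, ∀ i < m, w j v i = s j i) ∧ ∀ j i, m ≤ i → e i ≤ w j v i := by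
  classical
  by_contra hcon
  push Not at hcon
  have h1 : ∀ (m : ℕ) (s : Stems k J m), ∃ (e : ℕ → Ω) (b : Ω), (∀ i, e i < k i) ∧
      (n ≤ m → ∀ v ∈ A, b ≤ v → (∀ j (l : Fin m), w j v l = s.1 j l) → ∃ j i, m ≤ i ∧ w j v i < e i) := by
    intro m s
    by_cases hm : n ≤ m
    · obtain ⟨e, he, b, hb⟩ := hcon m hm (fun j i => if hi : i < m then s.1 j ⟨i, hi⟩ else k 0)
      refine ⟨e, b, he, fun _ v hv hbv hs => hb v hv hbv fun j i hi => ?_⟩
      rw [dif_pos hi]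
      exact hs j ⟨i, hi⟩
    · exact ⟨fun i => g (k 0) i, k 0, fun i => S.gk _ _, fun h' => absurd h' hm⟩
  choose E B hE hB using h1
  have h2 : ∀ i : ℕ, ∃ e < k i, ∀ (p : Σ m : Fin (i + 1), Stems k J m), E p.1 p.2 i < e := by
    intro i
    have h3 : Sm (Iio (k i)) (Σ m : Fin (i + 1), Stems k J m) :=
      Sm.sigma (S.smk_countable i (Fin (i + 1))) fun m => S.smk_stems J (Nat.lt_succ_iff.1 m.2)
    obtain ⟨e, he, h4⟩ := h3 (fun p => E p.1 p.2 i) fun p => hE _ _ _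
    exact ⟨e, he, h4⟩
  choose e he1 he2 using h2
  obtain ⟨b, -, hb⟩ := S.sm_stems J (fun p => B p.1 p.2) fun _ => mem_univ _
  obtain ⟨x, hx⟩ := S.dom e he1
  choose b' hb' using fun j => hr j x
  have : Nonempty Ω := ⟨k 0⟩
  obtain ⟨b'', hb''⟩ := (Set.finite_range b').bddAbove
  obtain ⟨v, hvA, hv⟩ := hA (max b b'')
  have h3 : ∀ᶠ i in atTop, e i ≤ g x i ∧ ∀ j, g x i ≤ w j v i :=
    hx.and (eventually_all.2 fun j => hb' j v hvA (((hb'' ⟨j, rfl⟩).trans (le_max_right _ _)).trans hv))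
  obtain ⟨m, hm⟩ := eventually_atTop.1 (h3.and (eventually_ge_atTop n))
  obtain ⟨j, i, hi, hlt⟩ := hB m ⟨fun j l => w j v l, fun j l => hw j v hvA l⟩ (hm m le_rfl).2 v hvA
    (((hb ⟨m, ⟨fun j l => w j v l, fun j l => hw j v hvA l⟩⟩).le.trans (le_max_left _ _)).trans hv) fun j l => rfl
  have h5 := he2 i ⟨⟨m, Nat.lt_succ_of_le hi⟩, ⟨fun j l => w j v l, fun j l => hw j v hvA l⟩⟩
  exact absurd (h5.le.trans ((hm i hi).1.1.trans ((hm i hi).1.2 j))) (not_le.2 hlt)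

end Pool.Agent.H58C
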