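import Pool.Agent.Lib.H58C.T25

/-!
# T27: thinning out
-/

set_option autoImplicit false

open Set Filter Topology

namespace Pool.Agent.H58C

variable {Ω : Type} [LinearOrder Ω] {k : ℕ → Ω} {g h : Ω → ℕ → Ω}

/-- `w v` is a point of infinite length with rank tending to the end of `Ω` -/
def RankTends (k : ℕ → Ω) (g : Ω → ℕ → Ω) (A : Set Ω) (w : Ω → XX k g) : Prop :=
  (∀ v ∈ A, ∃ (y : YY k g) (r : Ω), w v = XX.mk y ∧ Rk g y.1 r) ∧
    ∀ x, ∃ b, ∀ v ∈ A, b ≤ v → ∀ (y : YY k g) (r : Ω), w v = XX.mk y → Rk g y.1 r → x < r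

theorem RankTends.mono {A A' : Set Ω} {w : Ω → XX k g} (h : RankTends k g A w) (hA : A' ⊆ A) :
    RankTends k g A' w := by
  refine ⟨fun v hv => h.1 v (hA hv), fun x => ?_⟩
  obtain ⟨b, hb⟩ := h.2 x
  exact ⟨b, fun v hv => hb v (hA hv)⟩

theorem t27_unique (S : Scale k g h) {y : ℕ → Ω} {r r' : Ω} (h1 : Rk g y r) (h2 : Rk g y r') :
    r = r' := by
  rcases lt_trichotomy r r' with hlt | heq | hlt
  · obtain ⟨i, hi1, hi2, hi3⟩ := ((S.inc r r' hlt).and (h1.and h2)).exists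
    exact absurd hi1 (by rw [← hi2, ← hi3]; exact lt_irrefl _)
  · exact heq
  · obtain ⟨i, hi1, hi2, hi3⟩ := ((S.inc r' r hlt).and (h1.and h2)).exists
    exact absurd hi1 (by rw [← hi2, ← hi3]; exact lt_irrefl _)

/-- Proof. Suppose that for some `d` the set of `v ∈ A` with `w v ∈ Xd d` is unbounded. As `Xd d` is small
(`Scale.sm_Xd`) the pigeonhole principle gives an unbounded subset on which `w` is constant. Otherwise
let `A'` be the set of `v ∈ A` with `w v ∉ Xd (k 0)`; it is unbounded, its `w v` are points `XX.mk y` with a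
rank, and for each `x` the set of `v ∈ A` with `w v ∈ Xd x'` is bounded, where `x < x'`
(`S.exists_gt'`); for `v` above the bound the rank is not less than `x'` (ranks are unique,
`Rk.unique`, if needed). -/
theorem Scale.thin_one (S : Scale k g h) {A : Set Ω} (hA : ∀ b, ∃ v ∈ A, b ≤ v) (w : Ω → XX k g) :
    ∃ A' ⊆ A, (∀ b, ∃ v ∈ A', b ≤ v) ∧ ((∃ x, ∀ v ∈ A', w v = x) ∨ RankTends k g A' w) := by
  classical
  by_cases hc : ∃ d, ∀ b, ∃ v ∈ A, b ≤ v ∧ w v ∈ (Xd d : Set (XX k g))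
  · obtain ⟨d, hd⟩ := hc
    have hoo : (XX.oo : XX k g) ∈ (Xd d : Set (XX k g)) := by
      intro y hy
      exact absurd hy.symm (Option.some_ne_none y)
    let f : Ω → (Xd (k := k) (g := g) d : Set (XX k g)) := fun v =>
      if hv : w v ∈ (Xd d : Set (XX k g)) then ⟨w v, hv⟩ else ⟨XX.oo, hoo⟩
    have hA1 : ∀ b, ∃ v ∈ {v | v ∈ A ∧ w v ∈ (Xd d : Set (XX k g))}, b ≤ v := by
      intro b
      obtain ⟨v, hv, hb, hw⟩ := hd b
      exact ⟨v, ⟨hv, hw⟩, hb⟩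
    obtain ⟨s, hs⟩ := (S.sm_Xd d).pigeonhole hA1 f
    refine ⟨{v | (v ∈ A ∧ w v ∈ (Xd d : Set (XX k g))) ∧ f v = s}, fun v hv => hv.1.1, ?_, Or.inl ⟨s.1, ?_⟩⟩
    · intro b
      obtain ⟨v, hv, hb, hf⟩ := hs b
      exact ⟨v, ⟨hv, hf⟩, hb⟩
    · rintro v ⟨⟨hvA, hvX⟩, hf⟩
      rw [← hf]
      show w v = (f v).1
      simp only [f]
      rw [dif_pos hvX]
  · have hc' : ∀ d, ∃ b, ∀ v ∈ A, b ≤ v → w v ∉ (Xd d : Set (XX k g)) := by
      intro d
      by_contra hcon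
      apply hc
      refine ⟨d, fun b => ?_⟩
      by_contra hb
      apply hcon
      refine ⟨b, fun v hv hbv hwv => hb ⟨v, hv, hbv, hwv⟩⟩
    have key : ∀ (d : Ω) (x : XX k g), x ∉ (Xd d : Set (XX k g)) →
        ∃ (y : YY k g) (r : Ω), x = XX.mk y ∧ Rk g y.1 r ∧ ¬ r < d := by
      intro d x hx
      by_contra hcon
      apply hx
      intro y hy r hr
      by_contra hlt
      exact hcon ⟨y, r, hy, hr, hlt⟩
    refine ⟨{v | v ∈ A ∧ w v ∉ (Xd (k 0) : Set (XX k g))}, fun v hv => hv.1, ?_, Or.inr ⟨?_, ?_⟩⟩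
    · intro b
      obtain ⟨b0, hb0⟩ := hc' (k 0)
      obtain ⟨v, hv, hbv⟩ := hA (max b b0)
      exact ⟨v, ⟨hv, hb0 v hv ((le_max_right _ _).trans hbv)⟩, (le_max_left _ _).trans hbv⟩
    · rintro v ⟨-, hv⟩
      obtain ⟨y, r, h1, h2, -⟩ := key _ _ hv
      exact ⟨y, r, h1, h2⟩
    · intro x
      obtain ⟨x', hx'⟩ := S.exists_gt' x
      obtain ⟨b, hb⟩ := hc' x'
      refine ⟨b, ?_⟩
      rintro v ⟨hvA, -⟩ hbv y r hy hr
      obtain ⟨y', r', h1, h2, h3⟩ := key _ _ (hb v hvA hbv)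
      have hyy : y = y' := Option.some_injective _ (hy.symm.trans h1)
      subst hyy
      have := t27_unique S hr h2
      subst this
      exact hx'.trans_le (not_lt.1 h3)

/-- Proof. Induction on `a` (or on a finite set of indices), with `Scale.thin_one` and
`RankTends.mono`. -/
theorem Scale.thin (S : Scale k g h) {A : Set Ω} (hA : ∀ b, ∃ v ∈ A, b ≤ v) {a : ℕ}
    (w : Ω → Fin a → XX k g) :
    ∃ A' ⊆ A, (∀ b, ∃ v ∈ A', b ≤ v) ∧
      ∀ j, (∃ x, ∀ v ∈ A', w v j = x) ∨ RankTends k g A' (fun v => w v j) := by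
  classical
  have main : ∀ s : Finset (Fin a), ∃ A' ⊆ A, (∀ b, ∃ v ∈ A', b ≤ v) ∧
      ∀ j ∈ s, (∃ x, ∀ v ∈ A', w v j = x) ∨ RankTends k g A' (fun v => w v j) := by
    intro s
    induction s using Finset.induction_on with
    | empty => exact ⟨A, Subset.rfl, hA, fun j hj => absurd hj (Finset.notMem_empty j)⟩
    | insert j s _ ih =>
      obtain ⟨A', h1, h2, h3⟩ := ih
      obtain ⟨A'', g1, g2, g3⟩ := S.thin_one h2 (fun v => w v j)
      refine ⟨A'', g1.trans h1, g2, fun i hi => ?_⟩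
      rcases Finset.mem_insert.1 hi with rfl | hi
      · exact g3
      · rcases h3 i hi with ⟨x, hx⟩ | hr
        · exact Or.inl ⟨x, fun v hv => hx v (g1 hv)⟩
        · exact Or.inr (hr.mono g1)
  obtain ⟨A', h1, h2, h3⟩ := main Finset.univ
  exact ⟨A', h1, h2, fun j => h3 j (Finset.mem_univ j)⟩

end Pool.Agent.H58C
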