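import Pool.Agent.Lib.H58C.T08
import Pool.Agent.Lib.H58C.T26
import Pool.Agent.Lib.H58C.T27

/-!
# T28: the separation lemma
-/

set_option autoImplicit false

open Set Filter Topology

namespace Pool.Agent.H58C

variable {Ω : Type} [LinearOrder Ω] {k : ℕ → Ω} {g h : Ω → ℕ → Ω}

/-- the coordinates of a point (the point at infinity is given the coordinates `k`) -/
def t28_val (x : XX k g) : ℕ → Ω :=
  match x with
  | some y => y.1
  | none => k

theorem t28_val_mk (y : YY k g) : t28_val (XX.mk y) = y.1 := rfl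

theorem t28_UU_mono (y b : ℕ → Ω) {n n' : ℕ} (hn : n ≤ n') : UU k y b n' ⊆ UU k y b n :=
  fun _ hz => ⟨hz.1, fun i hi => hz.2.1 i (hi.trans_le hn), hz.2.2⟩

/-- Proof. Take `A'` from `Scale.thin` for `A = univ`. Let `J` be the type of the indices `j : Fin a` which
are not of the first kind, so `RankTends`. For `u ∈ A'` and `j ∈ J` write `w u j = XX.mk (y u j)`; there are
`b, n` with `UU k (y u j).1 b n` contained in the preimage of `V u j` (`mem_nh`, `nhX`); let `N u` be the maximum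
of these `n` over `j ∈ J` (if `n ≤ n'` then `UU k y b n' ⊆ UU k y b n`). By the pigeonhole principle
(`S.sm_countable ℕ`) there is an unbounded `A'' ⊆ A'` with `N u = n` for `u ∈ A''`. Apply `S.claimC` to `A''`,
to the values `w j v i = (y v j).1 i` (`< k i` by `Rk.lt_k`), with `hr` from `RankTends`: if `x < r` then
`g x i < g r i = (y v j).1 i` for large `i`. This gives `m ≥ n` and `s`. Take `e i = g (k 0) i`: there is
`v ∈ A''` with `(y v j).1 i = s j i` for `i < m`. Given `b` take `e i < k i` an upper bound of the finitely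
many `(y v j).1 i`, `j ∈ J` (and `g (k 0) i`): there is `u ∈ A''`, `b ≤ u`, with `(y u j).1 i = s j i` for `i < m` and
`(y v j).1 i ≤ (y u j).1 i` for `i ≥ m`. Then `(y v j).1 ∈ UU k (y u j).1 b' n` for all `b'`: for
`i < n ≤ m` the values agree; third clause: `(y u j).1 i < k i` for all `i`. So `w v j ∈ V u j` for
`j ∈ J`. For the other `j`, `w v j = w u j ∈ V u j` (`mem_of_mem_nhX`). -/
theorem Scale.separation (S : Scale k g h) {a : ℕ} (w : Ω → Fin a → XX k g)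
    (V : Ω → Fin a → Set (XX k g)) {A : Set Ω} (hA : ∀ b, ∃ v ∈ A, b ≤ v)
    (hV : ∀ v ∈ A, ∀ j, V v j ∈ nhX (w v j)) :
    ∃ v ∈ A, ∀ b, ∃ u ∈ A, b ≤ u ∧ ∀ j, w v j ∈ V u j := by
  classical
  obtain ⟨A', hA'A, hA', hthin⟩ := S.thin hA w
  let J : Type := {j : Fin a // RankTends k g A' (fun v => w v j)}
  have hJ : Finite J := inferInstance
  have hnb : ∀ u, ∃ n : ℕ, u ∈ A' → ∀ j : J, ∃ b : ℕ → Ω, ∀ z : YY k g,
      z.1 ∈ UU k (t28_val (w u j.1)) b n → XX.mk z ∈ V u j.1 := by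
    intro u
    by_cases hu : u ∈ A'
    · have h1 : ∀ j : J, ∃ n : ℕ, ∃ b : ℕ → Ω, ∀ z : YY k g,
          z.1 ∈ UU k (t28_val (w u j.1)) b n → XX.mk z ∈ V u j.1 := by
        intro j
        obtain ⟨y, r, hy, -⟩ := j.2.1 u hu
        have hVj := hV u (hA'A hu) j.1
        have hy' : w u j.1 = XX.mk y := hy
        rw [hy'] at hVj
        obtain ⟨b, n, hbn⟩ := mem_nh.1 (show XX.mk ⁻¹' (V u j.1) ∈ nh y from hVj)
        refine ⟨n, b, fun z hz => ?_⟩
        rw [hy', t28_val_mk] at hz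
        exact hbn z hz
      choose N hN using h1
      obtain ⟨n, hn⟩ := Finite.exists_le N
      refine ⟨n, fun _ j => ?_⟩
      obtain ⟨b, hb⟩ := hN j
      exact ⟨b, fun z hz => hb z (t28_UU_mono _ _ (hn j) hz)⟩
    · exact ⟨0, fun h => absurd h hu⟩
  choose N hN using hnb
  obtain ⟨n, hn⟩ := (S.sm_countable ℕ).pigeonhole hA' N
  have hA'' : ∀ b, ∃ v ∈ {v | v ∈ A' ∧ N v = n}, b ≤ v := by
    intro b
    obtain ⟨v, hv, hb, hf⟩ := hn b
    exact ⟨v, ⟨hv, hf⟩, hb⟩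
  have hw : ∀ (j : J), ∀ v ∈ {v | v ∈ A' ∧ N v = n}, ∀ i, t28_val (w v j.1) i < k i := by
    rintro j v ⟨hv, -⟩ i
    obtain ⟨y, r, hy, hr⟩ := j.2.1 v hv
    have hy' : w v j.1 = XX.mk y := hy
    rw [hy', t28_val_mk]
    exact Rk.lt_k S y.2 hr i
  obtain ⟨m, hnm, s, hs⟩ := S.claimC (J := J) hA'' (fun j v => t28_val (w v j.1)) hw (by
    intro j x
    obtain ⟨b, hb⟩ := j.2.2 x
    refine ⟨b, ?_⟩
    rintro v ⟨hv, -⟩ hbv
    obtain ⟨y, r, hy, hr⟩ := j.2.1 v hv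
    have hxr := hb v hv hbv y r hy hr
    have hy' : w v j.1 = XX.mk y := hy
    filter_upwards [S.inc x r hxr, hr] with i h1 h2
    show g x i ≤ t28_val (w v j.1) i
    rw [hy', t28_val_mk, h2]
    exact h1.le) n
  obtain ⟨v, ⟨hvA', hvn⟩, -, hv1, -⟩ := hs (fun i => g (k 0) i) (fun i => S.gk _ i) (k 0)
  refine ⟨v, hA'A hvA', fun b => ?_⟩
  have he : ∀ i, ∃ e : Ω, e < k i ∧ ∀ j : J, t28_val (w v j.1) i ≤ e := by
    intro i
    have : Nonempty (Iio (k i)) := ⟨⟨g (k 0) i, S.gk _ i⟩⟩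
    obtain ⟨e, he⟩ := Finite.exists_le (fun j : J => (⟨t28_val (w v j.1) i, hw j v ⟨hvA', hvn⟩ i⟩ : Iio (k i)))
    exact ⟨e.1, e.2, fun j => he j⟩
  choose e he1 he2 using he
  obtain ⟨u, ⟨huA', hun⟩, hbu, hu1, hu2⟩ := hs e he1 b
  refine ⟨u, hA'A huA', hbu, fun j => ?_⟩
  rcases hthin j with ⟨x, hx⟩ | hj
  · rw [hx v hvA', ← hx u huA']
    exact mem_of_mem_nhX (hV u (hA'A huA') j)
  · obtain ⟨b', hb'⟩ := hN u huA' ⟨j, hj⟩
    rw [hun] at hb'
    obtain ⟨yv, rv, hyv, hrv⟩ := hj.1 v hvA'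
    obtain ⟨yu, ru, hyu, hru⟩ := hj.1 u huA'
    have hyv' : w v j = XX.mk yv := hyv
    have hyu' : w u j = XX.mk yu := hyu
    rw [hyv']
    refine hb' yv ?_
    show yv.1 ∈ UU k (t28_val (w u j)) b' n
    rw [hyu', t28_val_mk]
    have hltv : ∀ i, yv.1 i < k i := Rk.lt_k S yv.2 hrv
    have hltu : ∀ i, yu.1 i < k i := Rk.lt_k S yu.2 hru
    have heq : ∀ i, i < m → yv.1 i = yu.1 i := by
      intro i hi
      have e1 := hv1 ⟨j, hj⟩ i hi
      have e2 := hu1 ⟨j, hj⟩ i hi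
      have e3 : t28_val (w v j) i = s ⟨j, hj⟩ i := e1
      have e4 : t28_val (w u j) i = s ⟨j, hj⟩ i := e2
      rw [hyv', t28_val_mk] at e3
      rw [hyu', t28_val_mk] at e4
      rw [e3, e4]
    have hle : ∀ i, yv.1 i ≤ yu.1 i := by
      intro i
      rcases lt_or_ge i m with hi | hi
      · exact (heq i hi).le
      · have e1 : e i ≤ t28_val (w u j) i := hu2 ⟨j, hj⟩ i hi
        have e2 : t28_val (w v j) i ≤ e i := he2 i ⟨j, hj⟩
        rw [hyv', t28_val_mk] at e2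
        rw [hyu', t28_val_mk] at e1
        exact e2.trans e1
    refine ⟨fun i _ => hle i, fun i hi _ => ⟨hltv i, fun hb => ?_⟩, fun _ i _ => hltu i⟩
    rw [heq i (hi.trans_le hnm)]
    exact hb

end Pool.Agent.H58C
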