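import Pool.Agent.Lib.H58C.T13
import Pool.Agent.Lib.H58C.T22
import Pool.Agent.Lib.H58C.T28

/-!
# T29: discrete sets
-/

set_option autoImplicit false

open Set Filter Topology

namespace Pool.Agent.H58C

variable {Ω : Type} [LinearOrder Ω] {k : ℕ → Ω} {g h : Ω → ℕ → Ω}

/-- Every continuous function is in some `FD d`. Proof: `mem_FF_of_continuous`. -/
theorem exists_mem_FD (S : Scale k g h) (f : CpX (XX k g)) : ∃ d : Ω, f ∈ FD (k := k) (g := g) d :=
  (mem_FF_of_continuous S f.2).2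

theorem FD_mono {d d' : Ω} (hd : d ≤ d') : (FD d : Set (CpX (XX k g))) ⊆ FD d' :=
  fun _ hf y r hr hdr => hf y r hr (hd.trans hdr)

theorem t29_nhX_le (x : XX k g) : nhX x ≤ 𝓝 x := by
  rcases x with _ | y
  · exact pure_le_nhds _
  · exact tendsto_mk y

/-- Every discrete subset of the square is contained in the square of some `FD d`.

Proof. Otherwise choose for each `v : Ω` a pair `z v ∈ D` which is not in `FD v ×ˢ FD v`. As `D` is
discrete there is an open set `O v` with `O v ∩ D = {z v}`, and by `exists_BB` there are `a v`, `x v`, `t v` with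
`z v ∈ BB (x v) (t v) ⊆ O v`. The type of pairs `(a, t : Fin a → Bool × ℚ × ℚ)` is countable, so small
(`S.sm_countable`); by the pigeonhole principle there are `a, t` and an unbounded `A` with
`(a v, t v) = (a, t)` for `v ∈ A`. For `v ∈ A`, `j : Fin a` let `V v j` be the set of the points `p` with
`q < F p < q'`, where `t j = (b, q, q')` and `F = cond b (z v).1 (z v).2`; by continuity it is in
`nhX (x v j)` (`tendsto_mk`; trivial at infinity). By `S.separation` there is `v ∈ A` such that for all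
`b` there is `u ∈ A`, `b ≤ u`, with `x v j ∈ V u j` for all `j`, that is `z u ∈ BB (x v) t ⊆ O v`, so
`z u = z v`. Let `b` be such that `z v ∈ FD b ×ˢ FD b` (`exists_mem_FD`, `FD_mono`, maximum): then
`z u = z v ∈ FD b ×ˢ FD b ⊆ FD u ×ˢ FD u`, contradiction. (`Ω` is nonempty: `k 0`.) -/
theorem Scale.discrete_subset (S : Scale k g h) {D : Set (CpX (XX k g) × CpX (XX k g))}
    (hD : DiscreteTopology D) : ∃ d : Ω, D ⊆ (FD d ×ˢ FD d : Set (CpX (XX k g) × CpX (XX k g))) := by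
  by_contra hcon
  push Not at hcon
  have h1 : ∀ v : Ω, ∃ z ∈ D, z ∉ (FD v ×ˢ FD v : Set (CpX (XX k g) × CpX (XX k g))) := fun v =>
    Set.not_subset.mp (hcon v)
  choose z hzD hz using h1
  have h2 : ∀ v : Ω, ∃ O : Set (CpX (XX k g) × CpX (XX k g)), IsOpen O ∧ z v ∈ O ∧
      ∀ w ∈ D, w ∈ O → w = z v := by
    intro v
    obtain ⟨O, hO, hOz⟩ := isOpen_induced_iff.mp
      (isOpen_discrete ({⟨z v, hzD v⟩} : Set D))
    refine ⟨O, hO, ?_, ?_⟩
    · have : (⟨z v, hzD v⟩ : D) ∈ Subtype.val ⁻¹' O := by rw [hOz]; exact mem_singleton _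
      exact this
    · intro w hw hwO
      have : (⟨w, hw⟩ : D) ∈ Subtype.val ⁻¹' O := hwO
      rw [hOz, mem_singleton_iff] at this
      exact congrArg Subtype.val this
  choose O hO hzO hOD using h2
  have h3 : ∀ v : Ω, ∃ s : (Σ a : ℕ, Fin a → Bool × ℚ × ℚ), ∃ x' : Fin s.1 → XX k g,
      z v ∈ BB x' s.2 ∧ BB x' s.2 ⊆ O v := by
    intro v
    obtain ⟨a, x, t, h4, h5⟩ := exists_BB (hO v) (hzO v)
    exact ⟨⟨a, t⟩, x, h4, h5⟩
  choose s hs using h3
  obtain ⟨s0, hs0⟩ := (S.sm_countable (Σ a : ℕ, Fin a → Bool × ℚ × ℚ)).pigeonhole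
    (A := univ) (fun b => ⟨b, mem_univ _, le_rfl⟩) s
  have h6 : ∀ v : Ω, ∃ x' : Fin s0.1 → XX k g, s v = s0 → z v ∈ BB x' s0.2 ∧ BB x' s0.2 ⊆ O v := by
    intro v
    by_cases hv : s v = s0
    · have h7 := hs v
      rw [hv] at h7
      obtain ⟨x', h8⟩ := h7
      exact ⟨x', fun _ => h8⟩
    · exact ⟨fun _ => XX.oo, fun h => absurd h hv⟩
  choose w hw using h6
  obtain ⟨v, hvA, hv⟩ := S.separation (a := s0.1) w
    (fun v j => {p | ((s0.2 j).2.1 : ℝ) < (cond (s0.2 j).1 (z v).1 (z v).2).1 p ∧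
      (cond (s0.2 j).1 (z v).1 (z v).2).1 p < ((s0.2 j).2.2 : ℝ)})
    (A := {v | s v = s0})
    (fun b => by
      obtain ⟨v, -, h8, h9⟩ := hs0 b
      exact ⟨v, h9, h8⟩)
    (by
      intro v hv j
      apply t29_nhX_le
      have h8 := (hw v hv).1 j
      have hc : Continuous (cond (s0.2 j).1 (z v).1 (z v).2).1 := (cond (s0.2 j).1 (z v).1 (z v).2).2
      exact ((isOpen_lt continuous_const hc).inter (isOpen_lt hc continuous_const)).mem_nhds h8)
  obtain ⟨d1, hd1⟩ := exists_mem_FD S (z v).1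
  obtain ⟨d2, hd2⟩ := exists_mem_FD S (z v).2
  obtain ⟨u, huA, hbu, hu⟩ := hv (max d1 d2)
  have h10 : z u ∈ BB (w v) s0.2 := fun j => hu j
  have h11 : z u = z v := hOD v (z u) (hzD u) ((hw v hvA).2 h10)
  apply hz u
  rw [h11]
  exact ⟨FD_mono ((le_max_left _ _).trans hbu) hd1, FD_mono ((le_max_right _ _).trans hbu) hd2⟩

end Pool.Agent.H58C
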