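import Pool.Agent.Lib.H58C.T12
import Pool.Agent.Lib.H58C.T15
import Pool.Agent.Lib.H58C.T23
import Pool.Agent.Lib.H58C.T29

/-!
# T30: the counterexample
-/

set_option autoImplicit false

open Set Filter Topology

namespace Pool.Agent.H58C

variable {Ω : Type} [LinearOrder Ω] {k : ℕ → Ω} {g h : Ω → ℕ → Ω}

/-- Proof: an intersection of closed conditions `f (XX.mk y) = f XX.oo`. -/
theorem isClosed_FD (d : Ω) : IsClosed (FD d : Set (CpX (XX k g))) := by
  have h1 : (FD d : Set (CpX (XX k g))) =
      ⋂ (y : YY k g) (r : Ω) (_ : Rk g y.1 r) (_ : d ≤ r),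
        {f : CpX (XX k g) | f.1 (XX.mk y) = f.1 XX.oo} := by
    ext f
    simp only [mem_iInter]
    exact Iff.rfl
  rw [h1]
  refine isClosed_iInter fun y => isClosed_iInter fun r => isClosed_iInter fun _ =>
    isClosed_iInter fun _ => ?_
  exact isClosed_eq ((continuous_apply (XX.mk y)).comp continuous_subtype_val)
    ((continuous_apply XX.oo).comp continuous_subtype_val)

/-- The guessing scale principle implies the negation of Q1.

Proof. `X = XX k g`: `t35Space_XX`, `not_lindelof`. If `D` is discrete then it is contained in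
`FD d ×ˢ FD d` for some `d` (`Scale.discrete_subset`), which is closed and Lindelöf, so its closure is a closed
subset of a Lindelöf set (`IsLindelof.of_isClosed_subset`). -/
theorem Scale.counterexample [WellFoundedLT Ω] (S : Scale k g h) :
    ∃ (X : Type) (_ : TopologicalSpace X), T35Space X ∧
      (∀ D : Set ({f : X → ℝ // Continuous f} × {f : X → ℝ // Continuous f}),
        DiscreteTopology D → IsLindelof (closure D)) ∧
      ¬ LindelofSpace {f : X → ℝ // Continuous f} := by
  refine ⟨XX k g, instTopXX k g, t35Space_XX S, ?_, not_lindelof S⟩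
  intro D hD
  obtain ⟨d, hd⟩ := S.discrete_subset hD
  have hcl : IsClosed ((FD d ×ˢ FD d : Set (CpX (XX k g) × CpX (XX k g)))) :=
    (isClosed_FD d).prod (isClosed_FD d)
  exact (isLindelof_FD S d).of_isClosed_subset isClosed_closure (closure_minimal hd hcl)

end Pool.Agent.H58C
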