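import Pool.Agent.Lib.H58C.Scale

/-!
# The space `XX k g` (H58C, topological part): definitions

A point of `YY k g` is a function `y : ℕ → Ω` with `y i ≤ k i`; the set `{i : y i < k i}` is an initial
segment of `ℕ` (its length is the length of the point), the values below `k i` are tame, and if
the length is infinite, `y` is eventually equal to some `g r` (`Rk g y r`: the rank of `y` is `r`).
`XX k g = YY k g ∪ {none}`.
-/

set_option autoImplicit false

open Set Filter Topology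

namespace Pool.Agent.H58C

section Defs

variable {Ω : Type} [LinearOrder Ω]

/-- `y` is eventually equal to `g r` -/
def Rk (g : Ω → ℕ → Ω) (y : ℕ → Ω) (r : Ω) : Prop := ∀ᶠ i in atTop, y i = g r i

/-- the points -/
def IsPt (k : ℕ → Ω) (g : Ω → ℕ → Ω) (y : ℕ → Ω) : Prop :=
  (∀ i, y i ≤ k i) ∧ (∀ i, y i < k i → Tame (y i)) ∧
    (∀ i, y i = k i → ∀ j, i ≤ j → y j = k j) ∧ ((∀ i, y i < k i) → ∃ r, Rk g y r)

/-- the set of points -/
def YY (k : ℕ → Ω) (g : Ω → ℕ → Ω) : Type := {y : ℕ → Ω // IsPt k g y}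

/-- basic neighbourhoods: `z` has the length of `y` if this is finite, at least `m` otherwise,
`z ≤ y` below the length of `z`, and `z i` is in the left neighbourhood `(b i, y i]` for `i < m` -/
def UU (k : ℕ → Ω) (y b : ℕ → Ω) (m : ℕ) : Set (ℕ → Ω) :=
  {z | (∀ i, z i < k i → z i ≤ y i) ∧ (∀ i < m, y i < k i → z i < k i ∧ (b i < y i → b i < z i)) ∧
    ((∃ j, y j = k j) → ∀ i, z i < k i → y i < k i)}

/-- the neighbourhood filter of a point of `YY k g` -/
def nh {k : ℕ → Ω} {g : Ω → ℕ → Ω} (y : YY k g) : Filter (YY k g) :=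
  ⨅ (b : ℕ → Ω) (m : ℕ), 𝓟 {z | z.1 ∈ UU k y.1 b m}

/-- the space, as a set -/
def XX (k : ℕ → Ω) (g : Ω → ℕ → Ω) : Type := Option (YY k g)

/-- The points of `YY k g` as points of `XX k g`. -/
def XX.mk {k : ℕ → Ω} {g : Ω → ℕ → Ω} (y : YY k g) : XX k g := some y

/-- the point at infinity -/
def XX.oo {k : ℕ → Ω} {g : Ω → ℕ → Ω} : XX k g := (none : Option (YY k g))

/-- the functions which will be the continuous functions -/
def FF (k : ℕ → Ω) (g : Ω → ℕ → Ω) : Set (XX k g → ℝ) :=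
  {f | (∀ y : YY k g, Tendsto (fun z => f (XX.mk z)) (nh y) (𝓝 (f (XX.mk y)))) ∧
    ∃ d : Ω, ∀ (y : YY k g) (r : Ω), Rk g y.1 r → d ≤ r → f (XX.mk y) = f XX.oo}

/-- the initial topology of the functions in `FF k g` -/
instance instTopXX (k : ℕ → Ω) (g : Ω → ℕ → Ω) : TopologicalSpace (XX k g) :=
  TopologicalSpace.induced (fun (x : XX k g) (f : FF k g) => f.1 x) Pi.topologicalSpace

/-- the finer neighbourhood filters of `YY k g ⊕ {oo}` -/
def nhX {k : ℕ → Ω} {g : Ω → ℕ → Ω} : XX k g → Filter (XX k g)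
  | some y => Filter.map XX.mk (nh y)
  | none => pure XX.oo

/-- `C_p(X)` -/
abbrev CpX (X : Type) [TopologicalSpace X] : Type := {f : X → ℝ // Continuous f}

/-- the continuous functions which are constant from rank `d` on -/
def FD {k : ℕ → Ω} {g : Ω → ℕ → Ω} (d : Ω) : Set (CpX (XX k g)) :=
  {f | ∀ (y : YY k g) (r : Ω), Rk g y.1 r → d ≤ r → f.1 (XX.mk y) = f.1 XX.oo}

/-- points of rank less than `d` (the points of finite length and the point at infinity are
included) -/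
def Xd {k : ℕ → Ω} {g : Ω → ℕ → Ω} (d : Ω) : Set (XX k g) :=
  {x | ∀ y : YY k g, x = XX.mk y → ∀ r, Rk g y.1 r → r < d}

/-- the point `x` is coded by elements of `N` -/
def InN {k : ℕ → Ω} {g : Ω → ℕ → Ω} (N : Set Ω) (x : XX k g) : Prop :=
  ∀ y : YY k g, x = XX.mk y → (∀ i, y.1 i ∈ N) ∧ ∀ r, Rk g y.1 r → r ∈ N

/-- a countable elementary set, traced by the scale -/
structure Sub (k : ℕ → Ω) (g h : Ω → ℕ → Ω) (N : Set Ω) : Prop where
  ctb : N.Countable
  bot : ∃ o ∈ N, ∀ a, o ≤ a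
  succ : ∀ a ∈ N, ∃ s ∈ N, a < s ∧ ∀ b, a < b → s ≤ b
  lad : ∀ a ∈ N, Tame a → ∀ b < a, ∃ v ∈ N, b ≤ v ∧ v < a
  kN : ∀ i, k i ∈ N
  gN : ∀ x ∈ N, ∀ i, g x i ∈ N
  traced : Traced k g h N

/-- `sN N a` is the supremum of the elements of `N` up to `a`. -/
noncomputable def sN [WellFoundedLT Ω] (N : Set Ω) (a : Ω) : Ω :=
  (wellFounded_lt : WellFounded ((· < ·) : Ω → Ω → Prop)).min {b | ∀ v ∈ N, v ≤ a → v ≤ b}
    ⟨a, fun _ _ h => h⟩

/-- `S` is small relative to `Q`: every function from `S` to `Q` is strictly bounded in `Q`. -/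
def Sm (Q : Set Ω) (S : Type) : Prop := ∀ f : S → Ω, (∀ s, f s ∈ Q) → ∃ d ∈ Q, ∀ s, f s < d

/-- basic open sets of `C_p(X) × C_p(X)` -/
def BB {X : Type} [TopologicalSpace X] {a : ℕ} (x : Fin a → X) (t : Fin a → Bool × ℚ × ℚ) :
    Set (CpX X × CpX X) :=
  {z | ∀ j, ((t j).2.1 : ℝ) < (cond (t j).1 z.1 z.2).1 (x j) ∧
    (cond (t j).1 z.1 z.2).1 (x j) < ((t j).2.2 : ℝ)}

/-- Constraints for a point, with natural number `M`, kind `κ` and parameters `lo, hi, c`.
Kinds: `none`: the point at infinity; `some (inl n)`: length `n`; `some (inr true)`: infinite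
length, with values less than `h c i` from `M` on; `some (inr false)`: infinite length, with
values at most `g c i` from `M` on. -/
def Con {k : ℕ → Ω} {g : Ω → ℕ → Ω} (h : Ω → ℕ → Ω) (M : ℕ) (κ : Option (ℕ ⊕ Bool)) (lo hi : ℕ → Ω)
    (c : Ω) : Set (XX k g) :=
  match κ with
  | none => {XX.oo}
  | some (Sum.inl n) => {x | ∃ y : YY k g, x = XX.mk y ∧ (∀ i, y.1 i < k i ↔ i < n) ∧
      ∀ i < M, i < n → lo i ≤ y.1 i ∧ y.1 i < hi i}
  | some (Sum.inr true) => {x | ∃ y : YY k g, x = XX.mk y ∧ (∀ i, y.1 i < k i) ∧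
      (∀ i < M, lo i ≤ y.1 i ∧ y.1 i < hi i) ∧ ∀ i, M ≤ i → y.1 i < h c i}
  | some (Sum.inr false) => {x | ∃ y : YY k g, x = XX.mk y ∧ (∀ i, y.1 i < k i) ∧
      (∀ i < M, lo i ≤ y.1 i ∧ y.1 i < hi i) ∧ ∀ i, M ≤ i → y.1 i ≤ g c i}

end Defs

end Pool.Agent.H58C
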