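import Pool.Agent.Lib.H58C.ZDefs

/-!
# Z01: the order of the elements of `Ω`
-/

set_option autoImplicit false

open Set Filter

namespace Pool.Agent.H58C

open Pool.Agent.H5Z Pool.Agent.H30C

/-- Proof: the first half of the proof of `Pool.Agent.H30C.exists_order` (file H30C/ZOm.lean), with the fields
`irr`, `trans`, `tri`, `wf` of `IsScaleIn`. -/
theorem exists_order' {w Ω L k g h : ZFSet.{0}} (S : IsScaleIn EZ w Ω L k g h) :
    ∃ i : LinearOrder (Elt Ω), (∀ x y : Elt Ω, i.lt x y ↔ Rel EZ x.1 y.1 L) ∧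
      @WellFoundedLT (Elt Ω) i.toLT := by
  classical
  let r : Elt Ω → Elt Ω → Prop := fun x y => Rel EZ x.1 y.1 L
  have : IsStrictTotalOrder (Elt Ω) r :=
    { irrefl := fun x => S.irr x.1 x.2
      trans := fun x y z => S.trans x.1 x.2 y.1 y.2 z.1 z.2
      trichotomous := fun x y h1 h2 => by
        by_contra hne
        rcases S.tri x.1 x.2 y.1 y.2 (fun he => hne (Subtype.ext he)) with h3 | h3
        · exact h1 h3
        · exact h2 h3 }
  let i : LinearOrder (Elt Ω) := linearOrderOfSTO r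
  have hlt : ∀ x y : Elt Ω, i.lt x y ↔ Rel EZ x.1 y.1 L := fun x y => Iff.rfl
  refine ⟨i, hlt, ?_⟩
  have hwf : WellFounded r := by
    rw [WellFounded.wellFounded_iff_has_min]
    rintro s ⟨x, hx⟩
    obtain ⟨y, hy, hyA, hmin⟩ := S.wf (ZFSet.sep (fun z => ∃ hz : z ∈ Ω, (⟨z, hz⟩ : Elt Ω) ∈ s) Ω)
      x.1 x.2 (ZFSet.mem_sep.2 ⟨x.2, x.2, hx⟩)
    obtain ⟨-, hy1, hy2⟩ := ZFSet.mem_sep.1 hyA
    refine ⟨⟨y, hy⟩, hy2, fun z hz hzy => ?_⟩
    exact hmin z.1 z.2 (ZFSet.mem_sep.2 ⟨z.2, z.2, hz⟩) hzy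
  exact ⟨hwf⟩

end Pool.Agent.H58C
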