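import Pool.Agent.Lib.H58C.ZDefs

/-!
# Z02: the functions `K`, `G`, `H`
-/

set_option autoImplicit false

open Set Filter

namespace Pool.Agent.H58C

open Pool.Agent.H5Z Pool.Agent.H30C

/-- Proof. `K n` is the element given by `S.kfun (zn n)` (`zn n ∈ w` by `isOmega_iff`), with the uniqueness
clause; `G x n`, `H x n` from `S.gfun`, `S.hfun`. Use `choose`. -/
theorem exists_zDat {w Ω L k g h : ZFSet.{0}} (hw : IsOmega EZ w) (S : IsScaleIn EZ w Ω L k g h)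
    [LinearOrder (Elt Ω)] (hlt : ∀ x y : Elt Ω, x < y ↔ Rel EZ x.1 y.1 L) :
    ∃ (K : ℕ → Elt Ω) (G H : Elt Ω → ℕ → Elt Ω), ZDat w Ω L k g h K G H := by
  have hz : ∀ n : ℕ, EZ (zn n) w := fun n => (isOmega_iff w hw _).2 ⟨n, rfl⟩
  have hK : ∀ n : ℕ, ∃ y : Elt Ω, ∀ x : Elt Ω, Rel EZ (zn n) x.1 k ↔ x = y := by
    intro n
    obtain ⟨x, hx, h1, h2⟩ := S.kfun (zn n) (hz n)
    refine ⟨⟨x, hx⟩, fun y => ⟨fun h3 => Subtype.ext (h2 y.1 y.2 h3), fun h3 => ?_⟩⟩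
    rw [h3]
    exact h1
  have hG : ∀ (x : Elt Ω) (n : ℕ), ∃ y : Elt Ω, ∀ a : Elt Ω, Rel3 EZ x.1 (zn n) a.1 g ↔ a = y := by
    intro x n
    obtain ⟨a, ha, h1, h2⟩ := S.gfun x.1 x.2 (zn n) (hz n)
    refine ⟨⟨a, ha⟩, fun y => ⟨fun h3 => Subtype.ext (h2 y.1 y.2 h3), fun h3 => ?_⟩⟩
    rw [h3]
    exact h1
  have hH : ∀ (x : Elt Ω) (n : ℕ), ∃ y : Elt Ω, ∀ a : Elt Ω, Rel3 EZ x.1 (zn n) a.1 h ↔ a = y := by
    intro x n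
    obtain ⟨a, ha, h1, h2⟩ := S.hfun x.1 x.2 (zn n) (hz n)
    refine ⟨⟨a, ha⟩, fun y => ⟨fun h3 => Subtype.ext (h2 y.1 y.2 h3), fun h3 => ?_⟩⟩
    rw [h3]
    exact h1
  choose K hK using hK
  choose G hG using hG
  choose H hH using hH
  exact ⟨K, G, H, hw, S, hlt, hK, hG, hH⟩

end Pool.Agent.H58C
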