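import Pool.Agent.Lib.H58C.ZDefs

/-!
# Z03: graphs as sets
-/

set_option autoImplicit false

open Set Filter

namespace Pool.Agent.H58C

open Pool.Agent.H5Z Pool.Agent.H30C

/-- Proof: `A1b_pair`, `rel_iff`. -/
theorem rel3_iff (x i a r : ZFSet.{0}) :
    Rel3 EZ x i a r ↔ ZFSet.pair (ZFSet.pair x i) a ∈ r := by
  constructor
  · rintro ⟨p, hp, hr⟩
    rw [A1b_pair] at hp
    rw [relZ_iff] at hr
    rw [← hp]
    exact hr
  · intro h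
    exact ⟨ZFSet.pair x i, (A1b_pair _ _ _).mpr rfl, (relZ_iff _ _ _).mpr h⟩

/-- Proof: `A1b_pair`, `rel3_iff`. -/
theorem rel4_iff (n x y z r : ZFSet.{0}) :
    Rel4 EZ n x y z r ↔ ZFSet.pair (ZFSet.pair (ZFSet.pair n x) y) z ∈ r := by
  constructor
  · rintro ⟨p, hp, hr⟩
    rw [A1b_pair] at hp
    rw [rel3_iff] at hr
    rw [← hp]
    exact hr
  · intro h
    exact ⟨ZFSet.pair n x, (A1b_pair _ _ _).mpr rfl, (rel3_iff _ _ _ _).mpr h⟩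

/-- Proof: `relZ_iff`, `pair_pairSep`, `Subtype.ext`. -/
theorem rel_fset {Ω : ZFSet.{0}} (f : Elt Ω → Elt Ω) (x y : Elt Ω) :
    Rel EZ x.1 y.1 (fset f) ↔ y = f x := by
  rw [relZ_iff, fset, pair_pairSep]
  constructor
  · rintro ⟨-, -, z, hz, hy⟩
    have h1 : x = z := Subtype.ext hz
    rw [h1]
    exact Subtype.ext hy
  · intro h
    exact ⟨x.2, y.2, x, rfl, by rw [h]⟩

/-- Proof: `relZ_iff`, `pair_pairSep`, `zn_inj`, `isOmega_iff`. -/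
theorem rel_sset {Ω w : ZFSet.{0}} (hw : IsOmega EZ w) (f : ℕ → Elt Ω) (n : ℕ) (y : Elt Ω) :
    Rel EZ (zn n) y.1 (sset w f) ↔ y = f n := by
  rw [relZ_iff, sset, pair_pairSep]
  constructor
  · rintro ⟨-, -, m, hm, hy⟩
    rw [zn_inj hm]
    exact Subtype.ext hy
  · intro h
    exact ⟨(isOmega_iff w hw _).2 ⟨n, rfl⟩, y.2, n, rfl, by rw [h]⟩

/-- Proof: `rel4_iff`, `ZFSet.mem_sep`, `ZFSet.pair_mem_prod`, `ZFSet.pair_injective`, `zn_inj`,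
`isOmega_iff`. -/
theorem rel_Fset {Ω w : ZFSet.{0}} (hw : IsOmega EZ w) (F : ℕ → Elt Ω → Elt Ω → Elt Ω) (n : ℕ)
    (x y z : Elt Ω) : Rel4 EZ (zn n) x.1 y.1 z.1 (Fset w F) ↔ z = F n x y := by
  rw [rel4_iff, Fset, ZFSet.mem_sep]
  constructor
  · rintro ⟨-, m, x', y', h⟩
    obtain ⟨h1, h2⟩ := ZFSet.pair_injective h
    obtain ⟨h3, h4⟩ := ZFSet.pair_injective h1
    obtain ⟨h5, h6⟩ := ZFSet.pair_injective h3
    have e1 : n = m := zn_inj h5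
    have e2 : x = x' := Subtype.ext h6
    have e3 : y = y' := Subtype.ext h4
    rw [e1, e2, e3]
    exact Subtype.ext h2
  · intro h
    refine ⟨?_, n, x, y, by rw [h]⟩
    rw [ZFSet.pair_mem_prod, ZFSet.pair_mem_prod, ZFSet.pair_mem_prod]
    exact ⟨⟨⟨(isOmega_iff w hw _).2 ⟨n, rfl⟩, x.2⟩, y.2⟩, z.2⟩

end Pool.Agent.H58C
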