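import Pool.Agent.Lib.H58C.Z03

/-!
# Z04: `Hit`
-/

set_option autoImplicit false

open Set Filter

namespace Pool.Agent.H58C

open Pool.Agent.H5Z Pool.Agent.H30C

variable {w Ω L k g h : ZFSet.{0}} [LinearOrder (Elt Ω)] {K : ℕ → Elt Ω} {G H : Elt Ω → ℕ → Elt Ω}

theorem ZDat.mem_om (Z : ZDat w Ω L k g h K G H) (n : ℕ) : zn n ∈ w := by
  exact (isOmega_iff w Z.om _).2 ⟨n, rfl⟩

/-- Proof: unfold `Hit`, `Z.lt`, `rel_fset`. -/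
theorem ZDat.hit_fset (Z : ZDat w Ω L k g h K G H) (f : Elt Ω → Elt Ω) (x c : Elt Ω) :
    Hit EZ Ω L (fset f) x.1 c.1 ↔ f x < c := by
  constructor
  · rintro ⟨y, hy, h1, h2⟩
    have h3 : (⟨y, hy⟩ : Elt Ω) = f x := (rel_fset f x ⟨y, hy⟩).1 h2
    exact h3 ▸ (Z.lt ⟨y, hy⟩ c).2 h1
  · intro h
    exact ⟨(f x).1, (f x).2, (Z.lt _ _).1 h, (rel_fset f x (f x)).2 rfl⟩

/-- Proof: unfold `Hit`, `Z.lt`, `rel_sset`. -/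
theorem ZDat.hit_sset (Z : ZDat w Ω L k g h K G H) (f : ℕ → Elt Ω) (n : ℕ) (c : Elt Ω) :
    Hit EZ Ω L (sset w f) (zn n) c.1 ↔ f n < c := by
  constructor
  · rintro ⟨y, hy, h1, h2⟩
    have h3 : (⟨y, hy⟩ : Elt Ω) = f n := (rel_sset Z.om f n ⟨y, hy⟩).1 h2
    exact h3 ▸ (Z.lt ⟨y, hy⟩ c).2 h1
  · intro h
    exact ⟨(f n).1, (f n).2, (Z.lt _ _).1 h, (rel_sset Z.om f n (f n)).2 rfl⟩

end Pool.Agent.H58C
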