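import Pool.Agent.Lib.H58C.Z04

/-!
# Z05: the fields `kmono`, `reg`, `bddN`
-/

set_option autoImplicit false

open Set Filter

namespace Pool.Agent.H58C

open Pool.Agent.H5Z Pool.Agent.H30C

variable {w Ω L k g h : ZFSet.{0}} [LinearOrder (Elt Ω)] {K : ℕ → Elt Ω} {G H : Elt Ω → ℕ → Elt Ω}

/-- Proof: `Z.sc.kmono` with `zn_mem_iff`. -/
theorem ZDat.kmono (Z : ZDat w Ω L k g h K G H) : StrictMono K := by
  intro m n hmn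
  exact (Z.lt _ _).2 (Z.sc.kmono (zn m) (Z.mem_om m) (zn n) (Z.mem_om n) ((zn_mem_iff m n).2 hmn) (K m).1 (K m).2
    (K n).1 (K n).2 ((Z.K_rel m (K m)).2 rfl) ((Z.K_rel n (K n)).2 rfl))

/-- Proof: `Z.sc.reg (fset f) a.1` and `Z.hit_fset`. -/
theorem ZDat.reg (Z : ZDat w Ω L k g h K G H) (a : Elt Ω) (f : Elt Ω → Elt Ω) :
    ∃ d, ∀ x < a, f x < d := by
  obtain ⟨d, hd, hh⟩ := Z.sc.reg (fset f) a.1 a.2 (fun x hx _ =>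
    ⟨(f ⟨x, hx⟩).1, (f ⟨x, hx⟩).2, (rel_fset f ⟨x, hx⟩ (f ⟨x, hx⟩)).2 rfl⟩)
  exact ⟨⟨d, hd⟩, fun x hx => (Z.hit_fset f x ⟨d, hd⟩).1 (hh x.1 x.2 ((Z.lt x a).1 hx))⟩

/-- Proof: `Z.sc.bddN (sset w f) (zn i)` with `c = (K i).1` and `Z.hit_sset`. -/
theorem ZDat.bddN (Z : ZDat w Ω L k g h K G H) (i : ℕ) (f : ℕ → Elt Ω) (hf : ∀ n, f n < K i) :
    ∃ d < K i, ∀ n, f n < d := by
  obtain ⟨d, hd, hdk, hh⟩ := Z.sc.bddN (sset w f) (zn i) (Z.mem_om i) (K i).1 (K i).2 ((Z.K_rel i (K i)).2 rfl)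
    (fun n hn => by
      obtain ⟨m, rfl⟩ := (isOmega_iff w Z.om n).1 hn
      exact (Z.hit_sset f m (K i)).2 (hf m))
  exact ⟨⟨d, hd⟩, (Z.lt _ _).2 hdk, fun n => (Z.hit_sset f n ⟨d, hd⟩).1 (hh (zn n) (Z.mem_om n))⟩

end Pool.Agent.H58C
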