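import Pool.Agent.Lib.H58C.Z04

/-!
# Z06: the fields `bdd`, `gk`, `inc`
-/

set_option autoImplicit false

open Set Filter

namespace Pool.Agent.H58C

open Pool.Agent.H5Z Pool.Agent.H30C

variable {w Ω L k g h : ZFSet.{0}} [LinearOrder (Elt Ω)] {K : ℕ → Elt Ω} {G H : Elt Ω → ℕ → Elt Ω}

/-- Proof: `Z.sc.bdd (fset f) (zn m) (zn i)` with `b = (K m).1`, `c = (K i).1`. -/
theorem ZDat.bdd (Z : ZDat w Ω L k g h K G H) (m i : ℕ) (hmi : m < i) (f : Elt Ω → Elt Ω)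
    (hf : ∀ x < K m, f x < K i) : ∃ d < K i, ∀ x < K m, f x < d := by
  have h1 : EZ (zn m) (zn i) := (zn_mem_iff m i).2 hmi
  obtain ⟨d, hd, h2, h3⟩ := Z.sc.bdd (fset f) (zn m) (Z.mem_om m) (zn i) (Z.mem_om i) h1 (K m).1 (K m).2 (K i).1 (K i).2
    ((Z.K_rel m (K m)).2 rfl) ((Z.K_rel i (K i)).2 rfl) (fun x hx hxb => by
      have h4 := (Z.lt ⟨x, hx⟩ (K m)).2 hxb
      exact (Z.hit_fset f ⟨x, hx⟩ (K i)).2 (hf _ h4))
  refine ⟨⟨d, hd⟩, (Z.lt ⟨d, hd⟩ (K i)).2 h2, fun x hx => ?_⟩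
  exact (Z.hit_fset f x ⟨d, hd⟩).1 (h3 x.1 x.2 ((Z.lt x (K m)).1 hx))

theorem ZDat.gk (Z : ZDat w Ω L k g h K G H) (x : Elt Ω) (i : ℕ) : G x i < K i := by
  rw [Z.lt]
  exact Z.sc.gk x.1 x.2 (zn i) (Z.mem_om i) (G x i).1 (G x i).2 (K i).1 (K i).2 ((Z.G_rel x i _).2 rfl)
    ((Z.K_rel i _).2 rfl)

/-- Proof: `Z.sc.inc`; the natural number `n` there is some `zn m`, and `¬ zn i ∈ zn m` for `m ≤ i`
(`zn_mem_iff`); `Filter.eventually_atTop`. -/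
theorem ZDat.inc (Z : ZDat w Ω L k g h K G H) (x y : Elt Ω) (hxy : x < y) :
    ∀ᶠ i in atTop, G x i < G y i := by
  obtain ⟨n, hn, h1⟩ := Z.sc.inc x.1 x.2 y.1 y.2 ((Z.lt x y).1 hxy)
  obtain ⟨m, rfl⟩ := (isOmega_iff w Z.om n).1 hn
  filter_upwards [eventually_ge_atTop m] with i hi
  rw [Z.lt]
  have h2 : ¬ EZ (zn i) (zn m) := fun h => by
    have := (zn_mem_iff i m).1 h
    omega
  exact h1 (zn i) (Z.mem_om i) h2 (G x i).1 (G x i).2 (G y i).1 (G y i).2 ((Z.G_rel x i _).2 rfl)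
    ((Z.G_rel y i _).2 rfl)

end Pool.Agent.H58C
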