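import Pool.Agent.Lib.H58C.Z04

/-!
# Z07: the field `dom`
-/

set_option autoImplicit false

open Set Filter

namespace Pool.Agent.H58C

open Pool.Agent.H5Z Pool.Agent.H30C

variable {w Ω L k g h : ZFSet.{0}} [LinearOrder (Elt Ω)] {K : ℕ → Elt Ω} {G H : Elt Ω → ℕ → Elt Ω}

/-- Proof: `Z.sc.dom (sset w f)`, `Z.hit_sset`, `rel_sset`, `Z.G_rel`; every element of `w` is some `zn i`
(`isOmega_iff`). -/
theorem ZDat.dom (Z : ZDat w Ω L k g h K G H) (f : ℕ → Elt Ω) (hf : ∀ i, f i < K i) :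
    ∃ x, ∀ᶠ i in atTop, f i ≤ G x i := by
  obtain ⟨x, hx, n, hn, h1⟩ := Z.sc.dom (sset w f) (fun i hi c hc hic => by
    obtain ⟨j, rfl⟩ := (isOmega_iff w Z.om i).1 hi
    have h2 : (⟨c, hc⟩ : Elt Ω) = K j := (Z.K_rel j ⟨c, hc⟩).1 hic
    have h3 := (Z.hit_sset f j ⟨c, hc⟩).2 (by rw [h2]; exact hf j)
    exact h3)
  obtain ⟨m, rfl⟩ := (isOmega_iff w Z.om n).1 hn
  refine ⟨⟨x, hx⟩, ?_⟩
  filter_upwards [eventually_ge_atTop m] with i hi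
  have h2 : ¬ EZ (zn i) (zn m) := fun h => by
    have := (zn_mem_iff i m).1 h
    omega
  obtain ⟨a, ha, h3, h4⟩ := h1 (zn i) (Z.mem_om i) h2 (G ⟨x, hx⟩ i).1 (G ⟨x, hx⟩ i).2
    ((Z.G_rel ⟨x, hx⟩ i _).2 rfl)
  have h5 : (⟨a, ha⟩ : Elt Ω) = f i := (rel_sset Z.om f i ⟨a, ha⟩).1 h4
  have h6 := fun h => h3 ((Z.lt (G ⟨x, hx⟩ i) ⟨a, ha⟩).1 h)
  rw [h5] at h6
  exact not_lt.1 h6

end Pool.Agent.H58C
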