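import Pool.Agent.Lib.H58C.Z04

/-!
# Z08: `TailIn`
-/

set_option autoImplicit false

open Set Filter

namespace Pool.Agent.H58C

open Pool.Agent.H5Z Pool.Agent.H30C

variable {w Ω L k g h : ZFSet.{0}} [LinearOrder (Elt Ω)] {K : ℕ → Elt Ω} {G H : Elt Ω → ℕ → Elt Ω}

/-- Proof. The `n` of `TailIn` is some `zn m`; for `i ≥ m` apply it to `zn i`, `a = (G r i).1`, `b = (G x i).1`,
`c = (b i).1`. -/
theorem ZDat.tail (Z : ZDat w Ω L k g h K G H) {N : ZFSet.{0}} {r x : Elt Ω}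
    {V : ZFSet.{0} → ZFSet.{0} → Prop} {b : ℕ → Elt Ω} (hV : ∀ i, V (zn i) (b i).1)
    (hT : TailIn EZ w Ω L g N r.1 x.1 V) : Tail G {v : Elt Ω | v.1 ∈ N} r x b := by
  obtain ⟨n, hn, hT⟩ := hT
  obtain ⟨m, rfl⟩ := (isOmega_iff w Z.om n).1 hn
  refine eventually_atTop.2 ⟨m, fun i hi => ?_⟩
  have hiw : zn i ∈ w := (isOmega_iff w Z.om _).2 ⟨i, rfl⟩
  have him : ¬ zn i ∈ zn m := by
    rw [zn_mem_iff]; exact not_lt.2 hi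
  obtain ⟨h1, h2, h3, h4⟩ := hT (zn i) hiw him (G r i).1 (G r i).2 (G x i).1 (G x i).2 (b i).1 (b i).2
    ((Z.G_rel r i (G r i)).2 rfl) ((Z.G_rel x i (G x i)).2 rfl) (hV i)
  refine ⟨?_, ?_, ?_, ?_⟩
  · rw [← Z.lt] at h1
    exact not_lt.1 h1
  · exact (Z.lt _ _).2 h2
  · intro v hv hvb
    exact (Z.lt _ _).2 (h3 v.1 v.2 hv ((Z.lt _ _).1 hvb))
  · intro z hz
    obtain ⟨v, hv, hvN, h5, h6⟩ := h4 z.1 z.2 ((Z.lt _ _).1 hz)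
    exact ⟨⟨v, hv⟩, hvN, (Z.lt z ⟨v, hv⟩).2 h5, (Z.lt ⟨v, hv⟩ _).2 h6⟩

end Pool.Agent.H58C
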