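import Pool.Agent.Lib.H58C.Z08

/-!
# Z09: the field `guess`
-/

set_option autoImplicit false

open Set Filter

namespace Pool.Agent.H58C

open Pool.Agent.H5Z Pool.Agent.H30C

variable {w Ω L k g h : ZFSet.{0}} [LinearOrder (Elt Ω)] {K : ℕ → Elt Ω} {G H : Elt Ω → ℕ → Elt Ω}

/-- Proof. Apply `Z.sc.guess` to `Fset w F`; the set is `{v | v.1 ∈ N}`. Countable: covered by the sets
`{v | Rel EZ (zn n) v.1 e}`, subsingletons by `IsFuncIn` (compare H30C/ZOm.lean, `Set.Subsingleton.countable`).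
Closed: the `z` with `Rel4 ... z (Fset w F)` is `F n x y` (`rel_Fset`). `Traced`: `Z.tail` with `b = K`
(`Z.K_rel`) or `b = H c` (`Z.H_rel`), and `Z.lt`. -/
theorem ZDat.guess (Z : ZDat w Ω L k g h K G H) (F : ℕ → Elt Ω → Elt Ω → Elt Ω) :
    ∃ N : Set (Elt Ω), N.Nonempty ∧ N.Countable ∧
      (∀ n, ∀ x ∈ N, ∀ y ∈ N, F n x y ∈ N) ∧ Traced K G H N := by
  have hmem := isOmega_iff w Z.om
  obtain ⟨N, e, ⟨x0, hx0, hx0N⟩, ⟨hfun, hcov⟩, hcl, htr⟩ := Z.sc.guess (Fset w F) (by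
    intro n hn x hx y hy
    obtain ⟨m, rfl⟩ := (hmem n).1 hn
    exact ⟨(F m ⟨x, hx⟩ ⟨y, hy⟩).1, (F m ⟨x, hx⟩ ⟨y, hy⟩).2,
      (rel_Fset Z.om F m ⟨x, hx⟩ ⟨y, hy⟩ _).2 rfl⟩)
  refine ⟨{v | v.1 ∈ N}, ⟨⟨x0, hx0⟩, hx0N⟩, ?_, ?_, ?_⟩
  · have h2 : {v : Elt Ω | v.1 ∈ N} ⊆ ⋃ n : ℕ, {v : Elt Ω | Rel EZ (zn n) v.1 e} := by
      intro v hv
      obtain ⟨n, hn, hr⟩ := hcov v.1 v.2 hv
      obtain ⟨m, rfl⟩ := (hmem n).1 hn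
      exact mem_iUnion.2 ⟨m, hr⟩
    refine Set.Countable.mono h2 (Set.countable_iUnion fun n => ?_)
    refine Set.Subsingleton.countable fun y hy z hz => ?_
    exact Subtype.ext (hfun (zn n) ((hmem _).2 ⟨n, rfl⟩) y.1 y.2 z.1 z.2 hy hz)
  · intro n x hx y hy
    obtain ⟨z, hz, hzN, hr⟩ := hcl (zn n) ((hmem _).2 ⟨n, rfl⟩) x.1 x.2 y.1 y.2 hx hy
    have he : (⟨z, hz⟩ : Elt Ω) = F n x y := (rel_Fset Z.om F n x y ⟨z, hz⟩).1 hr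
    rw [← he]
    exact hzN
  · intro x hx
    obtain ⟨r, hr, hrx, hor⟩ := htr x.1 x.2 hx
    refine ⟨⟨r, hr⟩, not_lt.1 fun hlt => hrx ((Z.lt x ⟨r, hr⟩).1 hlt), ?_⟩
    rcases hor with ⟨h1, h2⟩ | ⟨c, hc, hcN, hxc, h1, h2⟩
    · exact Or.inl ⟨fun v hv => (Z.lt v ⟨r, hr⟩).2 (h1 v.1 v.2 hv),
        Z.tail (r := ⟨r, hr⟩) (x := x) (b := K) (fun i => (Z.K_rel i (K i)).2 rfl) h2⟩
    · exact Or.inr ⟨⟨c, hc⟩, hcN, (Z.lt x ⟨c, hc⟩).2 hxc,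
        fun v hv hvc => (Z.lt v ⟨r, hr⟩).2 (h1 v.1 v.2 hv ((Z.lt v ⟨c, hc⟩).1 hvc)),
        Z.tail (r := ⟨r, hr⟩) (x := x) (b := H ⟨c, hc⟩)
          (fun i => (Z.H_rel ⟨c, hc⟩ i (H ⟨c, hc⟩ i)).2 rfl) h2⟩

end Pool.Agent.H58C
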