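import Pool.Agent.Lib.H58C.Scale

/-!
# Z10: the principle is invariant under order isomorphisms
-/

set_option autoImplicit false

open Set Filter

namespace Pool.Agent.H58C

universe u v

/-- Proof: transport every field with `e.lt_iff_lt`, `e.apply_symm_apply`, `e.symm_apply_apply`. In `guess` apply the
property of `Ω` to `fun n x y => e.symm (F n (e x) (e y))` and take the image of the set under `e` (the set of
all `v` with `e.symm v ∈ N`). -/
theorem Scale.of_orderIso {Ω : Type u} {Ω' : Type v} [LinearOrder Ω] [LinearOrder Ω'] (e : Ω ≃o Ω')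
    {k : ℕ → Ω} {g h : Ω → ℕ → Ω} (S : Scale k g h) :
    Scale (fun i => e (k i)) (fun x i => e (g (e.symm x) i)) (fun x i => e (h (e.symm x) i)) := by
  have hev : ∀ (N : Set Ω) (r x : Ω) (b : ℕ → Ω), Tail g N r x b →
      Tail (fun x i => e (g (e.symm x) i)) (e.symm ⁻¹' N) (e r) (e x) (fun i => e (b i)) := by
    intro N r x b h
    unfold Tail at h ⊢
    filter_upwards [h] with i hi
    obtain ⟨h1, h2, h3, h4⟩ := hi
    simp only [OrderIso.symm_apply_apply]
    refine ⟨e.monotone h1, e.lt_iff_lt.2 h2, ?_, ?_⟩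
    · intro v hv hvb
      have h5 : e.symm v < b i := by rw [← e.lt_iff_lt, e.apply_symm_apply]; exact hvb
      have h6 := h3 (e.symm v) hv h5
      rw [← e.lt_iff_lt, e.apply_symm_apply] at h6
      exact h6
    · intro z hz
      have h5 : e.symm z < g r i := by rw [← e.lt_iff_lt, e.apply_symm_apply]; exact hz
      obtain ⟨v, hv, h6, h7⟩ := h4 _ h5
      refine ⟨e v, ?_, ?_, e.lt_iff_lt.2 h7⟩
      · show e.symm (e v) ∈ N
        rw [e.symm_apply_apply]
        exact hv
      · rw [← e.lt_iff_lt, e.apply_symm_apply] at h6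
        exact h6
  refine ⟨?_, ?_, ?_, ?_, ?_, ?_, ?_, ?_⟩
  · intro i j hij
    exact e.lt_iff_lt.2 (S.kmono hij)
  · intro a f
    obtain ⟨d, hd⟩ := S.reg (e.symm a) (fun x => e.symm (f (e x)))
    refine ⟨e d, fun x hx => ?_⟩
    have h1 := hd (e.symm x) (e.symm.lt_iff_lt.2 hx)
    rw [e.apply_symm_apply, ← e.lt_iff_lt, e.apply_symm_apply] at h1
    exact h1
  · intro i f hf
    obtain ⟨d, hd, h⟩ := S.bddN i (fun n => e.symm (f n)) (fun n => by
      rw [← e.lt_iff_lt, e.apply_symm_apply]; exact hf n)
    refine ⟨e d, e.lt_iff_lt.2 hd, fun n => ?_⟩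
    have h1 := h n
    rw [← e.lt_iff_lt, e.apply_symm_apply] at h1
    exact h1
  · intro m i hmi f hf
    obtain ⟨d, hd, h⟩ := S.bdd m i hmi (fun x => e.symm (f (e x))) (fun x hx => by
      rw [← e.lt_iff_lt, e.apply_symm_apply]; exact hf _ (e.lt_iff_lt.2 hx))
    refine ⟨e d, e.lt_iff_lt.2 hd, fun x hx => ?_⟩
    have h0 : e.symm x < k m := by rw [← e.lt_iff_lt, e.apply_symm_apply]; exact hx
    have h1 := h (e.symm x) h0
    rw [e.apply_symm_apply, ← e.lt_iff_lt, e.apply_symm_apply] at h1
    exact h1
  · intro x i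
    exact e.lt_iff_lt.2 (S.gk _ i)
  · intro x y hxy
    filter_upwards [S.inc _ _ (e.symm.lt_iff_lt.2 hxy)] with i hi
    exact e.lt_iff_lt.2 hi
  · intro f hf
    obtain ⟨x, hx⟩ := S.dom (fun i => e.symm (f i)) (fun i => by
      rw [← e.lt_iff_lt, e.apply_symm_apply]; exact hf i)
    refine ⟨e x, ?_⟩
    filter_upwards [hx] with i hi
    rw [e.symm_apply_apply]
    have h1 := e.monotone hi
    rw [e.apply_symm_apply] at h1
    exact h1
  · intro F
    obtain ⟨N, hN1, hN2, hN3, hN4⟩ := S.guess (fun n x y => e.symm (F n (e x) (e y)))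
    refine ⟨e.symm ⁻¹' N, ?_, ?_, ?_, ?_⟩
    · obtain ⟨x, hx⟩ := hN1
      refine ⟨e x, ?_⟩
      show e.symm (e x) ∈ N
      rw [e.symm_apply_apply]
      exact hx
    · exact hN2.preimage e.symm.injective
    · intro n x hx y hy
      have h1 := hN3 n _ hx _ hy
      show e.symm (F n x y) ∈ N
      rw [e.apply_symm_apply, e.apply_symm_apply] at h1
      exact h1
    · intro x hx
      obtain ⟨r, hr, hh⟩ := hN4 (e.symm x) hx
      refine ⟨e r, ?_, ?_⟩
      · have h1 := e.monotone hr
        rw [e.apply_symm_apply] at h1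
        exact h1
      · rcases hh with ⟨h1, h2⟩ | ⟨c, hc, hxc, h1, h2⟩
        · left
          refine ⟨fun v hv => ?_, ?_⟩
          · have h3 := h1 (e.symm v) hv
            rw [← e.lt_iff_lt, e.apply_symm_apply] at h3
            exact h3
          · have h3 := hev N r (e.symm x) k h2
            rw [e.apply_symm_apply] at h3
            exact h3
        · right
          refine ⟨e c, ?_, ?_, ?_, ?_⟩
          · show e.symm (e c) ∈ N
            rw [e.symm_apply_apply]
            exact hc
          · rw [← e.lt_iff_lt, e.apply_symm_apply] at hxc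
            exact hxc
          · intro v hv hvc
            have h4 : e.symm v < c := by rw [← e.lt_iff_lt, e.apply_symm_apply]; exact hvc
            have h3 := h1 (e.symm v) hv h4
            rw [← e.lt_iff_lt, e.apply_symm_apply] at h3
            exact h3
          · have h3 := hev N r (e.symm x) (h c) h2
            rw [e.apply_symm_apply] at h3
            show Tail _ _ _ _ (fun i => e (h (e.symm (e c)) i))
            rw [e.symm_apply_apply]
            exact h3

end Pool.Agent.H58C
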