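import Pool.Agent.Lib.H58C.Z01
import Pool.Agent.Lib.H58C.Z02
import Pool.Agent.Lib.H58C.Z05
import Pool.Agent.Lib.H58C.Z06
import Pool.Agent.Lib.H58C.Z07
import Pool.Agent.Lib.H58C.Z09
import Pool.Agent.Lib.H58C.Z10

/-!
# Z11: from the first-order form in the universe of sets to a scale in `Type`
-/

set_option autoImplicit false

open Set Filter

namespace Pool.Agent.H58C

open Pool.Agent.H5Z Pool.Agent.H30C

/-- The elements of a set form a small type. -/
theorem small_elt (Ω : ZFSet.{0}) : Small.{0} (Elt Ω) :=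
  ZFSet.small_coe Ω

/-- A linear order on a small type has a copy in `Type`. Proof: `Shrink`, `LinearOrder.lift'`. -/
theorem exists_orderIso_type (α : Type 1) [LinearOrder α] (hs : Small.{0} α) :
    ∃ (β : Type) (_ : LinearOrder β), Nonempty (α ≃o β) := by
  let e : α ≃ Shrink.{0} α := equivShrink α
  let i : LinearOrder (Shrink.{0} α) := LinearOrder.lift' e.symm e.symm.injective
  refine ⟨Shrink.{0} α, i, ⟨⟨e, ?_⟩⟩⟩
  intro a b
  show e.symm (e a) ≤ e.symm (e b) ↔ a ≤ b
  rw [e.symm_apply_apply, e.symm_apply_apply]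

/-- Proof. `exists_order'`, `exists_zDat`; the fields of `Scale K G H` are `Z.kmono`, `Z.reg`, `Z.bddN`, `Z.bdd`,
`Z.gk`, `Z.inc`, `Z.dom`, `Z.guess`. Then `small_elt`, `exists_orderIso_type`, `Scale.of_orderIso`; the copy
is well-founded (`InvImage`, or `OrderIso.wellFoundedLT`, `StrictMono.wellFoundedLT`). -/
theorem scale_of_in (h : ScaleIn EZ) :
    ∃ (Ω : Type) (_ : LinearOrder Ω) (_ : WellFoundedLT Ω) (k : ℕ → Ω) (g h : Ω → ℕ → Ω),
      Scale k g h := by
  obtain ⟨w, Ω, L, k, g, h, hw, S⟩ := h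
  obtain ⟨i, hlt, hwf⟩ := exists_order' S
  obtain ⟨K, G, H, Z⟩ := exists_zDat hw S hlt
  have hS : Scale K G H :=
    { kmono := Z.kmono
      reg := Z.reg
      bddN := Z.bddN
      bdd := Z.bdd
      gk := Z.gk
      inc := Z.inc
      dom := Z.dom
      guess := Z.guess }
  obtain ⟨β, iβ, ⟨e⟩⟩ := exists_orderIso_type (Elt Ω) (small_elt Ω)
  exact ⟨β, iβ, (e.symm.toOrderEmbedding).wellFoundedLT, _, _, _, hS.of_orderIso e⟩

end Pool.Agent.H58C
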