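import Pool.Agent.Lib.H58C.Scale
import Pool.Agent.Lib.H58C.Sent
import Pool.Agent.Lib.H30C.ZOm

/-!
# The guessing scale principle in the universe of sets: notation (H58C, ZFSet part)

`w, Ω, L, k, g, h` are sets with `IsScaleIn EZ w Ω L k g h`; the type `Elt Ω` of the elements of `Ω` is
linearly ordered by `L`, and `K`, `G`, `H` are the functions on `Elt Ω` given by `k`, `g`, `h`.
-/

set_option autoImplicit false

open Set Filter

namespace Pool.Agent.H58C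

open Pool.Agent.H5Z Pool.Agent.H30C

/-- the data of a scale in the universe of sets, translated to the type of elements of `Ω` -/
structure ZDat (w Ω L k g h : ZFSet.{0}) [LinearOrder (Elt Ω)] (K : ℕ → Elt Ω)
    (G H : Elt Ω → ℕ → Elt Ω) : Prop where
  om : IsOmega EZ w
  sc : IsScaleIn EZ w Ω L k g h
  lt : ∀ x y : Elt Ω, x < y ↔ Rel EZ x.1 y.1 L
  K_rel : ∀ (n : ℕ) (x : Elt Ω), Rel EZ (zn n) x.1 k ↔ x = K n
  G_rel : ∀ (x : Elt Ω) (n : ℕ) (a : Elt Ω), Rel3 EZ x.1 (zn n) a.1 g ↔ a = G x n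
  H_rel : ∀ (x : Elt Ω) (n : ℕ) (a : Elt Ω), Rel3 EZ x.1 (zn n) a.1 h ↔ a = H x n

/-- the graph of a function from `Ω` to `Ω`, as a set -/
noncomputable def fset {Ω : ZFSet.{0}} (f : Elt Ω → Elt Ω) : ZFSet.{0} :=
  ZFSet.pairSep (fun a b => ∃ x : Elt Ω, a = x.1 ∧ b = (f x).1) Ω Ω

/-- the graph of a sequence of elements of `Ω`, as a set -/
noncomputable def sset {Ω : ZFSet.{0}} (w : ZFSet.{0}) (f : ℕ → Elt Ω) : ZFSet.{0} :=
  ZFSet.pairSep (fun a b => ∃ n : ℕ, a = zn n ∧ b = (f n).1) w Ω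

/-- the graph of a sequence of functions of two arguments, as a set -/
noncomputable def Fset {Ω : ZFSet.{0}} (w : ZFSet.{0}) (F : ℕ → Elt Ω → Elt Ω → Elt Ω) : ZFSet.{0} :=
  ZFSet.sep (fun t => ∃ (n : ℕ) (x y : Elt Ω),
    t = ZFSet.pair (ZFSet.pair (ZFSet.pair (zn n) x.1) y.1) (F n x y).1)
    (ZFSet.prod (ZFSet.prod (ZFSet.prod w Ω) Ω) Ω)

end Pool.Agent.H58C
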